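import Pool.Agent.RegJ.Defs

open Filter Topology Complex MeasureTheory Set Matrix
open scoped Real ENNReal ComplexOrder

namespace Pool.Agent.RegJ

variable {m n : Type*} [Fintype m] [DecidableEq m] [Fintype n] [DecidableEq n]

/-- `f` is an `m × n` Schur function: it is holomorphic in the disc and `f(z)* f(z) ≤ I`, that is
`‖f(z)‖ ≤ 1`, for all `z` in the disc. -/
def IsSchur (f : ℂ → Matrix m n ℂ) : Prop :=
  (∀ i k, DifferentiableOn ℂ (fun z => f z i k) disc) ∧
  ∀ z ∈ disc, (1 - (f z)ᴴ * f z).PosSemidef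

/-- `f` has a pseudocontinuation: there is a function of bounded type in `{|z| > 1} ∪ {∞}`, written
as `z ↦ Φ (1/z)` with `Φ` of bounded type in the disc, with the same boundary values as `f` a.e. on
the circle. -/
def HasPseudocontinuation (f : ℂ → Matrix m n ℂ) : Prop :=
  ∃ Φ : ℂ → Matrix m n ℂ, BoundedType Φ ∧
    ∀ᵐ ζ ∂circleMeasure, ∃ L, HasBdryValue f ζ L ∧ HasBdryValue Φ ζ⁻¹ L

/-- `log det (I - f f*)` is integrable on the circle, where `f` stands for the boundary function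
(and the determinant is a.e. non-zero). -/
def LogDetIntegrable (f : ℂ → Matrix m n ℂ) : Prop :=
  ∃ fb : ℂ → Matrix m n ℂ, (∀ᵐ ζ ∂circleMeasure, HasBdryValue f ζ (fb ζ)) ∧
    (∀ᵐ ζ ∂circleMeasure, (1 - fb ζ * (fb ζ)ᴴ).det ≠ 0) ∧
    Integrable (fun ζ => Real.log (1 - fb ζ * (fb ζ)ᴴ).det.re) circleMeasure

end Pool.Agent.RegJ
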