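import Pool.Agent.RegJ.Sigma

open Filter Topology Complex MeasureTheory Set Metric Polynomial
open scoped Real ENNReal

namespace Pool.Agent.RegJ

instance factTwoPi : Fact (0 < 2 * π) := ⟨Real.two_pi_pos⟩

/-- Continuous functions on the circle whose real and imaginary parts are real parts of
polynomials. -/
noncomputable def harmPoly : Submodule ℂ C(AddCircle (2 * π), ℂ) where
  carrier := {F | (∃ p : ℂ[X], ∀ x, (F x).re = (p.eval (AddCircle.toCircle x : ℂ)).re) ∧
    ∃ q : ℂ[X], ∀ x, (F x).im = (q.eval (AddCircle.toCircle x : ℂ)).re}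
  zero_mem' := ⟨⟨0, by simp⟩, ⟨0, by simp⟩⟩
  add_mem' := by
    rintro F G ⟨⟨p, hp⟩, ⟨q, hq⟩⟩ ⟨⟨p', hp'⟩, ⟨q', hq'⟩⟩
    exact ⟨⟨p + p', fun x => by simp [hp, hp']⟩, ⟨q + q', fun x => by simp [hq, hq']⟩⟩
  smul_mem' := by
    rintro c F ⟨⟨p, hp⟩, ⟨q, hq⟩⟩
    refine ⟨⟨C (c.re : ℂ) * p - C (c.im : ℂ) * q, fun x => ?_⟩,
      ⟨C (c.re : ℂ) * q + C (c.im : ℂ) * p, fun x => ?_⟩⟩
    · simp [hp, hq]
    · simp [hp, hq]

lemma fourier_mem (n : ℤ) : fourier n ∈ harmPoly := by
  obtain ⟨k, rfl | rfl⟩ := n.eq_nat_or_neg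
  · refine ⟨⟨X ^ k, fun x => ?_⟩, ⟨C (-I) * X ^ k, fun x => ?_⟩⟩
    · simp [fourier_apply, AddCircle.toCircle_nsmul]
    · simp [fourier_apply, AddCircle.toCircle_nsmul]
  · refine ⟨⟨X ^ k, fun x => ?_⟩, ⟨C I * X ^ k, fun x => ?_⟩⟩
    · rw [fourier_neg, Complex.conj_re]
      simp [fourier_apply, AddCircle.toCircle_nsmul]
    · rw [fourier_neg, Complex.conj_im]
      simp [fourier_apply, AddCircle.toCircle_nsmul]

/-- A real continuous function on the circle is uniformly close to the real part of a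
polynomial. -/
lemma approx_cont {g : ℂ → ℝ} (hg : ContinuousOn g (sphere 0 1)) {ε : ℝ} (hε : 0 < ε) :
    ∃ p : ℂ[X], ∀ ζ : ℂ, ‖ζ‖ = 1 → |g ζ - (p.eval ζ).re| ≤ ε := by
  have hc : Continuous (fun x : AddCircle (2 * π) => ((g (AddCircle.toCircle x : ℂ) : ℝ) : ℂ)) := by
    refine Complex.continuous_ofReal.comp ?_
    refine hg.comp_continuous (continuous_subtype_val.comp AddCircle.continuous_toCircle) ?_
    intro x; simp
  let F : C(AddCircle (2 * π), ℂ) := ⟨_, hc⟩
  have h1 : F ∈ (Submodule.span ℂ (range <| @fourier (2 * π))).topologicalClosure := by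
    rw [span_fourier_closure_eq_top]; trivial
  have h2 : F ∈ harmPoly.topologicalClosure := by
    refine Submodule.topologicalClosure_mono ?_ h1
    rw [Submodule.span_le]
    rintro _ ⟨n, rfl⟩
    exact fourier_mem n
  rw [← SetLike.mem_coe, Submodule.topologicalClosure_coe] at h2
  obtain ⟨G, ⟨⟨p, hp⟩, -⟩, hG⟩ := Metric.mem_closure_iff.1 h2 ε hε
  refine ⟨p, fun ζ hζ => ?_⟩
  obtain ⟨x, hx⟩ : ∃ x : AddCircle (2 * π), ((AddCircle.toCircle x : Circle) : ℂ) = ζ := by
    refine ⟨((Complex.arg ζ : ℝ) : AddCircle (2 * π)), ?_⟩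
    rw [AddCircle.toCircle_apply_mk, Circle.coe_exp]
    have h0 : ((2 * π / (2 * π) * Complex.arg ζ : ℝ) : ℂ) = Complex.arg ζ := by
      rw [div_self (by positivity), one_mul]
    rw [h0]
    have := Complex.norm_mul_exp_arg_mul_I ζ
    rwa [hζ, ofReal_one, one_mul] at this
  rw [← hx, ← hp x]
  have h3 : (F x - G x).re = g (AddCircle.toCircle x : ℂ) - (G x).re := by simp [F]
  rw [← h3]
  refine (Complex.abs_re_le_norm _).trans ?_
  refine (ContinuousMap.norm_coe_le_norm (F - G) x).trans ?_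
  rw [← dist_eq_norm]
  exact hG.le

lemma continuousOn_re_poly (p : ℂ[X]) : Continuous (fun ζ : ℂ => (p.eval ζ).re) :=
  Complex.continuous_re.comp p.continuous

/-- Real parts of polynomials are dense in `L¹(σ)`. -/
lemma approx_L1 {g : ℂ → ℝ} (hg : Integrable g σ) {ε : ℝ} (hε : 0 < ε) :
    ∃ p : ℂ[X], ∫ ζ, |g ζ - (p.eval ζ).re| ∂σ ≤ ε := by
  obtain ⟨g0, hg0, hg0i⟩ := hg.exists_boundedContinuous_integral_sub_le (half_pos hε)
  obtain ⟨p, hp⟩ := approx_cont (g := g0) g0.continuous.continuousOn (half_pos hε)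
  refine ⟨p, ?_⟩
  have hpi : Integrable (fun ζ : ℂ => (p.eval ζ).re) σ :=
    integrable_of_continuousOn (continuousOn_re_poly p).continuousOn
  calc ∫ ζ, |g ζ - (p.eval ζ).re| ∂σ
      ≤ ∫ ζ, (‖g ζ - g0 ζ‖ + ε / 2) ∂σ := by
        apply integral_mono_ae (hg.sub hpi).norm ((hg.sub hg0i).norm.add (integrable_const _))
        filter_upwards [ae_norm] with ζ hζ
        have := hp ζ hζ
        have h2 : g ζ - (p.eval ζ).re = (g ζ - g0 ζ) + (g0 ζ - (p.eval ζ).re) := by ring
        simp only [Pi.add_apply, Pi.sub_apply]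
        rw [Real.norm_eq_abs, h2]
        refine (abs_add_le _ _).trans ?_
        rw [Real.norm_eq_abs]
        gcongr
    _ = (∫ ζ, ‖g ζ - g0 ζ‖ ∂σ) + ε / 2 := by
        have := integral_add (μ := σ) (f := fun ζ => ‖g ζ - g0 ζ‖) (g := fun _ => ε / 2)
          (hg.sub hg0i).norm (integrable_const _)
        rw [this]
        simp
    _ ≤ ε := by linarith

/-- Poisson formula for real parts. -/
lemma PI_re {f : ℂ → ℂ} (hf : DiffContOnCl ℂ f (ball 0 1)) {z : ℂ} (hz : ‖z‖ < 1) :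
    PI (fun ζ => (f ζ).re) z = (f z).re := by
  have h2 := hf.circleAverage_poissonKernel_smul (w := z) (by simpa using hz)
  have hfc : ContinuousOn f (sphere 0 1) := by
    refine hf.continuousOn.mono ?_
    rw [closure_ball _ one_ne_zero]
    exact sphere_subset_closedBall
  have h4 : ContinuousOn (fun ζ => ((P z ζ : ℝ) : ℂ) * f ζ) (sphere 0 1) :=
    (Complex.continuous_ofReal.comp_continuousOn (continuousOn_P hz)).mul hfc
  have h5 : ∫ ζ, ((P z ζ : ℝ) : ℂ) * f ζ ∂σ = f z := by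
    rw [integral_σ (aesm_of_continuousOn h4), ← h2]
    congr 1
  unfold PI
  have := integral_re (integrable_of_continuousOn h4)
  simp only [RCLike.re_eq_complex_re] at this
  rw [← h5, ← this]
  congr 1; ext ζ
  simp

lemma PI_re_poly (p : ℂ[X]) {z : ℂ} (hz : ‖z‖ < 1) :
    PI (fun ζ => (p.eval ζ).re) z = (p.eval z).re :=
  PI_re (f := fun ζ => p.eval ζ) p.differentiable.diffContOnCl hz

lemma P_symm {r : ℝ} {ζ η : ℂ} (hζ : ‖ζ‖ = 1) (hη : ‖η‖ = 1) : P (r * ζ) η = P (r * η) ζ := by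
  rw [P_eq, P_eq, norm_mul, norm_mul, hζ, hη]
  congr 2
  rw [← sq_eq_sq₀ (norm_nonneg _) (norm_nonneg _), ← Complex.normSq_eq_norm_sq,
    ← Complex.normSq_eq_norm_sq, Complex.normSq_sub, Complex.normSq_sub]
  have h1 : normSq η = 1 := by rw [Complex.normSq_eq_norm_sq, hη]; norm_num
  have h2 : normSq ζ = 1 := by rw [Complex.normSq_eq_norm_sq, hζ]; norm_num
  simp only [map_mul, h1, h2]
  simp only [Complex.mul_re, Complex.mul_im, Complex.conj_re, Complex.conj_im,
    Complex.ofReal_re, Complex.ofReal_im]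
  ring

lemma measurable_P : Measurable (fun x : ℂ × ℂ => P x.1 x.2) := by
  simp only [P_eq]
  fun_prop

lemma aesm_PI_dilate {g : ℂ → ℝ} (hg : Integrable g σ) {r : ℝ} (hr0 : 0 ≤ r) (hr : r < 1) :
    AEStronglyMeasurable (fun ζ => PI g (r * ζ)) σ := by
  apply aesm_of_continuousOn
  refine (continuousOn_PI hg).comp (by fun_prop) ?_
  intro ζ hζ
  simp only [mem_sphere_iff_norm, sub_zero] at hζ
  simp [hζ, abs_of_nonneg hr0, hr]

lemma integrable_PI_dilate {g : ℂ → ℝ} (hg : Integrable g σ) {r : ℝ} (hr0 : 0 ≤ r) (hr : r < 1) :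
    Integrable (fun ζ => PI g (r * ζ)) σ := by
  apply integrable_of_continuousOn
  refine (continuousOn_PI hg).comp (by fun_prop) ?_
  intro ζ hζ
  simp only [mem_sphere_iff_norm, sub_zero] at hζ
  simp [hζ, abs_of_nonneg hr0, hr]

lemma norm_dilate {r : ℝ} (hr0 : 0 ≤ r) (hr : r < 1) {ζ : ℂ} (hζ : ‖ζ‖ = 1) :
    ‖(r : ℂ) * ζ‖ < 1 := by
  simp [hζ, abs_of_nonneg hr0, hr]

/-- Poisson dilates are `L¹` contractions. -/
lemma PI_contract {g : ℂ → ℝ} (hg : Integrable g σ) {r : ℝ} (hr0 : 0 ≤ r) (hr : r < 1) :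
    ∫ ζ, |PI g (r * ζ)| ∂σ ≤ ∫ ζ, |g ζ| ∂σ := by
  have hint : Integrable (fun x : ℂ × ℂ => P (r * x.1) x.2 * |g x.2|) (σ.prod σ) := by
    have h1 : Integrable (fun x : ℂ × ℂ => (1 : ℝ) * |g x.2|) (σ.prod σ) :=
      (integrable_const (1 : ℝ)).mul_prod hg.norm
    simp only [one_mul] at h1
    apply h1.bdd_mul (c := (1 + r) / (1 - r))
    · have : Measurable (fun x : ℂ × ℂ => P (r * x.1) x.2) :=
        measurable_P.comp (by fun_prop : Measurable (fun x : ℂ × ℂ => (r * x.1, x.2)))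
      exact this.aestronglyMeasurable
    · have h2 : ∀ᵐ x ∂(σ.prod σ), ‖x.1‖ = 1 ∧ ‖x.2‖ = 1 := by
        have a1 : ∀ᵐ x ∂(σ.prod σ), ‖x.1‖ = 1 :=
          (Measure.quasiMeasurePreserving_fst (μ := σ) (ν := σ)).ae ae_norm
        have a2 : ∀ᵐ x ∂(σ.prod σ), ‖x.2‖ = 1 :=
          (Measure.quasiMeasurePreserving_snd (μ := σ) (ν := σ)).ae ae_norm
        filter_upwards [a1, a2] with x h1 h2 using ⟨h1, h2⟩
      filter_upwards [h2] with x hx
      have h3 := norm_dilate hr0 hr hx.1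
      rw [Real.norm_eq_abs, abs_of_nonneg (P_nonneg h3 hx.2)]
      have := P_le h3 hx.2
      rwa [norm_mul, hx.1, Complex.norm_real, Real.norm_eq_abs, abs_of_nonneg hr0, mul_one] at this
  calc ∫ ζ, |PI g (r * ζ)| ∂σ ≤ ∫ ζ, (∫ η, P (r * ζ) η * |g η| ∂σ) ∂σ := by
        apply integral_mono_ae (integrable_PI_dilate hg hr0 hr).norm hint.integral_prod_left
        filter_upwards [ae_norm] with ζ hζ
        have h3 := norm_dilate hr0 hr hζ
        rw [Real.norm_eq_abs]
        unfold PI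
        refine (abs_integral_le_integral_abs).trans (le_of_eq ?_)
        apply integral_congr_ae
        filter_upwards [ae_norm] with η hη
        rw [abs_mul, abs_of_nonneg (P_nonneg h3 hη)]
    _ = ∫ η, (∫ ζ, P (r * ζ) η * |g η| ∂σ) ∂σ := integral_integral_swap hint
    _ = ∫ η, |g η| ∂σ := by
        apply integral_congr_ae
        filter_upwards [ae_norm] with η hη
        rw [integral_mul_const]
        have : ∫ ζ, P (r * ζ) η ∂σ = 1 := by
          rw [← integral_P (norm_dilate hr0 hr hη)]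
          apply integral_congr_ae
          filter_upwards [ae_norm] with ζ hζ
          exact P_symm hζ hη
        rw [this, one_mul]

lemma eventually_r : ∀ᶠ r : ℝ in 𝓝[<] 1, 0 ≤ r ∧ r < 1 := by
  have h1 : ∀ᶠ r : ℝ in 𝓝[<] 1, r < 1 := self_mem_nhdsWithin
  have h2 : ∀ᶠ r : ℝ in 𝓝[<] 1, 0 < r := nhdsWithin_le_nhds (lt_mem_nhds one_pos)
  filter_upwards [h1, h2] with r a b using ⟨b.le, a⟩

/-- `L¹` convergence of Poisson dilates. -/
lemma PI_tendsto_L1 {g : ℂ → ℝ} (hg : Integrable g σ) :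
    Tendsto (fun r : ℝ => ∫ ζ, |PI g (r * ζ) - g ζ| ∂σ) (𝓝[<] 1) (𝓝 0) := by
  rw [tendsto_order]
  constructor
  · intro a ha
    exact Eventually.of_forall fun r => lt_of_lt_of_le ha (integral_nonneg fun _ => abs_nonneg _)
  · intro ε hε
    obtain ⟨p, hp⟩ := approx_L1 hg (ε := ε / 4) (by positivity)
    have hpi : Integrable (fun ζ : ℂ => (p.eval ζ).re) σ :=
      integrable_of_continuousOn (continuousOn_re_poly p).continuousOn
    -- uniform continuity
    have huc : ∀ᶠ r : ℝ in 𝓝[<] 1, ∀ ζ : ℂ, ‖ζ‖ = 1 →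
        |(p.eval (r * ζ)).re - (p.eval ζ).re| < ε / 4 := by
      have hc : Continuous (fun x : ℝ × ℂ => |(p.eval (x.1 * x.2)).re - (p.eval x.2).re|) := by
        have := continuousOn_re_poly p
        exact ((this.comp (by fun_prop)).sub (this.comp (by fun_prop))).abs
      have h1 : ∀ᶠ r : ℝ in 𝓝 1, ∀ ζ ∈ sphere (0 : ℂ) 1,
          |(p.eval (r * ζ)).re - (p.eval ζ).re| < ε / 4 := by
        apply (isCompact_sphere (0 : ℂ) 1).eventually_forall_of_forall_eventually
        intro ζ hζ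
        have h2 : Tendsto (fun x : ℝ × ℂ => |(p.eval (x.1 * x.2)).re - (p.eval x.2).re|)
            (𝓝 (1, ζ)) (𝓝 0) := by
          have := hc.tendsto (1, ζ)
          simpa using this
        exact h2.eventually (gt_mem_nhds (by positivity))
      filter_upwards [nhdsWithin_le_nhds h1] with r hr ζ hζ
      exact hr ζ (by simpa using hζ)
    filter_upwards [eventually_r, huc] with r hr huc
    have e1 : Integrable (fun ζ => g ζ - (p.eval ζ).re) σ := hg.sub hpi
    have e2 := PI_contract e1 hr.1 hr.2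
    have hd := integrable_PI_dilate e1 hr.1 hr.2
    calc ∫ ζ, |PI g (r * ζ) - g ζ| ∂σ
        ≤ ∫ ζ, (|PI (fun ζ => g ζ - (p.eval ζ).re) (r * ζ)| + ε / 4 + |g ζ - (p.eval ζ).re|) ∂σ := by
          apply integral_mono_ae ((integrable_PI_dilate hg hr.1 hr.2).sub hg).norm
            ((hd.norm.add (integrable_const _)).add e1.norm)
          filter_upwards [ae_norm] with ζ hζ
          have h3 := norm_dilate hr.1 hr.2 hζ
          simp only [Pi.add_apply, Pi.sub_apply, Real.norm_eq_abs]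
          have h4 := huc ζ hζ
          rw [PI_sub hg hpi h3, PI_re_poly p h3]
          have h5 : PI g (r * ζ) - g ζ = (PI g (r * ζ) - (p.eval (r * ζ)).re)
              + ((p.eval (r * ζ)).re - (p.eval ζ).re) - (g ζ - (p.eval ζ).re) := by ring
          rw [h5]
          refine (abs_sub _ _).trans ?_
          gcongr
          refine (abs_add_le _ _).trans ?_
          gcongr
      _ = (∫ ζ, |PI (fun ζ => g ζ - (p.eval ζ).re) (r * ζ)| ∂σ) + ε / 4
            + ∫ ζ, |g ζ - (p.eval ζ).re| ∂σ := by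
          have s1 := integral_add (μ := σ)
            (f := fun ζ : ℂ => |PI (fun ζ => g ζ - (p.eval ζ).re) (r * ζ)| + ε / 4)
            (g := fun ζ => |g ζ - (p.eval ζ).re|) (hd.norm.add (integrable_const _)) e1.norm
          have s2 := integral_add (μ := σ)
            (f := fun ζ : ℂ => |PI (fun ζ => g ζ - (p.eval ζ).re) (r * ζ)|)
            (g := fun _ => ε / 4) hd.norm (integrable_const _)
          rw [s1, s2]
          simp
      _ < ε := by linarith

end Pool.Agent.RegJ
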