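import Pool.Agent.RegJ.Factor

open Filter Topology Complex MeasureTheory Set Matrix
open scoped Real ENNReal ComplexOrder

namespace Pool.Agent.RegJ

variable {m n : Type*} [Fintype m] [DecidableEq m] [Fintype n] [DecidableEq n]

set_option linter.unusedSectionVars false

/-- the Potapov–Ginzburg transform -/
noncomputable def PG (S : Matrix (m ⊕ n) (m ⊕ n) ℂ) : Matrix (m ⊕ n) (m ⊕ n) ℂ :=
  fromBlocks (S.toBlocks₁₁ - S.toBlocks₁₂ * S.toBlocks₂₂⁻¹ * S.toBlocks₂₁)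
    (S.toBlocks₁₂ * S.toBlocks₂₂⁻¹) (-(S.toBlocks₂₂⁻¹ * S.toBlocks₂₁)) S.toBlocks₂₂⁻¹

lemma PG_mul {S : Matrix (m ⊕ n) (m ⊕ n) ℂ} (hS : IsUnit S.toBlocks₂₂.det) :
    PG S * fromBlocks 1 0 S.toBlocks₂₁ S.toBlocks₂₂ = fromBlocks S.toBlocks₁₁ S.toBlocks₁₂ 0 1 := by
  rw [PG, fromBlocks_multiply]
  congr 1
  · rw [Matrix.mul_one, sub_add_cancel]
  · rw [Matrix.mul_zero, zero_add, Matrix.mul_assoc, nonsing_inv_mul _ hS, Matrix.mul_one]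
  · rw [Matrix.mul_one, neg_add_cancel]
  · rw [Matrix.mul_zero, zero_add, nonsing_inv_mul _ hS]

lemma nsq_elim (x : m → ℂ) (y : n → ℂ) : nsq (Sum.elim x y) = nsq x + nsq y := by
  simp [nsq, Fintype.sum_sum_type]

lemma PG_JC {S : Matrix (m ⊕ n) (m ⊕ n) ℂ} (hS : IsUnit S.toBlocks₂₂.det)
    (h : ∀ v, nsq (S *ᵥ v) ≤ nsq v) : JC (PG S) := by
  intro x y
  have h1 := h (Sum.elim x (S.toBlocks₂₂⁻¹ *ᵥ (y - S.toBlocks₂₁ *ᵥ x)))
  rw [mulVec_elim, nsq_elim, nsq_elim] at h1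
  have h2 : S.toBlocks₂₁ *ᵥ x + S.toBlocks₂₂ *ᵥ (S.toBlocks₂₂⁻¹ *ᵥ (y - S.toBlocks₂₁ *ᵥ x)) = y := by
    rw [mulVec_mulVec, mul_nonsing_inv _ hS, one_mulVec]; abel
  have h3 : S.toBlocks₁₁ *ᵥ x + S.toBlocks₁₂ *ᵥ (S.toBlocks₂₂⁻¹ *ᵥ (y - S.toBlocks₂₁ *ᵥ x))
      = (PG S).toBlocks₁₁ *ᵥ x + (PG S).toBlocks₁₂ *ᵥ y := by
    unfold PG
    simp only [toBlocks_fromBlocks₁₁, toBlocks_fromBlocks₁₂, sub_mulVec, mulVec_sub,
      ← mulVec_mulVec]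
    abel
  have h4 : S.toBlocks₂₂⁻¹ *ᵥ (y - S.toBlocks₂₁ *ᵥ x)
      = (PG S).toBlocks₂₁ *ᵥ x + (PG S).toBlocks₂₂ *ᵥ y := by
    unfold PG
    simp only [toBlocks_fromBlocks₂₁, toBlocks_fromBlocks₂₂, neg_mulVec, mulVec_sub,
      ← mulVec_mulVec]
    abel
  rw [h2, h3, h4] at h1
  exact h1

lemma PG_JU {S : Matrix (m ⊕ n) (m ⊕ n) ℂ} (hS : IsUnit S.toBlocks₂₂.det)
    (h : Sᴴ * S = 1) : JU (PG S) := by
  have hmul := PG_mul hS
  set B : Matrix (m ⊕ n) (m ⊕ n) ℂ := fromBlocks 1 0 S.toBlocks₂₁ S.toBlocks₂₂ with hB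
  set A : Matrix (m ⊕ n) (m ⊕ n) ℂ := fromBlocks S.toBlocks₁₁ S.toBlocks₁₂ 0 1 with hA
  have hBu : IsUnit B.det := by
    rw [hB, det_fromBlocks_zero₁₂, det_one, one_mul]; exact hS
  have h' := h
  rw [← fromBlocks_toBlocks S, fromBlocks_conjTranspose, fromBlocks_multiply,
    ← fromBlocks_one, fromBlocks_inj] at h'
  obtain ⟨e11, e12, e21, e22⟩ := h'
  have hAB : Aᴴ * sgnMat m n * A = Bᴴ * sgnMat m n * B := by
    rw [hA, hB, sgnMat]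
    simp only [fromBlocks_conjTranspose, fromBlocks_multiply, conjTranspose_one,
      conjTranspose_zero, Matrix.mul_one, Matrix.mul_zero, Matrix.zero_mul, Matrix.one_mul,
      add_zero, zero_add, Matrix.mul_neg, Matrix.neg_mul]
    congr 1
    · rw [← e11]; abel
    · rw [eq_neg_iff_add_eq_zero, neg_zero, add_zero]; exact e12
    · rw [eq_neg_iff_add_eq_zero]; exact e21
    · rw [← sub_eq_add_neg, sub_eq_iff_eq_add, ← e22]; abel
  unfold JU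
  have h1 : Bᴴ * ((PG S)ᴴ * sgnMat m n * PG S) * B = Bᴴ * sgnMat m n * B := by
    rw [← hAB, ← hmul, conjTranspose_mul]
    simp only [Matrix.mul_assoc]
  have hBi : B * B⁻¹ = 1 := mul_nonsing_inv _ hBu
  have hBi' : (B⁻¹)ᴴ * Bᴴ = 1 := by rw [← conjTranspose_mul, hBi, conjTranspose_one]
  calc (PG S)ᴴ * sgnMat m n * PG S
      = ((B⁻¹)ᴴ * Bᴴ) * ((PG S)ᴴ * sgnMat m n * PG S) * (B * B⁻¹) := by
        rw [hBi, hBi', Matrix.one_mul, Matrix.mul_one]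
    _ = (B⁻¹)ᴴ * (Bᴴ * ((PG S)ᴴ * sgnMat m n * PG S) * B) * B⁻¹ := by
        simp only [Matrix.mul_assoc]
    _ = (B⁻¹)ᴴ * (Bᴴ * sgnMat m n * B) * B⁻¹ := by rw [h1]
    _ = ((B⁻¹)ᴴ * Bᴴ) * sgnMat m n * (B * B⁻¹) := by simp only [Matrix.mul_assoc]
    _ = sgnMat m n := by rw [hBi, hBi', Matrix.one_mul, Matrix.mul_one]

lemma PG_det {S : Matrix (m ⊕ n) (m ⊕ n) ℂ} (hS : IsUnit S.toBlocks₂₂.det)
    (h11 : S.toBlocks₁₁.det ≠ 0) : (PG S).det ≠ 0 := by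
  have h := congrArg Matrix.det (PG_mul hS)
  rw [det_mul, det_fromBlocks_zero₂₁, det_one, mul_one] at h
  intro h0
  rw [h0, zero_mul] at h
  exact h11 h.symm

/-- the unitary completion of a contraction -/
lemma sigma_unitary {f : Matrix m n ℂ} {R1 : Matrix m m ℂ} {R2 : Matrix n n ℂ}
    (h1 : R1ᴴ * R1 = 1 - f * fᴴ) (h2 : R2ᴴ * R2 = 1 - fᴴ * f) (hu1 : IsUnit R1.det)
    (hu2 : IsUnit R2.det) :
    fromBlocks R1ᴴ f (-(R2 * fᴴ * R1⁻¹)) R2 * (fromBlocks R1ᴴ f (-(R2 * fᴴ * R1⁻¹)) R2)ᴴ = 1 := by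
  rw [fromBlocks_conjTranspose, fromBlocks_multiply, ← fromBlocks_one]
  have hi : R1 * R1⁻¹ = 1 := mul_nonsing_inv _ hu1
  have hi2 : (R1⁻¹)ᴴ * R1ᴴ = 1 := by rw [← conjTranspose_mul, hi, conjTranspose_one]
  have hi3 : R1ᴴ * (R1⁻¹)ᴴ = 1 := by
    rw [← conjTranspose_mul, nonsing_inv_mul _ hu1, conjTranspose_one]
  have hi4 : R1⁻¹ * R1 = 1 := nonsing_inv_mul _ hu1
  have hX : R1⁻¹ * (R1⁻¹)ᴴ * (1 - f * fᴴ) = 1 := by
    rw [← h1]
    calc R1⁻¹ * (R1⁻¹)ᴴ * (R1ᴴ * R1) = R1⁻¹ * ((R1⁻¹)ᴴ * R1ᴴ) * R1 := by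
          simp only [Matrix.mul_assoc]
      _ = 1 := by rw [hi2, Matrix.mul_one, hi4]
  have hY : (fᴴ * (R1⁻¹ * (R1⁻¹)ᴴ) * f + 1) * (R2ᴴ * R2) = 1 := by
    have e : fᴴ * (R1⁻¹ * (R1⁻¹)ᴴ) * f * (1 - fᴴ * f) = fᴴ * f := by
      calc fᴴ * (R1⁻¹ * (R1⁻¹)ᴴ) * f * (1 - fᴴ * f)
          = fᴴ * (R1⁻¹ * (R1⁻¹)ᴴ * (1 - f * fᴴ)) * f := by
            simp only [Matrix.mul_sub, Matrix.mul_assoc, Matrix.mul_one, Matrix.sub_mul,
              Matrix.one_mul]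
        _ = fᴴ * f := by rw [hX, Matrix.mul_one]
    rw [h2, Matrix.add_mul, e, Matrix.one_mul]; abel
  have hY2 : (fᴴ * (R1⁻¹ * (R1⁻¹)ᴴ) * f + 1) * R2ᴴ = R2⁻¹ := by
    symm
    apply inv_eq_left_inv
    rw [Matrix.mul_assoc]; exact hY
  have hY3 : R2 * ((fᴴ * (R1⁻¹ * (R1⁻¹)ᴴ) * f + 1) * R2ᴴ) = 1 := by
    rw [hY2, mul_nonsing_inv _ hu2]
  have hconj : (-(R2 * fᴴ * R1⁻¹))ᴴ = -((R1⁻¹)ᴴ * f * R2ᴴ) := by
    rw [conjTranspose_neg, conjTranspose_mul, conjTranspose_mul, conjTranspose_conjTranspose]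
    simp only [Matrix.mul_assoc]
  rw [hconj, conjTranspose_conjTranspose]
  congr 1
  · rw [h1]; abel
  · rw [Matrix.mul_neg, ← Matrix.mul_assoc, ← Matrix.mul_assoc, hi3, Matrix.one_mul,
      neg_add_cancel]
  · rw [Matrix.neg_mul, Matrix.mul_assoc, hi4, Matrix.mul_one, neg_add_cancel]
  · rw [Matrix.neg_mul, Matrix.mul_neg, neg_neg, ← hY3]
    simp only [Matrix.mul_add, Matrix.add_mul, Matrix.mul_assoc, Matrix.one_mul]

lemma nsq_of_unitary {ι : Type*} [Fintype ι] [DecidableEq ι] {S : Matrix ι ι ℂ}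
    (h : Sᴴ * S = 1) (v : ι → ℂ) : nsq (S *ᵥ v) = nsq v := by
  have h1 : ((nsq (S *ᵥ v) : ℝ) : ℂ) = ((nsq v : ℝ) : ℂ) := by
    rw [← star_dot_self, ← star_dot_self, ← star_dot_conj, mulVec_mulVec, h, one_mulVec]
  exact ofReal_injective h1

lemma entry_of_unitary {ι : Type*} [Fintype ι] [DecidableEq ι] {S : Matrix ι ι ℂ}
    (h : Sᴴ * S = 1) (i k : ι) : ‖S i k‖ ≤ 1 :=
  entry_le_of_contr zero_le_one (fun k => by rw [nsq_of_unitary h, nsq_single]; norm_num) i k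

/-- scaling by unimodular numbers -/
lemma unitary_scale {S : Matrix (m ⊕ n) (m ⊕ n) ℂ} (h : Sᴴ * S = 1) {t : ℂ} (ht : ‖t‖ = 1) :
    (fromBlocks (t • S.toBlocks₁₁) S.toBlocks₁₂ ((t * t) • S.toBlocks₂₁) (t • S.toBlocks₂₂))ᴴ *
      fromBlocks (t • S.toBlocks₁₁) S.toBlocks₁₂ ((t * t) • S.toBlocks₂₁) (t • S.toBlocks₂₂)
      = 1 := by
  have h' := h
  rw [← fromBlocks_toBlocks S, fromBlocks_conjTranspose, fromBlocks_multiply,
    ← fromBlocks_one, fromBlocks_inj] at h'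
  obtain ⟨e11, e12, e21, e22⟩ := h'
  have htt : (starRingEnd ℂ) t * t = 1 := by
    have := Complex.normSq_eq_conj_mul_self (z := t)
    rw [Complex.normSq_eq_norm_sq, ht] at this
    rw [← this]; norm_num
  rw [fromBlocks_conjTranspose, fromBlocks_multiply, ← fromBlocks_one]
  simp only [conjTranspose_smul, Matrix.smul_mul, Matrix.mul_smul, smul_smul, star_mul',
    RCLike.star_def]
  congr 1
  · have e : (starRingEnd ℂ) t * (starRingEnd ℂ) t * (t * t) = 1 := by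
      calc _ = ((starRingEnd ℂ) t * t) * ((starRingEnd ℂ) t * t) := by ring
        _ = 1 := by rw [htt, one_mul]
    have e' : t * t * ((starRingEnd ℂ) t * (starRingEnd ℂ) t) = 1 := by rw [mul_comm]; exact e
    have e'' : t * (starRingEnd ℂ) t = 1 := by rw [mul_comm]; exact htt
    first
      | rw [htt, e, one_smul, one_smul, e11]
      | rw [e'', e', one_smul, one_smul, e11]
  · have e : (starRingEnd ℂ) t * (starRingEnd ℂ) t * t = (starRingEnd ℂ) t := by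
      rw [mul_assoc, htt, mul_one]
    have e' : t * ((starRingEnd ℂ) t * (starRingEnd ℂ) t) = (starRingEnd ℂ) t := by
      rw [mul_comm]; exact e
    first
      | rw [e, ← smul_add, e12, smul_zero]
      | rw [e', ← smul_add, e12, smul_zero]
  · have e : (starRingEnd ℂ) t * (t * t) = t := by rw [← mul_assoc, htt, one_mul]
    have e' : (t * t) * (starRingEnd ℂ) t = t := by rw [mul_comm]; exact e
    first
      | rw [e, ← smul_add, e21, smul_zero]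
      | rw [e', ← smul_add, e21, smul_zero]
  · have e'' : t * (starRingEnd ℂ) t = 1 := by rw [mul_comm]; exact htt
    first
      | rw [htt, one_smul, e22]
      | rw [e'', one_smul, e22]

end Pool.Agent.RegJ
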