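import Pool.Agent.RegJ.MatAna

open Filter Topology Complex MeasureTheory Set Metric Matrix
open scoped Real ENNReal NNReal ComplexOrder

namespace Pool.Agent.RegJ

set_option linter.unusedSectionVars false

variable {m n : Type*} [Fintype m] [DecidableEq m] [Fintype n] [DecidableEq n]

lemma isUnit_of_nsq_le' {A : Matrix n n ℂ} {c : ℝ} (hc : 0 < c)
    (h : ∀ y, c * nsq y ≤ nsq (A *ᵥ y)) : IsUnit A.det := by
  rw [← Matrix.isUnit_iff_isUnit_det, ← mulVec_injective_iff_isUnit]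
  intro x y hxy
  have h1 : A *ᵥ (x - y) = 0 := by rw [mulVec_sub]; exact sub_eq_zero.2 hxy
  have h2 := h (x - y)
  rw [h1, nsq_zero] at h2
  have h3 : nsq (x - y) = 0 := le_antisymm (by nlinarith [nsq_nonneg (x - y)]) (nsq_nonneg _)
  exact sub_eq_zero.1 (nsq_eq_zero h3)

lemma contr_of_forms {A : Matrix n n ℂ}
    (h : ∀ x y : n → ℂ, nsq x ≤ 1 → nsq y ≤ 1 → ‖star x ⬝ᵥ (A *ᵥ y)‖ ≤ 1) (y : n → ℂ) :
    nsq (A *ᵥ y) ≤ nsq y := by
  -- normalised case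
  have key : ∀ y : n → ℂ, nsq y ≤ 1 → nsq (A *ᵥ y) ≤ 1 := by
    intro y hy
    set v := A *ᵥ y with hv
    rcases (nsq_nonneg v).eq_or_lt with h0 | h0
    · rw [← h0]; exact zero_le_one
    · set s := √(nsq v) with hs
      have hspos : 0 < s := Real.sqrt_pos.2 h0
      have hss : s ^ 2 = nsq v := Real.sq_sqrt h0.le
      have h1 := h ((s⁻¹ : ℂ) • v) y (by
        rw [nsq_smul, norm_inv, Complex.norm_real, Real.norm_eq_abs, abs_of_pos hspos, inv_pow,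
          hss, inv_mul_cancel₀ h0.ne']) hy
      rw [← hv, star_smul, smul_dotProduct, star_dot_self, norm_smul, norm_star, norm_inv,
        Complex.norm_real, Complex.norm_real, Real.norm_eq_abs, Real.norm_eq_abs,
        abs_of_pos hspos, abs_of_pos h0, ← hss] at h1
      have h2 : s⁻¹ * s ^ 2 = s := by field_simp
      rw [h2] at h1
      rw [← hss]
      nlinarith
  rcases (nsq_nonneg y).eq_or_lt with h0 | h0
  · have : y = 0 := nsq_eq_zero h0.symm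
    rw [this]; simp
  · set s := √(nsq y) with hs
    have hspos : 0 < s := Real.sqrt_pos.2 h0
    have hss : s ^ 2 = nsq y := Real.sq_sqrt h0.le
    have h1 := key ((s⁻¹ : ℂ) • y) (by
        rw [nsq_smul, norm_inv, Complex.norm_real, Real.norm_eq_abs, abs_of_pos hspos, inv_pow,
          hss, inv_mul_cancel₀ h0.ne'])
    rw [mulVec_smul, nsq_smul, norm_inv, Complex.norm_real, Real.norm_eq_abs, abs_of_pos hspos,
      inv_pow, hss, inv_mul_le_iff₀ h0, mul_one] at h1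
    exact h1

lemma dil_mem {r : ℝ} (hr : 0 ≤ r ∧ r < 1) {ζ : ℂ} (hζ : ‖ζ‖ = 1) : (r : ℂ) * ζ ∈ disc := by
  have := norm_dilate hr.1 hr.2 hζ
  simpa using this

lemma maj_bounded_form {A : ℂ → Matrix n n ℂ} (hA : ∀ z ∈ disc, AnalyticPt A z) (hm : MajM A)
    (hb : ∀ᵐ ζ ∂σ, ∃ L, HasBdryValue A ζ L ∧ ∀ y, nsq (L *ᵥ y) ≤ nsq y) :
    ∀ z ∈ disc, ∀ y, nsq (A z *ᵥ y) ≤ nsq y := by
  intro z hz y
  apply contr_of_forms
  intro x y hx hy
  have hd : DifferentiableOn ℂ (fun z => star x ⬝ᵥ (A z *ᵥ y)) disc := fun z hz =>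
    (analyticAt_form (hA z hz) _ _).differentiableAt.differentiableWithinAt
  apply maj_bounded hd (hm.form _ _) _ z hz
  filter_upwards [hb] with ζ hζ
  obtain ⟨L, hL, hLc⟩ := hζ
  refine ⟨star x ⬝ᵥ (L *ᵥ y), tendsto_form hL _ _, ?_⟩
  have h1 := cs x (L *ᵥ y)
  have h2 := hLc y
  have h3 : ‖star x ⬝ᵥ (L *ᵥ y)‖ ^ 2 ≤ 1 ^ 2 := by
    refine h1.trans ?_
    have := nsq_nonneg (L *ᵥ y)
    have := nsq_nonneg x
    nlinarith
  exact (sq_le_sq₀ (norm_nonneg _) zero_le_one).1 h3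

/-- Accretivity of `F = V₂₂ T` implies that `V₂₂⁻¹` is contractive in the disc. -/
theorem inv_bound {V : ℂ → Matrix (m ⊕ n) (m ⊕ n) ℂ} {T : ℂ → Matrix n n ℂ} {h : ℂ → ℂ}
    (hd : DifferentiableOn ℂ h disc) (hne : ∃ z ∈ disc, h z ≠ 0)
    (hVa : ∀ z ∈ disc, AnalyticPt V z) (hTa : ∀ z ∈ disc, AnalyticPt T z)
    (hTm : MajM T)
    (hacc : ∀ z ∈ disc, ∀ x, 0 ≤ (star x ⬝ᵥ (((V z).toBlocks₂₂ * T z) *ᵥ x)).re)
    (hTu : ∀ z ∈ disc, h z ≠ 0 → IsUnit (T z).det)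
    (hbd : ∀ᵐ ζ ∂σ, ∃ V0 T0, HasBdryValue V ζ V0 ∧ JU V0 ∧ HasBdryValue T ζ T0) :
    ∀ z ∈ disc, ∀ w, nsq w ≤ nsq ((V z).toBlocks₂₂ *ᵥ w) := by
  -- the regularised functions
  have hreg : ∀ ε : ℝ, 0 < ε → ∀ z ∈ disc, ∀ y,
      nsq ((T z * ((V z).toBlocks₂₂ * T z + (ε : ℂ) • (1 : Matrix n n ℂ))⁻¹) *ᵥ y) ≤ nsq y := by
    intro ε hε
    have hFa : ∀ z ∈ disc, AnalyticPt
        (fun z => (V z).toBlocks₂₂ * T z + (ε : ℂ) • (1 : Matrix n n ℂ)) z := fun z hz =>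
      (((hVa z hz).b22).mul (hTa z hz)).add (AnalyticPt.const _)
    have hunit : ∀ F : Matrix n n ℂ, (∀ x, 0 ≤ (star x ⬝ᵥ (F *ᵥ x)).re) →
        IsUnit (F + (ε : ℂ) • (1 : Matrix n n ℂ)).det := by
      intro F hF
      apply isUnit_of_nsq_le' (c := ε ^ 2) (by positivity)
      intro y
      have := accretive_le hF hε.le y
      linarith [nsq_nonneg (F *ᵥ y)]
    have hinvb : ∀ F : Matrix n n ℂ, (∀ x, 0 ≤ (star x ⬝ᵥ (F *ᵥ x)).re) →
        ∀ i k, ‖(F + (ε : ℂ) • (1 : Matrix n n ℂ))⁻¹ i k‖ ≤ ε⁻¹ := by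
      intro F hF
      apply entry_le_of_contr (by positivity)
      intro k
      have h1 := accretive_le hF hε.le ((F + (ε : ℂ) • (1 : Matrix n n ℂ))⁻¹ *ᵥ Pi.single k 1)
      rw [mulVec_mulVec _ (F + (ε : ℂ) • (1 : Matrix n n ℂ)), mul_nonsing_inv _ (hunit F hF),
        one_mulVec, nsq_single] at h1
      have h2 := nsq_nonneg (F *ᵥ ((F + (ε : ℂ) • (1 : Matrix n n ℂ))⁻¹ *ᵥ Pi.single k 1))
      rw [inv_pow, inv_eq_one_div (ε ^ 2), le_div_iff₀ (by positivity)]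
      linarith
    apply maj_bounded_form
    · intro z hz
      exact (hTa z hz).mul ((hFa z hz).inv (hunit _ (hacc z hz)).ne_zero)
    · exact hTm.mul (MajM.of_bound fun z hz => hinvb _ (hacc z hz))
    · filter_upwards [hbd, ae_norm] with ζ hζ hn
      obtain ⟨V0, T0, hV0, hJU, hT0⟩ := hζ
      have hF0 : HasBdryValue (fun z => (V z).toBlocks₂₂ * T z) ζ (V0.toBlocks₂₂ * T0) :=
        tendsto_mmul (tendsto_b22 hV0) hT0
      have hacc0 : ∀ x, 0 ≤ (star x ⬝ᵥ ((V0.toBlocks₂₂ * T0) *ᵥ x)).re := by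
        intro x
        have h1 := (Complex.continuous_re.tendsto _).comp (tendsto_form hF0 (star x) x)
        apply ge_of_tendsto h1
        filter_upwards [eventually_r] with r hr
        exact hacc _ (dil_mem hr hn) x
      have hF1 : HasBdryValue (fun z => (V z).toBlocks₂₂ * T z + (ε : ℂ) • (1 : Matrix n n ℂ)) ζ
          (V0.toBlocks₂₂ * T0 + (ε : ℂ) • (1 : Matrix n n ℂ)) := by
        unfold HasBdryValue at *
        exact hF0.add tendsto_const_nhds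
      refine ⟨T0 * (V0.toBlocks₂₂ * T0 + (ε : ℂ) • (1 : Matrix n n ℂ))⁻¹,
        tendsto_mmul hT0 (tendsto_minv hF1 (hunit _ hacc0).ne_zero), fun y => ?_⟩
      set F0 := V0.toBlocks₂₂ * T0 with hF0def
      set w := (F0 + (ε : ℂ) • (1 : Matrix n n ℂ))⁻¹ *ᵥ y with hw
      have e1 : (T0 * (F0 + (ε : ℂ) • (1 : Matrix n n ℂ))⁻¹) *ᵥ y = T0 *ᵥ w := by
        rw [← mulVec_mulVec]
      have e2 : (F0 + (ε : ℂ) • (1 : Matrix n n ℂ)) *ᵥ w = y := by
        rw [hw, mulVec_mulVec, mul_nonsing_inv _ (hunit _ hacc0), one_mulVec]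
      have e3 := accretive_le hacc0 hε.le w
      rw [e2] at e3
      have e4 := hJU.eq22 (T0 *ᵥ w)
      have e5 : V0.toBlocks₂₂ *ᵥ (T0 *ᵥ w) = F0 *ᵥ w := by rw [mulVec_mulVec]
      rw [e5] at e4
      rw [e1]
      have := nsq_nonneg (V0.toBlocks₁₂ *ᵥ (T0 *ᵥ w))
      have := nsq_nonneg w
      nlinarith [sq_nonneg ε]
  -- the claim where `h ≠ 0`
  have hΩ : ∀ z ∈ disc, h z ≠ 0 → ∀ w, nsq w ≤ nsq ((V z).toBlocks₂₂ *ᵥ w) := by
    intro z hz h0 w
    have hu := hTu z hz h0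
    set F := (V z).toBlocks₂₂ * T z with hF
    have hε : ∀ ε : ℝ, 0 < ε → nsq w ≤ nsq ((V z).toBlocks₂₂ *ᵥ w + (ε : ℂ) • ((T z)⁻¹ *ᵥ w)) := by
      intro ε hε
      have hunit : IsUnit (F + (ε : ℂ) • (1 : Matrix n n ℂ)).det := by
        apply isUnit_of_nsq_le' (c := ε ^ 2) (by positivity)
        intro y
        have := accretive_le (hacc z hz) hε.le y
        linarith [nsq_nonneg (F *ᵥ y)]
      have h1 := hreg ε hε z hz ((F + (ε : ℂ) • (1 : Matrix n n ℂ)) *ᵥ ((T z)⁻¹ *ᵥ w))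
      have h2 : (T z * (F + (ε : ℂ) • (1 : Matrix n n ℂ))⁻¹) *ᵥ
          ((F + (ε : ℂ) • (1 : Matrix n n ℂ)) *ᵥ ((T z)⁻¹ *ᵥ w)) = w := by
        rw [mulVec_mulVec, Matrix.mul_assoc, nonsing_inv_mul _ hunit, Matrix.mul_one,
          mulVec_mulVec, mul_nonsing_inv _ hu, one_mulVec]
      have h3 : (F + (ε : ℂ) • (1 : Matrix n n ℂ)) *ᵥ ((T z)⁻¹ *ᵥ w)
          = (V z).toBlocks₂₂ *ᵥ w + (ε : ℂ) • ((T z)⁻¹ *ᵥ w) := by
        rw [add_mulVec, smul_mulVec, one_mulVec, hF, mulVec_mulVec, Matrix.mul_assoc,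
          mul_nonsing_inv _ hu, Matrix.mul_one]
      rw [h2, h3] at h1
      exact h1
    have hlim : Tendsto (fun ε : ℝ => nsq ((V z).toBlocks₂₂ *ᵥ w + (ε : ℂ) • ((T z)⁻¹ *ᵥ w)))
        (𝓝[>] 0) (𝓝 (nsq ((V z).toBlocks₂₂ *ᵥ w))) := by
      have hc : Continuous (fun ε : ℝ => nsq ((V z).toBlocks₂₂ *ᵥ w + (ε : ℂ) • ((T z)⁻¹ *ᵥ w))) := by
        unfold nsq; fun_prop
      have := hc.tendsto 0
      simp only [ofReal_zero, zero_smul, add_zero] at this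
      exact this.mono_left nhdsWithin_le_nhds
    apply ge_of_tendsto hlim
    filter_upwards [self_mem_nhdsWithin] with ε hε' using hε ε hε'
  intro z hz w
  have hc : ContinuousAt (fun z => nsq ((V z).toBlocks₂₂ *ᵥ w)) z := by
    have : Tendsto (fun z => (V z).toBlocks₂₂) (𝓝 z) (𝓝 (V z).toBlocks₂₂) :=
      tendsto_entries.2 fun i k => ((hVa z hz).b22 i k).continuousAt
    exact tendsto_nsq this w
  apply le_of_ev continuousAt_const hc
  filter_upwards [ev_ne hd hne hz] with y hy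
  exact hΩ y hy.1 hy.2 w

/-- diagonal of the signature -/
def sgn : m ⊕ n → ℂ := Sum.elim (fun _ => 1) (fun _ => -1)

lemma sgnMat_eq : sgnMat m n = Matrix.diagonal sgn := by
  unfold sgnMat sgn
  ext i j
  rcases i with i | i <;> rcases j with j | j <;>
    simp [Matrix.diagonal_apply, Matrix.one_apply]
  split_ifs <;> simp

lemma sgn_sq (i : m ⊕ n) : (sgn i : ℂ) * sgn i = 1 := by
  rcases i with i | i <;> simp [sgn]

lemma sgn_norm (i : m ⊕ n) : ‖(sgn i : ℂ)‖ = 1 := by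
  rcases i with i | i <;> simp [sgn]

lemma JU.inv_entry {A : Matrix (m ⊕ n) (m ⊕ n) ℂ} (hA : JU A) (i k : m ⊕ n) :
    A⁻¹ k i = sgn k * (starRingEnd ℂ) (A i k) * sgn i := by
  rw [hA.inv_eq, sgnMat_eq, Matrix.mul_diagonal, Matrix.diagonal_mul, conjTranspose_apply]
  rfl

lemma maj_bounded_entry {A : ℂ → Matrix m n ℂ} (hA : ∀ z ∈ disc, AnalyticPt A z) (hm : MajM A)
    {C : ℝ} (hC : 0 < C) (hb : ∀ᵐ ζ ∂σ, ∃ L, HasBdryValue A ζ L ∧ ∀ i k, ‖L i k‖ ≤ C) :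
    ∀ z ∈ disc, ∀ i k, ‖A z i k‖ ≤ C := by
  intro z hz i k
  have hd : DifferentiableOn ℂ (fun z => (C⁻¹ : ℂ) * A z i k) disc := fun z hz =>
    ((hA z hz i k).differentiableAt.const_mul _).differentiableWithinAt
  have h1 := maj_bounded hd ((Maj.const _).mul (hm i k)) (by
    filter_upwards [hb] with ζ hζ
    obtain ⟨L, hL, hLc⟩ := hζ
    refine ⟨(C⁻¹ : ℂ) * L i k, (tendsto_entries.1 hL i k).const_mul _, ?_⟩
    rw [norm_mul, norm_inv, Complex.norm_real, Real.norm_eq_abs, abs_of_pos hC,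
      inv_mul_le_iff₀ hC, mul_one]
    exact hLc i k) z hz
  rw [norm_mul, norm_inv, Complex.norm_real, Real.norm_eq_abs, abs_of_pos hC,
    inv_mul_le_iff₀ hC, mul_one] at h1
  exact h1

/-- If `S` is `j`-contractive with inverse `V` having Poisson majorants and `V₂₂⁻¹` contractive,
then `S` is constant. -/
theorem const_of_bound {S V : ℂ → Matrix (m ⊕ n) (m ⊕ n) ℂ}
    (hSa : ∀ z ∈ disc, AnalyticPt S z) (hVa : ∀ z ∈ disc, AnalyticPt V z)
    (hSC : ∀ z ∈ disc, JC (S z)) (hVm : MajM V)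
    (hV22 : ∀ z ∈ disc, ∀ w, nsq w ≤ nsq ((V z).toBlocks₂₂ *ᵥ w))
    (hbd : ∀ᵐ ζ ∂σ, ∃ S0, HasBdryValue S ζ S0 ∧ JU S0 ∧ HasBdryValue V ζ S0⁻¹) :
    ∃ C, ∀ z ∈ disc, S z = C := by
  have h0 : (0 : ℂ) ∈ disc := by simp
  -- `S₂₂` is constant
  have hVu : ∀ z ∈ disc, IsUnit ((V z).toBlocks₂₂).det := fun z hz => isUnit_of_nsq_le (hV22 z hz)
  have hSu : ∀ z ∈ disc, IsUnit ((S z).toBlocks₂₂).det := fun z hz => (hSC z hz).isUnit22
  have hXa : ∀ z ∈ disc, AnalyticPt (fun z => ((V z).toBlocks₂₂)⁻¹) z := fun z hz =>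
    ((hVa z hz).b22).inv (hVu z hz).ne_zero
  have hYa : ∀ z ∈ disc, AnalyticPt (fun z => ((S z).toBlocks₂₂)⁻¹) z := fun z hz =>
    ((hSa z hz).b22).inv (hSu z hz).ne_zero
  have hinv1 : ∀ A : Matrix n n ℂ, IsUnit A.det → (∀ w, nsq w ≤ nsq (A *ᵥ w)) →
      ∀ i k, ‖A⁻¹ i k‖ ≤ 1 := by
    intro A hA hw
    apply entry_le_of_contr zero_le_one
    intro k
    have := hw (A⁻¹ *ᵥ Pi.single k 1)
    rw [mulVec_mulVec, mul_nonsing_inv _ hA, one_mulVec, nsq_single] at this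
    simpa using this
  have hXb : ∀ z ∈ disc, ∀ i k, ‖((V z).toBlocks₂₂)⁻¹ i k‖ ≤ 1 := fun z hz =>
    hinv1 _ (hVu z hz) (hV22 z hz)
  have hYb : ∀ z ∈ disc, ∀ i k, ‖((S z).toBlocks₂₂)⁻¹ i k‖ ≤ 1 := fun z hz =>
    hinv1 _ (hSu z hz) fun w => by
      have := (hSC z hz).le22 w
      linarith [nsq_nonneg ((S z).toBlocks₁₂ *ᵥ w)]
  have hYconst : ∀ i k, ∃ c, ∀ z ∈ disc, ((S z).toBlocks₂₂)⁻¹ i k = c := by
    intro i k
    apply const_of_conj (k := fun z => ((V z).toBlocks₂₂)⁻¹ k i) (C := 1)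
      ((analyticPt_iff.2 hYa) i k) ((analyticPt_iff.2 hXa) k i)
      (fun z hz => hYb z hz i k) (fun z hz => hXb z hz k i)
    filter_upwards [hbd] with ζ hζ
    obtain ⟨S0, hS0, hJU, hV0⟩ := hζ
    have hu := hJU.jc.isUnit22
    refine ⟨(S0.toBlocks₂₂)⁻¹ i k, ?_, ?_⟩
    · exact tendsto_entries.1 (tendsto_minv (tendsto_b22 hS0) hu.ne_zero) i k
    · have h1 : S0⁻¹.toBlocks₂₂ = (S0.toBlocks₂₂)ᴴ := by
        rw [hJU.inv_blocks, toBlocks_fromBlocks₂₂]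
      have h2 : (S0⁻¹.toBlocks₂₂).det ≠ 0 := by
        rw [h1, det_conjTranspose]
        exact star_ne_zero.2 hu.ne_zero
      have h3 := tendsto_entries.1 (tendsto_minv (tendsto_b22 hV0) h2) k i
      have h4 : (S0⁻¹.toBlocks₂₂)⁻¹ k i = (starRingEnd ℂ) ((S0.toBlocks₂₂)⁻¹ i k) := by
        rw [h1, ← conjTranspose_nonsing_inv, conjTranspose_apply]; rfl
      rw [h4] at h3
      exact h3
  have hS22 : ∀ z ∈ disc, (S z).toBlocks₂₂ = (S 0).toBlocks₂₂ := by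
    intro z hz
    have h1 : ((S z).toBlocks₂₂)⁻¹ = ((S 0).toBlocks₂₂)⁻¹ := by
      ext i k
      obtain ⟨c, hc⟩ := hYconst i k
      rw [hc z hz, hc 0 h0]
    have h2 : (((S z).toBlocks₂₂)⁻¹)⁻¹ = (((S 0).toBlocks₂₂)⁻¹)⁻¹ := by rw [h1]
    rwa [nonsing_inv_nonsing_inv _ (hSu z hz), nonsing_inv_nonsing_inv _ (hSu 0 h0)] at h2
  -- `S` is bounded
  obtain ⟨M, hM1, hM⟩ : ∃ M : ℝ, 0 < M ∧ ∀ z ∈ disc, ∀ i k, ‖S z i k‖ ≤ M := by
    set c22 := (S 0).toBlocks₂₂ with hc22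
    set N : ℝ := ∑ i, ∑ k, ‖c22 i k‖ with hN
    have hN0 : 0 ≤ N := Finset.sum_nonneg fun _ _ => Finset.sum_nonneg fun _ _ => norm_nonneg _
    have hrow : ∀ i, ∑ k, ‖c22 i k‖ ≤ N := fun i =>
      Finset.single_le_sum (f := fun i => ∑ k, ‖c22 i k‖)
        (fun _ _ => Finset.sum_nonneg fun _ _ => norm_nonneg _) (Finset.mem_univ i)
    have hent : ∀ i k, ‖c22 i k‖ ≤ N := fun i k =>
      (Finset.single_le_sum (f := fun k => ‖c22 i k‖) (fun _ _ => norm_nonneg _)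
        (Finset.mem_univ k)).trans (hrow i)
    set cn : ℝ := (Fintype.card n : ℝ) with hcn
    have hcn0 : 0 ≤ cn := Nat.cast_nonneg _
    have hcol : ∀ k, nsq (c22 *ᵥ Pi.single k 1) ≤ cn * N ^ 2 := by
      intro k
      unfold nsq
      calc ∑ i, ‖(c22 *ᵥ Pi.single k 1) i‖ ^ 2 ≤ ∑ _i : n, N ^ 2 := by
            apply Finset.sum_le_sum
            intro i _
            have : (c22 *ᵥ Pi.single k 1) i = c22 i k := by simp
            rw [this]
            have := hent i k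
            gcongr
        _ = cn * N ^ 2 := by simp [hcn]
    have h12 : ∀ z ∈ disc, ∀ i k, ‖(S z).toBlocks₁₂ i k‖ ≤ 1 + cn * N ^ 2 := by
      intro z hz i k
      have h1 := (hSC z hz).le22 (Pi.single k 1)
      rw [hS22 z hz, nsq_single] at h1
      have h2 := norm_sq_le_nsq ((S z).toBlocks₁₂ *ᵥ Pi.single k 1) i
      have h3 : ((S z).toBlocks₁₂ *ᵥ Pi.single k 1) i = (S z).toBlocks₁₂ i k := by simp
      rw [h3] at h2
      have h4 : ‖(S z).toBlocks₁₂ i k‖ ^ 2 ≤ cn * N ^ 2 := by linarith [hcol k]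
      nlinarith [norm_nonneg ((S z).toBlocks₁₂ i k)]
    have h21 : ∀ z ∈ disc, ∀ i k, ‖(S z).toBlocks₂₁ i k‖ ≤ N := by
      intro z hz i k
      have h1 : (S z).toBlocks₂₁ = c22 * (((S z).toBlocks₂₂)⁻¹ * (S z).toBlocks₂₁) := by
        rw [hS22 z hz, ← Matrix.mul_assoc, mul_nonsing_inv _ (hSu 0 h0), Matrix.one_mul]
      rw [h1, Matrix.mul_apply]
      refine (norm_sum_le _ _).trans (le_trans ?_ (hrow i))
      apply Finset.sum_le_sum
      intro j _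
      rw [norm_mul]
      have := (hSC z hz).kappa_entry j k
      calc ‖c22 i j‖ * ‖(((S z).toBlocks₂₂)⁻¹ * (S z).toBlocks₂₁) j k‖ ≤ ‖c22 i j‖ * 1 := by gcongr
        _ = _ := mul_one _
    have h11 : ∀ z ∈ disc, ∀ i k, ‖(S z).toBlocks₁₁ i k‖ ≤ 1 + (1 + cn * N ^ 2) := by
      intro z hz i k
      have h1 := (hSC z hz) (Pi.single k 1) 0
      simp only [mulVec_zero, add_zero, nsq_zero, nsq_single] at h1
      have h2 := norm_sq_le_nsq ((S z).toBlocks₁₁ *ᵥ Pi.single k 1) i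
      have h3 : ((S z).toBlocks₁₁ *ᵥ Pi.single k 1) i = (S z).toBlocks₁₁ i k := by simp
      rw [h3] at h2
      have h5 : nsq ((S z).toBlocks₂₁ *ᵥ Pi.single k 1) ≤ cn * N ^ 2 := by
        unfold nsq
        calc ∑ i, ‖((S z).toBlocks₂₁ *ᵥ Pi.single k 1) i‖ ^ 2 ≤ ∑ _i : n, N ^ 2 := by
              apply Finset.sum_le_sum
              intro i _
              have : ((S z).toBlocks₂₁ *ᵥ Pi.single k 1) i = (S z).toBlocks₂₁ i k := by simp
              rw [this]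
              have := h21 z hz i k
              gcongr
          _ = cn * N ^ 2 := by simp [hcn]
      nlinarith [norm_nonneg ((S z).toBlocks₁₁ i k)]
    refine ⟨2 + cn * N ^ 2 + N, by positivity, fun z hz i k => ?_⟩
    have hp : 0 ≤ cn * N ^ 2 := by positivity
    rcases i with i | i <;> rcases k with k | k
    · exact (h11 z hz i k).trans (by linarith)
    · exact (h12 z hz i k).trans (by linarith)
    · exact (h21 z hz i k).trans (by linarith)
    · have : S z (Sum.inr i) (Sum.inr k) = c22 i k := congrFun (congrFun (hS22 z hz) i) k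
      rw [this]
      exact (hent i k).trans (by linarith)
  -- `V` is bounded
  have hVM : ∀ z ∈ disc, ∀ i k, ‖V z i k‖ ≤ M := by
    apply maj_bounded_entry hVa hVm hM1
    filter_upwards [hbd, ae_norm] with ζ hζ hn
    obtain ⟨S0, hS0, hJU, hV0⟩ := hζ
    refine ⟨S0⁻¹, hV0, fun i k => ?_⟩
    have h1 : ‖S0 k i‖ ≤ M := by
      apply le_of_tendsto (tendsto_entries.1 hS0 k i).norm
      filter_upwards [eventually_r] with r hr
      exact hM _ (dil_mem hr hn) k i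
    rw [hJU.inv_entry k i, norm_mul, norm_mul, sgn_norm, sgn_norm, one_mul, mul_one,
      RCLike.norm_conj]
    exact h1
  -- conclusion
  have hconst : ∀ i k, ∃ c, ∀ z ∈ disc, S z i k = c := by
    intro i k
    have hkd : DifferentiableOn ℂ (fun z => sgn k * V z k i * sgn i) disc :=
      (((analyticPt_iff.2 hVa) k i).const_mul _).mul_const _
    apply const_of_conj (C := M) ((analyticPt_iff.2 hSa) i k) hkd (fun z hz => hM z hz i k)
    · intro z hz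
      rw [norm_mul, norm_mul, sgn_norm, sgn_norm, one_mul, mul_one]
      exact hVM z hz k i
    · filter_upwards [hbd] with ζ hζ
      obtain ⟨S0, hS0, hJU, hV0⟩ := hζ
      refine ⟨S0 i k, tendsto_entries.1 hS0 i k, ?_⟩
      have h1 := ((tendsto_entries.1 hV0 k i).const_mul (sgn k)).mul_const (sgn i)
      have h2 : sgn k * S0⁻¹ k i * sgn i = (starRingEnd ℂ) (S0 i k) := by
        rw [hJU.inv_entry i k]
        calc sgn k * (sgn k * (starRingEnd ℂ) (S0 i k) * sgn i) * sgn i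
            = (sgn k * sgn k) * (starRingEnd ℂ) (S0 i k) * (sgn i * sgn i) := by ring
          _ = _ := by rw [sgn_sq, sgn_sq, one_mul, mul_one]
      rw [h2] at h1
      exact h1
  refine ⟨S 0, fun z hz => ?_⟩
  ext i k
  obtain ⟨c, hc⟩ := hconst i k
  rw [hc z hz, hc 0 h0]

end Pool.Agent.RegJ
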