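import Pool.Agent.RegJ.BT
import Pool.Agent.RegJ.Core

open Filter Topology Complex MeasureTheory Set Matrix
open scoped Real ENNReal ComplexOrder

namespace Pool.Agent.RegJ

universe u

lemma posDef_schur {α : Type*} [Fintype α] {M : Matrix (Option α) (Option α) ℂ}
    (hM : M.PosDef) :
    (Matrix.of fun i j : α =>
      M (some i) (some j) - M (some i) none * (M none none)⁻¹ * M none (some j)).PosDef := by
  classical
  have h0 : 0 < M none none := hM.diag_pos
  have h0' : M none none ≠ 0 := h0.ne'
  have hherm : ∀ i j, (starRingEnd ℂ) (M i j) = M j i := fun i j => hM.isHermitian.apply j i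
  apply Matrix.PosDef.of_dotProduct_mulVec_pos
  · ext i j
    simp only [conjTranspose_apply, Matrix.of_apply, RCLike.star_def, map_sub, map_mul, map_inv₀,
      hherm]
    ring
  · intro y hy
    let x : Option α → ℂ := fun o => o.elim (-((M none none)⁻¹ * ∑ j, M none (some j) * y j)) y
    have hx : x ≠ 0 := by
      intro h
      apply hy
      ext i
      exact congrFun h (some i)
    have e1 : M none none * x none + ∑ j, M none (some j) * x (some j) = 0 := by
      simp only [x, Option.elim]
      rw [mul_neg, ← mul_assoc, mul_inv_cancel₀ h0', one_mul, neg_add_cancel]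
    have e2 : ∀ i, M (some i) none * x none + ∑ j, M (some i) (some j) * x (some j)
        = ∑ j, (M (some i) (some j) - M (some i) none * (M none none)⁻¹ * M none (some j))
          * y j := by
      intro i
      simp only [x, Option.elim, sub_mul, Finset.sum_sub_distrib]
      have : ∑ j, M (some i) none * (M none none)⁻¹ * M none (some j) * y j
          = M (some i) none * ((M none none)⁻¹ * ∑ j, M none (some j) * y j) := by
        rw [Finset.mul_sum, Finset.mul_sum]
        exact Finset.sum_congr rfl fun j _ => by ring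
      rw [this]; ring
    have e3 : ∀ i, star x (some i) = star y i := fun i => rfl
    have h3 := hM.dotProduct_mulVec_pos hx
    simp only [dotProduct, mulVec, Fintype.sum_option, e1, e2, e3, mul_zero, zero_add] at h3
    simpa only [dotProduct, mulVec, Matrix.of_apply] using h3

lemma cholesky_aux (α : Type u) [Finite α] : ∀ (_ : Fintype α)
    (M : ℂ → Matrix α α ℂ), (∀ i j, Kf fun ζ => M ζ i j) → (∀ᵐ ζ ∂σ, (M ζ).PosDef) →
    ∃ R : ℂ → Matrix α α ℂ, (∀ i j, Kf fun ζ => R ζ i j) ∧
      ∀ᵐ ζ ∂σ, (R ζ)ᴴ * R ζ = M ζ := by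
  refine Finite.induction_empty_option (P := fun α : Type u => ∀ (_ : Fintype α)
    (M : ℂ → Matrix α α ℂ), (∀ i j, Kf fun ζ => M ζ i j) → (∀ᵐ ζ ∂σ, (M ζ).PosDef) →
    ∃ R : ℂ → Matrix α α ℂ, (∀ i j, Kf fun ζ => R ζ i j) ∧
      ∀ᵐ ζ ∂σ, (R ζ)ᴴ * R ζ = M ζ) ?_ ?_ ?_ α
  · intro α β e ih hβ M hM hpos
    have hα : Fintype α := Fintype.ofEquiv β e.symm
    obtain ⟨R, hR, hRM⟩ := ih hα (fun ζ => (M ζ).submatrix e e) (fun i j => hM (e i) (e j)) (by
      filter_upwards [hpos] with ζ hζ
      exact hζ.submatrix e.injective)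
    refine ⟨fun ζ => (R ζ).submatrix e.symm e.symm, fun i j => hR _ _, ?_⟩
    filter_upwards [hRM] with ζ hζ
    rw [conjTranspose_submatrix, submatrix_mul_equiv, hζ, submatrix_submatrix]
    simp
  · intro _ M _ _
    exact ⟨M, fun i => i.elim, Eventually.of_forall fun ζ => by
      ext i; exact i.elim⟩
  · intro α hα0 ih
    suffices hs : ∀ (hα : Fintype (Option α)), hα = @instFintypeOption α hα0 → ∀
        (M : ℂ → Matrix (Option α) (Option α) ℂ), (∀ i j, Kf fun ζ => M ζ i j) →
        (∀ᵐ ζ ∂σ, (M ζ).PosDef) →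
        ∃ R : ℂ → Matrix (Option α) (Option α) ℂ, (∀ i j, Kf fun ζ => R ζ i j) ∧
          ∀ᵐ ζ ∂σ, (R ζ)ᴴ * R ζ = M ζ from fun hα => hs hα (Subsingleton.elim _ _)
    rintro hα rfl M hM hpos
    obtain ⟨d, hd, hdM⟩ := (hM none none).exists_norm (by
      filter_upwards [hpos] with ζ hζ
      have h0 : 0 < M ζ none none := hζ.diag_pos
      rw [Complex.lt_def] at h0
      exact ⟨by simpa using h0.1, by simpa using h0.2.symm⟩)
    obtain ⟨R, hR, hRM⟩ := ih hα0 (fun ζ => Matrix.of fun i j : α =>
        M ζ (some i) (some j) - M ζ (some i) none * (M ζ none none)⁻¹ * M ζ none (some j))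
      (fun i j => (hM _ _).sub (((hM _ _).mul (hM _ _).inv).mul (hM _ _))) (by
      filter_upwards [hpos] with ζ hζ
      exact posDef_schur hζ)
    refine ⟨fun ζ => Matrix.of fun i j : Option α => i.elim
      (j.elim (d ζ) fun j => ((starRingEnd ℂ) (d ζ))⁻¹ * M ζ none (some j))
      (fun i => j.elim 0 fun j => R ζ i j), ?_, ?_⟩
    · intro i j
      rcases i with _ | i <;> rcases j with _ | j
      · exact hd
      · exact hd.conj.inv.mul (hM _ _)
      · exact Kf.const 0
      · exact hR i j
    · filter_upwards [hpos, hdM, hRM] with ζ hζ hd hR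
      obtain ⟨hd1, hd0⟩ := hd
      have hherm : ∀ i j, (starRingEnd ℂ) (M ζ i j) = M ζ j i :=
        fun i j => hζ.isHermitian.apply j i
      have hdc : (starRingEnd ℂ) (d ζ) ≠ 0 := by simpa using hd0
      have hM0 : M ζ none none ≠ 0 := by rw [← hd1]; exact mul_ne_zero hdc hd0
      have hR' : ∀ i j, ∑ k, (starRingEnd ℂ) (R ζ k i) * R ζ k j
          = M ζ (some i) (some j) - M ζ (some i) none * (M ζ none none)⁻¹ * M ζ none (some j) := by
        intro i j
        have := congrFun (congrFun hR i) j
        simpa only [Matrix.mul_apply, conjTranspose_apply, RCLike.star_def, Matrix.of_apply]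
          using this
      ext i j
      rw [Matrix.mul_apply, Fintype.sum_option]
      simp only [conjTranspose_apply, RCLike.star_def, Matrix.of_apply]
      rcases i with _ | i <;> rcases j with _ | j
      · simp only [Option.elim, map_zero, zero_mul, Finset.sum_const_zero, add_zero]
        exact hd1
      · simp only [Option.elim, map_zero, zero_mul, Finset.sum_const_zero, add_zero]
        rw [← mul_assoc, mul_inv_cancel₀ hdc, one_mul]
      · simp only [Option.elim, mul_zero, Finset.sum_const_zero, add_zero, map_mul, map_inv₀,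
          hherm, Complex.conj_conj]
        field_simp
      · simp only [Option.elim, map_mul, map_inv₀, hherm, Complex.conj_conj, hR']
        rw [← hd1]
        field_simp
        ring

theorem Kf.cholesky {α : Type u} [hα : Fintype α] (M : ℂ → Matrix α α ℂ)
    (hM : ∀ i j, Kf fun ζ => M ζ i j) (hpos : ∀ᵐ ζ ∂σ, (M ζ).PosDef) :
    ∃ R : ℂ → Matrix α α ℂ, (∀ i j, Kf fun ζ => R ζ i j) ∧ ∀ᵐ ζ ∂σ, (R ζ)ᴴ * R ζ = M ζ :=
  cholesky_aux α hα M hM hpos

end Pool.Agent.RegJ
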