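import Pool.Agent.RegJ.Factor

open Filter Topology Complex MeasureTheory Set Metric Matrix
open scoped Real ENNReal NNReal ComplexOrder

namespace Pool.Agent.RegJ

set_option linter.unusedSectionVars false

variable {m n : Type*} [Fintype m] [DecidableEq m] [Fintype n] [DecidableEq n]

lemma posLog_exp {x : ℝ} (hx : 0 ≤ x) : Real.posLog (Real.exp x) = x := by
  rw [Real.posLog_apply, Real.log_exp, max_eq_right hx]

lemma continuousAt_entries {a b : Type*} {A : ℂ → Matrix a b ℂ} {z : ℂ} (hA : AnalyticPt A z) :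
    ContinuousAt A z :=
  tendsto_entries.2 fun i k => (hA i k).continuousAt

lemma nsq_mulVec_le {A : Matrix n n ℂ} {C : ℝ} (hC : 0 ≤ C) (hA : ∀ i k, ‖A i k‖ ≤ C)
    {x : n → ℂ} (hx : nsq x = 1) : nsq (A *ᵥ x) ≤ (Fintype.card n : ℝ) ^ 3 * C ^ 2 := by
  have hx1 : ∀ k, ‖x k‖ ≤ 1 := by
    intro k
    have := norm_sq_le_nsq x k
    rw [hx] at this
    nlinarith [norm_nonneg (x k)]
  unfold nsq
  calc ∑ i, ‖(A *ᵥ x) i‖ ^ 2 ≤ ∑ _i : n, ((Fintype.card n : ℝ) * C) ^ 2 := by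
        apply Finset.sum_le_sum
        intro i _
        have h1 : ‖(A *ᵥ x) i‖ ≤ (Fintype.card n : ℝ) * C := by
          simp only [mulVec, dotProduct]
          refine (norm_sum_le _ _).trans ?_
          calc ∑ k, ‖A i k * x k‖ ≤ ∑ _k : n, C := by
                apply Finset.sum_le_sum
                intro k _
                rw [norm_mul]
                calc ‖A i k‖ * ‖x k‖ ≤ C * 1 := mul_le_mul (hA i k) (hx1 k) (norm_nonneg _) hC
                  _ = C := mul_one C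
            _ = (Fintype.card n : ℝ) * C := by simp
        gcongr
    _ = _ := by simp; ring

/-- Main theorem: every `W ∈ 𝒰(p,q)` becomes left regular after multiplication from the right by
`diag (β I_p, I_q)` with a suitable zero-free scalar inner function `β`. -/
theorem main_reg {W : ℂ → Matrix (m ⊕ n) (m ⊕ n) ℂ} (hW : JInner W) :
    ∃ β : ℂ → ℂ, Inner β ∧ (∀ z, β z ≠ 0) ∧
      LeftRegular (fun z => W z * diagFactor m n (β z)) := by
  obtain ⟨h, G, hd, hG, hb1, hGb, hne, hWG⟩ := hW.boundedType.normalise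
  obtain ⟨g, hgm, hgi, hg0, hgb⟩ := log_integrable hd hb1 hne
  set N : ℝ := (Fintype.card n : ℝ) with hN
  have hN0 : 0 ≤ N := Nat.cast_nonneg _
  set K0 := Real.log (2 * N ^ 3 + 1) with hK0
  have hK00 : 0 ≤ K0 := Real.log_nonneg (by have : 0 ≤ N ^ 3 := by positivity
                                            linarith)
  set u : ℂ → ℝ := fun ζ => K0 + 2 * g ζ with hu
  have hum : Measurable u := measurable_const.add (hgm.const_mul 2)
  have hu0 : ∀ ζ, 0 ≤ u ζ := fun ζ => by have := hg0 ζ; positivity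
  have hui : Integrable u σ := (integrable_const _).add (hgi.const_mul 2)
  set β := beta u with hβdef
  have hβ0 : ∀ z, β z ≠ 0 := beta_ne_zero u
  have hβ : Inner β := by
    refine ⟨differentiableOn_beta hum hu0 hui, fun z hz => norm_beta_le hum hu0 hui
      (by simpa using hz), ?_⟩
    filter_upwards [beta_radial hum hu0 hui] with ζ hζ
    obtain ⟨L, hL1, hL⟩ := hζ
    exact ⟨L, hL, hL1⟩
  have hβa : ∀ z ∈ disc, AnalyticAt ℂ β z := fun z hz =>
    hβ.diff.analyticAt (isOpen_ball.mem_nhds hz)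
  refine ⟨β, hβ, hβ0, hW.mul_dg hβ hβ0, ?_⟩
  intro S hS hW2
  -- basic facts on `S` and `V = S⁻¹`
  set V : ℂ → Matrix (m ⊕ n) (m ⊕ n) ℂ := fun z => (S z)⁻¹ with hV
  have hSa : ∀ z ∈ disc, AnalyticPt S z := analyticPt_iff.1 fun i k => (hS.smirnov i k).1
  have hVa : ∀ z ∈ disc, AnalyticPt V z := analyticPt_iff.1 fun i k => (hS.smirnov_inv i k).1
  have hSm : MajM S := fun i k => (hS.smirnov i k).maj
  have hVm : MajM V := fun i k => (hS.smirnov_inv i k).maj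
  have hSdet : DifferentiableOn ℂ (fun z => (S z).det) disc := fun z hz =>
    (hSa z hz).det.differentiableAt.differentiableWithinAt
  have hSdne : ∃ z ∈ disc, (S z).det ≠ 0 := by
    obtain ⟨z, hz, -, h0⟩ := hS.jInner.det_ne_zero
    exact ⟨z, hz, h0⟩
  have hSV : ∀ z ∈ disc, S z * V z = 1 := by
    intro z hz
    apply eq_of_ev (φ := fun z => S z * V z) (ψ := fun _ => 1)
      (continuousAt_entries ((hSa z hz).mul (hVa z hz))) continuousAt_const
    filter_upwards [ev_ne hSdet hSdne hz] with y hy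
    exact mul_nonsing_inv _ (isUnit_iff_ne_zero.2 hy.2)
  have hSu : ∀ z ∈ disc, IsUnit (S z).det := fun z hz => isUnit_det_of_right_inverse (hSV z hz)
  have hVS : ∀ z ∈ disc, V z * S z = 1 := fun z hz => nonsing_inv_mul _ (hSu z hz)
  have hSC : ∀ z ∈ disc, JC (S z) := fun z hz =>
    (jc_iff _).1 (hS.jInner.contractive z hz (hSa z hz))
  -- the functions `A = W D`, `B = A V`
  set A : ℂ → Matrix (m ⊕ n) (m ⊕ n) ℂ := fun z => W z * diagFactor m n (β z) with hA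
  set B : ℂ → Matrix (m ⊕ n) (m ⊕ n) ℂ := fun z => A z * V z with hB
  have hW2' : JInner B := hW2
  have hWa : ∀ z ∈ disc, h z ≠ 0 → AnalyticPt W z := fun z hz h0 =>
    repr_analytic hd hG hWG hz h0
  have hAa : ∀ z ∈ disc, h z ≠ 0 → AnalyticPt A z := fun z hz h0 =>
    (hWa z hz h0).mul (dg_analytic (hβa z hz))
  have hBa : ∀ z ∈ disc, h z ≠ 0 → AnalyticPt B z := fun z hz h0 =>
    (hAa z hz h0).mul (hVa z hz)
  have hWC : ∀ z ∈ disc, h z ≠ 0 → JC (W z) := fun z hz h0 =>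
    (jc_iff _).1 (hW.contractive z hz (hWa z hz h0))
  have hAC : ∀ z ∈ disc, h z ≠ 0 → JC (A z) := fun z hz h0 =>
    (hWC z hz h0).mul (dg_JC (hβ.bound z hz))
  have hBC : ∀ z ∈ disc, h z ≠ 0 → JC (B z) := fun z hz h0 =>
    (jc_iff _).1 (hW2'.contractive z hz (hBa z hz h0))
  have hBS : ∀ z ∈ disc, B z * S z = A z := by
    intro z hz
    simp only [hB]
    rw [Matrix.mul_assoc, hVS z hz, Matrix.mul_one]
  -- extensions of `κ` and `κ₂`
  obtain ⟨K, hKa, hKe, hKb⟩ := removableM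
    (k := fun z => ((W z).toBlocks₂₂)⁻¹ * (W z).toBlocks₂₁) (C := 1) hd hne
    (fun z hz h0 => (((hWa z hz h0).b22).inv (hWC z hz h0).isUnit22.ne_zero).mul (hWa z hz h0).b21)
    (fun z hz h0 i j => (hWC z hz h0).kappa_entry i j)
  obtain ⟨K₂, hK₂a, hK₂e, hK₂b⟩ := removableM
    (k := fun z => ((B z).toBlocks₂₂)⁻¹ * (B z).toBlocks₂₁) (C := 1) hd hne
    (fun z hz h0 => (((hBa z hz h0).b22).inv (hBC z hz h0).isUnit22.ne_zero).mul (hBa z hz h0).b21)
    (fun z hz h0 i j => (hBC z hz h0).kappa_entry i j)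
  set T : ℂ → Matrix n n ℂ := fun z => K₂ z * (S z).toBlocks₁₂ + (S z).toBlocks₂₂ with hT
  set F : ℂ → Matrix n n ℂ := fun z => (V z).toBlocks₂₂ * T z with hF
  set Q : ℂ → Matrix n n ℂ := fun z => -(K z * ((V z).toBlocks₁₂ * T z)) with hQ
  have hTa : ∀ z ∈ disc, AnalyticPt T z := fun z hz =>
    ((hK₂a z hz).mul (hSa z hz).b12).add (hSa z hz).b22
  have hFa : ∀ z ∈ disc, AnalyticPt F z := fun z hz => ((hVa z hz).b22).mul (hTa z hz)
  have hQa : ∀ z ∈ disc, AnalyticPt Q z := fun z hz =>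
    ((hKa z hz).mul ((hVa z hz).b12.mul (hTa z hz))).neg
  have hTm : MajM T := ((MajM.of_bound hK₂b).mul fun i k => hSm _ _).add fun i k => hSm _ _
  have hFm : MajM F := MajM.mul (fun i k => hVm _ _) hTm
  have hQm : MajM Q := ((MajM.of_bound hKb).mul (MajM.mul (fun i k => hVm _ _) hTm)).neg
  have hTe : ∀ z ∈ disc, h z ≠ 0 → T z = T0 (B z) (S z) := by
    intro z hz h0
    simp only [hT, T0]
    rw [hK₂e z hz h0]
  have hTe2 : ∀ z ∈ disc, h z ≠ 0 → T z = ((B z).toBlocks₂₂)⁻¹ * (A z).toBlocks₂₂ := by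
    intro z hz h0
    rw [hTe z hz h0, T0_eq (hBC z hz h0).isUnit22 (hBS z hz)]
  have hTu : ∀ z ∈ disc, h z ≠ 0 → IsUnit (T z).det := by
    intro z hz h0
    rw [hTe2 z hz h0, det_mul]
    refine IsUnit.mul ?_ (hAC z hz h0).isUnit22
    rw [det_nonsing_inv]
    exact ((hBC z hz h0).isUnit22).ringInverse
  -- `F = 1 + β Q`
  have hFQ : ∀ z ∈ disc, F z = 1 + β z • Q z := by
    intro z hz
    apply eq_of_ev (φ := F) (ψ := fun z => 1 + β z • Q z) (continuousAt_entries (hFa z hz))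
      (continuousAt_entries ((AnalyticPt.const _).add (AnalyticPt.smul (hβa z hz) (hQa z hz))))
    filter_upwards [ev_ne hd hne hz] with y hy
    obtain ⟨hy, h0⟩ := hy
    have hWu := (hWC y hy h0).isUnit22
    have hBu := (hBC y hy h0).isUnit22
    have e1 : (B y).toBlocks₂₂ = β y • (W y).toBlocks₂₁ * (V y).toBlocks₁₂
        + (W y).toBlocks₂₂ * (V y).toBlocks₂₂ := by
      simp only [hB, hA]
      rw [mul_blocks22, mul_dg_21, mul_dg_22]
    have e2 : (B y).toBlocks₂₂ * T y = (W y).toBlocks₂₂ := by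
      rw [hTe2 y hy h0, ← Matrix.mul_assoc, mul_nonsing_inv _ hBu, Matrix.one_mul]
      simp only [hA]
      rw [mul_dg_22]
    have e3 : F y = ((W y).toBlocks₂₂)⁻¹ * ((W y).toBlocks₂₂ * F y) := by
      rw [← Matrix.mul_assoc, nonsing_inv_mul _ hWu, Matrix.one_mul]
    have e4 : (W y).toBlocks₂₂ * F y = (W y).toBlocks₂₂
        - β y • ((W y).toBlocks₂₁ * ((V y).toBlocks₁₂ * T y)) := by
      rw [eq_sub_iff_add_eq]
      conv_rhs => rw [← e2, e1]
      simp only [hF]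
      rw [Matrix.add_mul, smul_mul, smul_mul, Matrix.mul_assoc, Matrix.mul_assoc, add_comm]
    rw [e3, e4, Matrix.mul_sub, nonsing_inv_mul _ hWu, Matrix.mul_smul, ← Matrix.mul_assoc]
    simp only [hQ]
    rw [hKe y hy h0, smul_neg, sub_eq_add_neg]
  -- boundary values
  have hbdry : ∀ᵐ ζ ∂σ, ∃ (A0 B0 S0 : Matrix (m ⊕ n) (m ⊕ n) ℂ) (b : ℂ),
      JU A0 ∧ JU B0 ∧ JU S0 ∧ B0 * S0 = A0 ∧ A0 * S0⁻¹ = B0 ∧ ‖b‖ = 1 ∧
      HasBdryValue S ζ S0 ∧ HasBdryValue V ζ S0⁻¹ ∧ HasBdryValue T ζ (T0 B0 S0) ∧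
      HasBdryValue β ζ b ∧ ∀ i k, ‖A0.toBlocks₂₂ i k‖ ≤ Real.exp (g ζ) := by
    filter_upwards [hW.boundary, hgb, hβ.boundary, hS.jInner.boundary, ae_norm]
      with ζ h1 h2 h3 h4 hn
    obtain ⟨L, hL, hLU⟩ := h1
    obtain ⟨H, hH, hH0, hHg⟩ := h2
    obtain ⟨b, hb, hb1'⟩ := h3
    obtain ⟨S0, hS0, hSU⟩ := h4
    have hSU' : JU S0 := hSU
    have hLU' : JU L := hLU
    have hAU : JU (L * diagFactor m n b) := hLU'.mul (dg_JU hb1')
    have hA0 : HasBdryValue A ζ (L * diagFactor m n b) := tendsto_mmul hL (dg_tendsto hb)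
    have hV0 : HasBdryValue V ζ S0⁻¹ := tendsto_minv hS0 hSU'.isUnit.ne_zero
    have hBU : JU (L * diagFactor m n b * S0⁻¹) := hAU.mul hSU'.inv
    have hB0 : HasBdryValue B ζ (L * diagFactor m n b * S0⁻¹) := tendsto_mmul hA0 hV0
    have hev : ∀ᶠ r : ℝ in 𝓝[<] 1, (r : ℂ) * ζ ∈ disc ∧ h (r * ζ) ≠ 0 := by
      filter_upwards [eventually_r, hH.eventually_ne hH0] with r hr h0
      exact ⟨dil_mem hr hn, h0⟩
    refine ⟨L * diagFactor m n b, L * diagFactor m n b * S0⁻¹, S0, b, hAU, hBU, hSU', ?_, rfl,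
      hb1', hS0, hV0, ?_, hb, ?_⟩
    · rw [Matrix.mul_assoc, nonsing_inv_mul _ hSU'.isUnit, Matrix.mul_one]
    · have h5 : Tendsto (fun r : ℝ => T0 (B (r * ζ)) (S (r * ζ))) (𝓝[<] 1)
          (𝓝 (T0 (L * diagFactor m n b * S0⁻¹) S0)) := by
        unfold T0
        exact (tendsto_mmul (tendsto_mmul (tendsto_minv (tendsto_b22 hB0)
          hBU.jc.isUnit22.ne_zero) (tendsto_b21 hB0)) (tendsto_b12 hS0)).add (tendsto_b22 hS0)
      apply h5.congr'
      filter_upwards [hev] with r hr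
      exact (hTe _ hr.1 hr.2).symm
    · intro i k
      rw [mul_dg_22]
      have h5 : Tendsto (fun r : ℝ => ‖W (r * ζ) (Sum.inr i) (Sum.inr k)‖) (𝓝[<] 1)
          (𝓝 ‖L (Sum.inr i) (Sum.inr k)‖) := (tendsto_entries.1 hL _ _).norm
      have h6 : Tendsto (fun r : ℝ => ‖h (r * ζ)‖⁻¹) (𝓝[<] 1) (𝓝 ‖H‖⁻¹) :=
        hH.norm.inv₀ (norm_ne_zero_iff.2 hH0)
      have h7 : ‖L (Sum.inr i) (Sum.inr k)‖ ≤ ‖H‖⁻¹ := by
        apply le_of_tendsto_of_tendsto h5 h6
        filter_upwards [hev] with r hr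
        rw [hWG _ hr.1 hr.2, Matrix.smul_apply, smul_eq_mul, norm_mul, norm_inv]
        have := hGb _ hr.1 (Sum.inr i) (Sum.inr k)
        calc ‖h (r * ζ)‖⁻¹ * ‖G (r * ζ) (Sum.inr i) (Sum.inr k)‖ ≤ ‖h (r * ζ)‖⁻¹ * 1 := by gcongr
          _ = _ := mul_one _
      have h8 : ‖H‖⁻¹ ≤ Real.exp (g ζ) := by
        have hHp : 0 < ‖H‖ := norm_pos_iff.2 hH0
        rw [← Real.exp_log (inv_pos.2 hHp), Real.log_inv]
        exact Real.exp_le_exp.2 hHg
      exact h7.trans h8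
  -- accretivity
  have hacc1 : ∀ x : n → ℂ, nsq x = 1 → ∀ z ∈ disc, 0 ≤ (star x ⬝ᵥ (F z *ᵥ x)).re := by
    intro x hx
    have hfd : DifferentiableOn ℂ (fun z => star x ⬝ᵥ (F z *ᵥ x)) disc := fun z hz =>
      (analyticAt_form (hFa z hz) _ _).differentiableAt.differentiableWithinAt
    have hqd : DifferentiableOn ℂ (fun z => star x ⬝ᵥ (Q z *ᵥ x)) disc := fun z hz =>
      (analyticAt_form (hQa z hz) _ _).differentiableAt.differentiableWithinAt
    have hfq : ∀ z ∈ disc, star x ⬝ᵥ (F z *ᵥ x) = 1 + beta u z * (star x ⬝ᵥ (Q z *ᵥ x)) := by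
      intro z hz
      rw [hFQ z hz, add_mulVec, one_mulVec, dotProduct_add, star_dot_self, hx, smul_mulVec,
        dotProduct_smul, smul_eq_mul, Complex.ofReal_one]
    have hbv : ∀ᵐ ζ ∂σ, ∃ L b : ℂ, HasBdryValue (fun z => star x ⬝ᵥ (F z *ᵥ x)) ζ L ∧
        HasBdryValue β ζ b ∧ ‖b‖ = 1 ∧ 0 ≤ L.re ∧ ‖L‖ ≤ Real.exp (u ζ) := by
      filter_upwards [hbdry] with ζ hζ
      obtain ⟨A0, B0, S0, b, hAU, hBU, hSU, hBS0, hAB, hb1', hS0, hV0, hT0, hb, hent⟩ := hζ
      have hF0 : HasBdryValue F ζ ((S0⁻¹).toBlocks₂₂ * T0 B0 S0) :=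
        tendsto_mmul (tendsto_b22 hV0) hT0
      refine ⟨_, b, tendsto_form hF0 _ _, hb, hb1', ?_, ?_⟩
      · exact bdry_pos hAU.jc hBU.jc hSU.inv hBS0 hAB x
      · refine (bdry_bound hAU hBU hBS0 hAB x).trans ?_
        have h1 := nsq_mulVec_le (Real.exp_pos (g ζ)).le hent hx
        rw [← hN] at h1
        have h2 : Real.exp (u ζ) = (2 * N ^ 3 + 1) * Real.exp (g ζ) ^ 2 := by
          simp only [hu]
          rw [Real.exp_add, hK0, Real.exp_log (by positivity), ← Real.exp_nat_mul]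
          norm_num
        rw [h2]
        have : 0 ≤ Real.exp (g ζ) ^ 2 := by positivity
        linarith
    apply scalar_main (q := fun z => star x ⬝ᵥ (Q z *ᵥ x)) hum hu0 hui hfd hfq
    · apply maj_bound hfd (hFm.form _ _) hui
      filter_upwards [hbv] with ζ hζ
      obtain ⟨L, b, hL, -, -, -, hLb⟩ := hζ
      refine ⟨L, hL, ?_⟩
      rw [← posLog_exp (hu0 ζ)]
      exact Real.posLog_le_posLog (norm_nonneg _) hLb
    · intro z hz
      have hz' : ‖z‖ < 1 := by simpa using hz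
      rw [← PI_const (Real.log 2) hz', ← PI_add hui (integrable_const _) hz']
      apply maj_bound hqd (hQm.form _ _) (hui.add (integrable_const _)) _ z hz
      filter_upwards [hbv, ae_norm] with ζ hζ hn
      obtain ⟨L, b, hL, hb, hb1', -, hLb⟩ := hζ
      have hb0 : b ≠ 0 := by rintro rfl; simp at hb1'
      refine ⟨(L - 1) / b, ?_, ?_⟩
      · have h1 : Tendsto (fun r : ℝ => (star x ⬝ᵥ (F (r * ζ) *ᵥ x) - 1) / β (r * ζ)) (𝓝[<] 1)
            (𝓝 ((L - 1) / b)) := (hL.sub_const 1).div hb hb0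
        apply h1.congr'
        filter_upwards [eventually_r] with r hr
        rw [hfq _ (dil_mem hr hn), add_sub_cancel_left]
        exact mul_div_cancel_left₀ _ (hβ0 _)
      · rw [norm_div, hb1', div_one]
        have h1 : ‖L - 1‖ ≤ Real.exp (u ζ + Real.log 2) := by
          rw [Real.exp_add, Real.exp_log two_pos]
          refine (norm_sub_le _ _).trans ?_
          rw [norm_one]
          have := Real.one_le_exp (hu0 ζ)
          linarith
        have h2 : 0 ≤ u ζ + Real.log 2 := add_nonneg (hu0 ζ) (Real.log_nonneg one_le_two)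
        simp only [Pi.add_apply]
        rw [← posLog_exp h2]
        exact Real.posLog_le_posLog (norm_nonneg _) h1
    · filter_upwards [hbv] with ζ hζ
      obtain ⟨L, b, hL, -, -, hL0, -⟩ := hζ
      exact ⟨L, hL, hL0⟩
  have hacc : ∀ z ∈ disc, ∀ x : n → ℂ, 0 ≤ (star x ⬝ᵥ (((V z).toBlocks₂₂ * T z) *ᵥ x)).re := by
    intro z hz x
    change 0 ≤ (star x ⬝ᵥ (F z *ᵥ x)).re
    rcases (nsq_nonneg x).eq_or_lt with h0 | h0
    · have : x = 0 := nsq_eq_zero h0.symm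
      simp [this]
    · set s := √(nsq x) with hs
      have hspos : 0 < s := Real.sqrt_pos.2 h0
      have hss : s ^ 2 = nsq x := Real.sq_sqrt h0.le
      have h1 := hacc1 ((s⁻¹ : ℂ) • x) (by
        rw [nsq_smul, norm_inv, Complex.norm_real, Real.norm_eq_abs, abs_of_pos hspos, inv_pow,
          hss, inv_mul_cancel₀ h0.ne']) z hz
      rw [star_smul, smul_dotProduct, mulVec_smul, dotProduct_smul, smul_smul] at h1
      have h2 : star ((s : ℂ)⁻¹) * (s : ℂ)⁻¹ = (((s⁻¹) ^ 2 : ℝ) : ℂ) := by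
        rw [star_inv₀, RCLike.star_def, Complex.conj_ofReal]; push_cast; ring
      rw [h2, smul_eq_mul, Complex.re_ofReal_mul] at h1
      have h3 : 0 < (s⁻¹) ^ 2 := by positivity
      exact nonneg_of_mul_nonneg_right h1 h3
  have hV22 := inv_bound hd hne hVa hTa hTm hacc hTu (by
    filter_upwards [hbdry] with ζ hζ
    obtain ⟨A0, B0, S0, b, hAU, hBU, hSU, hBS0, hAB, hb1', hS0, hV0, hT0, hb, hent⟩ := hζ
    exact ⟨S0⁻¹, T0 B0 S0, hV0, hSU.inv, hT0⟩)
  exact const_of_bound hSa hVa hSC hVm hV22 (by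
    filter_upwards [hbdry] with ζ hζ
    obtain ⟨A0, B0, S0, b, hAU, hBU, hSU, hBS0, hAB, hb1', hS0, hV0, hT0, hb, hent⟩ := hζ
    exact ⟨S0, hS0, hSU, hV0⟩)

/-- `η(𝒰_lr(p,q)) = η(𝒰(p,q))`. -/
theorem eta_iff (f : ℂ → Matrix m n ℂ) :
    (∃ W : ℂ → Matrix (m ⊕ n) (m ⊕ n) ℂ, LeftRegular W ∧ IsEta W f) ↔
      ∃ W : ℂ → Matrix (m ⊕ n) (m ⊕ n) ℂ, JInner W ∧ IsEta W f := by
  constructor
  · rintro ⟨W, hW, hf⟩
    exact ⟨W, hW.jInner, hf⟩
  · rintro ⟨W, hW, hf⟩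
    obtain ⟨β, hβ, hβ0, hreg⟩ := main_reg hW
    exact ⟨_, hreg, isEta_mul_dg hβ hβ0 hf⟩

end Pool.Agent.RegJ
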