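import Pool.Agent.RegJ.ArovDefs
import Pool.Agent.RegJ.ArovMat
import Pool.Agent.RegJ.Chol
import Pool.Agent.RegJ.Main

open Filter Topology Complex MeasureTheory Set Matrix Metric
open scoped Real ENNReal ComplexOrder

namespace Pool.Agent.RegJ

variable {m n : Type*} [Fintype m] [DecidableEq m] [Fintype n] [DecidableEq n]

set_option linter.unusedSectionVars false

lemma one_sub_iff (f : Matrix m n ℂ) :
    (1 - fᴴ * f).PosSemidef ↔ ∀ y, nsq (f *ᵥ y) ≤ nsq y := by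
  rw [posSemidef_iff_dotProduct_mulVec]
  have key : ∀ y, star y ⬝ᵥ ((1 - fᴴ * f) *ᵥ y) = ((nsq y - nsq (f *ᵥ y) : ℝ) : ℂ) := by
    intro y
    rw [sub_mulVec, one_mulVec, dotProduct_sub, ← mulVec_mulVec, star_dot_conj, star_dot_self,
      star_dot_self]
    push_cast; rfl
  constructor
  · rintro ⟨-, h⟩ y
    have := h y
    rw [key] at this
    have h2 := (Complex.zero_le_real).1 this
    linarith
  · intro h
    refine ⟨?_, fun y => ?_⟩
    · unfold IsHermitian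
      rw [conjTranspose_sub, conjTranspose_one, conjTranspose_mul, conjTranspose_conjTranspose]
    · rw [key]
      exact (Complex.zero_le_real).2 (by linarith [h y])

lemma contr_star {f : Matrix m n ℂ} (h : ∀ y, nsq (f *ᵥ y) ≤ nsq y) (x : m → ℂ) :
    nsq (fᴴ *ᵥ x) ≤ nsq x := by
  set y := fᴴ *ᵥ x with hy
  have h1 : star y ⬝ᵥ y = star (f *ᵥ y) ⬝ᵥ x := by
    conv_lhs => rw [hy, star_dot_conj]
  have h2 := cs (f *ᵥ y) x
  rw [← h1, star_dot_self, Complex.norm_real, Real.norm_eq_abs, sq_abs] at h2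
  have h3 := h y
  have h4 := nsq_nonneg y
  have h5 := nsq_nonneg x
  rcases h4.eq_or_lt with h0 | h0
  · rw [← h0]; exact h5
  · have h6 : nsq y ^ 2 ≤ nsq y * nsq x := h2.trans (mul_le_mul_of_nonneg_right h3 h5)
    nlinarith

/-- conjugates of boundary functions of exterior functions of bounded type -/
lemma BT.conj_of_bdry {Φ : ℂ → Matrix m n ℂ} (hΦ : BoundedType Φ) {φ : ℂ → Matrix m n ℂ}
    (h : ∀ᵐ ζ ∂σ, HasBdryValue Φ ζ⁻¹ (φ ζ)) (i : m) (k : n) :
    BT (fun ζ => (starRingEnd ℂ) (φ ζ i k)) := by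
  obtain ⟨g, G, hd, hG, hb1, hGb, ⟨z0, hz0, hne⟩, hWG⟩ := hΦ.normalise
  have hmem : ∀ {z : ℂ}, z ∈ disc → (starRingEnd ℂ) z ∈ disc := by
    intro z hz
    simpa using hz
  let a : ℂ → ℂ := fun z => (starRingEnd ℂ) (G ((starRingEnd ℂ) z) i k)
  let b : ℂ → ℂ := fun z => (starRingEnd ℂ) (g ((starRingEnd ℂ) z))
  have ha : DifferentiableOn ℂ a disc := by
    intro z hz
    have h1 : DifferentiableAt ℂ (fun z => G z i k) ((starRingEnd ℂ) z) :=
      (hG _ (hmem hz) i k).differentiableAt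
    exact (differentiableAt_conj_conj_iff.2 h1).differentiableWithinAt
  have hbd : DifferentiableOn ℂ b disc := by
    intro z hz
    have h1 : DifferentiableAt ℂ g ((starRingEnd ℂ) z) :=
      (hd.analyticAt (isOpen_ball.mem_nhds (hmem hz))).differentiableAt
    exact (differentiableAt_conj_conj_iff.2 h1).differentiableWithinAt
  have ha1 : ∀ z ∈ disc, ‖a z‖ ≤ 1 := by
    intro z hz
    simp only [a, RCLike.norm_conj]
    exact hGb _ (hmem hz) i k
  have hb1' : ∀ z ∈ disc, ‖b z‖ ≤ 1 := by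
    intro z hz
    simp only [b, RCLike.norm_conj]
    exact hb1 _ (hmem hz)
  have hb0 : ∃ z ∈ disc, b z ≠ 0 := ⟨(starRingEnd ℂ) z0, hmem hz0, by simpa [b] using hne⟩
  obtain ⟨_, -, -, -, hlog⟩ := log_integrable hbd hb1' hb0
  refine ⟨a, b, ha, hbd, ha1, hb1', hb0, ?_⟩
  filter_upwards [fatou ha ha1, hlog, h, ae_norm] with ζ h1 h2 h3 hn
  obtain ⟨α, hα⟩ := h1
  obtain ⟨β, hβ, hβ0, -⟩ := h2
  refine ⟨α, β, hα, hβ, hβ0, ?_⟩
  have hinv : ζ⁻¹ = (starRingEnd ℂ) ζ := by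
    rw [Complex.inv_def, Complex.normSq_eq_norm_sq, hn]; simp
  have hc : Continuous (starRingEnd ℂ) := Complex.continuous_conj
  have e1 : Tendsto (fun r : ℝ => G (r * ζ⁻¹) i k) (𝓝[<] 1) (𝓝 ((starRingEnd ℂ) α)) := by
    have := (hc.tendsto α).comp hα
    refine this.congr fun r => ?_
    simp only [Function.comp, a, Complex.conj_conj, map_mul, Complex.conj_ofReal, hinv]
  have e2 : Tendsto (fun r : ℝ => g (r * ζ⁻¹)) (𝓝[<] 1) (𝓝 ((starRingEnd ℂ) β)) := by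
    have := (hc.tendsto β).comp hβ
    refine this.congr fun r => ?_
    simp only [Function.comp, b, Complex.conj_conj, map_mul, Complex.conj_ofReal, hinv]
  have hβ' : (starRingEnd ℂ) β ≠ 0 := by simpa using hβ0
  have e3 : Tendsto (fun r : ℝ => Φ (r * ζ⁻¹) i k) (𝓝[<] 1)
      (𝓝 (((starRingEnd ℂ) β)⁻¹ * (starRingEnd ℂ) α)) := by
    refine ((e2.inv₀ hβ').mul e1).congr' ?_
    filter_upwards [eventually_r, e2.eventually_ne hβ'] with r hr hr0
    have hz : (r : ℂ) * ζ⁻¹ ∈ disc := by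
      have : ‖ζ⁻¹‖ = 1 := by rw [norm_inv, hn, inv_one]
      simpa using norm_dilate hr.1 hr.2 this
    rw [hWG _ hz hr0]; rfl
  have e4 := tendsto_nhds_unique (tendsto_entries.1 h3 i k) e3
  rw [e4, map_mul, map_inv₀, Complex.conj_conj, Complex.conj_conj, ← mul_assoc,
    mul_inv_cancel₀ hβ0, one_mul]

lemma Kf.det {A : ℂ → Matrix m m ℂ} (hA : ∀ i j, Kf fun ζ => A ζ i j) :
    Kf fun ζ => (A ζ).det := by
  simp only [Matrix.det_apply']
  exact Kf.sum _ fun τ _ => (Kf.const _).mul (Kf.prod _ fun i _ => hA _ _)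

lemma Kf.minv {A : ℂ → Matrix m m ℂ} (hA : ∀ i j, Kf fun ζ => A ζ i j) (i j : m) :
    Kf fun ζ => (A ζ)⁻¹ i j := by
  simp only [inv_entry]
  apply (Kf.det hA).inv.mul
  apply Kf.det
  intro i' k'
  by_cases h : i' = j
  · subst h
    simp only [updateRow_self]
    exact Kf.const _
  · simp only [updateRow_ne h]
    exact hA i' k'

lemma Kf.mmul {a b c : Type*} [Fintype b] {A : ℂ → Matrix a b ℂ} {B : ℂ → Matrix b c ℂ}
    (hA : ∀ i j, Kf fun ζ => A ζ i j) (hB : ∀ i j, Kf fun ζ => B ζ i j) (i : a) (j : c) :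
    Kf fun ζ => (A ζ * B ζ) i j := by
  simp only [Matrix.mul_apply]
  exact Kf.sum _ fun k _ => (hA i k).mul (hB k j)

lemma Kf.mstar {a b : Type*} {A : ℂ → Matrix a b ℂ}
    (hA : ∀ i j, Kf fun ζ => A ζ i j) (i : b) (j : a) :
    Kf fun ζ => (A ζ)ᴴ i j := by
  simp only [conjTranspose_apply]
  exact (hA j i).conj

lemma AnalyticPt.adjugate {A : ℂ → Matrix m m ℂ} {z : ℂ} (hA : AnalyticPt A z) :
    AnalyticPt (fun w => (A w).adjugate) z := by
  intro i k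
  simp only [adjugate_apply]
  apply AnalyticPt.det
  intro i' k'
  by_cases h : i' = k
  · subst h
    simp only [updateRow_self]
    exact analyticAt_const
  · simp only [updateRow_ne h]
    exact hA i' k'

/-- numerator of the Potapov–Ginzburg transform -/
noncomputable def PGnum (S : Matrix (m ⊕ n) (m ⊕ n) ℂ) : Matrix (m ⊕ n) (m ⊕ n) ℂ :=
  fromBlocks (S.toBlocks₂₂.det • S.toBlocks₁₁ -
      S.toBlocks₁₂ * S.toBlocks₂₂.adjugate * S.toBlocks₂₁)
    (S.toBlocks₁₂ * S.toBlocks₂₂.adjugate) (-(S.toBlocks₂₂.adjugate * S.toBlocks₂₁))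
    S.toBlocks₂₂.adjugate

lemma PG_eq {S : Matrix (m ⊕ n) (m ⊕ n) ℂ} (hS : S.toBlocks₂₂.det ≠ 0) :
    PG S = (S.toBlocks₂₂.det)⁻¹ • PGnum S := by
  unfold PG PGnum
  rw [Matrix.inv_def, Ring.inverse_eq_inv', fromBlocks_smul]
  congr 1
  · rw [smul_sub, smul_smul, inv_mul_cancel₀ hS, one_smul]
    simp only [Matrix.mul_smul, Matrix.smul_mul]
  · rw [Matrix.mul_smul]
  · rw [smul_neg, Matrix.smul_mul]

lemma continuous_PGnum : Continuous (PGnum : Matrix (m ⊕ n) (m ⊕ n) ℂ → _) := by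
  have h11 : Continuous fun S : Matrix (m ⊕ n) (m ⊕ n) ℂ => S.toBlocks₁₁ :=
    continuous_matrix fun i j => continuous_id.matrix_elem _ _
  have h12 : Continuous fun S : Matrix (m ⊕ n) (m ⊕ n) ℂ => S.toBlocks₁₂ :=
    continuous_matrix fun i j => continuous_id.matrix_elem _ _
  have h21 : Continuous fun S : Matrix (m ⊕ n) (m ⊕ n) ℂ => S.toBlocks₂₁ :=
    continuous_matrix fun i j => continuous_id.matrix_elem _ _
  have h22 : Continuous fun S : Matrix (m ⊕ n) (m ⊕ n) ℂ => S.toBlocks₂₂ :=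
    continuous_matrix fun i j => continuous_id.matrix_elem _ _
  unfold PGnum
  apply Continuous.matrix_fromBlocks
  · exact (h22.matrix_det.smul h11).sub ((h12.matrix_mul h22.matrix_adjugate).matrix_mul h21)
  · exact h12.matrix_mul h22.matrix_adjugate
  · exact (h22.matrix_adjugate.matrix_mul h21).neg
  · exact h22.matrix_adjugate

lemma bound_of_continuous {F : Matrix n n ℂ → ℂ} (hF : Continuous F) :
    ∃ C : ℝ, ∀ S : Matrix n n ℂ, (∀ i k, ‖S i k‖ ≤ 1) → ‖F S‖ ≤ C := by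
  have hK : IsCompact (Set.univ.pi fun _ : n => Set.univ.pi fun _ : n =>
      closedBall (0 : ℂ) 1) :=
    isCompact_univ_pi fun _ => isCompact_univ_pi fun _ => isCompact_closedBall _ _
  obtain ⟨C, hC⟩ := hK.exists_bound_of_continuousOn (f := F) hF.continuousOn
  refine ⟨C, fun S hS => hC S ?_⟩
  intro i _ k _
  simpa using hS i k

lemma PGnum_bound : ∃ C : ℝ, ∀ S : Matrix (m ⊕ n) (m ⊕ n) ℂ, (∀ i k, ‖S i k‖ ≤ 1) →
    ∀ i k, ‖PGnum S i k‖ ≤ C := by
  have h1 : ∀ p : (m ⊕ n) × (m ⊕ n), ∃ C : ℝ, ∀ S : Matrix (m ⊕ n) (m ⊕ n) ℂ,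
      (∀ i k, ‖S i k‖ ≤ 1) → ‖PGnum S p.1 p.2‖ ≤ C := fun p =>
    bound_of_continuous (continuous_PGnum.matrix_elem p.1 p.2)
  choose C hC using h1
  refine ⟨∑ p, |C p|, fun S hS i k => (hC (i, k) S hS).trans ?_⟩
  exact (le_abs_self _).trans
    (Finset.single_le_sum (f := fun p => |C p|) (fun _ _ => abs_nonneg _) (Finset.mem_univ (i, k)))

lemma PGnum_analytic {S : ℂ → Matrix (m ⊕ n) (m ⊕ n) ℂ} {z : ℂ} (hS : AnalyticPt S z) :
    AnalyticPt (fun w => PGnum (S w)) z := by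
  have h11 := hS.b11
  have h12 := hS.b12
  have h21 := hS.b21
  have h22 := hS.b22
  have a := h22.adjugate
  intro i k
  unfold PGnum
  rcases i with i | i <;> rcases k with k | k
  · have := ((AnalyticPt.smul h22.det h11).add ((h12.mul a).mul h21).neg) i k
    simpa only [fromBlocks_apply₁₁, sub_eq_add_neg] using this
  · exact (h12.mul a) i k
  · exact (a.mul h21).neg i k
  · exact a i k

lemma tendsto_PG {α : Type*} {l : Filter α} {S : α → Matrix (m ⊕ n) (m ⊕ n) ℂ}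
    {L : Matrix (m ⊕ n) (m ⊕ n) ℂ} (hS : Tendsto S l (𝓝 L)) (hL : L.toBlocks₂₂.det ≠ 0) :
    Tendsto (fun x => PG (S x)) l (𝓝 (PG L)) := by
  have h1 : Tendsto (fun x => (S x).toBlocks₂₂.det) l (𝓝 L.toBlocks₂₂.det) :=
    ((continuous_id.matrix_det).tendsto L.toBlocks₂₂).comp (tendsto_b22 hS)
  have h2 : Tendsto (fun x => PGnum (S x)) l (𝓝 (PGnum L)) :=
    (continuous_PGnum.tendsto L).comp hS
  rw [PG_eq hL]
  refine ((h1.inv₀ hL).smul h2).congr' ?_
  filter_upwards [h1.eventually_ne hL] with x hx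
  exact (PG_eq hx).symm

/-- The Potapov–Ginzburg transform of a contractive holomorphic function with unitary boundary
values is `j`-inner. -/
theorem PG_JInner {S : ℂ → Matrix (m ⊕ n) (m ⊕ n) ℂ} (hSa : ∀ z ∈ disc, AnalyticPt S z)
    (hSc : ∀ z ∈ disc, ∀ v, nsq (S z *ᵥ v) ≤ nsq v)
    (hbd : ∀ᵐ ζ ∂σ, ∃ L, HasBdryValue S ζ L ∧ Lᴴ * L = 1 ∧ L.toBlocks₁₁.det ≠ 0 ∧
      L.toBlocks₂₂.det ≠ 0) :
    JInner (fun z => PG (S z)) ∧ IsEta (fun z => PG (S z)) (fun z => (S z).toBlocks₁₂) := by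
  obtain ⟨z0, hz0, h11, h22⟩ : ∃ z ∈ disc, (S z).toBlocks₁₁.det ≠ 0 ∧
      (S z).toBlocks₂₂.det ≠ 0 := by
    have hne : NeBot (ae σ) := by
      rw [ae_neBot]
      exact IsProbabilityMeasure.ne_zero _
    obtain ⟨ζ, ⟨L, hL, -, hL11, hL22⟩, hn⟩ := (hbd.and ae_norm).exists
    have h1 : Tendsto (fun r : ℝ => (S (r * ζ)).toBlocks₂₂.det) (𝓝[<] 1) (𝓝 L.toBlocks₂₂.det) :=
      ((continuous_id.matrix_det).tendsto L.toBlocks₂₂).comp (tendsto_b22 hL)
    have h2 : Tendsto (fun r : ℝ => (S (r * ζ)).toBlocks₁₁.det) (𝓝[<] 1) (𝓝 L.toBlocks₁₁.det) :=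
      ((continuous_id.matrix_det).tendsto L.toBlocks₁₁).comp (tendsto_b11 hL)
    obtain ⟨r, ⟨hr2, hr1⟩, hr⟩ :=
      (((h1.eventually_ne hL22).and (h2.eventually_ne hL11)).and eventually_r).exists
    exact ⟨_, dil_mem ⟨hr.1, hr.2⟩ hn, hr1, hr2⟩
  have hentry : ∀ z ∈ disc, ∀ i k, ‖S z i k‖ ≤ 1 := by
    intro z hz i k
    refine entry_le_of_contr zero_le_one (fun k => ?_) i k
    have := hSc z hz (Pi.single k 1)
    rw [nsq_single] at this
    simpa using this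
  let h : ℂ → ℂ := fun z => (S z).toBlocks₂₂.det
  have hd : DifferentiableOn ℂ h disc := fun z hz =>
    ((hSa z hz).b22.det).differentiableAt.differentiableWithinAt
  have hne : ∃ z ∈ disc, h z ≠ 0 := ⟨z0, hz0, h22⟩
  obtain ⟨C, hC⟩ := PGnum_bound (m := m) (n := n)
  obtain ⟨C', hC'⟩ := bound_of_continuous (F := fun S : Matrix n n ℂ => S.det)
    continuous_id.matrix_det
  have hGa : ∀ z ∈ disc, AnalyticPt (fun z => PGnum (S z)) z := fun z hz =>
    PGnum_analytic (hSa z hz)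
  have hrep : ∀ z ∈ disc, h z ≠ 0 → PG (S z) = (h z)⁻¹ • PGnum (S z) := fun z _ hz0 => PG_eq hz0
  have hjc : ∀ z ∈ disc, AnalyticPt (fun z => PG (S z)) z → JC (PG (S z)) := by
    intro z hz hA
    rw [jc_iff_vec]
    intro v
    have hcont : ContinuousAt (fun y => nsq ((PG (S y) *ᵥ v) ∘ Sum.inl)
        - nsq ((PG (S y) *ᵥ v) ∘ Sum.inr)) z := by
      have h1 : Continuous fun M : Matrix (m ⊕ n) (m ⊕ n) ℂ => nsq ((M *ᵥ v) ∘ Sum.inl)
          - nsq ((M *ᵥ v) ∘ Sum.inr) := by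
        unfold nsq
        simp only [Function.comp]
        fun_prop
      exact ContinuousAt.comp (f := fun y => PG (S y)) h1.continuousAt (continuousAt_entries hA)
    refine le_of_ev hcont continuousAt_const ?_
    filter_upwards [ev_ne hd hne hz] with y hy
    exact (jc_iff_vec _).1 (PG_JC (isUnit_iff_ne_zero.2 hy.2) (hSc y hy.1)) v
  refine ⟨⟨?_, ?_, ?_, ?_⟩, ?_, ?_⟩
  · refine ⟨h, fun z => PGnum (S z), max C' C, hd, analyticPt_iff.2 hGa, fun z hz => ⟨?_, ?_⟩, hne,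
      hrep⟩
    · exact (hC' _ fun i k => hentry z hz _ _).trans (le_max_left _ _)
    · intro i k
      exact (hC _ (hentry z hz) i k).trans (le_max_right _ _)
  · exact ⟨z0, hz0, repr_analytic hd hGa hrep hz0 h22, PG_det (isUnit_iff_ne_zero.2 h22) h11⟩
  · intro z hz hA
    exact (jc_iff _).2 (hjc z hz hA)
  · filter_upwards [hbd] with ζ hζ
    obtain ⟨L, hL, hLu, -, hL22⟩ := hζ
    exact ⟨PG L, tendsto_PG hL hL22, PG_JU (isUnit_iff_ne_zero.2 hL22) hLu⟩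
  · exact analyticPt_iff.2 fun z hz => (hSa z hz).b12
  · intro z hz hA
    have hu := (hjc z hz hA).isUnit22
    have hc := continuousAt_entries hA
    refine eq_of_ev (φ := fun z => (S z).toBlocks₁₂)
      (ψ := fun z => (PG (S z)).toBlocks₁₂ * ((PG (S z)).toBlocks₂₂)⁻¹)
      (continuousAt_entries (hSa z hz).b12)
      (tendsto_mmul (tendsto_b12 hc) (tendsto_minv (tendsto_b22 hc) hu.ne_zero)) ?_
    filter_upwards [ev_ne hd hne hz] with y hy
    have hyu : IsUnit (S y).toBlocks₂₂.det := isUnit_iff_ne_zero.2 hy.2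
    simp only [PG, toBlocks_fromBlocks₁₂, toBlocks_fromBlocks₂₂]
    rw [nonsing_inv_nonsing_inv _ hyu, Matrix.mul_assoc, nonsing_inv_mul _ hyu, Matrix.mul_one]

/-- **Arov**: a Schur function with a pseudocontinuation and `log det (I - f f*)` integrable is
`η_W` for some `W ∈ 𝒰(p,q)`. -/
theorem arov_exists {f : ℂ → Matrix m n ℂ} (hS : IsSchur f) (hP : HasPseudocontinuation f)
    (hD : LogDetIntegrable f) : ∃ W : ℂ → Matrix (m ⊕ n) (m ⊕ n) ℂ, JInner W ∧ IsEta W f := by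
  obtain ⟨F, hF, hFdet, -⟩ := hD
  obtain ⟨Φ, hΦ, hΦb⟩ := hP
  have hΦF : ∀ᵐ ζ ∂σ, HasBdryValue Φ ζ⁻¹ (F ζ) := by
    filter_upwards [hF, hΦb] with ζ h1 h2
    obtain ⟨L, hL, hL'⟩ := h2
    have : F ζ = L := tendsto_nhds_unique h1 hL
    rw [this]; exact hL'
  have hfc : ∀ z ∈ disc, ∀ y, nsq (f z *ᵥ y) ≤ nsq y := fun z hz =>
    (one_sub_iff _).1 (hS.2 z hz)
  have hfe : ∀ z ∈ disc, ∀ i k, ‖f z i k‖ ≤ 1 := by
    intro z hz i k
    refine entry_le_of_contr zero_le_one (fun k => ?_) i k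
    have := hfc z hz (Pi.single k 1)
    rw [nsq_single] at this
    simpa using this
  have hfK : ∀ i k, Kf fun ζ => F ζ i k := fun i k =>
    ⟨BT.of_bounded (hS.1 i k) (fun z hz => hfe z hz i k)
      (hF.mono fun ζ hζ => tendsto_entries.1 hζ i k), BT.conj_of_bdry hΦ hΦF i k⟩
  have hcontr : ∀ᵐ ζ ∂σ, ∀ y, nsq (F ζ *ᵥ y) ≤ nsq y := by
    filter_upwards [hF, ae_norm] with ζ h1 hn y
    apply le_of_tendsto (tendsto_nsq h1 y)
    filter_upwards [eventually_r] with r hr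
    exact hfc _ (dil_mem ⟨hr.1, hr.2⟩ hn) y
  have hpos1 : ∀ᵐ ζ ∂σ, (1 - F ζ * (F ζ)ᴴ).PosDef := by
    filter_upwards [hcontr, hFdet] with ζ h1 h2
    have h3 : (1 - F ζ * (F ζ)ᴴ).PosSemidef := by
      have := (one_sub_iff (F ζ)ᴴ).2 (contr_star h1)
      rwa [conjTranspose_conjTranspose] at this
    exact h3.posDef_iff_det_ne_zero.2 h2
  have hpos2 : ∀ᵐ ζ ∂σ, (1 - (F ζ)ᴴ * F ζ).PosDef := by
    filter_upwards [hcontr, hFdet] with ζ h1 h2
    have h3 : (1 - (F ζ)ᴴ * F ζ).PosSemidef := (one_sub_iff (F ζ)).2 h1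
    rw [h3.posDef_iff_det_ne_zero, ← det_one_sub_mul_comm]
    exact h2
  have hM1 : ∀ i j, Kf fun ζ => ((1 : Matrix m m ℂ) - F ζ * (F ζ)ᴴ) i j := by
    intro i j
    simp only [Matrix.sub_apply]
    exact (Kf.const _).sub (Kf.mmul hfK (Kf.mstar hfK) i j)
  have hM2 : ∀ i j, Kf fun ζ => ((1 : Matrix n n ℂ) - (F ζ)ᴴ * F ζ) i j := by
    intro i j
    simp only [Matrix.sub_apply]
    exact (Kf.const _).sub (Kf.mmul (Kf.mstar hfK) hfK i j)
  obtain ⟨R1, hR1, hR1e⟩ := Kf.cholesky (fun ζ => (1 : Matrix m m ℂ) - F ζ * (F ζ)ᴴ) hM1 hpos1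
  obtain ⟨R2, hR2, hR2e⟩ := Kf.cholesky (fun ζ => (1 : Matrix n n ℂ) - (F ζ)ᴴ * F ζ) hM2 hpos2
  let S0 : ℂ → Matrix (m ⊕ n) (m ⊕ n) ℂ := fun ζ =>
    fromBlocks (R1 ζ)ᴴ (F ζ) (-(R2 ζ * (F ζ)ᴴ * (R1 ζ)⁻¹)) (R2 ζ)
  have hS0 : ∀ i j, Kf fun ζ => S0 ζ i j := by
    intro i j
    rcases i with i | i <;> rcases j with j | j
    · exact Kf.mstar hR1 i j
    · exact hfK i j
    · exact (Kf.mmul (Kf.mmul hR2 (Kf.mstar hfK)) (Kf.minv hR1) i j).neg
    · exact hR2 i j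
  have hS0u : ∀ᵐ ζ ∂σ, (S0 ζ)ᴴ * S0 ζ = 1 ∧ (S0 ζ).toBlocks₁₁.det ≠ 0 ∧
      (S0 ζ).toBlocks₂₂.det ≠ 0 := by
    filter_upwards [hpos1, hpos2, hR1e, hR2e] with ζ h1 h2 h3 h4
    have hd1 : (R1 ζ).det ≠ 0 := by
      intro h0
      have h5 := congrArg Matrix.det h3
      rw [det_mul, h0, mul_zero] at h5
      exact (h1.isUnit.map Matrix.detMonoidHom).ne_zero h5.symm
    have hd2 : (R2 ζ).det ≠ 0 := by
      intro h0
      have h5 := congrArg Matrix.det h4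
      rw [det_mul, h0, mul_zero] at h5
      exact (h2.isUnit.map Matrix.detMonoidHom).ne_zero h5.symm
    refine ⟨?_, ?_, ?_⟩
    · rw [mul_eq_one_comm]
      exact sigma_unitary h3 h4 (isUnit_iff_ne_zero.2 hd1) (isUnit_iff_ne_zero.2 hd2)
    · simp only [S0, toBlocks_fromBlocks₁₁, det_conjTranspose]
      simpa using hd1
    · simpa only [S0, toBlocks_fromBlocks₂₂] using hd2
  obtain ⟨θ, hθ, hden⟩ := exists_common_den (Finset.univ : Finset ((m ⊕ n) × (m ⊕ n)))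
    (φ := fun p ζ => S0 ζ p.1 p.2) (fun p _ => (hS0 p.1 p.2).1) (fun p _ => by
      filter_upwards [hS0u] with ζ hζ
      exact entry_of_unitary hζ.1 _ _)
  have hden' : ∀ p : (m ⊕ n) × (m ⊕ n), Den θ (fun ζ => S0 ζ p.1 p.2) :=
    fun p => hden p (Finset.mem_univ p)
  choose s hs hs1 hsb using hden'
  let T : ℂ → Matrix (m ⊕ n) (m ⊕ n) ℂ := fun z => Matrix.of fun i j => s (i, j) z
  have hTa : ∀ z ∈ disc, AnalyticPt T z := fun z hz i k =>
    (hs (i, k)).analyticAt (isOpen_ball.mem_nhds hz)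
  let S : ℂ → Matrix (m ⊕ n) (m ⊕ n) ℂ := fun z =>
    fromBlocks (T z).toBlocks₁₁ (f z) (θ z • (T z).toBlocks₂₁) (T z).toBlocks₂₂
  have hSa : ∀ z ∈ disc, AnalyticPt S z := by
    intro z hz i k
    rcases i with i | i <;> rcases k with k | k
    · exact (hTa z hz).b11 i k
    · exact (hS.1 i k).analyticAt (isOpen_ball.mem_nhds hz)
    · exact (AnalyticPt.smul (hθ.diff.analyticAt (isOpen_ball.mem_nhds hz)) (hTa z hz).b21) i k
    · exact (hTa z hz).b22 i k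
  have hS1 : ∀ z ∈ disc, ∀ i k, ‖S z i k‖ ≤ 1 := by
    intro z hz i k
    rcases i with i | i <;> rcases k with k | k
    · exact hs1 _ z hz
    · exact hfe z hz i k
    · have : S z (Sum.inr i) (Sum.inl k) = θ z * s (Sum.inr i, Sum.inl k) z := rfl
      rw [this, norm_mul]
      exact mul_le_one₀ (hθ.bound z hz) (norm_nonneg _) (hs1 _ z hz)
    · exact hs1 _ z hz
  have hSb : ∀ᵐ ζ ∂σ, ∃ L, HasBdryValue S ζ L ∧ Lᴴ * L = 1 ∧ L.toBlocks₁₁.det ≠ 0 ∧
      L.toBlocks₂₂.det ≠ 0 := by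
    filter_upwards [ae_all_iff.2 hsb, hθ.boundary, hF, hS0u] with ζ h1 h2 h3 h4
    obtain ⟨t, ht, ht1⟩ := h2
    obtain ⟨h4u, h4a, h4b⟩ := h4
    have ht0 : t ≠ 0 := by
      intro h0; rw [h0, norm_zero] at ht1; exact zero_ne_one ht1
    have hT : Tendsto (fun r : ℝ => T (r * ζ)) (𝓝[<] 1) (𝓝 (t • S0 ζ)) := by
      rw [tendsto_entries]
      intro i k
      obtain ⟨t', ht', hs'⟩ := h1 (i, k)
      have : t' = t := tendsto_nhds_unique ht' ht
      rw [this] at hs'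
      exact hs'
    refine ⟨_, ?_, unitary_scale h4u ht1, ?_, ?_⟩
    · unfold HasBdryValue
      rw [tendsto_entries]
      intro i k
      rcases i with i | i <;> rcases k with k | k
      · exact tendsto_entries.1 (tendsto_b11 hT) i k
      · exact tendsto_entries.1 h3 i k
      · have h5 := ht.mul (tendsto_entries.1 (tendsto_b21 hT) i k)
        have e : ((t * t) • (S0 ζ).toBlocks₂₁) i k = t * ((t • S0 ζ).toBlocks₂₁ i k) := by
          rw [Matrix.smul_apply, smul_eq_mul, mul_assoc]; rfl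
        simp only [fromBlocks_apply₂₁]
        rw [e]
        exact h5
      · exact tendsto_entries.1 (tendsto_b22 hT) i k
    · rw [toBlocks_fromBlocks₁₁, det_smul]
      exact mul_ne_zero (pow_ne_zero _ ht0) h4a
    · rw [toBlocks_fromBlocks₂₂, det_smul]
      exact mul_ne_zero (pow_ne_zero _ ht0) h4b
  have hSc := maj_bounded_form hSa (MajM.of_bound hS1) (by
    filter_upwards [hSb] with ζ hζ
    obtain ⟨L, hL, hLu, -⟩ := hζ
    exact ⟨L, hL, fun y => (nsq_of_unitary hLu y).le⟩)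
  obtain ⟨hW, hE⟩ := PG_JInner hSa hSc hSb
  refine ⟨_, hW, ?_⟩
  simpa only [S, toBlocks_fromBlocks₁₂] using hE

end Pool.Agent.RegJ
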