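import Pool.Agent.RegJ.Arov

open Filter Topology Complex MeasureTheory Set Matrix Metric
open scoped Real ENNReal ComplexOrder

namespace Pool.Agent.RegJ

variable {m n : Type*} [Fintype m] [DecidableEq m] [Fintype n] [DecidableEq n]

set_option linter.unusedSectionVars false

/-- boundary function of a bounded holomorphic function, with integrable logarithm -/
lemma log_bdry {b : ℂ → ℂ} (hb : DifferentiableOn ℂ b disc) (hb1 : ∀ z ∈ disc, ‖b z‖ ≤ 1)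
    (hb0 : ∃ z ∈ disc, b z ≠ 0) :
    ∃ H : ℂ → ℂ, (∀ᵐ ζ ∂σ, HasBdryValue b ζ (H ζ) ∧ H ζ ≠ 0) ∧
      Integrable (fun ζ => Real.log ‖H ζ‖) σ := by
  obtain ⟨g, hgm, hgi, hg0, hgb⟩ := log_integrable hb hb1 hb0
  let H : ℂ → ℂ := fun ζ => limUnder atTop fun n => b (rad n * ζ)
  have hH : ∀ᵐ ζ ∂σ, HasBdryValue b ζ (H ζ) ∧ H ζ ≠ 0 ∧ -Real.log ‖H ζ‖ ≤ g ζ := by
    filter_upwards [hgb] with ζ hζ
    obtain ⟨L, hL, hL0, hLg⟩ := hζ
    have h1 := hL.comp tendsto_rad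
    have h2 : H ζ = L := tendsto_nhds_unique (tendsto_nhds_limUnder ⟨L, h1⟩) h1
    rw [h2]; exact ⟨hL, hL0, hLg⟩
  have hH1 : ∀ᵐ ζ ∂σ, ‖H ζ‖ ≤ 1 := by
    filter_upwards [hH, ae_norm] with ζ h1 h2
    apply le_of_tendsto h1.1.norm
    filter_upwards [eventually_r] with r hr
    exact hb1 _ (by simpa using norm_dilate hr.1 hr.2 h2)
  have hHm : AEStronglyMeasurable H σ := by
    apply aestronglyMeasurable_of_tendsto_ae atTop (f := fun n (ζ : ℂ) => b (rad n * ζ))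
    · intro n
      exact aesm_of_continuousOn (continuousOn_dilate hb.continuousOn (rad_pos n).le (rad_lt n))
    · filter_upwards [hH] with ζ hζ
      exact hζ.1.comp tendsto_rad
  have hlm : AEStronglyMeasurable (fun ζ => Real.log ‖H ζ‖) σ :=
    (Real.measurable_log.comp_aemeasurable hHm.norm.aemeasurable).aestronglyMeasurable
  refine ⟨H, hH.mono fun ζ hζ => ⟨hζ.1, hζ.2.1⟩, ?_⟩
  apply hgi.mono' hlm
  filter_upwards [hH, hH1] with ζ h1 h2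
  rw [Real.norm_eq_abs, abs_of_nonpos (Real.log_nonpos (norm_nonneg _) h2)]
  exact h1.2.2

lemma JU.blocks {L : Matrix (m ⊕ n) (m ⊕ n) ℂ} (hL : JU L) :
    L.toBlocks₁₁ᴴ * L.toBlocks₁₂ = L.toBlocks₂₁ᴴ * L.toBlocks₂₂ ∧
    L.toBlocks₂₂ᴴ * L.toBlocks₂₂ - L.toBlocks₁₂ᴴ * L.toBlocks₁₂ = 1 := by
  have h := hL
  unfold JU at h
  rw [← fromBlocks_toBlocks L, sgnMat, fromBlocks_conjTranspose, fromBlocks_multiply,
    fromBlocks_multiply, fromBlocks_inj] at h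
  obtain ⟨-, h12, -, h22⟩ := h
  simp only [Matrix.mul_one, Matrix.mul_zero, add_zero, zero_add, Matrix.mul_neg,
    Matrix.neg_mul] at h12 h22
  constructor
  · exact add_neg_eq_zero.1 h12
  · have := congrArg (fun M => -M) h22
    simp only [neg_add, neg_neg] at this
    rw [← this]; abel

lemma JU.isUnit11 {L : Matrix (m ⊕ n) (m ⊕ n) ℂ} (hL : JU L) : IsUnit L.toBlocks₁₁.det :=
  isUnit_of_nsq_le fun x => by
    have := hL.eq x 0
    simp only [mulVec_zero, add_zero, nsq_zero] at this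
    rw [this]
    linarith [nsq_nonneg (L.toBlocks₂₁ *ᵥ x)]

/-- `det (I - F F*) = |det L₂₂|⁻²` -/
lemma JU.det_eq {L : Matrix (m ⊕ n) (m ⊕ n) ℂ} (hL : JU L) :
    (1 - (L.toBlocks₁₂ * L.toBlocks₂₂⁻¹) * (L.toBlocks₁₂ * L.toBlocks₂₂⁻¹)ᴴ).det
      = (((‖L.toBlocks₂₂.det‖ ^ 2)⁻¹ : ℝ) : ℂ) := by
  have hu := hL.jc.isUnit22
  rw [det_one_sub_mul_comm]
  have e : 1 - (L.toBlocks₁₂ * L.toBlocks₂₂⁻¹)ᴴ * (L.toBlocks₁₂ * L.toBlocks₂₂⁻¹)
      = (L.toBlocks₂₂⁻¹)ᴴ * L.toBlocks₂₂⁻¹ := by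
    have hi : L.toBlocks₂₂ * L.toBlocks₂₂⁻¹ = 1 := mul_nonsing_inv _ hu
    have hi2 : (L.toBlocks₂₂⁻¹)ᴴ * L.toBlocks₂₂ᴴ = 1 := by
      rw [← conjTranspose_mul, hi, conjTranspose_one]
    calc 1 - (L.toBlocks₁₂ * L.toBlocks₂₂⁻¹)ᴴ * (L.toBlocks₁₂ * L.toBlocks₂₂⁻¹)
        = ((L.toBlocks₂₂⁻¹)ᴴ * L.toBlocks₂₂ᴴ) * (L.toBlocks₂₂ * L.toBlocks₂₂⁻¹)
          - (L.toBlocks₁₂ * L.toBlocks₂₂⁻¹)ᴴ * (L.toBlocks₁₂ * L.toBlocks₂₂⁻¹) := by
          rw [hi, hi2, Matrix.one_mul]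
      _ = (L.toBlocks₂₂⁻¹)ᴴ * (L.toBlocks₂₂ᴴ * L.toBlocks₂₂ - L.toBlocks₁₂ᴴ * L.toBlocks₁₂) *
          L.toBlocks₂₂⁻¹ := by
          rw [conjTranspose_mul]
          simp only [Matrix.mul_sub, Matrix.sub_mul, Matrix.mul_assoc]
      _ = _ := by rw [hL.blocks.2, Matrix.mul_one]
  rw [e, det_mul, det_conjTranspose, det_nonsing_inv, Ring.inverse_eq_inv', RCLike.star_def,
    map_inv₀, ← mul_inv, ← Complex.normSq_eq_conj_mul_self, Complex.normSq_eq_norm_sq]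
  push_cast; rfl

lemma bound_of_continuous' {a b : Type*} [Fintype a] [Fintype b]
    {F : Matrix (m ⊕ n) (m ⊕ n) ℂ → Matrix a b ℂ} (hF : Continuous F) :
    ∃ C : ℝ, ∀ S : Matrix (m ⊕ n) (m ⊕ n) ℂ, (∀ i k, ‖S i k‖ ≤ 1) → ∀ i k, ‖F S i k‖ ≤ C := by
  have h1 : ∀ p : a × b, ∃ C : ℝ, ∀ S : Matrix (m ⊕ n) (m ⊕ n) ℂ,
      (∀ i k, ‖S i k‖ ≤ 1) → ‖F S p.1 p.2‖ ≤ C := fun p =>
    bound_of_continuous (hF.matrix_elem p.1 p.2)
  choose C hC using h1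
  refine ⟨∑ p, |C p|, fun S hS i k => (hC (i, k) S hS).trans ?_⟩
  exact (le_abs_self _).trans
    (Finset.single_le_sum (f := fun p => |C p|) (fun _ _ => abs_nonneg _) (Finset.mem_univ (i, k)))

/-- the pseudocontinuation of `η_W` -/
lemma pseudo_of_bdry {G : ℂ → Matrix (m ⊕ n) (m ⊕ n) ℂ} (hG : ∀ z ∈ disc, AnalyticPt G z)
    (hGb : ∀ z ∈ disc, ∀ i k, ‖G z i k‖ ≤ 1) {P : ℂ → Matrix (m ⊕ n) (m ⊕ n) ℂ} {η : ℂ → ℂ}
    (hP : ∀ᵐ ζ ∂σ, JU (P ζ) ∧ η ζ ≠ 0 ∧ HasBdryValue G ζ (η ζ • P ζ)) :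
    ∃ Φ : ℂ → Matrix m n ℂ, BoundedType Φ ∧
      ∀ᵐ ζ ∂σ, HasBdryValue Φ ζ⁻¹ ((P ζ).toBlocks₁₂ * ((P ζ).toBlocks₂₂)⁻¹) := by
  have hne' : NeBot (ae σ) := by
    rw [ae_neBot]
    exact IsProbabilityMeasure.ne_zero _
  have hmem : ∀ {z : ℂ}, z ∈ disc → (starRingEnd ℂ) z ∈ disc := by
    intro z hz
    simpa using hz
  let d : ℂ → ℂ := fun z => (G z).toBlocks₁₁.det
  let K : ℂ → Matrix n m ℂ := fun z => (G z).toBlocks₂₁ * (G z).toBlocks₁₁.adjugate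
  let b : ℂ → ℂ := fun z => (starRingEnd ℂ) (d ((starRingEnd ℂ) z))
  let Kc : ℂ → Matrix m n ℂ := fun z => (K ((starRingEnd ℂ) z))ᴴ
  have hda : ∀ z ∈ disc, AnalyticAt ℂ d z := fun z hz => (hG z hz).b11.det
  have hKa : ∀ z ∈ disc, AnalyticPt K z := fun z hz => (hG z hz).b21.mul (hG z hz).b11.adjugate
  have hbdiff : DifferentiableOn ℂ b disc := fun z hz =>
    (differentiableAt_conj_conj_iff.2 (hda _ (hmem hz)).differentiableAt).differentiableWithinAt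
  have hKcd : ∀ i k, DifferentiableOn ℂ (fun z => Kc z i k) disc := fun i k z hz =>
    (differentiableAt_conj_conj_iff.2 (hKa _ (hmem hz) k i).differentiableAt).differentiableWithinAt
  have h11 : Continuous fun S : Matrix (m ⊕ n) (m ⊕ n) ℂ => S.toBlocks₁₁ :=
    continuous_matrix fun i j => continuous_id.matrix_elem _ _
  have h21 : Continuous fun S : Matrix (m ⊕ n) (m ⊕ n) ℂ => S.toBlocks₂₁ :=
    continuous_matrix fun i j => continuous_id.matrix_elem _ _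
  obtain ⟨C, hC⟩ := bound_of_continuous
    (F := fun S : Matrix (m ⊕ n) (m ⊕ n) ℂ => S.toBlocks₁₁.det) h11.matrix_det
  obtain ⟨C', hC'⟩ := bound_of_continuous'
    (F := fun S : Matrix (m ⊕ n) (m ⊕ n) ℂ => S.toBlocks₂₁ * S.toBlocks₁₁.adjugate)
    (h21.matrix_mul h11.matrix_adjugate)
  have hlim : ∀ᵐ ζ ∂σ, Tendsto (fun r : ℝ => d (r * ζ)) (𝓝[<] 1)
        (𝓝 ((η ζ • P ζ).toBlocks₁₁.det)) ∧
      Tendsto (fun r : ℝ => K (r * ζ)) (𝓝[<] 1)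
        (𝓝 ((η ζ • P ζ).toBlocks₂₁ * (η ζ • P ζ).toBlocks₁₁.adjugate)) ∧
      (η ζ • P ζ).toBlocks₁₁.det ≠ 0 := by
    filter_upwards [hP] with ζ h1
    obtain ⟨hu, hη0, hb⟩ := h1
    refine ⟨?_, ?_, ?_⟩
    · exact ((h11.matrix_det).tendsto (η ζ • P ζ)).comp hb
    · exact ((h21.matrix_mul h11.matrix_adjugate).tendsto (η ζ • P ζ)).comp hb
    · have e : (η ζ • P ζ).toBlocks₁₁ = η ζ • (P ζ).toBlocks₁₁ := rfl
      rw [e, det_smul]
      exact mul_ne_zero (pow_ne_zero _ hη0) hu.isUnit11.ne_zero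
  have hb0 : ∃ z ∈ disc, b z ≠ 0 := by
    obtain ⟨ζ, ⟨h1, -, h2⟩, hn⟩ := (hlim.and ae_norm).exists
    obtain ⟨r, hr1, hr⟩ := ((h1.eventually_ne h2).and eventually_r).exists
    refine ⟨(starRingEnd ℂ) (r * ζ), hmem (dil_mem ⟨hr.1, hr.2⟩ hn), ?_⟩
    simp only [b, Complex.conj_conj]
    simpa using hr1
  refine ⟨fun z => (b z)⁻¹ • Kc z, ⟨b, Kc, max C C', hbdiff, hKcd, fun z hz => ⟨?_, ?_⟩, hb0,
    fun z _ _ => rfl⟩, ?_⟩
  · simp only [b, RCLike.norm_conj]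
    exact (hC _ fun i k => hGb _ (hmem hz) _ _).trans (le_max_left _ _)
  · intro i k
    simp only [Kc, conjTranspose_apply, norm_star]
    exact (hC' _ (fun i k => hGb _ (hmem hz) _ _) _ _).trans (le_max_right _ _)
  · filter_upwards [hlim, hP, ae_norm] with ζ h1 h2 hn
    obtain ⟨hd, hK, hd0⟩ := h1
    obtain ⟨hu, hη0, -⟩ := h2
    have hinv : ζ⁻¹ = (starRingEnd ℂ) ζ := by
      rw [Complex.inv_def, Complex.normSq_eq_norm_sq, hn]; simp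
    have hc : Continuous (starRingEnd ℂ) := Complex.continuous_conj
    set Γ := η ζ • P ζ with hΓ
    have hd0' : (starRingEnd ℂ) Γ.toBlocks₁₁.det ≠ 0 := by simpa using hd0
    have e1 : Tendsto (fun r : ℝ => b (r * ζ⁻¹)) (𝓝[<] 1)
        (𝓝 ((starRingEnd ℂ) Γ.toBlocks₁₁.det)) := by
      refine ((hc.tendsto _).comp hd).congr fun r => ?_
      simp only [Function.comp, b, Complex.conj_conj, map_mul, Complex.conj_ofReal, hinv]
    have e2 : Tendsto (fun r : ℝ => Kc (r * ζ⁻¹)) (𝓝[<] 1)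
        (𝓝 (Γ.toBlocks₂₁ * Γ.toBlocks₁₁.adjugate)ᴴ) := by
      have hcs : Continuous fun M : Matrix n m ℂ => Mᴴ := continuous_id.matrix_conjTranspose
      refine ((hcs.tendsto _).comp hK).congr fun r => ?_
      simp only [Function.comp, Kc, map_mul, Complex.conj_conj, Complex.conj_ofReal, hinv]
    have e3 := (e1.inv₀ hd0').smul e2
    have e4 : ((starRingEnd ℂ) Γ.toBlocks₁₁.det)⁻¹ • (Γ.toBlocks₂₁ * Γ.toBlocks₁₁.adjugate)ᴴ
        = (P ζ).toBlocks₁₂ * ((P ζ).toBlocks₂₂)⁻¹ := by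
      have hΓu : IsUnit Γ.toBlocks₁₁.det := isUnit_iff_ne_zero.2 hd0
      have h3 : ((starRingEnd ℂ) Γ.toBlocks₁₁.det)⁻¹ • (Γ.toBlocks₂₁ * Γ.toBlocks₁₁.adjugate)ᴴ
          = (Γ.toBlocks₁₁⁻¹)ᴴ * Γ.toBlocks₂₁ᴴ := by
        rw [Matrix.inv_def, Ring.inverse_eq_inv', conjTranspose_smul, conjTranspose_mul,
          Matrix.smul_mul, RCLike.star_def, map_inv₀]
      have h4 : Γ.toBlocks₁₁ᴴ * ((P ζ).toBlocks₁₂ * ((P ζ).toBlocks₂₂)⁻¹) = Γ.toBlocks₂₁ᴴ := by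
        have e5 : Γ.toBlocks₁₁ᴴ = (starRingEnd ℂ) (η ζ) • (P ζ).toBlocks₁₁ᴴ := by
          have : Γ.toBlocks₁₁ = η ζ • (P ζ).toBlocks₁₁ := rfl
          rw [this, conjTranspose_smul]; rfl
        have e6 : Γ.toBlocks₂₁ᴴ = (starRingEnd ℂ) (η ζ) • (P ζ).toBlocks₂₁ᴴ := by
          have : Γ.toBlocks₂₁ = η ζ • (P ζ).toBlocks₂₁ := rfl
          rw [this, conjTranspose_smul]; rfl
        rw [e5, e6, Matrix.smul_mul, ← Matrix.mul_assoc, hu.blocks.1, Matrix.mul_assoc,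
          mul_nonsing_inv _ hu.jc.isUnit22, Matrix.mul_one]
      have h5 : (Γ.toBlocks₁₁⁻¹)ᴴ * Γ.toBlocks₁₁ᴴ = 1 := by
        rw [← conjTranspose_mul, mul_nonsing_inv _ hΓu, conjTranspose_one]
      rw [h3, ← h4, ← Matrix.mul_assoc, h5, Matrix.one_mul]
    rw [← e4]
    exact e3

theorem arov_nec {W : ℂ → Matrix (m ⊕ n) (m ⊕ n) ℂ} (hW : JInner W) {f : ℂ → Matrix m n ℂ}
    (hf : IsEta W f) : IsSchur f ∧ HasPseudocontinuation f ∧ LogDetIntegrable f := by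
  obtain ⟨h, G, hd, hG, hb1, hGb, hne, hWG⟩ := hW.boundedType.normalise
  have hWa : ∀ z ∈ disc, h z ≠ 0 → AnalyticPt W z := fun z hz h0 =>
    repr_analytic hd hG hWG hz h0
  have hWc : ∀ z ∈ disc, h z ≠ 0 → JC (W z) := fun z hz h0 =>
    (jc_iff _).1 (hW.contractive z hz (hWa z hz h0))
  have hfa : ∀ z ∈ disc, AnalyticPt f z := analyticPt_iff.1 hf.1
  have hschur : IsSchur f := by
    refine ⟨hf.1, fun z hz => (one_sub_iff _).2 fun y => ?_⟩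
    have hcont : ContinuousAt (fun w => nsq (f w *ᵥ y)) z :=
      tendsto_nsq (continuousAt_entries (hfa z hz)) y
    refine le_of_ev hcont continuousAt_const ?_
    filter_upwards [ev_ne hd hne hz] with w hw
    have hjc := hWc w hw.1 hw.2
    have hu := hjc.isUnit22
    rw [hf.2 w hw.1 (hWa w hw.1 hw.2)]
    have h1 := hjc.le22 ((W w).toBlocks₂₂⁻¹ *ᵥ y)
    rw [mulVec_mulVec, mulVec_mulVec, mul_nonsing_inv _ hu, one_mulVec] at h1
    linarith [nsq_nonneg ((W w).toBlocks₂₂⁻¹ *ᵥ y)]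
  obtain ⟨η, hη, hηi⟩ := log_bdry hd hb1 hne
  -- boundary values of `G`
  have hGbd : ∀ᵐ ζ ∂σ, ∃ Γ, HasBdryValue G ζ Γ := by
    have h1 : ∀ p : (m ⊕ n) × (m ⊕ n), ∀ᵐ ζ ∂σ, ∃ L, HasBdryValue (fun z => G z p.1 p.2) ζ L :=
      fun p => fatou (analyticPt_iff.2 hG p.1 p.2) (fun z hz => hGb z hz p.1 p.2)
    filter_upwards [ae_all_iff.2 h1] with ζ hζ
    choose L hL using hζ
    exact ⟨Matrix.of fun i j => L (i, j), tendsto_entries.2 fun i j => hL (i, j)⟩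
  have hne' : NeBot (ae σ) := by
    rw [ae_neBot]
    exact IsProbabilityMeasure.ne_zero _
  have hbd : ∀ᵐ ζ ∂σ, ∃ p : Matrix (m ⊕ n) (m ⊕ n) ℂ × Matrix (m ⊕ n) (m ⊕ n) ℂ,
      HasBdryValue W ζ p.1 ∧ JU p.1 ∧ HasBdryValue G ζ p.2 ∧ HasBdryValue h ζ (η ζ) ∧
      η ζ ≠ 0 ∧ p.2 = η ζ • p.1 := by
    filter_upwards [hW.boundary, hGbd, hη, ae_norm] with ζ h1 h2 h3 hn
    obtain ⟨L, hL, hLu⟩ := h1
    obtain ⟨Γ, hΓ⟩ := h2
    refine ⟨(L, Γ), hL, hLu, hΓ, h3.1, h3.2, ?_⟩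
    have h4 : Tendsto (fun r : ℝ => h (r * ζ) • W (r * ζ)) (𝓝[<] 1) (𝓝 (η ζ • L)) :=
      Tendsto.smul h3.1 hL
    refine tendsto_nhds_unique (hΓ.congr' ?_) h4
    filter_upwards [eventually_r, h3.1.eventually_ne h3.2] with r hr hr0
    rw [hWG _ (dil_mem ⟨hr.1, hr.2⟩ hn) hr0, smul_smul, mul_inv_cancel₀ hr0, one_smul]
  obtain ⟨P, hP⟩ := hbd.choice
  -- boundary function of `f`
  set F : ℂ → Matrix m n ℂ := fun ζ => (P ζ).1.toBlocks₁₂ * ((P ζ).1.toBlocks₂₂)⁻¹ with hFdef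
  have hF : ∀ᵐ ζ ∂σ, HasBdryValue f ζ (F ζ) := by
    filter_upwards [hP, ae_norm] with ζ h1 hn
    obtain ⟨hL, hLu, hΓ, hh, hη0, -⟩ := h1
    have h2 : Tendsto (fun r : ℝ => (W (r * ζ)).toBlocks₁₂ * ((W (r * ζ)).toBlocks₂₂)⁻¹) (𝓝[<] 1)
        (𝓝 (F ζ)) := tendsto_mmul (tendsto_b12 hL) (tendsto_minv (tendsto_b22 hL)
          hLu.jc.isUnit22.ne_zero)
    refine h2.congr' ?_
    filter_upwards [eventually_r, hh.eventually_ne hη0] with r hr hr0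
    have hz := dil_mem ⟨hr.1, hr.2⟩ hn
    exact (hf.2 _ hz (hWa _ hz hr0)).symm
  refine ⟨hschur, ?_, ?_⟩
  · obtain ⟨Φ, hΦ, hΦb⟩ := pseudo_of_bdry hG hGb (P := fun ζ => (P ζ).1) (η := η) (by
      filter_upwards [hP] with ζ h1
      obtain ⟨-, hLu, hΓ, -, hη0, he⟩ := h1
      rw [he] at hΓ
      exact ⟨hLu, hη0, hΓ⟩)
    refine ⟨Φ, hΦ, ?_⟩
    filter_upwards [hF, hΦb] with ζ h1 h2
    exact ⟨F ζ, h1, h2⟩
  · refine ⟨F, hF, ?_, ?_⟩
    · filter_upwards [hP] with ζ h1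
      rw [hFdef]
      simp only
      rw [h1.2.1.det_eq]
      have := h1.2.1.jc.isUnit22.ne_zero
      exact_mod_cast inv_ne_zero (pow_ne_zero 2 (norm_ne_zero_iff.2 this))
    · -- log integrability
      obtain ⟨C, hC⟩ := bound_of_continuous (F := fun S : Matrix n n ℂ => S.det)
        continuous_id.matrix_det
      set M := max C 1 with hM
      have hM0 : 0 < M := lt_of_lt_of_le one_pos (le_max_right _ _)
      have hMc : (M : ℂ) ≠ 0 := by exact_mod_cast hM0.ne'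
      let D : ℂ → ℂ := fun z => (M : ℂ)⁻¹ * (G z).toBlocks₂₂.det
      have hDd : DifferentiableOn ℂ D disc := fun z hz =>
        (((hG z hz).b22.det).differentiableAt.const_mul _).differentiableWithinAt
      have hD1 : ∀ z ∈ disc, ‖D z‖ ≤ 1 := by
        intro z hz
        simp only [D]
        rw [norm_mul, norm_inv, Complex.norm_real, Real.norm_eq_abs, abs_of_pos hM0,
          inv_mul_le_iff₀ hM0, mul_one]
        exact (hC _ fun i k => hGb z hz _ _).trans (le_max_left _ _)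
      have hDb : ∀ᵐ ζ ∂σ, HasBdryValue D ζ ((M : ℂ)⁻¹ *
          ((η ζ) ^ (Fintype.card n) * (P ζ).1.toBlocks₂₂.det)) := by
        filter_upwards [hP] with ζ h1
        obtain ⟨-, -, hΓ, -, -, he⟩ := h1
        have h2 : Tendsto (fun r : ℝ => (G (r * ζ)).toBlocks₂₂.det) (𝓝[<] 1)
            (𝓝 (P ζ).2.toBlocks₂₂.det) :=
          ((continuous_id.matrix_det).tendsto (P ζ).2.toBlocks₂₂).comp (tendsto_b22 hΓ)
        have h3 : (P ζ).2.toBlocks₂₂.det = (η ζ) ^ (Fintype.card n) * (P ζ).1.toBlocks₂₂.det := by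
          rw [he]
          exact det_smul _ _
        rw [← h3]
        exact h2.const_mul _
      have hD0 : ∃ z ∈ disc, D z ≠ 0 := by
        obtain ⟨ζ, ⟨h1, h2⟩, hn⟩ := ((hDb.and hP).and ae_norm).exists
        have hne0 : (M : ℂ)⁻¹ * ((η ζ) ^ (Fintype.card n) * (P ζ).1.toBlocks₂₂.det) ≠ 0 :=
          mul_ne_zero (inv_ne_zero hMc) (mul_ne_zero (pow_ne_zero _ h2.2.2.2.2.1)
            h2.2.1.jc.isUnit22.ne_zero)
        obtain ⟨r, hr1, hr⟩ := ((h1.eventually_ne hne0).and eventually_r).exists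
        exact ⟨_, dil_mem ⟨hr.1, hr.2⟩ hn, hr1⟩
      obtain ⟨δ, hδ, hδi⟩ := log_bdry hDd hD1 hD0
      have hint : Integrable (fun ζ => (-2) * (Real.log ‖δ ζ‖ + Real.log M
          - Fintype.card n * Real.log ‖η ζ‖)) σ :=
        ((hδi.add (integrable_const (Real.log M))).sub (hηi.const_mul _)).const_mul _
      refine hint.congr ?_
      filter_upwards [hP, hδ, hDb, hη] with ζ h1 h2 h3 h4
      have h5 := tendsto_nhds_unique h2.1 h3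
      have hu := h1.2.1.jc.isUnit22.ne_zero
      have hη0 : ‖η ζ‖ ≠ 0 := norm_ne_zero_iff.2 h4.2
      have hu' : ‖(P ζ).1.toBlocks₂₂.det‖ ≠ 0 := norm_ne_zero_iff.2 hu
      simp only [hFdef]
      rw [h1.2.1.det_eq, Complex.ofReal_re, Real.log_inv, Real.log_pow, h5, norm_mul, norm_mul,
        norm_pow, norm_inv, Complex.norm_real, Real.norm_eq_abs, abs_of_pos hM0,
        Real.log_mul (inv_ne_zero hM0.ne') (mul_ne_zero (pow_ne_zero _ hη0) hu'),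
        Real.log_mul (pow_ne_zero _ hη0) hu', Real.log_inv, Real.log_pow]
      push_cast; ring

end Pool.Agent.RegJ
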