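import Pool.Agent.RegJ.Smirnov

open Filter Topology Complex MeasureTheory Set Metric
open scoped Real ENNReal NNReal

namespace Pool.Agent.RegJ

lemma HasBdryValue.mul' {a b : ℂ → ℂ} {ζ α β : ℂ} (ha : HasBdryValue a ζ α)
    (hb : HasBdryValue b ζ β) : HasBdryValue (fun z => a z * b z) ζ (α * β) :=
  Tendsto.mul ha hb

lemma HasBdryValue.add' {a b : ℂ → ℂ} {ζ α β : ℂ} (ha : HasBdryValue a ζ α)
    (hb : HasBdryValue b ζ β) : HasBdryValue (fun z => a z + b z) ζ (α + β) :=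
  Tendsto.add ha hb

/-- Boundary functions of scalar functions of bounded type in the disc. -/
def BT (φ : ℂ → ℂ) : Prop :=
  ∃ a b : ℂ → ℂ, DifferentiableOn ℂ a disc ∧ DifferentiableOn ℂ b disc ∧
    (∀ z ∈ disc, ‖a z‖ ≤ 1) ∧ (∀ z ∈ disc, ‖b z‖ ≤ 1) ∧ (∃ z ∈ disc, b z ≠ 0) ∧
    ∀ᵐ ζ ∂σ, ∃ α β, HasBdryValue a ζ α ∧ HasBdryValue b ζ β ∧ β ≠ 0 ∧ β * φ ζ = α

lemma exists_ne_mul {a b : ℂ → ℂ} (ha : DifferentiableOn ℂ a disc)
    (hb : DifferentiableOn ℂ b disc) (ha0 : ∃ z ∈ disc, a z ≠ 0) (hb0 : ∃ z ∈ disc, b z ≠ 0) :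
    ∃ z ∈ disc, a z * b z ≠ 0 := by
  by_contra hcon
  push Not at hcon
  have hana : AnalyticOnNhd ℂ a disc := ha.analyticOnNhd isOpen_ball
  have hbna : AnalyticOnNhd ℂ b disc := hb.analyticOnNhd isOpen_ball
  obtain ⟨z, hz, hz0⟩ := ha0
  obtain ⟨w, hw, hw0⟩ := hb0
  have h1 : ∀ᶠ y in 𝓝 z, a y ≠ 0 :=
    (ha.continuousOn.continuousAt (isOpen_ball.mem_nhds hz)).eventually_ne hz0
  have h2 : b =ᶠ[𝓝 z] 0 := by
    filter_upwards [h1, isOpen_ball.mem_nhds hz] with y hy hyd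
    exact (mul_eq_zero.1 (hcon y hyd)).resolve_left hy
  exact hw0 (hbna.eqOn_zero_of_preconnected_of_eventuallyEq_zero
    (convex_ball _ _).isPreconnected hz h2 hw)

lemma BT.congr {φ ψ : ℂ → ℂ} (hφ : BT φ) (h : ∀ᵐ ζ ∂σ, ψ ζ = φ ζ) : BT ψ := by
  obtain ⟨a, b, ha, hb, ha1, hb1, hb0, hae⟩ := hφ
  refine ⟨a, b, ha, hb, ha1, hb1, hb0, ?_⟩
  filter_upwards [hae, h] with ζ h1 h2
  rw [h2]; exact h1

lemma BT.mul {φ ψ : ℂ → ℂ} (hφ : BT φ) (hψ : BT ψ) : BT (fun ζ => φ ζ * ψ ζ) := by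
  obtain ⟨a, b, ha, hb, ha1, hb1, hb0, hae⟩ := hφ
  obtain ⟨a', b', ha', hb', ha1', hb1', hb0', hae'⟩ := hψ
  refine ⟨fun z => a z * a' z, fun z => b z * b' z, ha.mul ha', hb.mul hb', ?_, ?_,
    exists_ne_mul hb hb' hb0 hb0', ?_⟩
  · intro z hz
    rw [norm_mul]
    exact mul_le_one₀ (ha1 z hz) (norm_nonneg _) (ha1' z hz)
  · intro z hz
    rw [norm_mul]
    exact mul_le_one₀ (hb1 z hz) (norm_nonneg _) (hb1' z hz)
  · filter_upwards [hae, hae'] with ζ h1 h2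
    obtain ⟨α, β, hα, hβ, hβ0, he⟩ := h1
    obtain ⟨α', β', hα', hβ', hβ0', he'⟩ := h2
    refine ⟨α * α', β * β', hα.mul' hα', hβ.mul' hβ', mul_ne_zero hβ0 hβ0', ?_⟩
    rw [← he, ← he']; ring

lemma BT.add {φ ψ : ℂ → ℂ} (hφ : BT φ) (hψ : BT ψ) : BT (fun ζ => φ ζ + ψ ζ) := by
  obtain ⟨a, b, ha, hb, ha1, hb1, hb0, hae⟩ := hφ
  obtain ⟨a', b', ha', hb', ha1', hb1', hb0', hae'⟩ := hψ
  refine ⟨fun z => 2⁻¹ * (a z * b' z + a' z * b z), fun z => 2⁻¹ * (b z * b' z),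
    ((ha.mul hb').add (ha'.mul hb)).const_mul _, (hb.mul hb').const_mul _, ?_, ?_, ?_, ?_⟩
  · intro z hz
    rw [norm_mul, norm_inv, Complex.norm_ofNat]
    have h1 : ‖a z * b' z‖ ≤ 1 := by
      rw [norm_mul]; exact mul_le_one₀ (ha1 z hz) (norm_nonneg _) (hb1' z hz)
    have h2 : ‖a' z * b z‖ ≤ 1 := by
      rw [norm_mul]; exact mul_le_one₀ (ha1' z hz) (norm_nonneg _) (hb1 z hz)
    have := norm_add_le (a z * b' z) (a' z * b z)
    linarith
  · intro z hz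
    rw [norm_mul, norm_inv, Complex.norm_ofNat]
    have h1 : ‖b z * b' z‖ ≤ 1 := by
      rw [norm_mul]; exact mul_le_one₀ (hb1 z hz) (norm_nonneg _) (hb1' z hz)
    linarith
  · obtain ⟨z, hz, h0⟩ := exists_ne_mul hb hb' hb0 hb0'
    exact ⟨z, hz, mul_ne_zero (by norm_num) h0⟩
  · filter_upwards [hae, hae'] with ζ h1 h2
    obtain ⟨α, β, hα, hβ, hβ0, he⟩ := h1
    obtain ⟨α', β', hα', hβ', hβ0', he'⟩ := h2
    refine ⟨2⁻¹ * (α * β' + α' * β), 2⁻¹ * (β * β'),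
      ((hα.mul' hβ').add' (hα'.mul' hβ)).const_mul _, (hβ.mul' hβ').const_mul _,
      mul_ne_zero (by norm_num) (mul_ne_zero hβ0 hβ0'), ?_⟩
    rw [← he, ← he']; ring

lemma BT.const (c : ℂ) : BT (fun _ => c) := by
  have hc : (0 : ℝ) < ‖c‖ + 1 := by positivity
  have hc' : ((‖c‖ + 1 : ℝ) : ℂ) ≠ 0 := by exact_mod_cast hc.ne'
  refine ⟨fun _ => c / ((‖c‖ + 1 : ℝ) : ℂ), fun _ => 1 / ((‖c‖ + 1 : ℝ) : ℂ),
    differentiableOn_const _, differentiableOn_const _, ?_, ?_, ?_, ?_⟩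
  · intro z _
    rw [norm_div, Complex.norm_real, Real.norm_eq_abs, abs_of_pos hc, div_le_one hc]
    linarith
  · intro z _
    rw [norm_div, Complex.norm_real, Real.norm_eq_abs, abs_of_pos hc, div_le_one hc, norm_one]
    linarith [norm_nonneg c]
  · exact ⟨0, by simp, div_ne_zero one_ne_zero hc'⟩
  · refine Eventually.of_forall fun ζ => ⟨_, _, tendsto_const_nhds, tendsto_const_nhds,
      div_ne_zero one_ne_zero hc', ?_⟩
    field_simp

lemma BT.neg {φ : ℂ → ℂ} (hφ : BT φ) : BT (fun ζ => -φ ζ) := by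
  have := (BT.const (-1)).mul hφ
  simpa using this

lemma BT.sum {ι : Type*} (s : Finset ι) {φ : ι → ℂ → ℂ} (h : ∀ i ∈ s, BT (φ i)) :
    BT (fun ζ => ∑ i ∈ s, φ i ζ) := by
  classical
  induction s using Finset.induction_on with
  | empty => simpa using BT.const 0
  | insert a s ha ih =>
    simp only [Finset.sum_insert ha]
    exact (h a (Finset.mem_insert_self a s)).add
      (ih fun i hi => h i (Finset.mem_insert_of_mem hi))

/-- boundary function of a bounded holomorphic function -/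
lemma BT.of_bounded {a : ℂ → ℂ} (ha : DifferentiableOn ℂ a disc) (ha1 : ∀ z ∈ disc, ‖a z‖ ≤ 1)
    {φ : ℂ → ℂ} (h : ∀ᵐ ζ ∂σ, HasBdryValue a ζ (φ ζ)) : BT φ := by
  refine ⟨a, fun _ => 1, ha, differentiableOn_const _, ha1, fun _ _ => by simp,
    ⟨0, by simp, one_ne_zero⟩, ?_⟩
  filter_upwards [h] with ζ hζ
  exact ⟨φ ζ, 1, hζ, tendsto_const_nhds, one_ne_zero, one_mul _⟩

/-- A function of bounded type vanishes a.e. or nowhere (a.e.) on the circle. -/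
lemma BT.zero_or_ne {φ : ℂ → ℂ} (hφ : BT φ) :
    (∀ᵐ ζ ∂σ, φ ζ = 0) ∨ (∃ a b : ℂ → ℂ, DifferentiableOn ℂ a disc ∧ DifferentiableOn ℂ b disc ∧
    (∀ z ∈ disc, ‖a z‖ ≤ 1) ∧ (∀ z ∈ disc, ‖b z‖ ≤ 1) ∧ (∃ z ∈ disc, a z ≠ 0) ∧
    (∃ z ∈ disc, b z ≠ 0) ∧
    ∀ᵐ ζ ∂σ, ∃ α β, HasBdryValue a ζ α ∧ HasBdryValue b ζ β ∧ α ≠ 0 ∧ β ≠ 0 ∧ φ ζ = α / β) := by
  obtain ⟨a, b, ha, hb, ha1, hb1, hb0, hae⟩ := hφ
  by_cases ha0 : ∃ z ∈ disc, a z ≠ 0
  · right
    refine ⟨a, b, ha, hb, ha1, hb1, ha0, hb0, ?_⟩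
    obtain ⟨g, -, -, -, hg⟩ := log_integrable ha ha1 ha0
    filter_upwards [hae, hg] with ζ h1 h2
    obtain ⟨α, β, hα, hβ, hβ0, he⟩ := h1
    obtain ⟨L, hL, hL0, -⟩ := h2
    have : α = L := tendsto_nhds_unique hα hL
    refine ⟨α, β, hα, hβ, by rw [this]; exact hL0, hβ0, ?_⟩
    rw [← he]; field_simp
  · left
    push Not at ha0
    filter_upwards [hae, ae_norm] with ζ h1 hn
    obtain ⟨α, β, hα, hβ, hβ0, he⟩ := h1
    have h2 : HasBdryValue a ζ 0 := by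
      unfold HasBdryValue
      apply tendsto_const_nhds.congr'
      filter_upwards [eventually_r] with r hr
      exact (ha0 _ (by simpa using norm_dilate hr.1 hr.2 hn)).symm
    have : α = 0 := tendsto_nhds_unique hα h2
    rw [this] at he
    exact (mul_eq_zero.1 he).resolve_left hβ0

lemma BT.inv {φ : ℂ → ℂ} (hφ : BT φ) : BT (fun ζ => (φ ζ)⁻¹) := by
  rcases hφ.zero_or_ne with h | ⟨a, b, ha, hb, ha1, hb1, ha0, hb0, hae⟩
  · refine (BT.const 0).congr ?_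
    filter_upwards [h] with ζ hζ
    rw [hζ, inv_zero]
  · refine ⟨b, a, hb, ha, hb1, ha1, ha0, ?_⟩
    filter_upwards [hae] with ζ h1
    obtain ⟨α, β, hα, hβ, hα0, hβ0, he⟩ := h1
    refine ⟨β, α, hβ, hα, hα0, ?_⟩
    rw [he]; field_simp

/-- pseudocontinuable boundary functions of bounded type -/
def Kf (φ : ℂ → ℂ) : Prop := BT φ ∧ BT fun ζ => (starRingEnd ℂ) (φ ζ)

lemma Kf.congr {φ ψ : ℂ → ℂ} (hφ : Kf φ) (h : ∀ᵐ ζ ∂σ, ψ ζ = φ ζ) : Kf ψ :=
  ⟨hφ.1.congr h, hφ.2.congr (h.mono fun ζ hζ => by rw [hζ])⟩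

lemma Kf.mul {φ ψ : ℂ → ℂ} (hφ : Kf φ) (hψ : Kf ψ) : Kf (fun ζ => φ ζ * ψ ζ) :=
  ⟨hφ.1.mul hψ.1, by simpa using hφ.2.mul hψ.2⟩

lemma Kf.add {φ ψ : ℂ → ℂ} (hφ : Kf φ) (hψ : Kf ψ) : Kf (fun ζ => φ ζ + ψ ζ) :=
  ⟨hφ.1.add hψ.1, by simpa using hφ.2.add hψ.2⟩

lemma Kf.neg {φ : ℂ → ℂ} (hφ : Kf φ) : Kf (fun ζ => -φ ζ) :=
  ⟨hφ.1.neg, by simpa using hφ.2.neg⟩

lemma Kf.sub {φ ψ : ℂ → ℂ} (hφ : Kf φ) (hψ : Kf ψ) : Kf (fun ζ => φ ζ - ψ ζ) := by
  simpa [sub_eq_add_neg] using hφ.add hψ.neg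

lemma Kf.const (c : ℂ) : Kf (fun _ => c) := ⟨BT.const c, BT.const _⟩

lemma Kf.conj {φ : ℂ → ℂ} (hφ : Kf φ) : Kf (fun ζ => (starRingEnd ℂ) (φ ζ)) :=
  ⟨hφ.2, by simpa using hφ.1⟩

lemma Kf.inv {φ : ℂ → ℂ} (hφ : Kf φ) : Kf (fun ζ => (φ ζ)⁻¹) :=
  ⟨hφ.1.inv, by simpa using hφ.2.inv⟩

lemma Kf.sum {ι : Type*} (s : Finset ι) {φ : ι → ℂ → ℂ} (h : ∀ i ∈ s, Kf (φ i)) :
    Kf (fun ζ => ∑ i ∈ s, φ i ζ) :=
  ⟨BT.sum s fun i hi => (h i hi).1, by
    simpa using BT.sum s fun i hi => (h i hi).2⟩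

lemma Kf.prod {ι : Type*} (s : Finset ι) {φ : ι → ℂ → ℂ} (h : ∀ i ∈ s, Kf (φ i)) :
    Kf (fun ζ => ∏ i ∈ s, φ i ζ) := by
  classical
  induction s using Finset.induction_on with
  | empty => simpa using Kf.const 1
  | insert a s ha ih =>
    simp only [Finset.prod_insert ha]
    exact (h a (Finset.mem_insert_self a s)).mul
      (ih fun i hi => h i (Finset.mem_insert_of_mem hi))

/-- The outer function with modulus `|b|^{1/2}`. -/
lemma outer_exists {b : ℂ → ℂ} (hb : DifferentiableOn ℂ b disc) (hb1 : ∀ z ∈ disc, ‖b z‖ ≤ 1)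
    (hb0 : ∃ z ∈ disc, b z ≠ 0) :
    ∃ E : ℂ → ℂ, DifferentiableOn ℂ E disc ∧ (∀ z ∈ disc, ‖E z‖ ≤ 1) ∧ (∀ z, E z ≠ 0) ∧
      (∀ z ∈ disc, ‖b z‖ ≤ ‖E z‖ ^ 2) ∧ Maj (fun z => (E z)⁻¹) ∧
      ∀ᵐ ζ ∂σ, ∃ ε β, HasBdryValue E ζ ε ∧ HasBdryValue b ζ β ∧ ‖ε‖ ^ 2 = ‖β‖ ∧ β ≠ 0 := by
  obtain ⟨g, hgm, hgi, hg0, hgb⟩ := log_integrable hb hb1 hb0
  let H : ℂ → ℂ := fun ζ => limUnder atTop fun n => b (rad n * ζ)
  have hH : ∀ᵐ ζ ∂σ, HasBdryValue b ζ (H ζ) ∧ H ζ ≠ 0 ∧ -Real.log ‖H ζ‖ ≤ g ζ := by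
    filter_upwards [hgb] with ζ hζ
    obtain ⟨L, hL, hL0, hLg⟩ := hζ
    have h1 := hL.comp tendsto_rad
    have h2 : H ζ = L := tendsto_nhds_unique (tendsto_nhds_limUnder ⟨L, h1⟩) h1
    rw [h2]; exact ⟨hL, hL0, hLg⟩
  have hH1 : ∀ᵐ ζ ∂σ, ‖H ζ‖ ≤ 1 := by
    filter_upwards [hH, ae_norm] with ζ h1 h2
    apply le_of_tendsto h1.1.norm
    filter_upwards [eventually_r] with r hr
    exact hb1 _ (by simpa using norm_dilate hr.1 hr.2 h2)
  have hHm : AEStronglyMeasurable H σ := by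
    apply aestronglyMeasurable_of_tendsto_ae atTop (f := fun n (ζ : ℂ) => b (rad n * ζ))
    · intro n
      exact aesm_of_continuousOn (continuousOn_dilate hb.continuousOn (rad_pos n).le (rad_lt n))
    · filter_upwards [hH] with ζ hζ
      exact hζ.1.comp tendsto_rad
  let l : ℂ → ℝ := fun ζ => Real.log ‖H ζ‖
  have hlm : AEStronglyMeasurable l σ :=
    (Real.measurable_log.comp_aemeasurable hHm.norm.aemeasurable).aestronglyMeasurable
  have hl0 : ∀ᵐ ζ ∂σ, l ζ ≤ 0 := by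
    filter_upwards [hH1] with ζ hζ
    exact Real.log_nonpos (norm_nonneg _) hζ
  have hli : Integrable l σ := by
    apply hgi.mono' hlm
    filter_upwards [hH, hl0] with ζ h1 h2
    rw [Real.norm_eq_abs, abs_of_nonpos h2]
    exact h1.2.2
  let l2 : ℂ → ℝ := fun ζ => 2⁻¹ * l ζ
  have hl2i : Integrable l2 σ := hli.const_mul _
  let E : ℂ → ℂ := fun z => exp (HI l2 z)
  have hEd : DifferentiableOn ℂ E disc := (differentiableOn_HI hl2i).cexp
  have hEn : ∀ z ∈ disc, ‖E z‖ = Real.exp (2⁻¹ * PI l z) := by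
    intro z hz
    simp only [E]
    rw [Complex.norm_exp, HI_re (by simpa using hz) hl2i, ← PI_const_mul]
  have hPl0 : ∀ z ∈ disc, PI l z ≤ 0 := by
    intro z hz
    have hz' : ‖z‖ < 1 := by simpa using hz
    have := PI_mono hli (integrable_const (0 : ℝ)) hl0 hz'
    rwa [PI_const _ hz'] at this
  have hE1 : ∀ z ∈ disc, ‖E z‖ ≤ 1 := by
    intro z hz
    rw [hEn z hz, Real.exp_le_one_iff]
    linarith [hPl0 z hz]
  refine ⟨E, hEd, hE1, fun z => Complex.exp_ne_zero _, ?_, ?_, ?_⟩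
  · intro z hz
    have hz' : ‖z‖ < 1 := by simpa using hz
    rw [hEn z hz, ← Real.exp_nat_mul]
    have he : ((2 : ℕ) : ℝ) * (2⁻¹ * PI l z) = PI l z := by push_cast; ring
    rw [he]
    rcases eq_or_ne (b z) 0 with h0 | h0
    · rw [h0, norm_zero]; exact (Real.exp_pos _).le
    · have hpos : 0 < ‖b z‖ := norm_pos_iff.2 h0
      rw [← Real.exp_log hpos]
      apply Real.exp_le_exp.2
      -- truncation argument
      let lM : ℕ → ℂ → ℝ := fun M ζ => Real.posLog ‖exp M * H ζ‖ - M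
      have hlMb : ∀ M : ℕ, ∀ᵐ ζ ∂σ, l ζ ≤ lM M ζ ∧ lM M ζ ≤ 0 := by
        intro M
        filter_upwards [hH, hH1] with ζ h1 h2
        have h3 : Real.log ‖exp M * H ζ‖ = M + l ζ := by
          rw [norm_mul, Complex.norm_exp, Complex.natCast_re,
            Real.log_mul (Real.exp_pos _).ne' (norm_ne_zero_iff.2 h1.2.1), Real.log_exp]
        have h4 : l ζ ≤ 0 := Real.log_nonpos (norm_nonneg _) h2
        simp only [lM]
        rw [Real.posLog_apply, h3]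
        have hM0 : (0 : ℝ) ≤ M := Nat.cast_nonneg M
        constructor
        · linarith [le_max_right 0 (M + l ζ)]
        · have := max_le hM0 (by linarith : (M : ℝ) + l ζ ≤ M)
          linarith
      have hlMm : ∀ M : ℕ, AEStronglyMeasurable (lM M) σ := by
        intro M
        apply AEStronglyMeasurable.sub _ aestronglyMeasurable_const
        exact Real.continuous_posLog.comp_aestronglyMeasurable (hHm.const_mul (exp M)).norm
      have hlMi : ∀ M : ℕ, Integrable (lM M) σ := by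
        intro M
        apply hli.norm.mono' (hlMm M)
        filter_upwards [hlMb M] with ζ h1
        rw [Real.norm_eq_abs, Real.norm_eq_abs, abs_of_nonpos h1.2,
          abs_of_nonpos (h1.1.trans h1.2)]
        linarith [h1.1]
      have hM : ∀ M : ℕ, Real.log ‖b z‖ ≤ PI (lM M) z := by
        intro M
        have hd' : DifferentiableOn ℂ (fun z => exp M * b z) disc := hb.const_mul _
        have hposi : Integrable (fun ζ => Real.posLog ‖exp M * H ζ‖) σ := by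
          have := (hlMi M).add (integrable_const (M : ℝ))
          refine this.congr (Eventually.of_forall fun ζ => ?_)
          simp [lM]
        have h1 := maj_bound hd' ((Maj.const _).mul (Maj.of_bound hb1)) hposi (by
          filter_upwards [hH] with ζ hζ
          exact ⟨exp M * H ζ, Tendsto.const_mul _ hζ.1, le_rfl⟩) z hz
        have h2 : M + Real.log ‖b z‖ ≤ Real.posLog ‖exp M * b z‖ := by
          have : Real.log ‖exp M * b z‖ = M + Real.log ‖b z‖ := by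
            rw [norm_mul, Complex.norm_exp, Complex.natCast_re,
              Real.log_mul (Real.exp_pos _).ne' (norm_ne_zero_iff.2 h0), Real.log_exp]
          rw [← this, Real.posLog_def]
          exact le_max_right _ _
        have h3 : PI (lM M) z = PI (fun ζ => Real.posLog ‖exp M * H ζ‖) z - M := by
          have := PI_sub hposi (integrable_const (M : ℝ)) hz'
          rw [PI_const _ hz'] at this
          exact this
        rw [h3]; linarith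
      have hlim : Tendsto (fun M : ℕ => PI (lM M) z) atTop (𝓝 (PI l z)) := by
        unfold PI
        apply tendsto_integral_of_dominated_convergence (fun ζ => P z ζ * |l ζ|)
        · intro M; exact (integrable_P_mul hz' (hlMi M)).aestronglyMeasurable
        · exact integrable_P_mul hz' hli.norm
        · intro M
          filter_upwards [ae_norm, hlMb M] with ζ hζ h1
          rw [norm_mul, Real.norm_eq_abs, Real.norm_eq_abs, abs_of_nonneg (P_nonneg hz' hζ)]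
          apply mul_le_mul_of_nonneg_left _ (P_nonneg hz' hζ)
          rw [abs_of_nonpos h1.2, abs_of_nonpos (h1.1.trans h1.2)]
          linarith [h1.1]
        · filter_upwards [hH] with ζ h1
          apply Tendsto.const_mul
          apply tendsto_const_nhds.congr'
          have h2 : ∀ᶠ M : ℕ in atTop, -l ζ ≤ M :=
            tendsto_natCast_atTop_atTop.eventually (eventually_ge_atTop _)
          filter_upwards [h2] with M hM
          have h3 : Real.log ‖exp M * H ζ‖ = M + l ζ := by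
            rw [norm_mul, Complex.norm_exp, Complex.natCast_re,
              Real.log_mul (Real.exp_pos _).ne' (norm_ne_zero_iff.2 h1.2.1), Real.log_exp]
          simp only [lM]
          rw [Real.posLog_apply, h3, max_eq_right (by linarith)]
          ring
      exact ge_of_tendsto hlim (Eventually.of_forall hM)
  · refine ⟨fun ζ => max (-(l2 ζ)) 0, hl2i.neg.sup (integrable_const (0 : ℝ)),
      fun ζ => le_max_right _ _, fun z hz => ?_⟩
    have hz' : ‖z‖ < 1 := by simpa using hz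
    have h1 : Real.posLog ‖(E z)⁻¹‖ = -(2⁻¹ * PI l z) := by
      rw [norm_inv, hEn z hz, ← Real.exp_neg]
      have : 0 ≤ -(2⁻¹ * PI l z) := by linarith [hPl0 z hz]
      rw [Real.posLog_apply, Real.log_exp, max_eq_right this]
    rw [h1]
    have h2 : -(2⁻¹ * PI l z) = PI (fun ζ => -(l2 ζ)) z := by
      have e1 : PI (fun ζ => (-2⁻¹) * l ζ) z = (-2⁻¹) * PI l z := PI_const_mul _ _ _
      have e2 : (fun ζ => -(l2 ζ)) = fun ζ => (-2⁻¹) * l ζ := by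
        ext ζ; simp only [l2]; ring
      rw [e2, e1]; ring
    rw [h2]
    exact PI_mono hl2i.neg (hl2i.neg.sup (integrable_const (0 : ℝ)))
      (Eventually.of_forall fun ζ => le_max_left _ _) hz'
  · obtain ⟨ρ, hρ, hρt, hρae⟩ := exists_seq_PI hli
    have hfat := fatou hEd hE1
    filter_upwards [hH, hfat, hρae, ae_norm] with ζ h1 h2 h3 hn
    obtain ⟨ε, hε⟩ := h2
    refine ⟨ε, H ζ, hε, h1.1, ?_, h1.2.1⟩
    have h4 : Tendsto (fun n => ‖E (ρ n * ζ)‖ ^ 2) atTop (𝓝 (‖ε‖ ^ 2)) :=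
      ((hε.comp hρt).norm).pow 2
    have h5 : Tendsto (fun n => ‖E (ρ n * ζ)‖ ^ 2) atTop (𝓝 (Real.exp (l ζ))) := by
      have h6 := (Real.continuous_exp.tendsto (l ζ)).comp h3
      refine h6.congr fun n => ?_
      have hz := norm_dilate (hρ n).1.le (hρ n).2 hn
      rw [hEn _ (by simpa using hz), ← Real.exp_nat_mul]
      have he : ((2 : ℕ) : ℝ) * (2⁻¹ * PI l (ρ n * ζ)) = PI l (ρ n * ζ) := by push_cast; ring
      rw [he]; rfl
    rw [tendsto_nhds_unique h4 h5]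
    exact Real.exp_log (norm_pos_iff.2 h1.2.1)

/-- positive elements of the field of pseudocontinuable functions are norms -/
lemma Kf.exists_norm {w : ℂ → ℂ} (hw : Kf w) (hpos : ∀ᵐ ζ ∂σ, 0 < (w ζ).re ∧ (w ζ).im = 0) :
    ∃ d : ℂ → ℂ, Kf d ∧ ∀ᵐ ζ ∂σ, (starRingEnd ℂ) (d ζ) * d ζ = w ζ ∧ d ζ ≠ 0 := by
  rcases hw.1.zero_or_ne with h | ⟨a, b, ha, hb, ha1, hb1, ha0, hb0, hae⟩
  · exfalso
    have h1 : ∀ᵐ _ζ : ℂ ∂σ, False := by
      filter_upwards [h, hpos] with ζ h1 h2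
      rw [h1] at h2; simp at h2
    rw [eventually_false_iff_eq_bot, ae_eq_bot] at h1
    exact (IsProbabilityMeasure.ne_zero (circleMeasure : Measure ℂ)) h1
  · obtain ⟨Ea, hEad, hEa1, hEa0, -, -, hEab⟩ := outer_exists ha ha1 ha0
    obtain ⟨Eb, hEbd, hEb1, hEb0, -, -, hEbb⟩ := outer_exists hb hb1 hb0
    let fa : ℂ → ℂ := fun ζ => limUnder atTop fun n => Ea (rad n * ζ)
    let fb : ℂ → ℂ := fun ζ => limUnder atTop fun n => Eb (rad n * ζ)
    have key : ∀ᵐ ζ ∂σ, HasBdryValue Ea ζ (fa ζ) ∧ HasBdryValue Eb ζ (fb ζ) ∧ fa ζ ≠ 0 ∧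
        fb ζ ≠ 0 ∧ ‖fa ζ‖ ^ 2 / ‖fb ζ‖ ^ 2 = ‖w ζ‖ := by
      filter_upwards [hae, hEab, hEbb] with ζ h1 h2 h3
      obtain ⟨α, β, hα, hβ, hα0, hβ0, he⟩ := h1
      obtain ⟨εa, α', hεa, hα', hn1, hα0'⟩ := h2
      obtain ⟨εb, β', hεb, hβ', hn2, hβ0'⟩ := h3
      have e1 : α' = α := tendsto_nhds_unique hα' hα
      have e2 : β' = β := tendsto_nhds_unique hβ' hβ
      have e3 : fa ζ = εa := tendsto_nhds_unique
        (tendsto_nhds_limUnder ⟨εa, hεa.comp tendsto_rad⟩) (hεa.comp tendsto_rad)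
      have e4 : fb ζ = εb := tendsto_nhds_unique
        (tendsto_nhds_limUnder ⟨εb, hεb.comp tendsto_rad⟩) (hεb.comp tendsto_rad)
      rw [e3, e4]
      refine ⟨hεa, hεb, ?_, ?_, ?_⟩
      · rintro rfl
        rw [norm_zero, e1] at hn1
        norm_num at hn1
        exact hα0 (norm_eq_zero.1 hn1.symm)
      · rintro rfl
        rw [norm_zero, e2] at hn2
        norm_num at hn2
        exact hβ0 (norm_eq_zero.1 hn2.symm)
      · rw [hn1, hn2, he, e1, e2, norm_div]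
    have hBT : BT (fun ζ => fa ζ * (fb ζ)⁻¹) :=
      (BT.of_bounded hEad hEa1 (key.mono fun _ h => h.1)).mul
        (BT.of_bounded hEbd hEb1 (key.mono fun _ h => h.2.1)).inv
    have hval : ∀ᵐ ζ ∂σ, (starRingEnd ℂ) (fa ζ * (fb ζ)⁻¹) * (fa ζ * (fb ζ)⁻¹) = w ζ ∧
        fa ζ * (fb ζ)⁻¹ ≠ 0 := by
      filter_upwards [key, hpos] with ζ h1 h2
      obtain ⟨-, -, ha0, hb0, hn⟩ := h1
      refine ⟨?_, mul_ne_zero ha0 (inv_ne_zero hb0)⟩
      rw [← Complex.normSq_eq_conj_mul_self, Complex.normSq_eq_norm_sq, norm_mul, norm_inv,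
        mul_pow, inv_pow, ← div_eq_mul_inv, hn]
      have h3 : w ζ = (((w ζ).re : ℝ) : ℂ) := by
        apply Complex.ext <;> simp [h2.2]
      rw [h3, Complex.norm_real, Real.norm_eq_abs, abs_of_pos h2.1]
    refine ⟨fun ζ => fa ζ * (fb ζ)⁻¹, ⟨hBT, ?_⟩, hval⟩
    refine (hw.1.mul hBT.inv).congr ?_
    filter_upwards [hval] with ζ h1
    rw [← h1.1, mul_assoc, mul_inv_cancel₀ h1.2, mul_one]

/-- `θ φ` is the boundary function of a holomorphic function bounded by one -/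
def Den (θ φ : ℂ → ℂ) : Prop :=
  ∃ s : ℂ → ℂ, DifferentiableOn ℂ s disc ∧ (∀ z ∈ disc, ‖s z‖ ≤ 1) ∧
    ∀ᵐ ζ ∂σ, ∃ t, HasBdryValue θ ζ t ∧ HasBdryValue s ζ (t * φ ζ)

lemma Inner.mul {θ θ' : ℂ → ℂ} (h : Inner θ) (h' : Inner θ') : Inner (fun z => θ z * θ' z) := by
  refine ⟨h.diff.mul h'.diff, fun z hz => ?_, ?_⟩
  · rw [norm_mul]; exact mul_le_one₀ (h.bound z hz) (norm_nonneg _) (h'.bound z hz)
  · filter_upwards [h.boundary, h'.boundary] with ζ h1 h2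
    obtain ⟨L, hL, hL1⟩ := h1
    obtain ⟨L', hL', hL1'⟩ := h2
    exact ⟨L * L', hL.mul' hL', by rw [norm_mul, hL1, hL1', one_mul]⟩

lemma Inner.one : Inner (fun _ => 1) :=
  ⟨differentiableOn_const _, fun _ _ => by simp,
    Eventually.of_forall fun _ => ⟨1, tendsto_const_nhds, by simp⟩⟩

lemma Den.mul_left {θ θ' φ : ℂ → ℂ} (h : Den θ φ) (h' : Inner θ') :
    Den (fun z => θ' z * θ z) φ := by
  obtain ⟨s, hs, hs1, hae⟩ := h
  refine ⟨fun z => θ' z * s z, h'.diff.mul hs, fun z hz => ?_, ?_⟩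
  · rw [norm_mul]; exact mul_le_one₀ (h'.bound z hz) (norm_nonneg _) (hs1 z hz)
  · filter_upwards [hae, h'.boundary] with ζ h1 h2
    obtain ⟨t, ht, hs⟩ := h1
    obtain ⟨L', hL', -⟩ := h2
    refine ⟨L' * t, hL'.mul' ht, ?_⟩
    rw [mul_assoc]
    exact hL'.mul' hs

/-- inner denominators -/
lemma BT.exists_den {φ : ℂ → ℂ} (hφ : BT φ) (h1 : ∀ᵐ ζ ∂σ, ‖φ ζ‖ ≤ 1) :
    ∃ θ, Inner θ ∧ Den θ φ := by
  obtain ⟨a, b, ha, hb, ha1, hb1, hb0, hae⟩ := hφ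
  obtain ⟨E, hEd, hE1, hE0, hbE, hEm, hEb⟩ := outer_exists hb hb1 hb0
  have hθ : Inner (fun z => b z * ((E z)⁻¹ * (E z)⁻¹)) := by
    have hinv : DifferentiableOn ℂ (fun z => (E z)⁻¹) disc := hEd.inv fun z _ => hE0 z
    refine ⟨hb.mul (hinv.mul hinv), fun z hz => ?_, ?_⟩
    · rw [norm_mul, norm_mul, norm_inv]
      have hp : 0 < ‖E z‖ := norm_pos_iff.2 (hE0 z)
      have := hbE z hz
      rw [← mul_inv, ← div_eq_mul_inv, div_le_one (by positivity)]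
      rwa [← sq]
    · filter_upwards [hEb] with ζ hζ
      obtain ⟨ε, β, hε, hβ, hn, hβ0⟩ := hζ
      have hε0 : ε ≠ 0 := by
        rintro rfl
        rw [norm_zero] at hn
        norm_num at hn
        exact hβ0 (norm_eq_zero.1 hn.symm)
      have hEE : HasBdryValue (fun z => (E z)⁻¹ * (E z)⁻¹) ζ (ε⁻¹ * ε⁻¹) :=
        (Tendsto.inv₀ hε hε0).mul (Tendsto.inv₀ hε hε0)
      refine ⟨β * (ε⁻¹ * ε⁻¹), hβ.mul' hEE, ?_⟩
      have hp : 0 < ‖ε‖ := norm_pos_iff.2 hε0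
      rw [norm_mul, norm_mul, norm_inv, ← hn]
      field_simp
  refine ⟨_, hθ, ?_⟩
  have hinv : DifferentiableOn ℂ (fun z => (E z)⁻¹) disc := hEd.inv fun z _ => hE0 z
  have hsd : DifferentiableOn ℂ (fun z => a z * ((E z)⁻¹ * (E z)⁻¹)) disc :=
    ha.mul (hinv.mul hinv)
  have hsb : ∀ᵐ ζ ∂σ, ∃ t, HasBdryValue (fun z => b z * ((E z)⁻¹ * (E z)⁻¹)) ζ t ∧ ‖t‖ = 1 ∧
      HasBdryValue (fun z => a z * ((E z)⁻¹ * (E z)⁻¹)) ζ (t * φ ζ) := by
    filter_upwards [hEb, hae, hθ.boundary] with ζ hζ h2 h3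
    obtain ⟨ε, β, hε, hβ, hn, hβ0⟩ := hζ
    obtain ⟨α, β', hα, hβ', -, he⟩ := h2
    obtain ⟨t, ht, ht1⟩ := h3
    have e2 : β' = β := tendsto_nhds_unique hβ' hβ
    have hε0 : ε ≠ 0 := by
      rintro rfl
      rw [norm_zero] at hn
      norm_num at hn
      exact hβ0 (norm_eq_zero.1 hn.symm)
    have hEE : HasBdryValue (fun z => (E z)⁻¹ * (E z)⁻¹) ζ (ε⁻¹ * ε⁻¹) :=
      (Tendsto.inv₀ hε hε0).mul (Tendsto.inv₀ hε hε0)
    have ht2 : t = β * (ε⁻¹ * ε⁻¹) := tendsto_nhds_unique ht (hβ.mul' hEE)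
    refine ⟨t, ht, ht1, ?_⟩
    have e3 : t * φ ζ = α * (ε⁻¹ * ε⁻¹) := by
      rw [ht2, ← he, e2]; ring
    rw [e3]
    exact hα.mul' hEE
  refine ⟨_, hsd, ?_, hsb.mono fun ζ ⟨t, h1, _, h3⟩ => ⟨t, h1, h3⟩⟩
  apply maj_bounded hsd ((Maj.of_bound ha1).mul (hEm.mul hEm))
  filter_upwards [hsb, h1] with ζ h2 h3
  obtain ⟨t, -, ht1, ht⟩ := h2
  refine ⟨_, ht, ?_⟩
  rw [norm_mul, ht1, one_mul]
  exact h3

/-- a common inner denominator for finitely many functions -/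
lemma exists_common_den {ι : Type*} (s : Finset ι) {φ : ι → ℂ → ℂ} (h : ∀ i ∈ s, BT (φ i))
    (h1 : ∀ i ∈ s, ∀ᵐ ζ ∂σ, ‖φ i ζ‖ ≤ 1) : ∃ θ, Inner θ ∧ ∀ i ∈ s, Den θ (φ i) := by
  classical
  induction s using Finset.induction_on with
  | empty => exact ⟨_, Inner.one, fun i hi => absurd hi (Finset.notMem_empty i)⟩
  | insert a s ha ih =>
    obtain ⟨θ, hθ, hd⟩ := ih (fun i hi => h i (Finset.mem_insert_of_mem hi))
      (fun i hi => h1 i (Finset.mem_insert_of_mem hi))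
    obtain ⟨θ', hθ', hd'⟩ := (h a (Finset.mem_insert_self a s)).exists_den
      (h1 a (Finset.mem_insert_self a s))
    refine ⟨fun z => θ' z * θ z, hθ'.mul hθ, fun i hi => ?_⟩
    rcases Finset.mem_insert.1 hi with rfl | hi
    · have := hd'.mul_left hθ
      have e : (fun z => θ z * θ' z) = fun z => θ' z * θ z := by ext z; ring
      rwa [e] at this
    · exact (hd i hi).mul_left hθ'

end Pool.Agent.RegJ
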