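import Pool.Agent.RegJ.Block

open Filter Topology Complex MeasureTheory Set Metric
open scoped Real ENNReal NNReal

namespace Pool.Agent.RegJ

/-- superlevel sets -/
def Ek (u : ℂ → ℝ) (k : ℕ) : Set ℂ := {ζ | 2 ^ k < u ζ}

lemma measurableSet_Ek {u : ℂ → ℝ} (hu : Measurable u) (k : ℕ) : MeasurableSet (Ek u k) :=
  measurableSet_lt measurable_const hu

lemma ind_Ek (u : ℂ → ℝ) (k : ℕ) (ζ : ℂ) : ind (Ek u k) ζ = if 2 ^ k < u ζ then 1 else 0 := by
  simp [ind, indicator, Ek]

lemma sum_le_two_mul {x : ℝ} (hx : 0 ≤ x) (K : ℕ) :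
    ∑ k ∈ Finset.range K, (2 : ℝ) ^ k * (if 2 ^ k < x then 1 else 0) ≤ 2 * x := by
  have hgeo : ∀ K : ℕ, ∑ k ∈ Finset.range K, (2 : ℝ) ^ k * (if 2 ^ k < x then 1 else 0)
      ≤ 2 ^ K := by
    intro K
    induction K with
    | zero => simp
    | succ K ih =>
      rw [Finset.sum_range_succ, pow_succ]
      have : (2 : ℝ) ^ K * (if 2 ^ K < x then 1 else 0) ≤ 2 ^ K := by
        split_ifs <;> simp
      linarith
  induction K with
  | zero => simpa using hx
  | succ K ih =>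
    rw [Finset.sum_range_succ]
    split_ifs with h
    · have := hgeo K
      linarith
    · simpa using ih

lemma min_le_sum {x : ℝ} {j : ℕ} (hx : 2 ^ j < x) {K : ℕ} (hK : j < K) :
    min x (2 ^ K) ≤ ∑ k ∈ Finset.Ico j K, (2 : ℝ) ^ (k + 1) * (if 2 ^ k < x then 1 else 0) := by
  induction K, hK using Nat.le_induction with
  | base => simp [hx]
  | succ K hK ih =>
    have hK' : j < K := hK
    rw [Finset.sum_Ico_succ_top hK'.le]
    split_ifs with h
    · have h1 : (0 : ℝ) ≤ ∑ k ∈ Finset.Ico j K, (2 : ℝ) ^ (k + 1) * (if 2 ^ k < x then 1 else 0) := by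
        apply Finset.sum_nonneg
        intro k _
        split_ifs <;> positivity
      rw [mul_one]
      exact (min_le_right _ _).trans (by linarith)
    · push Not at h
      rw [min_eq_left h] at ih
      rw [mul_zero, add_zero]
      exact (min_le_left _ _).trans ih

lemma summable_mk {u : ℂ → ℝ} (hu : Measurable u) (hu0 : ∀ ζ, 0 ≤ u ζ) (hui : Integrable u σ) :
    Summable (fun k : ℕ => (2 : ℝ) ^ k * ∫ ζ, ind (Ek u k) ζ ∂σ) := by
  apply summable_of_sum_range_le (c := 2 * ∫ ζ, u ζ ∂σ)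
  · intro k
    exact mul_nonneg (by positivity) (integral_nonneg (ind_nonneg _))
  · intro K
    calc ∑ k ∈ Finset.range K, (2 : ℝ) ^ k * ∫ ζ, ind (Ek u k) ζ ∂σ
        = ∫ ζ, ∑ k ∈ Finset.range K, (2 : ℝ) ^ k * ind (Ek u k) ζ ∂σ := by
          rw [integral_finsetSum]
          · simp only [integral_const_mul]
          · intro k _
            exact (integrable_ind (measurableSet_Ek hu k)).const_mul _
      _ ≤ ∫ ζ, 2 * u ζ ∂σ := by
          apply integral_mono_ae
          · apply integrable_finsetSum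
            intro k _
            exact (integrable_ind (measurableSet_Ek hu k)).const_mul _
          · exact hui.const_mul 2
          · refine Eventually.of_forall fun ζ => ?_
            simp only [ind_Ek]
            exact sum_le_two_mul (hu0 ζ) K
      _ = 2 * ∫ ζ, u ζ ∂σ := integral_const_mul _ _

/-- terms of the series -/
noncomputable def trm (u : ℂ → ℝ) (k : ℕ) (z : ℂ) : ℂ :=
  2 ^ k * Complex.sin (π * HI (ind (Ek u k)) z)

/-- the series -/
noncomputable def GG (u : ℂ → ℝ) (z : ℂ) : ℂ := ∑' k, trm u k z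

/-- the inner function -/
noncomputable def beta (u : ℂ → ℝ) (z : ℂ) : ℂ := exp (-(8 * GG u z))

lemma norm_trm_le {u : ℂ → ℝ} (hu : Measurable u) (k : ℕ) {r : ℝ} (hr0 : 0 ≤ r) (hr : r < 1)
    {z : ℂ} (hz : ‖z‖ ≤ r) :
    ‖trm u k z‖ ≤ (π * ((1 + r) / (1 - r)) * Real.exp (π * ((1 + r) / (1 - r)))) *
      (2 ^ k * ∫ ζ, ind (Ek u k) ζ ∂σ) := by
  have hE := integrable_ind (measurableSet_Ek hu k)
  have hz1 : ‖z‖ < 1 := hz.trans_lt hr
  set m := ∫ ζ, ind (Ek u k) ζ ∂σ with hm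
  have hm0 : 0 ≤ m := integral_nonneg (ind_nonneg _)
  have hm1 : m ≤ 1 := by
    have : m ≤ ∫ _ζ : ℂ, (1 : ℝ) ∂σ :=
      integral_mono hE (integrable_const _) (ind_le _)
    simpa using this
  have h1 := norm_HI_le hz1 hE
  have habs : ∫ ζ, |ind (Ek u k) ζ| ∂σ = m := by
    congr 1; ext ζ; exact abs_of_nonneg (ind_nonneg _ _)
  rw [habs] at h1
  have hc : (1 + ‖z‖) / (1 - ‖z‖) ≤ (1 + r) / (1 - r) := by
    have : 0 < 1 - r := by linarith
    gcongr
  set c := (1 + r) / (1 - r) with hcdef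
  have hc0 : 0 ≤ c := by
    have : 0 < 1 - r := by linarith
    positivity
  have h2 : ‖HI (ind (Ek u k)) z‖ ≤ c * m := h1.trans (by gcongr)
  unfold trm
  rw [norm_mul, norm_pow, Complex.norm_ofNat]
  have h3 := norm_sin_le (π * HI (ind (Ek u k)) z)
  rw [norm_mul, Complex.norm_real, Real.norm_eq_abs, abs_of_pos Real.pi_pos] at h3
  have h4 : π * ‖HI (ind (Ek u k)) z‖ ≤ π * c * m := by
    rw [mul_assoc]
    exact mul_le_mul_of_nonneg_left h2 Real.pi_pos.le
  have h5 : π * ‖HI (ind (Ek u k)) z‖ ≤ π * c := by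
    refine h4.trans ?_
    have : 0 ≤ π * c := by positivity
    nlinarith
  calc 2 ^ k * ‖Complex.sin (π * HI (ind (Ek u k)) z)‖
      ≤ 2 ^ k * ((π * ‖HI (ind (Ek u k)) z‖) * Real.exp (π * ‖HI (ind (Ek u k)) z‖)) := by
        gcongr
    _ ≤ 2 ^ k * ((π * c * m) * Real.exp (π * c)) := by
        gcongr
    _ = _ := by ring

lemma norm_trm_summable {u : ℂ → ℝ} (hu : Measurable u) (hu0 : ∀ ζ, 0 ≤ u ζ)
    (hui : Integrable u σ) {z : ℂ} (hz : ‖z‖ < 1) : Summable (fun k => trm u k z) := by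
  apply Summable.of_norm_bounded ((summable_mk hu hu0 hui).mul_left _)
  intro k
  exact norm_trm_le hu k (norm_nonneg z) hz le_rfl

lemma differentiableOn_trm {u : ℂ → ℝ} (hu : Measurable u) (k : ℕ) :
    DifferentiableOn ℂ (trm u k) (ball 0 1) :=
  (differentiableOn_sinHI (measurableSet_Ek hu k)).const_mul _

lemma differentiableOn_tail {u : ℂ → ℝ} (hu : Measurable u) (hu0 : ∀ ζ, 0 ≤ u ζ)
    (hui : Integrable u σ) (n : ℕ) :
    DifferentiableOn ℂ (fun z => ∑' k, trm u (k + n) z) (ball 0 1) := by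
  intro z hz
  obtain ⟨r, hr1, hr2⟩ := exists_between (mem_ball_zero_iff.1 hz)
  have hr0 : 0 ≤ r := (norm_nonneg z).trans hr1.le
  have hsub : ball (0 : ℂ) r ⊆ ball 0 1 := ball_subset_ball hr2.le
  have h1 : DifferentiableOn ℂ (fun z => ∑' k, trm u (k + n) z) (ball 0 r) := by
    apply Complex.differentiableOn_tsum_of_summable_norm
      (((summable_mk hu hu0 hui).comp_injective (add_left_injective n)).mul_left
        (π * ((1 + r) / (1 - r)) * Real.exp (π * ((1 + r) / (1 - r)))))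
    · intro k
      exact (differentiableOn_trm hu _).mono hsub
    · exact isOpen_ball
    · intro k w hw
      exact norm_trm_le hu _ hr0 hr2 (mem_ball_zero_iff.1 hw).le
  exact (h1.differentiableAt (isOpen_ball.mem_nhds (mem_ball_zero_iff.2 hr1))).differentiableWithinAt

lemma differentiableOn_GG {u : ℂ → ℝ} (hu : Measurable u) (hu0 : ∀ ζ, 0 ≤ u ζ)
    (hui : Integrable u σ) : DifferentiableOn ℂ (GG u) (ball 0 1) := by
  have := differentiableOn_tail hu hu0 hui 0
  simp only [add_zero] at this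
  exact this

lemma trm_re {u : ℂ → ℝ} (hu : Measurable u) (k : ℕ) {z : ℂ} (hz : ‖z‖ < 1) :
    2 ^ k * Real.sin (π * PI (ind (Ek u k)) z) ≤ (trm u k z).re ∧ 0 ≤ (trm u k z).re := by
  have hE := measurableSet_Ek hu k
  have h1 : (trm u k z).re = 2 ^ k * (Complex.sin (π * HI (ind (Ek u k)) z)).re := by
    unfold trm
    have : (2 : ℂ) ^ k = ((2 ^ k : ℝ) : ℂ) := by push_cast; rfl
    rw [this, Complex.re_ofReal_mul]
  have h2 := re_sin_HI_nonneg hE hz
  rw [h1]
  refine ⟨?_, by positivity⟩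
  rw [re_sin_HI hE hz]
  have h3 : 0 ≤ Real.sin (π * PI (ind (Ek u k)) z) := by
    have h1 := PI_ind_mem hE hz
    apply Real.sin_nonneg_of_nonneg_of_le_pi
    · exact mul_nonneg Real.pi_pos.le h1.1
    · nlinarith [Real.pi_pos, h1.2]
  have h4 := Real.one_le_cosh (π * (HI (ind (Ek u k)) z).im)
  have h5 : Real.sin (π * PI (ind (Ek u k)) z) * 1 ≤
      Real.sin (π * PI (ind (Ek u k)) z) * Real.cosh (π * (HI (ind (Ek u k)) z).im) :=
    mul_le_mul_of_nonneg_left h4 h3
  rw [mul_one] at h5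
  exact mul_le_mul_of_nonneg_left h5 (by positivity)

lemma re_tail {u : ℂ → ℝ} (hu : Measurable u) (hu0 : ∀ ζ, 0 ≤ u ζ)
    (hui : Integrable u σ) (n : ℕ) {z : ℂ} (hz : ‖z‖ < 1) :
    (∑' k, trm u (k + n) z).re = ∑' k, (trm u (k + n) z).re := by
  have hs := (norm_trm_summable hu hu0 hui hz).comp_injective (add_left_injective n)
  exact (Complex.hasSum_re hs.hasSum).tsum_eq.symm

lemma re_tail_nonneg {u : ℂ → ℝ} (hu : Measurable u) (hu0 : ∀ ζ, 0 ≤ u ζ)
    (hui : Integrable u σ) (n : ℕ) {z : ℂ} (hz : ‖z‖ < 1) :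
    0 ≤ (∑' k, trm u (k + n) z).re := by
  rw [re_tail hu hu0 hui n hz]
  exact tsum_nonneg fun k => (trm_re hu _ hz).2

lemma re_GG_ge {u : ℂ → ℝ} (hu : Measurable u) (hu0 : ∀ ζ, 0 ≤ u ζ)
    (hui : Integrable u σ) {z : ℂ} (hz : ‖z‖ < 1) (s : Finset ℕ) :
    ∑ k ∈ s, 2 ^ k * Real.sin (π * PI (ind (Ek u k)) z) ≤ (GG u z).re := by
  have h1 := re_tail hu hu0 hui 0 hz
  simp only [add_zero] at h1
  unfold GG
  rw [h1]
  have hs : Summable fun k => (trm u k z).re :=
    (Complex.hasSum_re (norm_trm_summable hu hu0 hui hz).hasSum).summable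
  calc ∑ k ∈ s, 2 ^ k * Real.sin (π * PI (ind (Ek u k)) z) ≤ ∑ k ∈ s, (trm u k z).re :=
        Finset.sum_le_sum fun k _ => (trm_re hu k hz).1
    _ ≤ ∑' k, (trm u k z).re := hs.sum_le_tsum _ fun k _ => (trm_re hu k hz).2

lemma re_GG_nonneg {u : ℂ → ℝ} (hu : Measurable u) (hu0 : ∀ ζ, 0 ≤ u ζ)
    (hui : Integrable u σ) {z : ℂ} (hz : ‖z‖ < 1) : 0 ≤ (GG u z).re := by
  have := re_tail_nonneg hu hu0 hui 0 hz
  simpa [GG] using this

/-- the tail Poisson integrals -/
noncomputable def vj (u : ℂ → ℝ) (j : ℕ) (z : ℂ) : ℝ := PI ((Ek u j).indicator u) z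

lemma barrier {u : ℂ → ℝ} (hu : Measurable u) (hu0 : ∀ ζ, 0 ≤ u ζ)
    (hui : Integrable u σ) {z : ℂ} (hz : ‖z‖ < 1) {j : ℕ} (hj : vj u j z ≤ 2 ^ j / 2) :
    vj u j z ≤ (GG u z).re := by
  have hEj := measurableSet_Ek hu j
  have hvi : Integrable ((Ek u j).indicator u) σ := hui.indicator hEj
  -- ω_k ≤ 1/2
  have hω : ∀ k, j ≤ k → PI (ind (Ek u k)) z ≤ 1 / 2 := by
    intro k hk
    have h1 : PI (fun ζ => 2 ^ j * ind (Ek u k) ζ) z ≤ vj u j z := by
      apply PI_mono ((integrable_ind (measurableSet_Ek hu k)).const_mul _) hvi _ hz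
      refine Eventually.of_forall fun ζ => ?_
      rw [ind_Ek]
      split_ifs with h
      · have h2 : (2 : ℝ) ^ j ≤ 2 ^ k := pow_le_pow_right₀ (by norm_num) hk
        have h3 : ζ ∈ Ek u j := lt_of_le_of_lt h2 h
        rw [indicator_of_mem h3, mul_one]
        linarith
      · rw [mul_zero]
        exact indicator_nonneg (fun ζ _ => hu0 ζ) ζ
    rw [PI_const_mul] at h1
    have h2 : (0 : ℝ) < 2 ^ j := by positivity
    have h3 := h1.trans hj
    nlinarith
  -- finite sums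
  have hfin : ∀ K, j < K → PI ((Ek u j).indicator (fun ζ => min (u ζ) (2 ^ K))) z
      ≤ (GG u z).re := by
    intro K hK
    refine le_trans ?_ (re_GG_ge hu hu0 hui hz (Finset.Ico j K))
    have h1 : ∑ k ∈ Finset.Ico j K, 2 ^ (k + 1) * PI (ind (Ek u k)) z
        ≤ ∑ k ∈ Finset.Ico j K, 2 ^ k * Real.sin (π * PI (ind (Ek u k)) z) := by
      apply Finset.sum_le_sum
      intro k hk
      rw [Finset.mem_Ico] at hk
      have h2 := hω k hk.1
      have h3 := (PI_ind_mem (measurableSet_Ek hu k) hz).1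
      have h4 := Real.mul_le_sin (x := π * PI (ind (Ek u k)) z)
        (mul_nonneg Real.pi_pos.le h3) (by nlinarith [Real.pi_pos])
      have h5 : 2 / π * (π * PI (ind (Ek u k)) z) = 2 * PI (ind (Ek u k)) z := by
        field_simp
      rw [h5] at h4
      rw [pow_succ, mul_assoc]
      exact mul_le_mul_of_nonneg_left h4 (by positivity)
    refine le_trans ?_ h1
    have h6 : ∑ k ∈ Finset.Ico j K, 2 ^ (k + 1) * PI (ind (Ek u k)) z
        = PI (fun ζ => ∑ k ∈ Finset.Ico j K, 2 ^ (k + 1) * ind (Ek u k) ζ) z := by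
      unfold PI
      simp only [Finset.mul_sum]
      rw [integral_finsetSum]
      · apply Finset.sum_congr rfl
        intro k _
        rw [← integral_const_mul]
        congr 1; ext ζ; ring
      · intro k _
        exact integrable_P_mul hz ((integrable_ind (measurableSet_Ek hu k)).const_mul _)
    rw [h6]
    apply PI_mono _ _ _ hz
    · apply Integrable.indicator _ hEj
      exact hui.inf (integrable_const _)
    · apply integrable_finsetSum
      intro k _
      exact (integrable_ind (measurableSet_Ek hu k)).const_mul _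
    · refine Eventually.of_forall fun ζ => ?_
      simp only [ind_Ek]
      by_cases h : ζ ∈ Ek u j
      · rw [indicator_of_mem h]
        exact min_le_sum h hK
      · rw [indicator_of_notMem h]
        apply Finset.sum_nonneg
        intro k _
        split_ifs <;> positivity
  -- limit
  have hlim : Tendsto (fun K : ℕ => PI ((Ek u j).indicator (fun ζ => min (u ζ) (2 ^ K))) z) atTop
      (𝓝 (vj u j z)) := by
    unfold vj PI
    apply tendsto_integral_of_dominated_convergence (fun ζ => P z ζ * u ζ)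
    · intro K
      apply (integrable_P_mul hz _).aestronglyMeasurable
      apply Integrable.indicator _ hEj
      exact hui.inf (integrable_const _)
    · exact integrable_P_mul hz hui
    · intro K
      filter_upwards [ae_norm] with ζ hζ
      have hP := P_nonneg hz hζ
      by_cases h : ζ ∈ Ek u j
      · rw [indicator_of_mem h, norm_mul, Real.norm_eq_abs, Real.norm_eq_abs, abs_of_nonneg hP,
          abs_of_nonneg (le_min (hu0 ζ) (by positivity))]
        exact mul_le_mul_of_nonneg_left (min_le_left _ _) hP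
      · rw [indicator_of_notMem h, mul_zero, norm_zero]
        exact mul_nonneg hP (hu0 ζ)
    · refine Eventually.of_forall fun ζ => ?_
      apply Tendsto.const_mul
      by_cases h : ζ ∈ Ek u j
      · simp only [indicator_of_mem h]
        apply tendsto_const_nhds.congr'
        have h2 : Tendsto (fun K : ℕ => (2 : ℝ) ^ K) atTop atTop :=
          tendsto_pow_atTop_atTop_of_one_lt (by norm_num)
        filter_upwards [h2.eventually (eventually_ge_atTop (u ζ))] with K hK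
        rw [min_eq_left hK]
      · simp only [indicator_of_notMem h]
        exact tendsto_const_nhds
  apply le_of_tendsto hlim
  filter_upwards [eventually_gt_atTop j] with K hK
  exact hfin K hK

lemma norm_beta {u : ℂ → ℝ} {z : ℂ} : ‖beta u z‖ = Real.exp (-(8 * (GG u z).re)) := by
  unfold beta
  rw [Complex.norm_exp]
  simp

lemma norm_beta_le {u : ℂ → ℝ} (hu : Measurable u) (hu0 : ∀ ζ, 0 ≤ u ζ)
    (hui : Integrable u σ) {z : ℂ} (hz : ‖z‖ < 1) : ‖beta u z‖ ≤ 1 := by
  rw [norm_beta, Real.exp_le_one_iff]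
  linarith [re_GG_nonneg hu hu0 hui hz]

lemma differentiableOn_beta {u : ℂ → ℝ} (hu : Measurable u) (hu0 : ∀ ζ, 0 ≤ u ζ)
    (hui : Integrable u σ) : DifferentiableOn ℂ (beta u) (ball 0 1) :=
  (((differentiableOn_GG hu hu0 hui).const_mul (8 : ℂ)).neg).cexp

lemma beta_ne_zero (u : ℂ → ℝ) (z : ℂ) : beta u z ≠ 0 := Complex.exp_ne_zero _

/-- tail factors -/
noncomputable def Rn (u : ℂ → ℝ) (n : ℕ) (z : ℂ) : ℂ := exp (-(8 * ∑' k, trm u (k + n) z))

lemma beta_eq {u : ℂ → ℝ} (hu : Measurable u) (hu0 : ∀ ζ, 0 ≤ u ζ)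
    (hui : Integrable u σ) {z : ℂ} (hz : ‖z‖ < 1) (n : ℕ) :
    beta u z = (∏ k ∈ Finset.range n, blk (8 * 2 ^ k) (Ek u k) z) * Rn u n z := by
  unfold beta Rn blk GG
  rw [← Complex.exp_sum, ← Complex.exp_add]
  congr 1
  rw [← (norm_trm_summable hu hu0 hui hz).sum_add_tsum_nat_add n, mul_add, neg_add, Finset.mul_sum,
    ← Finset.sum_neg_distrib]
  congr 1
  apply Finset.sum_congr rfl
  intro k _
  unfold trm
  push_cast
  ring

lemma norm_Rn_le {u : ℂ → ℝ} (hu : Measurable u) (hu0 : ∀ ζ, 0 ≤ u ζ)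
    (hui : Integrable u σ) (n : ℕ) {z : ℂ} (hz : ‖z‖ < 1) : ‖Rn u n z‖ ≤ 1 := by
  unfold Rn
  rw [Complex.norm_exp, Real.exp_le_one_iff]
  have := re_tail_nonneg hu hu0 hui n hz
  simp only [neg_re, mul_re, re_ofNat, im_ofNat, zero_mul, sub_zero]
  linarith

lemma differentiableOn_Rn {u : ℂ → ℝ} (hu : Measurable u) (hu0 : ∀ ζ, 0 ≤ u ζ)
    (hui : Integrable u σ) (n : ℕ) : DifferentiableOn ℂ (Rn u n) (ball 0 1) :=
  (((differentiableOn_tail hu hu0 hui n).const_mul (8 : ℂ)).neg).cexp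

lemma tendsto_Rn_zero {u : ℂ → ℝ} (hu : Measurable u) (hu0 : ∀ ζ, 0 ≤ u ζ)
    (hui : Integrable u σ) : Tendsto (fun n => ‖Rn u n 0‖) atTop (𝓝 1) := by
  have h1 : Tendsto (fun n => ∑' k, trm u (k + n) 0) atTop (𝓝 0) :=
    tendsto_sum_nat_add (fun k => trm u k 0)
  have h2 : Tendsto (fun n => Rn u n 0) atTop (𝓝 (exp (-(8 * 0)))) :=
    (Complex.continuous_exp.tendsto _).comp (h1.const_mul 8).neg
  have := h2.norm
  simpa using this

lemma mean_value {f : ℂ → ℂ} (hf : DifferentiableOn ℂ f (ball 0 1)) {r : ℝ} (hr0 : 0 ≤ r)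
    (hr : r < 1) : ∫ ζ : ℂ, f (r * ζ) ∂σ = f 0 := by
  have hmaps : ∀ ζ : ℂ, ‖ζ‖ ≤ 1 → (r : ℂ) * ζ ∈ ball (0 : ℂ) 1 := by
    intro ζ hζ
    rw [mem_ball_zero_iff, norm_mul, Complex.norm_real, Real.norm_eq_abs, abs_of_nonneg hr0]
    nlinarith [norm_nonneg ζ]
  have hdd : DifferentiableOn ℂ (fun ζ : ℂ => f (r * ζ)) (closedBall 0 1) := by
    refine hf.comp (by fun_prop) ?_
    intro ζ hζ
    exact hmaps ζ (by simpa using hζ)
  have h1 : DiffContOnCl ℂ (fun ζ : ℂ => f (r * ζ)) (ball 0 |1|) := by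
    apply DifferentiableOn.diffContOnCl
    rw [abs_one, closure_ball _ one_ne_zero]
    exact hdd
  have h2 := h1.circleAverage
  rw [integral_σ (aesm_of_continuousOn (hdd.continuousOn.mono sphere_subset_closedBall)), h2]
  simp

lemma continuousOn_dilate {E : Type*} [TopologicalSpace E] {f : ℂ → E}
    (hf : ContinuousOn f (ball 0 1)) {r : ℝ} (hr0 : 0 ≤ r)
    (hr : r < 1) : ContinuousOn (fun ζ : ℂ => f (r * ζ)) (sphere 0 1) := by
  refine hf.comp (by fun_prop) ?_
  intro ζ hζ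
  have := norm_dilate hr0 hr (mem_sphere_zero_iff_norm.1 hζ)
  simpa using this

/-- `beta` is inner: unimodular radial limits a.e. -/
theorem beta_radial {u : ℂ → ℝ} (hu : Measurable u) (hu0 : ∀ ζ, 0 ≤ u ζ)
    (hui : Integrable u σ) :
    ∀ᵐ ζ ∂σ, ∃ L : ℂ, ‖L‖ = 1 ∧ Tendsto (fun r : ℝ => beta u (r * ζ)) (𝓝[<] 1) (𝓝 L) := by
  have hbd := differentiableOn_beta hu hu0 hui
  have hfat := fatou hbd (C := 1) (fun z hz => norm_beta_le hu hu0 hui (by simpa using hz))
  -- limit of the norms along the radii `rad m`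
  let ℓ : ℂ → ℝ := fun ζ => limUnder atTop (fun m => ‖beta u (rad m * ζ)‖)
  have hℓ : ∀ᵐ ζ ∂σ, Tendsto (fun m => ‖beta u (rad m * ζ)‖) atTop (𝓝 (ℓ ζ)) := by
    filter_upwards [hfat] with ζ hζ
    obtain ⟨L, hL⟩ := hζ
    have := (hL.comp tendsto_rad).norm
    exact tendsto_nhds_limUnder ⟨‖L‖, this⟩
  have hmeas : ∀ m, AEStronglyMeasurable (fun ζ : ℂ => ‖beta u (rad m * ζ)‖) σ := fun m =>
    (aesm_of_continuousOn (continuousOn_dilate hbd.continuousOn (rad_pos m).le (rad_lt m))).norm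
  have hℓm : AEStronglyMeasurable ℓ σ := aestronglyMeasurable_of_tendsto_ae _ hmeas hℓ
  have hbd1 : ∀ m, ∀ᵐ ζ ∂σ, ‖(‖beta u (rad m * ζ)‖ : ℝ)‖ ≤ 1 := by
    intro m
    filter_upwards [ae_norm] with ζ hζ
    rw [norm_norm]
    exact norm_beta_le hu hu0 hui (norm_dilate (rad_pos m).le (rad_lt m) hζ)
  have hint : Tendsto (fun m => ∫ ζ : ℂ, ‖beta u (rad m * ζ)‖ ∂σ) atTop (𝓝 (∫ ζ, ℓ ζ ∂σ)) :=
    tendsto_integral_of_dominated_convergence (fun _ => 1) hmeas (integrable_const _) hbd1 hℓ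
  -- lower bound
  have hlow : ∀ n, ‖Rn u n 0‖ ≤ ∫ ζ, ℓ ζ ∂σ := by
    intro n
    have hprod : ∀ᵐ ζ ∂σ, Tendsto (fun m => ∏ k ∈ Finset.range n,
        ‖blk (8 * 2 ^ k) (Ek u k) (rad m * ζ)‖) atTop (𝓝 1) := by
      have h1 : ∀ᵐ ζ ∂σ, ∀ k, Tendsto (fun r : ℝ => ‖blk (8 * 2 ^ k) (Ek u k) (r * ζ)‖)
          (𝓝[<] 1) (𝓝 1) := by
        rw [ae_all_iff]
        intro k
        exact blk_radial (by positivity) (measurableSet_Ek hu k)
      filter_upwards [h1] with ζ hζ
      have h2 := tendsto_finsetProd (Finset.range n) (fun k _ => (hζ k).comp tendsto_rad)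
      simpa using h2
    have hRm : ∀ m, AEStronglyMeasurable (fun ζ : ℂ => ‖Rn u n (rad m * ζ)‖) σ := fun m =>
      (aesm_of_continuousOn (continuousOn_dilate (differentiableOn_Rn hu hu0 hui n).continuousOn
        (rad_pos m).le (rad_lt m))).norm
    have hdiff : Tendsto (fun m => ∫ ζ : ℂ, (‖Rn u n (rad m * ζ)‖ - ‖beta u (rad m * ζ)‖) ∂σ)
        atTop (𝓝 (∫ _ζ : ℂ, (0 : ℝ) ∂σ)) := by
      apply tendsto_integral_of_dominated_convergence (fun _ => 2)
      · intro m; exact (hRm m).sub (hmeas m)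
      · exact integrable_const _
      · intro m
        filter_upwards [ae_norm] with ζ hζ
        have hz := norm_dilate (rad_pos m).le (rad_lt m) hζ
        have h1 := norm_beta_le hu hu0 hui hz
        have h2 := norm_Rn_le hu hu0 hui n hz
        rw [Real.norm_eq_abs, abs_le]
        constructor <;> linarith [norm_nonneg (beta u (rad m * ζ)), norm_nonneg (Rn u n (rad m * ζ))]
      · filter_upwards [hprod, ae_norm] with ζ hζ hn
        rw [Metric.tendsto_atTop]
        intro ε hε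
        obtain ⟨M, hM⟩ := Metric.tendsto_atTop.1 hζ ε hε
        refine ⟨M, fun m hm => ?_⟩
        have hz := norm_dilate (rad_pos m).le (rad_lt m) hn
        have h1 := hM m hm
        rw [beta_eq hu hu0 hui hz n, norm_mul, norm_prod, Real.dist_eq, sub_zero]
        rw [Real.dist_eq] at h1
        have h2 := norm_Rn_le hu hu0 hui n hz
        set p := ∏ k ∈ Finset.range n, ‖blk (8 * 2 ^ k) (Ek u k) (rad m * ζ)‖
        have h3 : ‖Rn u n (rad m * ζ)‖ - p * ‖Rn u n (rad m * ζ)‖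
            = -((p - 1) * ‖Rn u n (rad m * ζ)‖) := by ring
        rw [h3, abs_neg, abs_mul, abs_norm]
        calc |p - 1| * ‖Rn u n (rad m * ζ)‖ ≤ |p - 1| * 1 := by gcongr
          _ < ε := by rw [mul_one]; exact h1
    rw [integral_zero] at hdiff
    have hsum := hint.add hdiff
    rw [add_zero] at hsum
    apply ge_of_tendsto hsum
    refine Eventually.of_forall fun m => ?_
    have hi1 : Integrable (fun ζ : ℂ => ‖beta u (rad m * ζ)‖) σ :=
      (integrable_of_continuousOn (continuousOn_dilate hbd.continuousOn (rad_pos m).le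
        (rad_lt m))).norm
    have hi2 : Integrable (fun ζ : ℂ => ‖Rn u n (rad m * ζ)‖) σ :=
      (integrable_of_continuousOn (continuousOn_dilate
        (differentiableOn_Rn hu hu0 hui n).continuousOn (rad_pos m).le (rad_lt m))).norm
    rw [integral_sub hi2 hi1, add_sub_cancel,
      ← mean_value (differentiableOn_Rn hu hu0 hui n) (rad_pos m).le (rad_lt m)]
    exact norm_integral_le_integral_norm _
  have hge : 1 ≤ ∫ ζ, ℓ ζ ∂σ :=
    le_of_tendsto (tendsto_Rn_zero hu hu0 hui) (Eventually.of_forall hlow)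
  have hℓ1 : ∀ᵐ ζ ∂σ, ℓ ζ ≤ 1 := by
    filter_upwards [hℓ, ae_norm] with ζ h1 hζ
    exact le_of_tendsto h1 (Eventually.of_forall fun m =>
      norm_beta_le hu hu0 hui (norm_dilate (rad_pos m).le (rad_lt m) hζ))
  have hℓ0 : ∀ᵐ ζ ∂σ, 0 ≤ ℓ ζ := by
    filter_upwards [hℓ] with ζ h1
    exact ge_of_tendsto h1 (Eventually.of_forall fun m => norm_nonneg _)
  have hℓi : Integrable ℓ σ := by
    apply Integrable.of_bound hℓm 1
    filter_upwards [hℓ1, hℓ0] with ζ h1 h0
    rwa [Real.norm_eq_abs, abs_of_nonneg h0]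
  have hzero : ∫ ζ, (1 - ℓ ζ) ∂σ = 0 := by
    apply le_antisymm
    · rw [integral_sub (integrable_const _) hℓi]
      simp only [integral_const, probReal_univ, smul_eq_mul, mul_one]
      linarith
    · apply integral_nonneg_of_ae
      filter_upwards [hℓ1] with ζ h1
      simp only [Pi.zero_apply]
      linarith
  have hi1 : Integrable (fun ζ => 1 - ℓ ζ) σ := (integrable_const _).sub hℓi
  rw [integral_eq_zero_iff_of_nonneg_ae _ hi1] at hzero
  · filter_upwards [hzero, hfat, hℓ] with ζ h1 h2 h3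
    obtain ⟨L, hL⟩ := h2
    refine ⟨L, ?_, hL⟩
    have h4 := (hL.comp tendsto_rad).norm
    have h5 := tendsto_nhds_unique h4 h3
    rw [h5]
    simp only [Pi.zero_apply] at h1
    linarith
  · filter_upwards [hℓ1] with ζ h1
    simp only [Pi.zero_apply]
    linarith

end Pool.Agent.RegJ
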