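import Pool.Agent.RegJ.Fatou

open Filter Topology Complex MeasureTheory Set Metric
open scoped Real ENNReal NNReal

namespace Pool.Agent.RegJ

/-- a sequence of radii -/
noncomputable def rad (n : ℕ) : ℝ := 1 - 1 / ((n : ℝ) + 2)

lemma rad_pos (n : ℕ) : 0 < rad n := by
  unfold rad
  have : (1 : ℝ) / ((n : ℝ) + 2) < 1 := by
    rw [div_lt_one (by positivity)]
    have : (0 : ℝ) ≤ n := Nat.cast_nonneg n
    linarith
  linarith

lemma rad_lt (n : ℕ) : rad n < 1 := by
  unfold rad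
  have : (0 : ℝ) < 1 / ((n : ℝ) + 2) := by positivity
  linarith

lemma tendsto_rad : Tendsto rad atTop (𝓝[<] 1) := by
  apply tendsto_nhdsWithin_of_tendsto_nhds_of_eventually_within
  · have h1 : Tendsto (fun n : ℕ => 1 / ((n : ℝ) + 2)) atTop (𝓝 0) := by
      apply Tendsto.div_atTop tendsto_const_nhds
      exact tendsto_atTop_add_const_right _ _ tendsto_natCast_atTop_atTop
    have := h1.const_sub 1
    rw [sub_zero] at this
    exact this
  · exact Eventually.of_forall rad_lt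

/-- Poisson dilates converge a.e. along a sequence of radii. -/
lemma exists_seq_PI {g : ℂ → ℝ} (hg : Integrable g σ) :
    ∃ ρ : ℕ → ℝ, (∀ n, 0 < ρ n ∧ ρ n < 1) ∧ Tendsto ρ atTop (𝓝[<] 1) ∧
      ∀ᵐ ζ ∂σ, Tendsto (fun n => PI g (ρ n * ζ)) atTop (𝓝 (g ζ)) := by
  have h1 := (PI_tendsto_L1 hg).comp tendsto_rad
  have h2 : TendstoInMeasure σ (fun n (ζ : ℂ) => PI g (rad n * ζ)) atTop g := by
    apply tendstoInMeasure_of_tendsto_eLpNorm (p := 1) one_ne_zero
    · intro n
      exact aesm_PI_dilate hg (rad_pos n).le (rad_lt n)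
    · exact hg.aestronglyMeasurable
    · have h3 : ∀ n, eLpNorm ((fun (ζ : ℂ) => PI g (rad n * ζ)) - g) 1 σ
          = ENNReal.ofReal (∫ ζ, |PI g (rad n * ζ) - g ζ| ∂σ) := by
        intro n
        rw [eLpNorm_one_eq_lintegral_enorm, ofReal_integral_eq_lintegral_ofReal]
        · congr 1; ext ζ
          rw [← ofReal_norm]; rfl
        · exact ((integrable_PI_dilate hg (rad_pos n).le (rad_lt n)).sub hg).norm
        · exact Eventually.of_forall fun _ => abs_nonneg _
      simp only [h3]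
      have := (ENNReal.continuous_ofReal.tendsto 0).comp h1
      rw [ENNReal.ofReal_zero] at this
      exact this
  obtain ⟨ns, hns, hae⟩ := h2.exists_seq_tendsto_ae
  exact ⟨fun n => rad (ns n), fun n => ⟨rad_pos _, rad_lt _⟩,
    tendsto_rad.comp hns.tendsto_atTop, hae⟩

lemma norm_sin_le (w : ℂ) : ‖Complex.sin w‖ ≤ ‖w‖ * Real.exp ‖w‖ := by
  have h1 : Complex.sin w = ((exp (-w * I) - 1) - (exp (w * I) - 1)) * I / 2 := by
    rw [Complex.sin]; ring
  have h2 : ∀ v : ℂ, ‖exp v - 1‖ ≤ ‖v‖ * Real.exp ‖v‖ := by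
    intro v
    have := norm_exp_sub_sum_le_norm_mul_exp v 1
    simpa using this
  rw [h1, norm_div, norm_mul, Complex.norm_I, mul_one, Complex.norm_ofNat]
  have h3 := norm_sub_le (exp (-w * I) - 1) (exp (w * I) - 1)
  have h4 := h2 (-w * I)
  have h5 := h2 (w * I)
  rw [norm_mul, norm_neg, Complex.norm_I, mul_one] at h4
  rw [norm_mul, Complex.norm_I, mul_one] at h5
  linarith

lemma sin_re (w : ℂ) : (Complex.sin w).re = Real.sin w.re * Real.cosh w.im := by
  rw [Complex.sin_eq]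
  rw [← Complex.ofReal_sin, ← Complex.ofReal_cosh, ← Complex.ofReal_cos, ← Complex.ofReal_sinh,
    Complex.add_re, ← Complex.ofReal_mul, Complex.ofReal_re, ← Complex.ofReal_mul,
    Complex.re_ofReal_mul, Complex.I_re, mul_zero, add_zero]

/-- indicator function of a set as a real function -/
noncomputable abbrev ind (E : Set ℂ) : ℂ → ℝ := E.indicator fun _ => 1

lemma integrable_ind {E : Set ℂ} (hE : MeasurableSet E) : Integrable (ind E) σ :=
  (integrable_const _).indicator hE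

lemma ind_nonneg (E : Set ℂ) (ζ : ℂ) : 0 ≤ ind E ζ := indicator_nonneg (fun _ _ => zero_le_one) _

lemma ind_le (E : Set ℂ) (ζ : ℂ) : ind E ζ ≤ 1 :=
  indicator_le_self' (f := fun _ : ℂ => (1 : ℝ)) (fun _ _ => zero_le_one) ζ

lemma PI_ind_mem {E : Set ℂ} (hE : MeasurableSet E) {z : ℂ} (hz : ‖z‖ < 1) :
    0 ≤ PI (ind E) z ∧ PI (ind E) z ≤ 1 := by
  constructor
  · exact PI_nonneg (Eventually.of_forall (ind_nonneg E)) hz
  · rw [← PI_const 1 hz]
    exact PI_mono (integrable_ind hE) (integrable_const _) (Eventually.of_forall (ind_le E)) hz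

lemma integral_im_sq {E : Set ℂ} (hE : MeasurableSet E) {r : ℝ} (hr0 : 0 ≤ r) (hr : r < 1) :
    ∫ ζ, (HI (ind E) (r * ζ)).im ^ 2 ∂σ ≤ 1 := by
  have hd := differentiableOn_HI (integrable_ind hE)
  have hmaps : ∀ ζ : ℂ, ‖ζ‖ ≤ 1 → (r : ℂ) * ζ ∈ ball (0 : ℂ) 1 := by
    intro ζ hζ
    rw [mem_ball_zero_iff, norm_mul, Complex.norm_real, Real.norm_eq_abs, abs_of_nonneg hr0]
    nlinarith [norm_nonneg ζ]
  have hdd : DifferentiableOn ℂ (fun ζ : ℂ => HI (ind E) (r * ζ) ^ 2) (closedBall 0 1) := by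
    apply DifferentiableOn.pow
    refine hd.comp (by fun_prop) ?_
    intro ζ hζ
    exact hmaps ζ (by simpa using hζ)
  have h1 : DiffContOnCl ℂ (fun ζ : ℂ => HI (ind E) (r * ζ) ^ 2) (ball 0 |1|) := by
    apply DifferentiableOn.diffContOnCl
    rw [abs_one, closure_ball _ one_ne_zero]
    exact hdd
  have h2 := h1.circleAverage
  have hc : ContinuousOn (fun ζ : ℂ => HI (ind E) (r * ζ)) (sphere 0 1) := by
    refine hd.continuousOn.comp (by fun_prop) ?_
    intro ζ hζ
    exact hmaps ζ (by simpa using (mem_sphere_zero_iff_norm.1 hζ).le)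
  have hc2 : ContinuousOn (fun ζ : ℂ => HI (ind E) (r * ζ) ^ 2) (sphere 0 1) := hc.pow 2
  rw [← integral_σ (aesm_of_continuousOn hc2)] at h2
  have i0 : Integrable (fun ζ : ℂ => HI (ind E) (r * ζ) ^ 2) σ :=
    integrable_of_continuousOn hc2
  have h3 := integral_re i0
  simp only [RCLike.re_eq_complex_re] at h3
  rw [h2, mul_zero, HI_zero] at h3
  have i1 : Integrable (fun ζ : ℂ => (HI (ind E) (r * ζ)).re ^ 2) σ :=
    integrable_of_continuousOn ((Complex.continuous_re.comp_continuousOn hc).pow 2)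
  have i2 : Integrable (fun ζ : ℂ => (HI (ind E) (r * ζ)).im ^ 2) σ :=
    integrable_of_continuousOn ((Complex.continuous_im.comp_continuousOn hc).pow 2)
  have h4 : ∫ ζ : ℂ, (HI (ind E) (r * ζ) ^ 2).re ∂σ
      = (∫ ζ : ℂ, (HI (ind E) (r * ζ)).re ^ 2 ∂σ) - ∫ ζ : ℂ, (HI (ind E) (r * ζ)).im ^ 2 ∂σ := by
    rw [← integral_sub i1 i2]
    congr 1; ext ζ
    rw [sq, Complex.mul_re]; ring
  have h5 : ∫ ζ : ℂ, (HI (ind E) (r * ζ)).re ^ 2 ∂σ ≤ 1 := by
    have : ∫ ζ : ℂ, (HI (ind E) (r * ζ)).re ^ 2 ∂σ ≤ ∫ _ζ : ℂ, (1 : ℝ) ∂σ := by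
      apply integral_mono_ae i1 (integrable_const _)
      filter_upwards [ae_norm] with ζ hζ
      have hz := norm_dilate hr0 hr hζ
      rw [HI_re hz (integrable_ind hE)]
      have := PI_ind_mem hE hz
      nlinarith [this.1, this.2]
    simpa using this
  have h6 : (0 : ℝ) ≤ ((((∫ ζ, ind E ζ ∂σ : ℝ) : ℂ) ^ 2).re) := by
    rw [← Complex.ofReal_pow, Complex.ofReal_re]; positivity
  rw [h4] at h3
  linarith

/-- `exp (-c sin (π H))` -/
noncomputable def blk (c : ℝ) (E : Set ℂ) (z : ℂ) : ℂ :=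
  exp (-(c * Complex.sin (π * HI (ind E) z)))

lemma re_sin_HI {E : Set ℂ} (hE : MeasurableSet E) {z : ℂ} (hz : ‖z‖ < 1) :
    (Complex.sin (π * HI (ind E) z)).re
      = Real.sin (π * PI (ind E) z) * Real.cosh (π * (HI (ind E) z).im) := by
  rw [sin_re, ← HI_re hz (integrable_ind hE)]
  simp

lemma re_sin_HI_nonneg {E : Set ℂ} (hE : MeasurableSet E) {z : ℂ} (hz : ‖z‖ < 1) :
    0 ≤ (Complex.sin (π * HI (ind E) z)).re := by
  rw [re_sin_HI hE hz]
  have h1 := PI_ind_mem hE hz
  apply mul_nonneg _ (Real.cosh_pos _).le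
  apply Real.sin_nonneg_of_nonneg_of_le_pi
  · exact mul_nonneg Real.pi_pos.le h1.1
  · nlinarith [Real.pi_pos, h1.2]

lemma norm_blk {c : ℝ} {E : Set ℂ} {z : ℂ} :
    ‖blk c E z‖ = Real.exp (-(c * (Complex.sin (π * HI (ind E) z)).re)) := by
  unfold blk
  rw [Complex.norm_exp]
  simp

lemma norm_blk_le {c : ℝ} (hc : 0 ≤ c) {E : Set ℂ} (hE : MeasurableSet E) {z : ℂ}
    (hz : ‖z‖ < 1) : ‖blk c E z‖ ≤ 1 := by
  rw [norm_blk, Real.exp_le_one_iff]
  have := mul_nonneg hc (re_sin_HI_nonneg hE hz)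
  linarith

lemma differentiableOn_sinHI {E : Set ℂ} (hE : MeasurableSet E) :
    DifferentiableOn ℂ (fun z => Complex.sin (π * HI (ind E) z)) (ball 0 1) :=
  ((differentiableOn_HI (integrable_ind hE)).const_mul (π : ℂ)).csin

lemma differentiableOn_blk {c : ℝ} {E : Set ℂ} (hE : MeasurableSet E) :
    DifferentiableOn ℂ (blk c E) (ball 0 1) :=
  (((differentiableOn_sinHI hE).const_mul (c : ℂ)).neg).cexp

/-- blocks have unimodular radial limits a.e. -/
lemma blk_radial {c : ℝ} (hc : 0 ≤ c) {E : Set ℂ} (hE : MeasurableSet E) :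
    ∀ᵐ ζ ∂σ, Tendsto (fun r : ℝ => ‖blk c E (r * ζ)‖) (𝓝[<] 1) (𝓝 1) := by
  obtain ⟨ρ, hρ, hρt, hρae⟩ := exists_seq_PI (integrable_ind hE)
  have hfat := fatou (differentiableOn_blk (c := c) hE) (C := 1)
    (fun z hz => norm_blk_le hc hE (by simpa using hz))
  have hd := differentiableOn_HI (integrable_ind hE)
  -- the imaginary parts are frequently bounded
  have hliminf : ∀ᵐ ζ ∂σ, ∃ C : ℝ, ∃ᶠ n in atTop, (HI (ind E) (ρ n * ζ)).im ^ 2 < C := by
    have hmeas : ∀ n, AEMeasurable (fun ζ : ℂ => ENNReal.ofReal ((HI (ind E) (ρ n * ζ)).im ^ 2)) σ := by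
      intro n
      apply ENNReal.measurable_ofReal.comp_aemeasurable
      apply AEStronglyMeasurable.aemeasurable
      apply aesm_of_continuousOn
      apply ContinuousOn.pow
      apply Complex.continuous_im.comp_continuousOn
      refine hd.continuousOn.comp (by fun_prop) ?_
      intro ζ hζ
      have := norm_dilate (hρ n).1.le (hρ n).2 (mem_sphere_zero_iff_norm.1 hζ)
      simpa using this
    have h1 := lintegral_liminf_le' (u := atTop) (μ := σ) hmeas
    have h2 : ∀ n, ∫⁻ ζ : ℂ, ENNReal.ofReal ((HI (ind E) (ρ n * ζ)).im ^ 2) ∂σ ≤ 1 := by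
      intro n
      rw [← ofReal_integral_eq_lintegral_ofReal]
      · rw [ENNReal.ofReal_le_one]
        exact integral_im_sq hE (hρ n).1.le (hρ n).2
      · apply integrable_of_continuousOn
        apply ContinuousOn.pow
        apply Complex.continuous_im.comp_continuousOn
        refine hd.continuousOn.comp (by fun_prop) ?_
        intro ζ hζ
        have := norm_dilate (hρ n).1.le (hρ n).2 (mem_sphere_zero_iff_norm.1 hζ)
        simpa using this
      · exact Eventually.of_forall fun _ => sq_nonneg _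
    have h3 : ∫⁻ ζ : ℂ, liminf (fun n => ENNReal.ofReal ((HI (ind E) (ρ n * ζ)).im ^ 2)) atTop ∂σ
        ≠ ∞ := by
      refine ne_top_of_le_ne_top ENNReal.one_ne_top (h1.trans ?_)
      refine (liminf_le_limsup).trans ?_
      exact limsup_le_of_le (h := Eventually.of_forall h2)
    have hlm : AEMeasurable (fun ζ : ℂ =>
        liminf (fun n => ENNReal.ofReal ((HI (ind E) (ρ n * ζ)).im ^ 2)) atTop) σ := by
      simp only [Filter.liminf_eq_iSup_iInf_of_nat]
      exact AEMeasurable.iSup fun n => AEMeasurable.biInf _ (to_countable _) fun i _ => hmeas i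
    have h4 := ae_lt_top' hlm h3
    filter_upwards [h4] with ζ hζ
    obtain ⟨C, hC1, hC2⟩ := exists_between hζ
    refine ⟨C.toReal, ?_⟩
    have h5 := frequently_lt_of_liminf_lt (by isBoundedDefault) hC1
    refine h5.mono fun n hn => ?_
    have h6 : C ≠ ∞ := hC2.ne
    rwa [← ENNReal.ofReal_toReal h6, ENNReal.ofReal_lt_ofReal_iff_of_nonneg (sq_nonneg _)] at hn
  filter_upwards [hfat, hρae, hliminf, ae_norm] with ζ h1 h2 h3 hζ
  obtain ⟨L, hL⟩ := h1
  have hLn := hL.norm
  suffices hL1 : ‖L‖ = 1 by rwa [hL1] at hLn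
  have hLseq : Tendsto (fun n => ‖blk c E (ρ n * ζ)‖) atTop (𝓝 ‖L‖) := hLn.comp hρt
  apply le_antisymm
  · apply le_of_tendsto hLseq
    exact Eventually.of_forall fun n => norm_blk_le hc hE (norm_dilate (hρ n).1.le (hρ n).2 hζ)
  · obtain ⟨C, hC⟩ := h3
    -- `sin (π ω) → 0`
    have hsin : Tendsto (fun n => c * (Real.sin (π * PI (ind E) (ρ n * ζ)) *
        Real.cosh (π * √C))) atTop (𝓝 0) := by
      have h4 : Tendsto (fun n => Real.sin (π * PI (ind E) (ρ n * ζ))) atTop
          (𝓝 (Real.sin (π * ind E ζ))) :=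
        (Real.continuous_sin.tendsto _).comp (h2.const_mul π)
      have h5 : Real.sin (π * ind E ζ) = 0 := by
        by_cases hζE : ζ ∈ E
        · simp [ind, hζE]
        · simp [ind, hζE]
      rw [h5] at h4
      have := (h4.mul_const (Real.cosh (π * √C))).const_mul c
      simpa using this
    by_contra hlt
    push Not at hlt
    have hexp : Tendsto (fun n => Real.exp (-(c * (Real.sin (π * PI (ind E) (ρ n * ζ)) *
        Real.cosh (π * √C))))) atTop (𝓝 1) := by
      have := (Real.continuous_exp.tendsto _).comp hsin.neg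
      rw [neg_zero, Real.exp_zero] at this
      exact this
    obtain ⟨q, hq1, hq2⟩ := exists_between hlt
    have e1 := hLseq.eventually (gt_mem_nhds hq1)
    have e2 := hexp.eventually (lt_mem_nhds hq2)
    obtain ⟨n, hn, hn1, hn2⟩ := (hC.and_eventually (e1.and e2)).exists
    have hz := norm_dilate (hρ n).1.le (hρ n).2 hζ
    rw [norm_blk, re_sin_HI hE hz] at hn1
    have h6 : Real.cosh (π * (HI (ind E) (ρ n * ζ)).im) ≤ Real.cosh (π * √C) := by
      rw [Real.cosh_le_cosh, abs_mul, abs_mul]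
      apply mul_le_mul_of_nonneg_left _ (abs_nonneg _)
      rw [abs_of_nonneg (Real.sqrt_nonneg C)]
      exact Real.abs_le_sqrt hn.le
    have h7 : 0 ≤ Real.sin (π * PI (ind E) (ρ n * ζ)) := by
      have h1 := PI_ind_mem hE hz
      apply Real.sin_nonneg_of_nonneg_of_le_pi
      · exact mul_nonneg Real.pi_pos.le h1.1
      · nlinarith [Real.pi_pos, h1.2]
    have h8 : Real.exp (-(c * (Real.sin (π * PI (ind E) (ρ n * ζ)) * Real.cosh (π * √C))))
        ≤ Real.exp (-(c * (Real.sin (π * PI (ind E) (ρ n * ζ)) *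
          Real.cosh (π * (HI (ind E) (ρ n * ζ)).im)))) := by
      apply Real.exp_le_exp.2
      apply neg_le_neg
      gcongr
    linarith

end Pool.Agent.RegJ
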