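import Mathlib

open Filter Topology Complex MeasureTheory Set Matrix
open scoped Real ENNReal ComplexOrder

namespace Pool.Agent.RegJ

/-- The open unit disc `𝔻`. -/
abbrev disc : Set ℂ := Metric.ball 0 1

/-- Normalised Lebesgue measure `m` on the unit circle `𝕋`, as a Borel measure on `ℂ`
(the image of `(2π)⁻¹ dθ` on `(0, 2π]` under `θ ↦ exp (iθ)`). -/
noncomputable def circleMeasure : Measure ℂ :=
  ENNReal.ofReal (2 * π)⁻¹ • (volume.restrict (Ioc 0 (2 * π))).map (circleMap 0 1)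

/-- `f` has boundary value (radial limit) `L` at the point `ζ` of the unit circle. -/
def HasBdryValue {X : Type*} [TopologicalSpace X] (f : ℂ → X) (ζ : ℂ) (L : X) : Prop :=
  Tendsto (fun r : ℝ => f (r * ζ)) (𝓝[<] 1) (𝓝 L)

/-- A matrix function which is meromorphic of bounded type in the disc: it is a quotient `h⁻¹ G`
of a bounded holomorphic matrix function `G` by a bounded holomorphic scalar function `h ≢ 0`
(no condition is imposed on the values of `W` at the zeros of `h`). -/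
def BoundedType {a b : Type*} (W : ℂ → Matrix a b ℂ) : Prop :=
  ∃ (h : ℂ → ℂ) (G : ℂ → Matrix a b ℂ) (C : ℝ),
    DifferentiableOn ℂ h disc ∧ (∀ i k, DifferentiableOn ℂ (fun z => G z i k) disc) ∧
    (∀ z ∈ disc, ‖h z‖ ≤ C ∧ ∀ i k, ‖G z i k‖ ≤ C) ∧ (∃ z ∈ disc, h z ≠ 0) ∧
    ∀ z ∈ disc, h z ≠ 0 → W z = (h z)⁻¹ • G z

/-- The Smirnov class `𝒩₊` (scalar functions). -/
def Smirnov (h : ℂ → ℂ) : Prop :=
  DifferentiableOn ℂ h disc ∧
  (∃ (a b : ℂ → ℂ) (C : ℝ), DifferentiableOn ℂ a disc ∧ DifferentiableOn ℂ b disc ∧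
    (∀ z ∈ disc, ‖a z‖ ≤ C ∧ ‖b z‖ ≤ C) ∧ (∃ z ∈ disc, b z ≠ 0) ∧
    ∀ z ∈ disc, b z * h z = a z) ∧
  ∃ hb : ℂ → ℂ, (∀ᵐ ζ ∂circleMeasure, HasBdryValue h ζ (hb ζ)) ∧
    (⨆ r ∈ Ico (0 : ℝ) 1, ∫⁻ ζ, ENNReal.ofReal (Real.posLog ‖h (r * ζ)‖) ∂circleMeasure)
      = ∫⁻ ζ, ENNReal.ofReal (Real.posLog ‖hb ζ‖) ∂circleMeasure ∧
    ∫⁻ ζ, ENNReal.ofReal (Real.posLog ‖hb ζ‖) ∂circleMeasure < ∞

variable {m n : Type*} [Fintype m] [DecidableEq m] [Fintype n] [DecidableEq n]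

/-- The signature matrix `j = diag (I_p, -I_q)`. -/
def sgnMat (m n : Type*) [DecidableEq m] [DecidableEq n] : Matrix (m ⊕ n) (m ⊕ n) ℂ :=
  Matrix.fromBlocks 1 0 0 (-1)

/-- all entries of `W` are analytic at `z` -/
def AnalyticPt {a b : Type*} (W : ℂ → Matrix a b ℂ) (z : ℂ) : Prop :=
  ∀ i k, AnalyticAt ℂ (fun w => W w i k) z

/-- `W ∈ 𝒰(p,q)`: `W` is meromorphic of bounded type with `det W ≢ 0`,
`W* j W ≤ j` at the points of analyticity in the disc and `W* j W = j` a.e. on the circle. -/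
structure JInner (W : ℂ → Matrix (m ⊕ n) (m ⊕ n) ℂ) : Prop where
  boundedType : BoundedType W
  det_ne_zero : ∃ z ∈ disc, AnalyticPt W z ∧ (W z).det ≠ 0
  contractive : ∀ z ∈ disc, AnalyticPt W z →
    (sgnMat m n - (W z)ᴴ * sgnMat m n * W z).PosSemidef
  boundary : ∀ᵐ ζ ∂circleMeasure, ∃ L, HasBdryValue W ζ L ∧ Lᴴ * sgnMat m n * L = sgnMat m n

/-- `W ∈ 𝒰(p,q)` is A-singular if `W` and `W⁻¹` belong to the Smirnov class (entrywise). -/
structure ASingular (W : ℂ → Matrix (m ⊕ n) (m ⊕ n) ℂ) : Prop where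
  jInner : JInner W
  smirnov : ∀ i k, Smirnov fun z => W z i k
  smirnov_inv : ∀ i k, Smirnov fun z => (W z)⁻¹ i k

/-- `W ∈ 𝒰(p,q)` is left regular if it has no non-constant A-singular right divisor:
whenever `S` is A-singular and `W S⁻¹ ∈ 𝒰(p,q)`, the function `S` is constant. -/
structure LeftRegular (W : ℂ → Matrix (m ⊕ n) (m ⊕ n) ℂ) : Prop where
  jInner : JInner W
  regular : ∀ S : ℂ → Matrix (m ⊕ n) (m ⊕ n) ℂ, ASingular S → JInner (fun z => W z * (S z)⁻¹) →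
    ∃ C, ∀ z ∈ disc, S z = C

/-- `f = η_W = W₁₂ W₂₂⁻¹` as functions on the disc: `f` is holomorphic and the identity
holds at the points of analyticity of `W`. -/
def IsEta (W : ℂ → Matrix (m ⊕ n) (m ⊕ n) ℂ) (f : ℂ → Matrix m n ℂ) : Prop :=
  (∀ i k, DifferentiableOn ℂ (fun z => f z i k) disc) ∧
  ∀ z ∈ disc, AnalyticPt W z → f z = (W z).toBlocks₁₂ * ((W z).toBlocks₂₂)⁻¹

/-- The block diagonal matrix `diag (b I_p, I_q)`. -/
def diagFactor (m n : Type*) [DecidableEq m] [DecidableEq n] (b : ℂ) :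
    Matrix (m ⊕ n) (m ⊕ n) ℂ :=
  Matrix.fromBlocks (b • 1) 0 0 1

/-- A scalar inner function. -/
structure Inner (β : ℂ → ℂ) : Prop where
  diff : DifferentiableOn ℂ β disc
  bound : ∀ z ∈ disc, ‖β z‖ ≤ 1
  boundary : ∀ᵐ ζ ∂circleMeasure, ∃ L, HasBdryValue β ζ L ∧ ‖L‖ = 1

end Pool.Agent.RegJ
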