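import Pool.Agent.RegJ.Core

open Filter Topology Complex MeasureTheory Set Metric Matrix
open scoped Real ENNReal NNReal ComplexOrder

namespace Pool.Agent.RegJ

set_option linter.unusedSectionVars false

variable {m n : Type*} [Fintype m] [DecidableEq m] [Fintype n] [DecidableEq n]

lemma jc_iff_vec (A : Matrix (m ⊕ n) (m ⊕ n) ℂ) :
    JC A ↔ ∀ v, nsq ((A *ᵥ v) ∘ Sum.inl) - nsq ((A *ᵥ v) ∘ Sum.inr)
      ≤ nsq (v ∘ Sum.inl) - nsq (v ∘ Sum.inr) := by
  constructor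
  · intro h v
    have h1 := h (v ∘ Sum.inl) (v ∘ Sum.inr)
    have h2 : A *ᵥ v = Sum.elim
        (A.toBlocks₁₁ *ᵥ (v ∘ Sum.inl) + A.toBlocks₁₂ *ᵥ (v ∘ Sum.inr))
        (A.toBlocks₂₁ *ᵥ (v ∘ Sum.inl) + A.toBlocks₂₂ *ᵥ (v ∘ Sum.inr)) := by
      rw [← mulVec_elim, Sum.elim_comp_inl_inr]
    rw [h2]
    simp only [Sum.elim_comp_inl, Sum.elim_comp_inr]
    linarith
  · intro h x y
    have h1 := h (Sum.elim x y)
    rw [mulVec_elim] at h1
    simp only [Sum.elim_comp_inl, Sum.elim_comp_inr] at h1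
    linarith

lemma JC.mul {A B : Matrix (m ⊕ n) (m ⊕ n) ℂ} (hA : JC A) (hB : JC B) : JC (A * B) := by
  rw [jc_iff_vec] at *
  intro v
  rw [← mulVec_mulVec]
  exact (hA _).trans (hB v)

lemma mul_dg_11 (A : Matrix (m ⊕ n) (m ⊕ n) ℂ) (b : ℂ) :
    (A * diagFactor m n b).toBlocks₁₁ = b • A.toBlocks₁₁ := by
  conv_lhs => rw [← fromBlocks_toBlocks A, diagFactor, fromBlocks_multiply]
  rw [toBlocks_fromBlocks₁₁]; simp

lemma mul_dg_12 (A : Matrix (m ⊕ n) (m ⊕ n) ℂ) (b : ℂ) :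
    (A * diagFactor m n b).toBlocks₁₂ = A.toBlocks₁₂ := by
  conv_lhs => rw [← fromBlocks_toBlocks A, diagFactor, fromBlocks_multiply]
  rw [toBlocks_fromBlocks₁₂]; simp

lemma mul_dg_21 (A : Matrix (m ⊕ n) (m ⊕ n) ℂ) (b : ℂ) :
    (A * diagFactor m n b).toBlocks₂₁ = b • A.toBlocks₂₁ := by
  conv_lhs => rw [← fromBlocks_toBlocks A, diagFactor, fromBlocks_multiply]
  rw [toBlocks_fromBlocks₂₁]; simp

lemma mul_dg_22 (A : Matrix (m ⊕ n) (m ⊕ n) ℂ) (b : ℂ) :
    (A * diagFactor m n b).toBlocks₂₂ = A.toBlocks₂₂ := by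
  conv_lhs => rw [← fromBlocks_toBlocks A, diagFactor, fromBlocks_multiply]
  rw [toBlocks_fromBlocks₂₂]; simp

lemma dg_mul (a b : ℂ) : diagFactor m n a * diagFactor m n b = diagFactor m n (a * b) := by
  unfold diagFactor
  rw [fromBlocks_multiply]
  simp [smul_smul, mul_comm]

lemma dg_one : diagFactor m n 1 = 1 := by
  unfold diagFactor
  simp

lemma dg_det_ne {b : ℂ} (hb : b ≠ 0) : (diagFactor m n b).det ≠ 0 := by
  have h1 : diagFactor m n b⁻¹ * diagFactor m n b = 1 := by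
    rw [dg_mul, inv_mul_cancel₀ hb, dg_one]
  exact (isUnit_det_of_left_inverse h1).ne_zero

lemma dg_JC {b : ℂ} (hb : ‖b‖ ≤ 1) : JC (diagFactor m n b) := by
  intro x y
  unfold diagFactor
  simp only [toBlocks_fromBlocks₁₁, toBlocks_fromBlocks₁₂, toBlocks_fromBlocks₂₁,
    toBlocks_fromBlocks₂₂, zero_mulVec, one_mulVec, add_zero, zero_add, smul_mulVec, nsq_smul]
  have h1 : ‖b‖ ^ 2 ≤ 1 := by nlinarith [norm_nonneg b]
  nlinarith [nsq_nonneg x]

lemma dg_JU {b : ℂ} (hb : ‖b‖ = 1) : JU (diagFactor m n b) := by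
  unfold JU diagFactor sgnMat
  rw [fromBlocks_conjTranspose, fromBlocks_multiply, fromBlocks_multiply]
  have h1 : (starRingEnd ℂ) b * b = 1 := by
    have := Complex.normSq_eq_conj_mul_self (z := b)
    rw [Complex.normSq_eq_norm_sq, hb] at this
    rw [← this]; norm_num
  simp [smul_smul, h1, mul_comm b]

lemma dg_entry (b : ℂ) (hb : ‖b‖ ≤ 1) (i k : m ⊕ n) : ‖diagFactor m n b i k‖ ≤ 1 := by
  unfold diagFactor
  rcases i with i | i <;> rcases k with k | k
  · simp only [fromBlocks_apply₁₁, Matrix.smul_apply, one_apply, smul_eq_mul]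
    split_ifs <;> simp [hb]
  · simp
  · simp
  · simp only [fromBlocks_apply₂₂, one_apply]
    split_ifs <;> simp

lemma dg_analytic {β : ℂ → ℂ} {z : ℂ} (hβ : AnalyticAt ℂ β z) :
    AnalyticPt (fun w => diagFactor m n (β w)) z := by
  intro i k
  unfold diagFactor
  rcases i with i | i <;> rcases k with k | k
  · simp only [fromBlocks_apply₁₁, Matrix.smul_apply, smul_eq_mul]
    exact hβ.mul analyticAt_const
  · simpa using analyticAt_const
  · simpa using analyticAt_const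
  · simp only [fromBlocks_apply₂₂]
    exact analyticAt_const

lemma dg_tendsto {α : Type*} {f : Filter α} {β : α → ℂ} {b : ℂ} (hβ : Tendsto β f (𝓝 b)) :
    Tendsto (fun w => diagFactor m n (β w)) f (𝓝 (diagFactor m n b)) := by
  rw [tendsto_entries]
  intro i k
  unfold diagFactor
  rcases i with i | i <;> rcases k with k | k
  · simp only [fromBlocks_apply₁₁, Matrix.smul_apply, smul_eq_mul]
    exact hβ.mul tendsto_const_nhds
  · simpa using tendsto_const_nhds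
  · simpa using tendsto_const_nhds
  · simp only [fromBlocks_apply₂₂]
    exact tendsto_const_nhds

/-- cancel the factor: if `W · diag (β, 1)` is analytic then so is `W` -/
lemma analytic_cancel {W : ℂ → Matrix (m ⊕ n) (m ⊕ n) ℂ} {β : ℂ → ℂ} {z : ℂ}
    (hβ : AnalyticAt ℂ β z) (hβ0 : ∀ z, β z ≠ 0)
    (h : AnalyticPt (fun z => W z * diagFactor m n (β z)) z) : AnalyticPt W z := by
  have h1 : AnalyticPt (fun w => (W w * diagFactor m n (β w)) * diagFactor m n (β w)⁻¹) z :=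
    h.mul (dg_analytic (hβ.inv (hβ0 z)))
  refine h1.congr (Eventually.of_forall fun w => ?_)
  simp only
  rw [Matrix.mul_assoc, dg_mul, mul_inv_cancel₀ (hβ0 w), dg_one, Matrix.mul_one]

/-- normalised representation -/
lemma BoundedType.normalise {a b : Type*} {W : ℂ → Matrix a b ℂ} (hW : BoundedType W) :
    ∃ (h : ℂ → ℂ) (G : ℂ → Matrix a b ℂ),
      DifferentiableOn ℂ h disc ∧ (∀ z ∈ disc, AnalyticPt G z) ∧
      (∀ z ∈ disc, ‖h z‖ ≤ 1) ∧ (∀ z ∈ disc, ∀ i k, ‖G z i k‖ ≤ 1) ∧ (∃ z ∈ disc, h z ≠ 0) ∧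
      ∀ z ∈ disc, h z ≠ 0 → W z = (h z)⁻¹ • G z := by
  obtain ⟨h, G, C, hd, hG, hb, hne, hW⟩ := hW
  set M := max C 1 with hM
  have hM0 : 0 < M := lt_of_lt_of_le one_pos (le_max_right _ _)
  have hMc : (M : ℂ) ≠ 0 := by exact_mod_cast hM0.ne'
  refine ⟨fun z => (M : ℂ)⁻¹ * h z, fun z => (M : ℂ)⁻¹ • G z, hd.const_mul _, ?_, ?_, ?_, ?_, ?_⟩
  · intro z hz
    exact AnalyticPt.smul analyticAt_const (analyticPt_iff.1 hG z hz)
  · intro z hz
    rw [norm_mul, norm_inv, Complex.norm_real, Real.norm_eq_abs, abs_of_pos hM0,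
      inv_mul_le_iff₀ hM0, mul_one]
    exact (hb z hz).1.trans (le_max_left _ _)
  · intro z hz i k
    change ‖((M : ℂ)⁻¹ • G z) i k‖ ≤ 1
    rw [Matrix.smul_apply, smul_eq_mul, norm_mul, norm_inv, Complex.norm_real, Real.norm_eq_abs,
      abs_of_pos hM0, inv_mul_le_iff₀ hM0, mul_one]
    exact ((hb z hz).2 i k).trans (le_max_left _ _)
  · obtain ⟨z, hz, h0⟩ := hne
    exact ⟨z, hz, mul_ne_zero (inv_ne_zero hMc) h0⟩
  · intro z hz h0
    have h1 : h z ≠ 0 := right_ne_zero_of_mul h0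
    rw [hW z hz h1, smul_smul]
    congr 1
    field_simp

lemma repr_analytic {a b : Type*} {W G : ℂ → Matrix a b ℂ} {h : ℂ → ℂ}
    (hd : DifferentiableOn ℂ h disc) (hG : ∀ z ∈ disc, AnalyticPt G z)
    (hW : ∀ z ∈ disc, h z ≠ 0 → W z = (h z)⁻¹ • G z) {z : ℂ} (hz : z ∈ disc) (h0 : h z ≠ 0) :
    AnalyticPt W z := by
  have h1 : AnalyticPt (fun z => (h z)⁻¹ • G z) z :=
    AnalyticPt.smul ((hd.analyticAt (isOpen_ball.mem_nhds hz)).inv h0) (hG z hz)
  refine h1.congr ?_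
  filter_upwards [ne_nhds hd hz h0] with y hy
  exact (hW y hy.1 hy.2).symm

/-- multiplication by an inner diagonal factor preserves `𝒰(p,q)` -/
theorem JInner.mul_dg {W : ℂ → Matrix (m ⊕ n) (m ⊕ n) ℂ} (hW : JInner W) {β : ℂ → ℂ}
    (hβ : Inner β) (hβ0 : ∀ z, β z ≠ 0) : JInner (fun z => W z * diagFactor m n (β z)) := by
  have hβa : ∀ z ∈ disc, AnalyticAt ℂ β z := fun z hz =>
    hβ.diff.analyticAt (isOpen_ball.mem_nhds hz)
  refine ⟨?_, ?_, ?_, ?_⟩
  · obtain ⟨h, G, hd, hG, hb, hGb, hne, hWG⟩ := hW.boundedType.normalise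
    refine ⟨h, fun z => G z * diagFactor m n (β z), max 1 (Fintype.card (m ⊕ n) : ℝ), hd, ?_, ?_,
      hne, ?_⟩
    · rw [analyticPt_iff]
      intro z hz
      exact (hG z hz).mul (dg_analytic (hβa z hz))
    · intro z hz
      refine ⟨(hb z hz).trans (le_max_left _ _), fun i k => le_trans ?_ (le_max_right _ _)⟩
      change ‖(G z * diagFactor m n (β z)) i k‖ ≤ _
      rw [Matrix.mul_apply]
      refine (norm_sum_le _ _).trans ?_
      calc ∑ j, ‖G z i j * diagFactor m n (β z) j k‖ ≤ ∑ _j : m ⊕ n, (1 : ℝ) := by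
            apply Finset.sum_le_sum
            intro j _
            rw [norm_mul]
            have h1 := hGb z hz i j
            have h2 := dg_entry (β z) (hβ.bound z hz) j k
            calc ‖G z i j‖ * ‖diagFactor m n (β z) j k‖ ≤ 1 * 1 :=
                  mul_le_mul h1 h2 (norm_nonneg _) zero_le_one
              _ = 1 := one_mul 1
        _ = _ := by simp
    · intro z hz h0
      simp only
      rw [hWG z hz h0, smul_mul]
  · obtain ⟨z, hz, ha, hdet⟩ := hW.det_ne_zero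
    refine ⟨z, hz, ha.mul (dg_analytic (hβa z hz)), ?_⟩
    rw [det_mul]
    exact mul_ne_zero hdet (dg_det_ne (hβ0 z))
  · intro z hz ha
    have h1 := hW.contractive z hz (analytic_cancel (hβa z hz) hβ0 ha)
    rw [jc_iff] at h1 ⊢
    exact h1.mul (dg_JC (hβ.bound z hz))
  · filter_upwards [hW.boundary, hβ.boundary] with ζ h1 h2
    obtain ⟨L, hL, hLU⟩ := h1
    obtain ⟨b, hb, hb1⟩ := h2
    refine ⟨L * diagFactor m n b, tendsto_mmul hL (dg_tendsto hb), ?_⟩
    exact JU.mul hLU (dg_JU hb1)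

/-- `η` is not changed by the factor -/
theorem isEta_mul_dg {W : ℂ → Matrix (m ⊕ n) (m ⊕ n) ℂ} {β : ℂ → ℂ}
    (hβ : Inner β) (hβ0 : ∀ z, β z ≠ 0) {f : ℂ → Matrix m n ℂ} (hf : IsEta W f) :
    IsEta (fun z => W z * diagFactor m n (β z)) f := by
  refine ⟨hf.1, fun z hz ha => ?_⟩
  have hβa : AnalyticAt ℂ β z := hβ.diff.analyticAt (isOpen_ball.mem_nhds hz)
  simp only
  rw [mul_dg_12, mul_dg_22]
  exact hf.2 z hz (analytic_cancel hβa hβ0 ha)

end Pool.Agent.RegJ
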