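import Pool.Agent.RegJ.Approx

open Filter Topology Complex MeasureTheory Set Metric
open scoped Real ENNReal NNReal

namespace Pool.Agent.RegJ

/-- a.e. statements can be transferred from angles to the circle (no measurability needed). -/
lemma ae_σ_of_ae {p : ℂ → Prop}
    (h : ∀ᵐ θ ∂(volume.restrict (Ioc 0 (2 * π))), p (circleMap 0 1 θ)) : ∀ᵐ ζ ∂σ, p ζ := by
  rw [ae_iff] at h
  set μ := volume.restrict (Ioc (0 : ℝ) (2 * π))
  set N := toMeasurable μ {θ | ¬ p (circleMap 0 1 θ)} ∩ Ioc 0 (2 * π) with hN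
  have hNm : MeasurableSet N := (measurableSet_toMeasurable _ _).inter measurableSet_Ioc
  have hinj : InjOn (circleMap 0 1) (Ioc 0 (2 * π)) := by
    intro x hx y hy h1
    exact injOn_circleMap_of_abs_sub_le (c := 0) (R := 1) one_ne_zero (a := 0) (b := 2 * π)
      (by simp [abs_of_pos Real.two_pi_pos]) (by rwa [uIoc_of_le Real.two_pi_pos.le])
      (by rwa [uIoc_of_le Real.two_pi_pos.le]) h1
  have him : MeasurableSet (circleMap 0 1 '' N) :=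
    hNm.image_of_continuousOn_injOn (continuous_circleMap 0 1).continuousOn
      (hinj.mono inter_subset_right)
  have h0 : σ (circleMap 0 1 '' N) = 0 := by
    unfold σ circleMeasure
    rw [Measure.smul_apply, Measure.map_apply measurable_cm him,
      Measure.restrict_apply (measurable_cm him)]
    have : circleMap 0 1 ⁻¹' (circleMap 0 1 '' N) ∩ Ioc 0 (2 * π) ⊆ N := by
      rintro θ ⟨⟨y, hy, hye⟩, hθ⟩
      have := hinj hy.2 hθ hye
      rwa [← this]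
    have h1 : volume N = 0 := by
      have : μ (toMeasurable μ {θ | ¬ p (circleMap 0 1 θ)}) = 0 := by
        rw [measure_toMeasurable]; exact h
      rwa [Measure.restrict_apply (measurableSet_toMeasurable _ _)] at this
    rw [measure_mono_null this h1, smul_zero]
  have hmem : ∀ᵐ ζ ∂σ, ζ ∈ circleMap 0 1 '' Ioc 0 (2 * π) := by
    have hmeas : MeasurableSet (circleMap 0 1 '' Ioc 0 (2 * π)) :=
      measurableSet_Ioc.image_of_continuousOn_injOn (continuous_circleMap 0 1).continuousOn hinj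
    refine (ae_σ_iff (p := fun ζ => ζ ∈ circleMap 0 1 '' Ioc 0 (2 * π)) hmeas).2 ?_
    filter_upwards [ae_restrict_mem measurableSet_Ioc] with θ hθ
    exact ⟨θ, hθ, rfl⟩
  filter_upwards [hmem, measure_eq_zero_iff_ae_notMem.1 h0] with ζ h1 h2
  obtain ⟨θ, hθ, rfl⟩ := h1
  by_contra hcon
  exact h2 ⟨θ, ⟨subset_toMeasurable _ _ hcon, hθ⟩, rfl⟩

lemma ae_of_ae_σ {p : ℂ → Prop} (h : ∀ᵐ ζ ∂σ, p ζ) :
    ∀ᵐ θ ∂(volume.restrict (Ioc 0 (2 * π))), p (circleMap 0 1 θ) := by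
  unfold σ circleMeasure at h
  rw [Measure.ae_ennreal_smul_measure_iff ofReal_ne] at h
  exact ae_of_ae_map measurable_cm.aemeasurable h

lemma exists_primitive {h : ℂ → ℂ} (hd : DifferentiableOn ℂ h (ball 0 1)) {C : ℝ}
    (hb : ∀ z ∈ ball (0 : ℂ) 1, ‖h z‖ ≤ C) :
    ∃ (Φ : ℂ → ℂ) (K : ℝ≥0), LipschitzWith K Φ ∧ ∀ z ∈ ball (0 : ℂ) 1, HasDerivAt Φ (h z) z := by
  obtain ⟨Ψ, hΨ⟩ := hd.isExactOn_ball
  have hC : 0 ≤ C := (norm_nonneg _).trans (hb 0 (by simp))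
  have hL : LipschitzOnWith ⟨C, hC⟩ Ψ (ball 0 1) := by
    apply (convex_ball (0 : ℂ) 1).lipschitzOnWith_of_nnnorm_hasDerivWithin_le (f' := h)
    · intro z hz; exact (hΨ z hz).hasDerivWithinAt
    · intro z hz
      exact_mod_cast hb z hz
  have hre : LipschitzOnWith ⟨C, hC⟩ (fun z => (Ψ z).re) (ball 0 1) := by
    apply LipschitzOnWith.of_dist_le_mul
    intro x hx y hy
    refine le_trans ?_ (hL.dist_le_mul x hx y hy)
    rw [dist_eq_norm, dist_eq_norm, Real.norm_eq_abs, ← Complex.sub_re]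
    exact Complex.abs_re_le_norm _
  have him : LipschitzOnWith ⟨C, hC⟩ (fun z => (Ψ z).im) (ball 0 1) := by
    apply LipschitzOnWith.of_dist_le_mul
    intro x hx y hy
    refine le_trans ?_ (hL.dist_le_mul x hx y hy)
    rw [dist_eq_norm, dist_eq_norm, Real.norm_eq_abs, ← Complex.sub_im]
    exact Complex.abs_im_le_norm _
  obtain ⟨a, ha, hae⟩ := hre.extend_real
  obtain ⟨b, hb', hbe⟩ := him.extend_real
  refine ⟨fun z => (a z : ℂ) + (b z : ℂ) * I, ⟨C, hC⟩ + ⟨C, hC⟩, ?_, ?_⟩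
  · apply LipschitzWith.of_dist_le_mul
    intro x y
    have h1 := ha.dist_le_mul x y
    have h2 := hb'.dist_le_mul x y
    rw [dist_eq_norm]
    have h3 : (a x : ℂ) + (b x : ℂ) * I - ((a y : ℂ) + (b y : ℂ) * I)
        = ((a x - a y : ℝ) : ℂ) + ((b x - b y : ℝ) : ℂ) * I := by push_cast; ring
    rw [h3]
    refine (norm_add_le _ _).trans ?_
    rw [norm_mul, Complex.norm_I, mul_one, Complex.norm_real, Complex.norm_real]
    rw [dist_eq_norm] at h1 h2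
    push_cast
    rw [add_mul]
    exact add_le_add h1 h2
  · intro z hz
    apply (hΨ z hz).congr_of_eventuallyEq
    filter_upwards [isOpen_ball.mem_nhds hz] with y hy
    rw [← hae hy, ← hbe hy]
    exact Complex.re_add_im _

lemma circle_sub_ne {w ζ : ℂ} (hw : ‖w‖ ≠ 1) (hζ : ‖ζ‖ = 1) : ζ - w ≠ 0 := by
  intro h
  rw [sub_eq_zero] at h
  exact hw (h ▸ hζ)

lemma continuousOn_ker {w : ℂ} (hw : ‖w‖ ≠ 1) :
    ContinuousOn (fun ζ : ℂ => ζ / (ζ - w) ^ 2) (sphere 0 1) := by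
  apply ContinuousOn.div (by fun_prop) (by fun_prop)
  intro ζ hζ
  exact pow_ne_zero _ (circle_sub_ne hw (by simpa using hζ))

lemma deriv_formula {Φ h : ℂ → ℂ} (hΦc : Continuous Φ)
    (hΦ : ∀ z ∈ ball (0 : ℂ) 1, HasDerivAt Φ (h z) z) {w : ℂ} (hw : ‖w‖ < 1) :
    ∫ ζ, ζ / (ζ - w) ^ 2 * Φ ζ ∂σ = h w := by
  have hdc : DiffContOnCl ℂ Φ (ball 0 |1|) := by
    rw [abs_one]
    exact ⟨fun z hz => (hΦ z hz).differentiableAt.differentiableWithinAt, hΦc.continuousOn⟩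
  have hci : CircleIntegrable Φ 0 1 := hΦc.continuousOn.circleIntegrable'
  have hwb : w ∈ ball (0 : ℂ) 1 := by simpa using hw
  have h1 := hasDerivAt_circleAverage_herglotzRieszKernel_smul hci hwb
  have h2 : (fun w => Real.circleAverage (fun ζ => herglotzRieszKernel 0 w ζ • Φ ζ) 0 1)
      =ᶠ[𝓝 w] fun w => 2 * Φ w - Φ 0 := by
    filter_upwards [isOpen_ball.mem_nhds hwb] with v hv
    have hv' : ‖v‖ < 1 := by simpa using hv
    have e1 := hdc.circleAverage_smul_div (w := v) (by rwa [abs_one])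
    have e2 := hdc.circleAverage
    have c1 : ContinuousOn (fun ζ : ℂ => ((ζ - 0) / (ζ - v)) • Φ ζ) (sphere 0 |1|) := by
      rw [abs_one]
      simp only [smul_eq_mul]
      refine ContinuousOn.mul ?_ hΦc.continuousOn
      apply ContinuousOn.div (by fun_prop) (by fun_prop)
      intro ζ hζ
      exact circle_sub_ne hv'.ne (by simpa using hζ)
    have i1 : CircleIntegrable (fun ζ : ℂ => ((ζ - 0) / (ζ - v)) • Φ ζ) 0 1 :=
      c1.circleIntegrable'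
    have e3 : Real.circleAverage (fun ζ => herglotzRieszKernel 0 v ζ • Φ ζ) 0 1 =
        Real.circleAverage (fun ζ => (2 : ℝ) • (((ζ - 0) / (ζ - v)) • Φ ζ) - Φ ζ) 0 1 := by
      apply Real.circleAverage_congr_sphere
      intro ζ hζ
      rw [abs_one] at hζ
      have hne := circle_sub_ne hv'.ne (ζ := ζ) (by simpa using hζ)
      simp only [herglotzRieszKernel_def, sub_zero, smul_eq_mul, real_smul]
      field_simp
      push_cast
      ring
    have i2 : CircleIntegrable (fun ζ : ℂ => (2 : ℝ) • (((ζ - 0) / (ζ - v)) • Φ ζ)) 0 1 :=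
      (c1.const_smul (2 : ℝ)).circleIntegrable'
    have e4 := Real.circleAverage_fun_sub
      (f₁ := fun ζ : ℂ => (2 : ℝ) • (((ζ - 0) / (ζ - v)) • Φ ζ)) (f₂ := Φ) i2 hci
    rw [e3, e4, Real.circleAverage_fun_smul, e1, e2]
    simp
  have h3 := h1.congr_of_eventuallyEq h2.symm
  have h4 : HasDerivAt (fun w => 2 * Φ w - Φ 0) (2 * h w) w :=
    ((hΦ w hwb).const_mul 2).sub_const _
  have h5 := h3.unique h4
  have c2 : ContinuousOn (fun ζ : ℂ => ζ / (ζ - w) ^ 2 * Φ ζ) (sphere 0 1) :=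
    (continuousOn_ker hw.ne).mul hΦc.continuousOn
  rw [integral_σ (aesm_of_continuousOn c2)]
  have h6 : Real.circleAverage (fun ζ => (2 * ζ / (ζ - w) ^ 2) • Φ ζ) 0 1
      = (2 : ℝ) • Real.circleAverage (fun ζ => ζ / (ζ - w) ^ 2 * Φ ζ) 0 1 := by
    rw [← Real.circleAverage_fun_smul]
    congr 1
    ext ζ
    rw [smul_eq_mul, Complex.real_smul]
    push_cast
    ring
  rw [h6] at h5
  have h7 : (2 : ℂ) * Real.circleAverage (fun ζ => ζ / (ζ - w) ^ 2 * Φ ζ) 0 1 = 2 * h w := by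
    rw [← h5, Complex.real_smul]; push_cast; rfl
  exact mul_left_cancel₀ two_ne_zero h7

lemma vanish_formula {Φ h : ℂ → ℂ} (hΦc : Continuous Φ)
    (hΦ : ∀ z ∈ ball (0 : ℂ) 1, HasDerivAt Φ (h z) z) {w : ℂ} (hw : 1 < ‖w‖) :
    ∫ ζ, ζ / (ζ - w) ^ 2 * Φ ζ ∂σ = 0 := by
  have hne : ∀ ζ : ℂ, ‖ζ‖ ≤ 1 → ζ - w ≠ 0 := by
    intro ζ hζ h0
    rw [sub_eq_zero] at h0
    rw [h0] at hζ; linarith
  have h1 : DiffContOnCl ℂ (fun ζ => ζ / (ζ - w) ^ 2 * Φ ζ) (ball 0 |1|) := by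
    rw [abs_one]
    refine ⟨?_, ?_⟩
    · intro z hz
      apply DifferentiableAt.differentiableWithinAt
      have := hne z (by simpa using (mem_ball_zero_iff.1 hz).le)
      have d1 : DifferentiableAt ℂ (fun ζ : ℂ => ζ / (ζ - w) ^ 2) z := by
        apply DifferentiableAt.div (by fun_prop) (by fun_prop)
        exact pow_ne_zero _ this
      exact d1.mul (hΦ z hz).differentiableAt
    · rw [closure_ball _ one_ne_zero]
      refine ContinuousOn.mul (ContinuousOn.div (by fun_prop) (by fun_prop) ?_) hΦc.continuousOn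
      intro z hz
      exact pow_ne_zero _ (hne z (by simpa using hz))
  have h2 := h1.circleAverage
  have c2 : ContinuousOn (fun ζ : ℂ => ζ / (ζ - w) ^ 2 * Φ ζ) (sphere 0 1) :=
    (continuousOn_ker hw.ne').mul hΦc.continuousOn
  rw [integral_σ (aesm_of_continuousOn c2), h2]
  simp

lemma norm_sub_swap {r : ℝ} {ζ η : ℂ} (hζ : ‖ζ‖ = 1) (hη : ‖η‖ = 1) :
    ‖η - r * ζ‖ = ‖ζ - r * η‖ := by
  rw [← sq_eq_sq₀ (norm_nonneg _) (norm_nonneg _), ← Complex.normSq_eq_norm_sq,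
    ← Complex.normSq_eq_norm_sq, Complex.normSq_sub, Complex.normSq_sub]
  have h1 : normSq η = 1 := by rw [Complex.normSq_eq_norm_sq, hη]; norm_num
  have h2 : normSq ζ = 1 := by rw [Complex.normSq_eq_norm_sq, hζ]; norm_num
  simp only [map_mul, h1, h2]
  simp only [Complex.mul_re, Complex.mul_im, Complex.conj_re, Complex.conj_im,
    Complex.ofReal_re, Complex.ofReal_im]
  ring

/-- the difference kernel -/
noncomputable def Kd (r : ℝ) (ζ₀ ζ : ℂ) : ℂ := ζ / (ζ - r * ζ₀) ^ 2 - ζ / (ζ - (r⁻¹ : ℝ) * ζ₀) ^ 2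

lemma Kd_bound {r : ℝ} (hr0 : 1 / 2 ≤ r) (hr : r < 1) {ζ₀ ζ : ℂ} (h0 : ‖ζ₀‖ = 1) (h1 : ‖ζ‖ = 1) :
    ‖Kd r ζ₀ ζ‖ * ‖ζ - ζ₀‖ ≤ 10 * P (r * ζ₀) ζ := by
  have hrpos : 0 < r := by linarith
  set A := ζ - r * ζ₀ with hA
  set B := ζ - (r⁻¹ : ℝ) * ζ₀ with hB
  have hrA : ‖(r : ℂ) * ζ₀‖ = r := by
    rw [norm_mul, h0, Complex.norm_real, Real.norm_eq_abs, abs_of_pos hrpos, mul_one]
  have hAge : 1 - r ≤ ‖A‖ := by
    have := norm_sub_norm_le ζ (r * ζ₀)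
    rw [h1, hrA] at this; exact this
  have hApos : 0 < ‖A‖ := by linarith
  have hBn : ‖B‖ = ‖A‖ / r := by
    have e1 : B = ((r⁻¹ : ℝ) : ℂ) * (r * ζ - ζ₀) := by
      rw [hB]; push_cast
      have : (r : ℂ) ≠ 0 := by exact_mod_cast hrpos.ne'
      field_simp
    rw [e1, norm_mul, norm_sub_rev, norm_sub_swap h1 h0, Complex.norm_real, Real.norm_eq_abs,
      abs_of_pos (inv_pos.2 hrpos), div_eq_inv_mul]
  have hBpos : 0 < ‖B‖ := by rw [hBn]; positivity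
  have hA0 : A ≠ 0 := norm_pos_iff.1 hApos
  have hB0 : B ≠ 0 := norm_pos_iff.1 hBpos
  have hK : Kd r ζ₀ ζ = ζ * ((B - A) * (B + A)) / (A ^ 2 * B ^ 2) := by
    unfold Kd
    rw [← hA, ← hB]
    field_simp
    ring
  have hBA : ‖B - A‖ = (1 - r ^ 2) / r := by
    have e1 : B - A = ((r - r⁻¹ : ℝ) : ℂ) * ζ₀ := by
      rw [hA, hB]; push_cast; ring
    rw [e1, norm_mul, h0, mul_one, Complex.norm_real, Real.norm_eq_abs]
    have h2 : 1 < r⁻¹ := (one_lt_inv₀ hrpos).2 hr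
    rw [abs_of_neg (by linarith)]
    field_simp
    ring
  set d := ‖ζ - ζ₀‖ with hd
  have hd0 : 0 ≤ d := norm_nonneg _
  have hBA2 : ‖B + A‖ ≤ 2 * d + (1 - r) ^ 2 / r := by
    have e1 : B + A = 2 * (ζ - ζ₀) - (((1 - r) ^ 2 / r : ℝ) : ℂ) * ζ₀ := by
      rw [hA, hB]; push_cast
      have : (r : ℂ) ≠ 0 := by exact_mod_cast hrpos.ne'
      field_simp
      ring
    rw [e1]
    refine (norm_sub_le _ _).trans ?_
    rw [norm_mul, norm_mul, h0, mul_one, Complex.norm_real, Real.norm_eq_abs,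
      abs_of_nonneg (by positivity), Complex.norm_ofNat]
  have hdA : d ≤ 2 * ‖A‖ := by
    have e1 : ζ - ζ₀ = A - ((1 - r : ℝ) : ℂ) * ζ₀ := by
      rw [hA]; push_cast; ring
    have : d ≤ ‖A‖ + (1 - r) := by
      rw [hd, e1]
      refine (norm_sub_le _ _).trans ?_
      rw [norm_mul, h0, mul_one, Complex.norm_real, Real.norm_eq_abs, abs_of_pos (by linarith)]
    linarith
  have hq : (1 - r) ^ 2 / r ≤ ‖A‖ := by
    rw [div_le_iff₀ hrpos]
    nlinarith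
  have hBA3 : ‖B + A‖ ≤ 5 * ‖A‖ := by linarith
  rw [hK, norm_div, norm_mul, norm_mul, norm_mul, norm_pow, norm_pow, h1, one_mul, hBA, P_eq, h1,
    hrA, hBn, ← hA]
  have hr2 : 0 < 1 - r ^ 2 := by nlinarith
  rw [div_mul_eq_mul_div, ← mul_div_assoc, div_le_div_iff₀ (by positivity) (by positivity)]
  have key : (1 - r ^ 2) / r * ‖B + A‖ * d * ‖A‖ ^ 2
      ≤ (1 - r ^ 2) / r * (5 * ‖A‖) * (2 * ‖A‖) * ‖A‖ ^ 2 := by
    gcongr
  refine key.trans ?_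
  have e2 : 10 * (1 ^ 2 - r ^ 2) * (‖A‖ ^ 2 * (‖A‖ / r) ^ 2)
      = (1 - r ^ 2) / r * (5 * ‖A‖) * (2 * ‖A‖) * ‖A‖ ^ 2 * r⁻¹ := by
    field_simp
    ring
  rw [e2]
  have h3 : 0 ≤ (1 - r ^ 2) / r * (5 * ‖A‖) * (2 * ‖A‖) * ‖A‖ ^ 2 := by positivity
  have h4 : 1 ≤ r⁻¹ := ((one_lt_inv₀ hrpos).2 hr).le
  nlinarith

lemma continuousOn_Kd {r : ℝ} (hr0 : 0 < r) (hr : r < 1) {ζ₀ : ℂ} (h0 : ‖ζ₀‖ = 1) :
    ContinuousOn (fun ζ => Kd r ζ₀ ζ) (sphere 0 1) := by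
  unfold Kd
  apply ContinuousOn.sub
  · apply continuousOn_ker
    rw [norm_mul, h0, Complex.norm_real, Real.norm_eq_abs, abs_of_pos hr0, mul_one]
    exact hr.ne
  · apply continuousOn_ker
    rw [norm_mul, h0, Complex.norm_real, Real.norm_eq_abs, abs_of_pos (inv_pos.2 hr0), mul_one]
    exact ((one_lt_inv₀ hr0).2 hr).ne'

lemma Kd_formula {Φ h : ℂ → ℂ} (hΦc : Continuous Φ)
    (hΦ : ∀ z ∈ ball (0 : ℂ) 1, HasDerivAt Φ (h z) z) {r : ℝ} (hr0 : 0 < r) (hr : r < 1) {ζ₀ : ℂ}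
    (h0 : ‖ζ₀‖ = 1) : ∫ ζ, Kd r ζ₀ ζ * Φ ζ ∂σ = h (r * ζ₀) := by
  have n1 : ‖(r : ℂ) * ζ₀‖ < 1 := by
    rw [norm_mul, h0, Complex.norm_real, Real.norm_eq_abs, abs_of_pos hr0, mul_one]
    exact hr
  have n2 : 1 < ‖((r⁻¹ : ℝ) : ℂ) * ζ₀‖ := by
    rw [norm_mul, h0, Complex.norm_real, Real.norm_eq_abs, abs_of_pos (inv_pos.2 hr0), mul_one]
    exact (one_lt_inv₀ hr0).2 hr
  have e1 := deriv_formula hΦc hΦ n1
  have e2 := vanish_formula hΦc hΦ n2
  have i1 : Integrable (fun ζ : ℂ => ζ / (ζ - r * ζ₀) ^ 2 * Φ ζ) σ :=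
    integrable_of_continuousOn ((continuousOn_ker n1.ne).mul hΦc.continuousOn)
  have i2 : Integrable (fun ζ : ℂ => ζ / (ζ - (r⁻¹ : ℝ) * ζ₀) ^ 2 * Φ ζ) σ :=
    integrable_of_continuousOn ((continuousOn_ker n2.ne').mul hΦc.continuousOn)
  rw [← e1, ← sub_zero (∫ ζ, ζ / (ζ - r * ζ₀) ^ 2 * Φ ζ ∂σ), ← e2, ← integral_sub i1 i2]
  congr 1
  ext ζ
  unfold Kd
  ring

/-- The key estimate: if `Φ` is `L`-differentiable at `ζ₀` along the circle then `Φ'` has radial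
limit `L` at `ζ₀`. -/
lemma radial_of_est {Φ h : ℂ → ℂ} {K : ℝ≥0} (hΦc : LipschitzWith K Φ)
    (hΦ : ∀ z ∈ ball (0 : ℂ) 1, HasDerivAt Φ (h z) z) {ζ₀ L : ℂ} (h0 : ‖ζ₀‖ = 1)
    (hest : ∀ ε > 0, ∃ δ > 0, ∀ ζ : ℂ, ‖ζ‖ = 1 → ‖ζ - ζ₀‖ < δ →
      ‖Φ ζ - Φ ζ₀ - L * (ζ - ζ₀)‖ ≤ ε * ‖ζ - ζ₀‖) :
    Tendsto (fun r : ℝ => h (r * ζ₀)) (𝓝[<] 1) (𝓝 L) := by
  rw [tendsto_iff_norm_sub_tendsto_zero, tendsto_order]
  constructor
  · intro a ha
    exact Eventually.of_forall fun r => lt_of_lt_of_le ha (norm_nonneg _)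
  · intro ε hε
    obtain ⟨δ, hδ, hd⟩ := hest (ε / 20) (by positivity)
    set M : ℝ := (K + ‖L‖) / δ ^ 2 with hM
    have hM0 : 0 ≤ M := by positivity
    have hbound : ∀ ζ : ℂ, ‖ζ‖ = 1 →
        ‖Φ ζ - Φ ζ₀ - L * (ζ - ζ₀)‖ ≤ (ε / 20 + M * ‖ζ - ζ₀‖ ^ 2) * ‖ζ - ζ₀‖ := by
      intro ζ hζ
      rcases lt_or_ge ‖ζ - ζ₀‖ δ with hlt | hge
      · refine (hd ζ hζ hlt).trans ?_
        gcongr
        have : 0 ≤ M * ‖ζ - ζ₀‖ ^ 2 := by positivity
        linarith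
      · have h1 : ‖Φ ζ - Φ ζ₀ - L * (ζ - ζ₀)‖ ≤ (K + ‖L‖) * ‖ζ - ζ₀‖ := by
          refine (norm_sub_le _ _).trans ?_
          have h2 := hΦc.dist_le_mul ζ ζ₀
          rw [dist_eq_norm, dist_eq_norm] at h2
          rw [norm_mul, add_mul]
          exact add_le_add h2 le_rfl
        refine h1.trans ?_
        refine mul_le_mul_of_nonneg_right ?_ (norm_nonneg _)
        have h3 : (K + ‖L‖) ≤ M * ‖ζ - ζ₀‖ ^ 2 := by
          rw [hM, div_mul_eq_mul_div, le_div_iff₀ (by positivity)]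
          gcongr
        have : 0 ≤ ε / 20 := by positivity
        linarith
    -- the bound on `‖h(rζ₀) - L‖`
    have hmain : ∀ r : ℝ, 1 / 2 ≤ r → r < 1 →
        ‖h (r * ζ₀) - L‖ ≤ 10 * (ε / 20 + M * (2 - 2 * r)) := by
      intro r hr0 hr
      have hrpos : 0 < r := by linarith
      have n1 : ‖(r : ℂ) * ζ₀‖ < 1 := norm_dilate hrpos.le hr h0
      set G : ℂ → ℂ := fun ζ => Φ ζ - Φ ζ₀ - L * (ζ - ζ₀) with hG
      have hGc : Continuous G := by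
        have := hΦc.continuous
        fun_prop
      have hG' : ∀ z ∈ ball (0 : ℂ) 1, HasDerivAt G (h z - L) z := by
        intro z hz
        have e1 := ((hΦ z hz).sub_const (Φ ζ₀)).sub
          (((hasDerivAt_id z).sub_const ζ₀).const_mul L)
        rw [mul_one] at e1
        exact e1
      have e1 := Kd_formula hGc hG' hrpos hr h0
      rw [← e1]
      have hsq : ∀ z : ℂ, PI (fun ζ => (2 - 2 * (ζ * (starRingEnd ℂ) ζ₀)).re) z =
          PI (fun ζ => (2 - 2 * (ζ * (starRingEnd ℂ) ζ₀)).re) z := fun _ => rfl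
      have e2 : PI (fun ζ => (2 - 2 * (ζ * (starRingEnd ℂ) ζ₀)).re) (r * ζ₀)
          = 2 - 2 * r := by
        rw [PI_re (f := fun ζ => 2 - 2 * (ζ * (starRingEnd ℂ) ζ₀)) _ n1]
        · have : (r : ℂ) * ζ₀ * (starRingEnd ℂ) ζ₀ = r := by
            rw [mul_assoc, Complex.mul_conj, Complex.normSq_eq_norm_sq, h0]; simp
          rw [this]; simp
        · apply Differentiable.diffContOnCl
          fun_prop
      have hcQ : Continuous (fun ζ : ℂ => (2 - 2 * (ζ * (starRingEnd ℂ) ζ₀)).re) := by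
        fun_prop
      have iQ : Integrable (fun ζ : ℂ => (2 - 2 * (ζ * (starRingEnd ℂ) ζ₀)).re) σ :=
        integrable_of_continuousOn hcQ.continuousOn
      have e3 : PI (fun ζ => ε / 20 + M * (2 - 2 * (ζ * (starRingEnd ℂ) ζ₀)).re) (r * ζ₀)
          = ε / 20 + M * (2 - 2 * r) := by
        rw [PI_add (integrable_const _) (iQ.const_mul M) n1, PI_const _ n1, PI_const_mul, e2]
      rw [← e3]
      unfold PI
      rw [← integral_const_mul]
      apply norm_integral_le_of_norm_le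
        ((integrable_P_mul n1 ((integrable_const _).add (iQ.const_mul M))).const_mul 10)
      filter_upwards [ae_norm] with ζ hζ
      have hn2 : ‖ζ - ζ₀‖ ^ 2 = (2 - 2 * (ζ * (starRingEnd ℂ) ζ₀)).re := by
        rw [← Complex.normSq_eq_norm_sq, Complex.normSq_sub, Complex.normSq_eq_norm_sq,
          Complex.normSq_eq_norm_sq, hζ, h0]
        simp
        ring
      rw [norm_mul]
      calc ‖Kd r ζ₀ ζ‖ * ‖G ζ‖
          ≤ ‖Kd r ζ₀ ζ‖ * ((ε / 20 + M * ‖ζ - ζ₀‖ ^ 2) * ‖ζ - ζ₀‖) := by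
            gcongr
            exact hbound ζ hζ
        _ = (‖Kd r ζ₀ ζ‖ * ‖ζ - ζ₀‖) * (ε / 20 + M * ‖ζ - ζ₀‖ ^ 2) := by ring
        _ ≤ (10 * P (r * ζ₀) ζ) * (ε / 20 + M * ‖ζ - ζ₀‖ ^ 2) :=
            mul_le_mul_of_nonneg_right (Kd_bound hr0 hr h0 hζ) (by positivity)
        _ = _ := by
            rw [hn2]
            simp only [Pi.add_apply]
            ring
    have hev : ∀ᶠ r : ℝ in 𝓝[<] 1, 10 * (ε / 20 + M * (2 - 2 * r)) < ε := by
      apply nhdsWithin_le_nhds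
      have hc : Continuous (fun r : ℝ => 10 * (ε / 20 + M * (2 - 2 * r))) := by fun_prop
      have := hc.tendsto 1
      norm_num at this
      exact this.eventually (gt_mem_nhds (by linarith))
    have h1 : ∀ᶠ r : ℝ in 𝓝[<] 1, r < 1 := self_mem_nhdsWithin
    have h2 : ∀ᶠ r : ℝ in 𝓝[<] 1, 1 / 2 < r :=
      nhdsWithin_le_nhds (lt_mem_nhds (by norm_num))
    filter_upwards [h1, h2, hev] with r a b c
    exact (hmain r b.le a).trans_lt c

lemma est_of_differentiableAt {Φ : ℂ → ℂ} {θ : ℝ}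
    (hd : DifferentiableAt ℝ (fun t : ℝ => Φ (exp (t * I))) θ) :
    ∃ L : ℂ, ∀ ε > 0, ∃ δ > 0, ∀ ζ : ℂ, ‖ζ‖ = 1 → ‖ζ - exp (θ * I)‖ < δ →
      ‖Φ ζ - Φ (exp (θ * I)) - L * (ζ - exp (θ * I))‖ ≤ ε * ‖ζ - exp (θ * I)‖ := by
  set ζ₀ := exp (θ * I) with hζ₀
  have hζ0 : ζ₀ ≠ 0 := Complex.exp_ne_zero _
  have hn0 : ‖ζ₀‖ = 1 := Complex.norm_exp_ofReal_mul_I θ
  obtain ⟨D, hD⟩ : ∃ D, HasDerivAt (fun t : ℝ => Φ (exp (t * I))) D θ := ⟨_, hd.hasDerivAt⟩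
  have hexp : HasDerivAt (fun t : ℝ => exp (t * I)) (ζ₀ * I) θ := by
    have h1 : HasDerivAt (fun t : ℂ => exp (t * I)) (exp (θ * I) * (1 * I)) θ :=
      ((hasDerivAt_id (θ : ℂ)).mul_const I).cexp
    rw [one_mul] at h1
    exact h1.comp_ofReal
  set L : ℂ := D / (ζ₀ * I) with hL
  refine ⟨L, fun ε hε => ?_⟩
  set G : ℝ → ℂ := fun t => Φ (exp (t * I)) - L * exp (t * I) with hG
  have hG' : HasDerivAt G 0 θ := by
    have := hD.sub (hexp.const_mul L)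
    have e : D - L * (ζ₀ * I) = 0 := by
      rw [hL, div_mul_cancel₀ _ (mul_ne_zero hζ0 I_ne_zero), sub_self]
    rwa [e] at this
  -- logarithm bound
  obtain ⟨C, hCpos, hC⟩ : ∃ C > 0, ∀ᶠ u : ℂ in 𝓝 1, ‖Complex.log u‖ ≤ C * ‖u - 1‖ := by
    have h1 : HasDerivAt Complex.log 1⁻¹ 1 := Complex.hasDerivAt_log (by simp [Complex.slitPlane])
    have h2 := h1.isBigO_sub
    obtain ⟨C, hC, hb⟩ := h2.exists_pos
    refine ⟨C, hC, ?_⟩
    have := hb.bound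
    simpa using this
  have hGε : ∀ᶠ t in 𝓝 θ, ‖G t - G θ‖ ≤ ε / C * ‖t - θ‖ := by
    have := hG'.isLittleO
    simp only [smul_zero, sub_zero] at this
    exact this.bound (by positivity)
  have hψ : Tendsto (fun ζ : ℂ => θ + Complex.arg (ζ / ζ₀)) (𝓝 ζ₀) (𝓝 θ) := by
    have h1 : Tendsto (fun ζ : ℂ => ζ / ζ₀) (𝓝 ζ₀) (𝓝 1) := by
      have := (continuous_id.div_const ζ₀).tendsto ζ₀
      simpa [div_self hζ0] using this
    have h2 : ContinuousAt Complex.arg 1 := Complex.continuousAt_arg (by simp [Complex.slitPlane])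
    have h3 := (h2.tendsto.comp h1).const_add θ
    simpa using h3
  have hdiv : Tendsto (fun ζ : ℂ => ζ / ζ₀) (𝓝 ζ₀) (𝓝 1) := by
    have := (continuous_id.div_const ζ₀).tendsto ζ₀
    simpa [div_self hζ0] using this
  have hev := (hψ.eventually hGε).and (hdiv.eventually hC)
  obtain ⟨δ, hδ, hb⟩ := Metric.eventually_nhds_iff.1 hev
  refine ⟨δ, hδ, fun ζ hζ hd => ?_⟩
  obtain ⟨h1, h2⟩ := hb (by rwa [dist_eq_norm])
  have hnu : ‖ζ / ζ₀‖ = 1 := by rw [norm_div, hζ, hn0, div_one]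
  have hexpψ : exp (((θ + Complex.arg (ζ / ζ₀) : ℝ) : ℂ) * I) = ζ := by
    push_cast
    rw [add_mul, Complex.exp_add, ← hζ₀]
    have := Complex.norm_mul_exp_arg_mul_I (ζ / ζ₀)
    rw [hnu, ofReal_one, one_mul] at this
    rw [this]
    field_simp
  have h3 : G (θ + Complex.arg (ζ / ζ₀)) - G θ = Φ ζ - Φ ζ₀ - L * (ζ - ζ₀) := by
    simp only [hG]
    rw [hexpψ, ← hζ₀]
    ring
  rw [h3] at h1
  refine h1.trans ?_
  have h4 : ‖θ + Complex.arg (ζ / ζ₀) - θ‖ ≤ C * ‖ζ - ζ₀‖ := by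
    rw [add_sub_cancel_left, Real.norm_eq_abs, ← Complex.log_im]
    refine (Complex.abs_im_le_norm _).trans (h2.trans (le_of_eq ?_))
    have : ζ / ζ₀ - 1 = (ζ - ζ₀) / ζ₀ := by field_simp
    rw [this, norm_div, hn0, div_one]
  calc ε / C * ‖θ + Complex.arg (ζ / ζ₀) - θ‖ ≤ ε / C * (C * ‖ζ - ζ₀‖) := by gcongr
    _ = ε * ‖ζ - ζ₀‖ := by field_simp

/-- **Fatou's theorem** for bounded holomorphic functions: radial limits exist a.e. -/
theorem fatou {h : ℂ → ℂ} (hd : DifferentiableOn ℂ h (ball 0 1)) {C : ℝ}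
    (hb : ∀ z ∈ ball (0 : ℂ) 1, ‖h z‖ ≤ C) :
    ∀ᵐ ζ ∂σ, ∃ L, Tendsto (fun r : ℝ => h (r * ζ)) (𝓝[<] 1) (𝓝 L) := by
  obtain ⟨Φ, K, hΦ, hΦ'⟩ := exists_primitive hd hb
  have hLip : LipschitzWith (K * 1) (fun t : ℝ => Φ (exp (t * I))) := by
    apply hΦ.comp
    apply LipschitzWith.of_dist_le_mul
    intro x y
    have := lipschitzWith_circleMap 0 1
    have h2 := this.dist_le_mul x y
    simpa [circleMap] using h2
  have hae := hLip.ae_differentiableAt_real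
  apply ae_σ_of_ae
  filter_upwards [ae_restrict_of_ae hae] with θ hθ
  obtain ⟨L, hL⟩ := est_of_differentiableAt hθ
  refine ⟨L, ?_⟩
  have hc : circleMap 0 1 θ = exp (θ * I) := by simp [circleMap]
  rw [hc]
  exact radial_of_est hΦ hΦ' (Complex.norm_exp_ofReal_mul_I θ) hL

end Pool.Agent.RegJ
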