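import Pool.Agent.RegJ.Defs

open Matrix Complex
open scoped ComplexOrder

namespace Pool.Agent.RegJ

section vec

variable {ι : Type*} [Fintype ι]

/-- square of the Euclidean norm -/
noncomputable def nsq (x : ι → ℂ) : ℝ := ∑ i, ‖x i‖ ^ 2

lemma nsq_nonneg (x : ι → ℂ) : 0 ≤ nsq x := Finset.sum_nonneg fun _ _ => sq_nonneg _

@[simp] lemma nsq_zero : nsq (0 : ι → ℂ) = 0 := by simp [nsq]

@[simp] lemma nsq_neg (x : ι → ℂ) : nsq (-x) = nsq x := by simp [nsq]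

lemma nsq_smul (c : ℂ) (x : ι → ℂ) : nsq (c • x) = ‖c‖ ^ 2 * nsq x := by
  simp [nsq, Finset.mul_sum, mul_pow]

lemma nsq_eq_zero {x : ι → ℂ} (h : nsq x = 0) : x = 0 := by
  unfold nsq at h
  rw [Finset.sum_eq_zero_iff_of_nonneg (fun _ _ => sq_nonneg _)] at h
  ext i
  have := h i (Finset.mem_univ i)
  simpa using this

lemma norm_sq_le_nsq (x : ι → ℂ) (i : ι) : ‖x i‖ ^ 2 ≤ nsq x :=
  Finset.single_le_sum (f := fun i => ‖x i‖ ^ 2) (fun _ _ => sq_nonneg _) (Finset.mem_univ i)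

lemma star_dot_self (x : ι → ℂ) : star x ⬝ᵥ x = (nsq x : ℂ) := by
  simp only [dotProduct, nsq, Pi.star_apply, RCLike.star_def]
  push_cast
  apply Finset.sum_congr rfl
  intro i _
  rw [mul_comm, Complex.mul_conj, Complex.normSq_eq_norm_sq]
  push_cast; rfl

lemma star_dot_comm (x y : ι → ℂ) : star x ⬝ᵥ y = star (star y ⬝ᵥ x) :=
  Matrix.star_dotProduct x y

lemma cs (x y : ι → ℂ) : ‖star x ⬝ᵥ y‖ ^ 2 ≤ nsq x * nsq y := by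
  have h1 : ‖star x ⬝ᵥ y‖ ≤ ∑ i, ‖x i‖ * ‖y i‖ := by
    unfold dotProduct
    refine (norm_sum_le _ _).trans (le_of_eq ?_)
    apply Finset.sum_congr rfl
    intro i _
    simp
  calc ‖star x ⬝ᵥ y‖ ^ 2 ≤ (∑ i, ‖x i‖ * ‖y i‖) ^ 2 := by gcongr
    _ ≤ _ := Finset.sum_mul_sq_le_sq_mul_sq _ _ _

lemma nsq_add (x y : ι → ℂ) : nsq (x + y) = nsq x + 2 * (star x ⬝ᵥ y).re + nsq y := by
  have h : ((nsq (x + y) : ℝ) : ℂ) = star (x + y) ⬝ᵥ (x + y) := (star_dot_self _).symm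
  have h2 : star (x + y) ⬝ᵥ (x + y) = nsq x + (star x ⬝ᵥ y + star y ⬝ᵥ x) + nsq y := by
    rw [star_add, add_dotProduct, dotProduct_add, dotProduct_add, star_dot_self, star_dot_self]
    ring
  have h3 : (star y ⬝ᵥ x) = star (star x ⬝ᵥ y) := star_dot_comm y x
  rw [h2, h3] at h
  have := congrArg Complex.re h
  simp only [ofReal_re, add_re, RCLike.star_def, conj_re] at this
  linarith

end vec

variable {m n : Type*} [Fintype m] [DecidableEq m] [Fintype n] [DecidableEq n]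

set_option linter.unusedSectionVars false

lemma star_dot_conj {a b : Type*} [Fintype a] [Fintype b] (M : Matrix a b ℂ) (x : b → ℂ)
    (w : a → ℂ) : star x ⬝ᵥ (Mᴴ *ᵥ w) = star (M *ᵥ x) ⬝ᵥ w := by
  rw [dotProduct_mulVec, star_mulVec]

/-- `j`-contractivity of a matrix, in terms of vectors. -/
def JC (A : Matrix (m ⊕ n) (m ⊕ n) ℂ) : Prop :=
  ∀ (x : m → ℂ) (y : n → ℂ),
    nsq (A.toBlocks₁₁ *ᵥ x + A.toBlocks₁₂ *ᵥ y) + nsq y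
      ≤ nsq x + nsq (A.toBlocks₂₁ *ᵥ x + A.toBlocks₂₂ *ᵥ y)

/-- `j`-unitarity of a matrix -/
def JU (A : Matrix (m ⊕ n) (m ⊕ n) ℂ) : Prop := Aᴴ * sgnMat m n * A = sgnMat m n

lemma form_eq (v : m ⊕ n → ℂ) :
    star v ⬝ᵥ (sgnMat m n *ᵥ v) = ((nsq (v ∘ Sum.inl) - nsq (v ∘ Sum.inr) : ℝ) : ℂ) := by
  unfold sgnMat
  rw [fromBlocks_mulVec]
  simp only [one_mulVec, zero_mulVec, add_zero, zero_add, neg_mulVec]
  push_cast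
  rw [← star_dot_self, ← star_dot_self]
  simp [dotProduct, Fintype.sum_sum_type, sub_eq_add_neg]

lemma form_conj (A : Matrix (m ⊕ n) (m ⊕ n) ℂ) (v : m ⊕ n → ℂ) :
    star v ⬝ᵥ ((Aᴴ * sgnMat m n * A) *ᵥ v)
      = ((nsq ((A *ᵥ v) ∘ Sum.inl) - nsq ((A *ᵥ v) ∘ Sum.inr) : ℝ) : ℂ) := by
  rw [← form_eq, star_mulVec, ← mulVec_mulVec, ← mulVec_mulVec]
  rw [dotProduct_mulVec, dotProduct_mulVec, dotProduct_mulVec]

lemma mulVec_elim (A : Matrix (m ⊕ n) (m ⊕ n) ℂ) (x : m → ℂ) (y : n → ℂ) :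
    A *ᵥ (Sum.elim x y) = Sum.elim (A.toBlocks₁₁ *ᵥ x + A.toBlocks₁₂ *ᵥ y)
      (A.toBlocks₂₁ *ᵥ x + A.toBlocks₂₂ *ᵥ y) := by
  conv_lhs => rw [← fromBlocks_toBlocks A]
  rw [fromBlocks_mulVec]
  simp

lemma sgn_herm : (sgnMat m n)ᴴ = sgnMat m n := by
  unfold sgnMat
  rw [fromBlocks_conjTranspose]
  simp

lemma sgn_mul_sgn : sgnMat m n * sgnMat m n = 1 := by
  unfold sgnMat
  rw [fromBlocks_multiply]
  simp

lemma jc_iff (A : Matrix (m ⊕ n) (m ⊕ n) ℂ) :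
    (sgnMat m n - Aᴴ * sgnMat m n * A).PosSemidef ↔ JC A := by
  rw [posSemidef_iff_dotProduct_mulVec]
  constructor
  · rintro ⟨-, h⟩ x y
    have h1 := h (Sum.elim x y)
    rw [sub_mulVec, dotProduct_sub, form_eq, form_conj, ← ofReal_sub] at h1
    have h2 := Complex.zero_le_real.1 h1
    rw [mulVec_elim] at h2
    simp only [Sum.elim_comp_inl, Sum.elim_comp_inr] at h2
    linarith
  · intro h
    refine ⟨?_, fun v => ?_⟩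
    · unfold IsHermitian
      rw [conjTranspose_sub, conjTranspose_mul, conjTranspose_mul, conjTranspose_conjTranspose,
        sgn_herm, Matrix.mul_assoc]
    · rw [sub_mulVec, dotProduct_sub, form_eq, form_conj, ← ofReal_sub]
      have h1 := h (v ∘ Sum.inl) (v ∘ Sum.inr)
      have h2 : A *ᵥ v = Sum.elim
          (A.toBlocks₁₁ *ᵥ (v ∘ Sum.inl) + A.toBlocks₁₂ *ᵥ (v ∘ Sum.inr))
          (A.toBlocks₂₁ *ᵥ (v ∘ Sum.inl) + A.toBlocks₂₂ *ᵥ (v ∘ Sum.inr)) := by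
        rw [← mulVec_elim, Sum.elim_comp_inl_inr]
      rw [h2]
      simp only [Sum.elim_comp_inl, Sum.elim_comp_inr]
      have : (0 : ℝ) ≤ nsq (v ∘ Sum.inl) - nsq (v ∘ Sum.inr) -
          (nsq (A.toBlocks₁₁ *ᵥ (v ∘ Sum.inl) + A.toBlocks₁₂ *ᵥ (v ∘ Sum.inr)) -
          nsq (A.toBlocks₂₁ *ᵥ (v ∘ Sum.inl) + A.toBlocks₂₂ *ᵥ (v ∘ Sum.inr))) := by linarith
      exact_mod_cast this

lemma JU.eq {A : Matrix (m ⊕ n) (m ⊕ n) ℂ} (hA : JU A) (x : m → ℂ) (y : n → ℂ) :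
    nsq (A.toBlocks₁₁ *ᵥ x + A.toBlocks₁₂ *ᵥ y) + nsq y
      = nsq x + nsq (A.toBlocks₂₁ *ᵥ x + A.toBlocks₂₂ *ᵥ y) := by
  have h1 := form_conj A (Sum.elim x y)
  rw [hA, form_eq, mulVec_elim] at h1
  simp only [Sum.elim_comp_inl, Sum.elim_comp_inr] at h1
  have h2 := ofReal_injective h1
  linarith

lemma JU.jc {A : Matrix (m ⊕ n) (m ⊕ n) ℂ} (hA : JU A) : JC A := fun x y => (hA.eq x y).le

lemma JC.le22 {A : Matrix (m ⊕ n) (m ⊕ n) ℂ} (hA : JC A) (y : n → ℂ) :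
    nsq (A.toBlocks₁₂ *ᵥ y) + nsq y ≤ nsq (A.toBlocks₂₂ *ᵥ y) := by
  have := hA 0 y
  simpa using this

lemma JU.eq22 {A : Matrix (m ⊕ n) (m ⊕ n) ℂ} (hA : JU A) (y : n → ℂ) :
    nsq (A.toBlocks₁₂ *ᵥ y) + nsq y = nsq (A.toBlocks₂₂ *ᵥ y) := by
  have := hA.eq 0 y
  simpa using this

lemma isUnit_of_nsq_le {A : Matrix n n ℂ} (h : ∀ y, nsq y ≤ nsq (A *ᵥ y)) : IsUnit A.det := by
  rw [← Matrix.isUnit_iff_isUnit_det, ← mulVec_injective_iff_isUnit]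
  intro x y hxy
  have h1 : A *ᵥ (x - y) = 0 := by rw [mulVec_sub]; exact sub_eq_zero.2 hxy
  have h2 := h (x - y)
  rw [h1, nsq_zero] at h2
  exact sub_eq_zero.1 (nsq_eq_zero (le_antisymm h2 (nsq_nonneg _)))

lemma JC.isUnit22 {A : Matrix (m ⊕ n) (m ⊕ n) ℂ} (hA : JC A) : IsUnit (A.toBlocks₂₂).det :=
  isUnit_of_nsq_le fun y => by
    have := hA.le22 y
    linarith [nsq_nonneg (A.toBlocks₁₂ *ᵥ y)]

/-- `κ = A₂₂⁻¹ A₂₁` is contractive -/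
lemma JC.kappa {A : Matrix (m ⊕ n) (m ⊕ n) ℂ} (hA : JC A) (x : m → ℂ) :
    nsq ((A.toBlocks₂₂⁻¹ * A.toBlocks₂₁) *ᵥ x) ≤ nsq x := by
  have h1 := hA x (-((A.toBlocks₂₂⁻¹ * A.toBlocks₂₁) *ᵥ x))
  have h2 : A.toBlocks₂₁ *ᵥ x + A.toBlocks₂₂ *ᵥ (-((A.toBlocks₂₂⁻¹ * A.toBlocks₂₁) *ᵥ x)) = 0 := by
    rw [mulVec_neg, mulVec_mulVec, ← Matrix.mul_assoc, mul_nonsing_inv _ hA.isUnit22,
      Matrix.one_mul, add_neg_cancel]
  rw [h2, nsq_zero, nsq_neg] at h1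
  linarith [nsq_nonneg (A.toBlocks₁₁ *ᵥ x + A.toBlocks₁₂ *ᵥ
    (-((A.toBlocks₂₂⁻¹ * A.toBlocks₂₁) *ᵥ x)))]

lemma nsq_single {ι : Type*} [Fintype ι] [DecidableEq ι] (k : ι) :
    nsq (Pi.single k (1 : ℂ) : ι → ℂ) = 1 := by
  unfold nsq
  rw [Finset.sum_eq_single k]
  · simp
  · intro b _ hb
    simp [hb]
  · intro h; exact absurd (Finset.mem_univ k) h

lemma entry_le_of_contr {a b : Type*} [Fintype a] [Fintype b] [DecidableEq b]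
    {A : Matrix a b ℂ} {C : ℝ} (hC : 0 ≤ C) (h : ∀ k, nsq (A *ᵥ Pi.single k 1) ≤ C ^ 2) (i : a)
    (k : b) : ‖A i k‖ ≤ C := by
  have h1 := h k
  have h2 := norm_sq_le_nsq (A *ᵥ Pi.single k 1) i
  have h3 : (A *ᵥ Pi.single k 1) i = A i k := by simp
  rw [h3] at h2
  exact (sq_le_sq₀ (norm_nonneg _) hC).1 (h2.trans h1)

lemma JC.kappa_entry {A : Matrix (m ⊕ n) (m ⊕ n) ℂ} (hA : JC A) (i : n) (k : m) :
    ‖(A.toBlocks₂₂⁻¹ * A.toBlocks₂₁) i k‖ ≤ 1 := by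
  apply entry_le_of_contr zero_le_one
  intro k
  have := hA.kappa (Pi.single k 1)
  rw [nsq_single] at this
  simpa using this

lemma JU.inv_eq {A : Matrix (m ⊕ n) (m ⊕ n) ℂ} (hA : JU A) :
    A⁻¹ = sgnMat m n * Aᴴ * sgnMat m n := by
  apply inv_eq_left_inv
  have : sgnMat m n * Aᴴ * sgnMat m n * A = sgnMat m n * (Aᴴ * sgnMat m n * A) := by
    simp only [Matrix.mul_assoc]
  rw [this, hA, sgn_mul_sgn]

lemma JU.isUnit {A : Matrix (m ⊕ n) (m ⊕ n) ℂ} (hA : JU A) : IsUnit A.det := by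
  have : (sgnMat m n * Aᴴ * sgnMat m n) * A = 1 := by
    have : sgnMat m n * Aᴴ * sgnMat m n * A = sgnMat m n * (Aᴴ * sgnMat m n * A) := by
      simp only [Matrix.mul_assoc]
    rw [this, hA, sgn_mul_sgn]
  exact isUnit_det_of_left_inverse this

lemma JU.inv_blocks {A : Matrix (m ⊕ n) (m ⊕ n) ℂ} (hA : JU A) :
    A⁻¹ = fromBlocks (A.toBlocks₁₁)ᴴ (-(A.toBlocks₂₁)ᴴ) (-(A.toBlocks₁₂)ᴴ) (A.toBlocks₂₂)ᴴ := by
  rw [hA.inv_eq]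
  conv_lhs => rw [← fromBlocks_toBlocks A]
  unfold sgnMat
  rw [fromBlocks_conjTranspose, fromBlocks_multiply, fromBlocks_multiply]
  simp

lemma JU.mul {A B : Matrix (m ⊕ n) (m ⊕ n) ℂ} (hA : JU A) (hB : JU B) : JU (A * B) := by
  unfold JU at *
  rw [conjTranspose_mul]
  calc Bᴴ * Aᴴ * sgnMat m n * (A * B) = Bᴴ * (Aᴴ * sgnMat m n * A) * B := by
        simp only [Matrix.mul_assoc]
    _ = sgnMat m n := by rw [hA, hB]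

lemma JU.inv {A : Matrix (m ⊕ n) (m ⊕ n) ℂ} (hA : JU A) : JU A⁻¹ := by
  have h1 : A * A⁻¹ = 1 := mul_nonsing_inv _ hA.isUnit
  have h3 : (A⁻¹)ᴴ * Aᴴ = 1 := by rw [← conjTranspose_mul, h1, conjTranspose_one]
  unfold JU
  calc (A⁻¹)ᴴ * sgnMat m n * A⁻¹ = (A⁻¹)ᴴ * (Aᴴ * sgnMat m n * A) * A⁻¹ := by
        have hA' : Aᴴ * sgnMat m n * A = sgnMat m n := hA
        rw [hA']
    _ = ((A⁻¹)ᴴ * Aᴴ) * sgnMat m n * (A * A⁻¹) := by simp only [Matrix.mul_assoc]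
    _ = sgnMat m n := by rw [h3, h1, Matrix.one_mul, Matrix.mul_one]

lemma mul_blocks22 (A B : Matrix (m ⊕ n) (m ⊕ n) ℂ) :
    (A * B).toBlocks₂₂ = A.toBlocks₂₁ * B.toBlocks₁₂ + A.toBlocks₂₂ * B.toBlocks₂₂ := by
  conv_lhs => rw [← fromBlocks_toBlocks A, ← fromBlocks_toBlocks B, fromBlocks_multiply]
  rw [toBlocks_fromBlocks₂₂]

lemma mul_blocks12 (A B : Matrix (m ⊕ n) (m ⊕ n) ℂ) :
    (A * B).toBlocks₁₂ = A.toBlocks₁₁ * B.toBlocks₁₂ + A.toBlocks₁₂ * B.toBlocks₂₂ := by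
  conv_lhs => rw [← fromBlocks_toBlocks A, ← fromBlocks_toBlocks B, fromBlocks_multiply]
  rw [toBlocks_fromBlocks₁₂]

/-- the matrix `F = V₂₂ (B₂₂⁻¹ B₂₁ S₁₂ + S₂₂)` -/
noncomputable def T0 (B S : Matrix (m ⊕ n) (m ⊕ n) ℂ) : Matrix n n ℂ :=
  B.toBlocks₂₂⁻¹ * B.toBlocks₂₁ * S.toBlocks₁₂ + S.toBlocks₂₂

lemma T0_eq {A B S : Matrix (m ⊕ n) (m ⊕ n) ℂ} (hB : IsUnit (B.toBlocks₂₂).det)
    (hBS : B * S = A) : T0 B S = B.toBlocks₂₂⁻¹ * A.toBlocks₂₂ := by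
  rw [← hBS, mul_blocks22, T0, Matrix.mul_add, ← Matrix.mul_assoc, ← Matrix.mul_assoc,
    nonsing_inv_mul _ hB, Matrix.one_mul]

/-- positivity on the boundary -/
lemma bdry_pos {A B S V : Matrix (m ⊕ n) (m ⊕ n) ℂ} (hA : JC A) (hB : JC B) (hV : JU V)
    (hBS : B * S = A) (hBV : A * V = B) (x : n → ℂ) :
    0 ≤ (star x ⬝ᵥ ((V.toBlocks₂₂ * T0 B S) *ᵥ x)).re := by
  set y := T0 B S *ᵥ x with hy
  have hBu := hB.isUnit22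
  have hAu := hA.isUnit22
  have h1 : B.toBlocks₂₂ *ᵥ y = A.toBlocks₂₂ *ᵥ x := by
    rw [hy, T0_eq hBu hBS, mulVec_mulVec, ← Matrix.mul_assoc, mul_nonsing_inv _ hBu,
      Matrix.one_mul]
  set κ := A.toBlocks₂₂⁻¹ * A.toBlocks₂₁ with hκ
  have h2 : x = κ *ᵥ (V.toBlocks₁₂ *ᵥ y) + V.toBlocks₂₂ *ᵥ y := by
    have h3 : A.toBlocks₂₂⁻¹ *ᵥ (B.toBlocks₂₂ *ᵥ y) = x := by
      rw [h1, mulVec_mulVec, nonsing_inv_mul _ hAu, one_mulVec]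
    rw [← h3, ← hBV, mul_blocks22, add_mulVec, mulVec_add, hκ]
    simp only [mulVec_mulVec, ← Matrix.mul_assoc]
    rw [nonsing_inv_mul _ hAu, Matrix.one_mul]
  have h4 : (V.toBlocks₂₂ * T0 B S) *ᵥ x = V.toBlocks₂₂ *ᵥ y := by
    rw [← mulVec_mulVec]
  rw [h4]
  set a := κ *ᵥ (V.toBlocks₁₂ *ᵥ y) with ha
  set b := V.toBlocks₂₂ *ᵥ y with hb
  have h5 : star x ⬝ᵥ b = star a ⬝ᵥ b + nsq b := by
    conv_lhs => rw [h2]
    rw [star_add, add_dotProduct, star_dot_self]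
  have h6 : nsq a ≤ nsq b := by
    have e1 := hA.kappa (V.toBlocks₁₂ *ᵥ y)
    have e2 := hV.eq22 y
    rw [← hκ, ← ha] at e1
    rw [← hb] at e2
    linarith [nsq_nonneg y]
  have h7 : ‖star a ⬝ᵥ b‖ ≤ nsq b := by
    have e1 := cs a b
    have e2 : ‖star a ⬝ᵥ b‖ ^ 2 ≤ nsq b ^ 2 := by
      refine e1.trans ?_
      rw [sq]
      exact mul_le_mul_of_nonneg_right h6 (nsq_nonneg _)
    exact (sq_le_sq₀ (norm_nonneg _) (nsq_nonneg _)).1 e2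
  have h8 := (abs_le.1 (Complex.abs_re_le_norm (star a ⬝ᵥ b))).1
  rw [h5]
  simp only [add_re, ofReal_re]
  linarith

/-- bound on the boundary -/
lemma bdry_bound {A B S V : Matrix (m ⊕ n) (m ⊕ n) ℂ} (hA : JU A) (hB : JU B)
    (hBS : B * S = A) (hBV : A * V = B) (x : n → ℂ) :
    ‖star x ⬝ᵥ ((V.toBlocks₂₂ * T0 B S) *ᵥ x)‖ ≤ 2 * nsq (A.toBlocks₂₂ *ᵥ x) := by
  set y := T0 B S *ᵥ x with hy
  have hBu := hB.jc.isUnit22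
  have h1 : B.toBlocks₂₂ *ᵥ y = A.toBlocks₂₂ *ᵥ x := by
    rw [hy, T0_eq hBu hBS, mulVec_mulVec, ← Matrix.mul_assoc, mul_nonsing_inv _ hBu,
      Matrix.one_mul]
  have hVe : V = A⁻¹ * B := by
    rw [← hBV, ← Matrix.mul_assoc, nonsing_inv_mul _ hA.isUnit, Matrix.one_mul]
  have hV22 : V.toBlocks₂₂ = -(A.toBlocks₁₂)ᴴ * B.toBlocks₁₂ + (A.toBlocks₂₂)ᴴ * B.toBlocks₂₂ := by
    rw [hVe, mul_blocks22, hA.inv_blocks, toBlocks_fromBlocks₂₁, toBlocks_fromBlocks₂₂]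
  have h4 : (V.toBlocks₂₂ * T0 B S) *ᵥ x = V.toBlocks₂₂ *ᵥ y := by
    rw [← mulVec_mulVec]
  have h5 : star x ⬝ᵥ ((V.toBlocks₂₂ * T0 B S) *ᵥ x)
      = nsq (A.toBlocks₂₂ *ᵥ x) - star (A.toBlocks₁₂ *ᵥ x) ⬝ᵥ (B.toBlocks₁₂ *ᵥ y) := by
    rw [h4, hV22, add_mulVec, dotProduct_add, ← mulVec_mulVec, ← mulVec_mulVec, h1,
      neg_mulVec, dotProduct_neg, star_dot_conj, star_dot_conj, star_dot_self]
    ring
  have h6 : ‖star (A.toBlocks₁₂ *ᵥ x) ⬝ᵥ (B.toBlocks₁₂ *ᵥ y)‖ ≤ nsq (A.toBlocks₂₂ *ᵥ x) := by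
    have e1 := cs (A.toBlocks₁₂ *ᵥ x) (B.toBlocks₁₂ *ᵥ y)
    have e2 := hA.eq22 x
    have e3 := hB.eq22 y
    rw [h1] at e3
    have e4 : nsq (A.toBlocks₁₂ *ᵥ x) ≤ nsq (A.toBlocks₂₂ *ᵥ x) := by linarith [nsq_nonneg x]
    have e5 : nsq (B.toBlocks₁₂ *ᵥ y) ≤ nsq (A.toBlocks₂₂ *ᵥ x) := by linarith [nsq_nonneg y]
    have e6 : ‖star (A.toBlocks₁₂ *ᵥ x) ⬝ᵥ (B.toBlocks₁₂ *ᵥ y)‖ ^ 2
        ≤ nsq (A.toBlocks₂₂ *ᵥ x) ^ 2 := by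
      refine e1.trans ?_
      rw [sq]
      exact mul_le_mul e4 e5 (nsq_nonneg _) (nsq_nonneg _)
    exact (sq_le_sq₀ (norm_nonneg _) (nsq_nonneg _)).1 e6
  rw [h5]
  refine (norm_sub_le _ _).trans ?_
  rw [Complex.norm_real, Real.norm_eq_abs, abs_of_nonneg (nsq_nonneg _)]
  linarith

/-- accretive matrices: `|F w| ≤ |(F + ε) w|` and invertibility of `F + ε` -/
lemma accretive_le {F : Matrix n n ℂ} (hF : ∀ x, 0 ≤ (star x ⬝ᵥ (F *ᵥ x)).re) {ε : ℝ}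
    (hε : 0 ≤ ε) (w : n → ℂ) :
    nsq (F *ᵥ w) + ε ^ 2 * nsq w ≤ nsq ((F + (ε : ℂ) • (1 : Matrix n n ℂ)) *ᵥ w) := by
  rw [add_mulVec, smul_mulVec, one_mulVec, nsq_add, nsq_smul, Complex.norm_real,
    Real.norm_eq_abs, sq_abs]
  have h1 : (star (F *ᵥ w) ⬝ᵥ ((ε : ℂ) • w)).re = ε * (star w ⬝ᵥ (F *ᵥ w)).re := by
    rw [dotProduct_smul, smul_eq_mul, Complex.re_ofReal_mul, star_dot_comm]
    simp
  rw [h1]
  have := mul_nonneg hε (hF w)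
  linarith

end Pool.Agent.RegJ
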