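import Pool.Agent.RegJ.Smirnov
import Pool.Agent.RegJ.MatAlg

open Filter Topology Complex MeasureTheory Set Metric Matrix
open scoped Real ENNReal NNReal

namespace Pool.Agent.RegJ

set_option linter.unusedSectionVars false

section analytic

variable {a b c : Type*} {z : ℂ}

lemma AnalyticPt.mul [Fintype b] {A : ℂ → Matrix a b ℂ} {B : ℂ → Matrix b c ℂ}
    (hA : AnalyticPt A z) (hB : AnalyticPt B z) : AnalyticPt (fun w => A w * B w) z := by
  intro i k
  simp only [Matrix.mul_apply]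
  exact Finset.analyticAt_fun_sum _ fun j _ => (hA i j).mul (hB j k)

lemma AnalyticPt.add {A B : ℂ → Matrix a b ℂ}
    (hA : AnalyticPt A z) (hB : AnalyticPt B z) : AnalyticPt (fun w => A w + B w) z :=
  fun i k => (hA i k).add (hB i k)

lemma AnalyticPt.neg {A : ℂ → Matrix a b ℂ} (hA : AnalyticPt A z) :
    AnalyticPt (fun w => -A w) z := fun i k => (hA i k).neg

lemma AnalyticPt.const (A : Matrix a b ℂ) : AnalyticPt (fun _ => A) z :=
  fun _ _ => analyticAt_const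

lemma AnalyticPt.smul {f : ℂ → ℂ} {A : ℂ → Matrix a b ℂ} (hf : AnalyticAt ℂ f z)
    (hA : AnalyticPt A z) : AnalyticPt (fun w => f w • A w) z := fun i k => hf.mul (hA i k)

lemma AnalyticPt.congr {A B : ℂ → Matrix a b ℂ} (hA : AnalyticPt A z) (h : A =ᶠ[𝓝 z] B) :
    AnalyticPt B z := fun i k => (hA i k).congr (h.mono fun w hw => by simp only [hw])

lemma AnalyticPt.det [Fintype a] [DecidableEq a] {A : ℂ → Matrix a a ℂ} (hA : AnalyticPt A z) :
    AnalyticAt ℂ (fun w => (A w).det) z := by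
  simp only [Matrix.det_apply']
  apply Finset.analyticAt_fun_sum
  intro σ _
  apply AnalyticAt.mul analyticAt_const
  exact Finset.analyticAt_fun_prod _ fun i _ => hA _ _

lemma inv_entry [Fintype a] [DecidableEq a] (A : Matrix a a ℂ) (i k : a) :
    A⁻¹ i k = (A.det)⁻¹ * (A.updateRow k (Pi.single i 1)).det := by
  rw [Matrix.inv_def, Matrix.smul_apply, adjugate_apply, Ring.inverse_eq_inv', smul_eq_mul]

lemma AnalyticPt.inv [Fintype a] [DecidableEq a] {A : ℂ → Matrix a a ℂ} (hA : AnalyticPt A z)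
    (hdet : (A z).det ≠ 0) : AnalyticPt (fun w => (A w)⁻¹) z := by
  intro i k
  simp only [inv_entry]
  apply (hA.det.inv hdet).mul
  apply AnalyticPt.det
  intro i' k'
  by_cases h : i' = k
  · subst h
    simp only [updateRow_self]
    exact analyticAt_const
  · simp only [updateRow_ne h]
    exact hA i' k'

lemma analyticPt_iff {A : ℂ → Matrix a b ℂ} :
    (∀ i k, DifferentiableOn ℂ (fun z => A z i k) disc) ↔ ∀ z ∈ disc, AnalyticPt A z := by
  constructor
  · intro h z hz i k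
    exact (h i k).analyticAt (isOpen_ball.mem_nhds hz)
  · intro h i k z hz
    exact (h z hz i k).differentiableAt.differentiableWithinAt

end analytic

section blocks

variable {m n : Type*} {z : ℂ}

lemma AnalyticPt.b11 {A : ℂ → Matrix (m ⊕ n) (m ⊕ n) ℂ} (hA : AnalyticPt A z) :
    AnalyticPt (fun w => (A w).toBlocks₁₁) z := fun i k => hA (Sum.inl i) (Sum.inl k)
lemma AnalyticPt.b12 {A : ℂ → Matrix (m ⊕ n) (m ⊕ n) ℂ} (hA : AnalyticPt A z) :
    AnalyticPt (fun w => (A w).toBlocks₁₂) z := fun i k => hA (Sum.inl i) (Sum.inr k)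
lemma AnalyticPt.b21 {A : ℂ → Matrix (m ⊕ n) (m ⊕ n) ℂ} (hA : AnalyticPt A z) :
    AnalyticPt (fun w => (A w).toBlocks₂₁) z := fun i k => hA (Sum.inr i) (Sum.inl k)
lemma AnalyticPt.b22 {A : ℂ → Matrix (m ⊕ n) (m ⊕ n) ℂ} (hA : AnalyticPt A z) :
    AnalyticPt (fun w => (A w).toBlocks₂₂) z := fun i k => hA (Sum.inr i) (Sum.inr k)

end blocks

section limits

variable {α : Type*} {f : Filter α}

lemma tendsto_entries {a b : Type*} {A : α → Matrix a b ℂ} {L : Matrix a b ℂ} :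
    Tendsto A f (𝓝 L) ↔ ∀ i k, Tendsto (fun x => A x i k) f (𝓝 (L i k)) := by
  constructor
  · intro h i k
    exact ((continuous_id.matrix_elem i k).tendsto L).comp h
  · intro h
    have h2 : ∀ i, Tendsto (fun x => A x i) f (𝓝 (L i)) :=
      fun i => tendsto_pi_nhds.2 fun k => h i k
    have h3 := tendsto_pi_nhds (f := fun x => (fun i => A x i)) (g := fun i => L i) (u := f)
    exact h3.2 h2

lemma tendsto_mmul {a b c : Type*} [Fintype b] {A : α → Matrix a b ℂ} {B : α → Matrix b c ℂ}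
    {L : Matrix a b ℂ} {M : Matrix b c ℂ} (hA : Tendsto A f (𝓝 L)) (hB : Tendsto B f (𝓝 M)) :
    Tendsto (fun x => A x * B x) f (𝓝 (L * M)) := by
  rw [tendsto_entries]
  intro i k
  simp only [Matrix.mul_apply]
  exact tendsto_finsetSum _ fun j _ =>
    (tendsto_entries.1 hA i j).mul (tendsto_entries.1 hB j k)

lemma tendsto_minv {a : Type*} [Fintype a] [DecidableEq a] {A : α → Matrix a a ℂ}
    {L : Matrix a a ℂ} (hA : Tendsto A f (𝓝 L)) (hL : L.det ≠ 0) :
    Tendsto (fun x => (A x)⁻¹) f (𝓝 L⁻¹) := by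
  simp only [Matrix.inv_def, Ring.inverse_eq_inv']
  have h1 : Tendsto (fun x => (A x).det) f (𝓝 L.det) :=
    ((continuous_id.matrix_det).tendsto L).comp hA
  have h2 : Tendsto (fun x => (A x).adjugate) f (𝓝 L.adjugate) :=
    ((continuous_id.matrix_adjugate).tendsto L).comp hA
  exact (h1.inv₀ hL).smul h2

variable {m n : Type*}

lemma tendsto_b11 {A : α → Matrix (m ⊕ n) (m ⊕ n) ℂ} {L} (hA : Tendsto A f (𝓝 L)) :
    Tendsto (fun x => (A x).toBlocks₁₁) f (𝓝 L.toBlocks₁₁) :=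
  tendsto_entries.2 fun i k => tendsto_entries.1 hA (Sum.inl i) (Sum.inl k)
lemma tendsto_b12 {A : α → Matrix (m ⊕ n) (m ⊕ n) ℂ} {L} (hA : Tendsto A f (𝓝 L)) :
    Tendsto (fun x => (A x).toBlocks₁₂) f (𝓝 L.toBlocks₁₂) :=
  tendsto_entries.2 fun i k => tendsto_entries.1 hA (Sum.inl i) (Sum.inr k)
lemma tendsto_b21 {A : α → Matrix (m ⊕ n) (m ⊕ n) ℂ} {L} (hA : Tendsto A f (𝓝 L)) :
    Tendsto (fun x => (A x).toBlocks₂₁) f (𝓝 L.toBlocks₂₁) :=
  tendsto_entries.2 fun i k => tendsto_entries.1 hA (Sum.inr i) (Sum.inl k)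
lemma tendsto_b22 {A : α → Matrix (m ⊕ n) (m ⊕ n) ℂ} {L} (hA : Tendsto A f (𝓝 L)) :
    Tendsto (fun x => (A x).toBlocks₂₂) f (𝓝 L.toBlocks₂₂) :=
  tendsto_entries.2 fun i k => tendsto_entries.1 hA (Sum.inr i) (Sum.inr k)

end limits

section majorants

variable {a b c : Type*}

/-- all entries have `L¹` Poisson majorants -/
def MajM (A : ℂ → Matrix a b ℂ) : Prop := ∀ i k, Maj fun z => A z i k

lemma MajM.mul [Fintype b] {A : ℂ → Matrix a b ℂ} {B : ℂ → Matrix b c ℂ} (hA : MajM A)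
    (hB : MajM B) : MajM (fun z => A z * B z) := by
  intro i k
  simp only [Matrix.mul_apply]
  exact Maj.sum _ fun j _ => (hA i j).mul (hB j k)

lemma MajM.add {A B : ℂ → Matrix a b ℂ} (hA : MajM A) (hB : MajM B) :
    MajM (fun z => A z + B z) := fun i k => (hA i k).add (hB i k)

lemma MajM.neg {A : ℂ → Matrix a b ℂ} (hA : MajM A) : MajM (fun z => -A z) :=
  fun i k => (hA i k).neg

lemma MajM.of_bound {A : ℂ → Matrix a b ℂ} {C : ℝ} (h : ∀ z ∈ disc, ∀ i k, ‖A z i k‖ ≤ C) :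
    MajM A := fun i k => Maj.of_bound fun z hz => h z hz i k

lemma MajM.form [Fintype a] [Fintype b] {A : ℂ → Matrix a b ℂ} (hA : MajM A) (x : a → ℂ)
    (y : b → ℂ) : Maj (fun z => x ⬝ᵥ (A z *ᵥ y)) := by
  simp only [dotProduct, mulVec]
  apply Maj.sum
  intro i _
  apply (Maj.const _).mul
  apply Maj.sum
  intro k _
  exact (hA i k).mul (Maj.const _)

lemma analyticAt_form [Fintype a] [Fintype b] {A : ℂ → Matrix a b ℂ} {z : ℂ}
    (hA : AnalyticPt A z) (x : a → ℂ)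
    (y : b → ℂ) : AnalyticAt ℂ (fun z => x ⬝ᵥ (A z *ᵥ y)) z := by
  simp only [dotProduct, mulVec]
  apply Finset.analyticAt_fun_sum
  intro i _
  apply analyticAt_const.mul
  apply Finset.analyticAt_fun_sum
  intro k _
  exact (hA i k).mul analyticAt_const

lemma tendsto_form {α : Type*} {f : Filter α} [Fintype a] [Fintype b] {A : α → Matrix a b ℂ}
    {L : Matrix a b ℂ} (hA : Tendsto A f (𝓝 L)) (x : a → ℂ) (y : b → ℂ) :
    Tendsto (fun z => x ⬝ᵥ (A z *ᵥ y)) f (𝓝 (x ⬝ᵥ (L *ᵥ y))) := by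
  have : Continuous fun M : Matrix a b ℂ => x ⬝ᵥ (M *ᵥ y) := by fun_prop
  exact (this.tendsto L).comp hA

lemma tendsto_nsq {α : Type*} {f : Filter α} [Fintype a] [Fintype b] {A : α → Matrix a b ℂ}
    {L : Matrix a b ℂ} (hA : Tendsto A f (𝓝 L)) (y : b → ℂ) :
    Tendsto (fun z => nsq (A z *ᵥ y)) f (𝓝 (nsq (L *ᵥ y))) := by
  have : Continuous fun M : Matrix a b ℂ => nsq (M *ᵥ y) := by unfold nsq; fun_prop
  exact (this.tendsto L).comp hA

end majorants

section removable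

lemma ev_ne {h : ℂ → ℂ} (hd : DifferentiableOn ℂ h disc) (hne : ∃ z ∈ disc, h z ≠ 0) {z : ℂ}
    (hz : z ∈ disc) : ∀ᶠ y in 𝓝[≠] z, y ∈ disc ∧ h y ≠ 0 := by
  have hana : AnalyticOnNhd ℂ h disc := hd.analyticOnNhd isOpen_ball
  have h1 : ∀ᶠ y in 𝓝[≠] z, y ∈ disc := nhdsWithin_le_nhds (isOpen_ball.mem_nhds hz)
  rcases (hana z hz).eventually_eq_zero_or_eventually_ne_zero with h0 | h0
  · exfalso
    obtain ⟨w, hw, hwne⟩ := hne
    exact hwne (hana.eqOn_zero_of_preconnected_of_eventuallyEq_zero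
      (convex_ball _ _).isPreconnected hz h0 hw)
  · exact h1.and h0

lemma ne_nhds {h : ℂ → ℂ} (hd : DifferentiableOn ℂ h disc) {z : ℂ} (hz : z ∈ disc)
    (hne : h z ≠ 0) : ∀ᶠ y in 𝓝 z, y ∈ disc ∧ h y ≠ 0 := by
  have h1 : ∀ᶠ y in 𝓝 z, y ∈ disc := isOpen_ball.mem_nhds hz
  exact h1.and ((hd.continuousOn.continuousAt (isOpen_ball.mem_nhds hz)).eventually_ne hne)

lemma le_of_ev {φ ψ : ℂ → ℝ} {z : ℂ} (hφ : ContinuousAt φ z) (hψ : ContinuousAt ψ z)
    (h : ∀ᶠ y in 𝓝[≠] z, φ y ≤ ψ y) : φ z ≤ ψ z :=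
  le_of_tendsto_of_tendsto (hφ.tendsto.mono_left nhdsWithin_le_nhds)
    (hψ.tendsto.mono_left nhdsWithin_le_nhds) h

lemma eq_of_ev {X : Type*} [TopologicalSpace X] [T2Space X] {φ ψ : ℂ → X} {z : ℂ}
    (hφ : ContinuousAt φ z) (hψ : ContinuousAt ψ z)
    (h : ∀ᶠ y in 𝓝[≠] z, φ y = ψ y) : φ z = ψ z :=
  tendsto_nhds_unique_of_eventuallyEq (hφ.tendsto.mono_left nhdsWithin_le_nhds)
    (hψ.tendsto.mono_left nhdsWithin_le_nhds) h

lemma removable {h k : ℂ → ℂ} {C : ℝ} (hd : DifferentiableOn ℂ h disc)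
    (hne : ∃ z ∈ disc, h z ≠ 0) (hk : ∀ z ∈ disc, h z ≠ 0 → AnalyticAt ℂ k z)
    (hb : ∀ z ∈ disc, h z ≠ 0 → ‖k z‖ ≤ C) :
    ∃ K : ℂ → ℂ, DifferentiableOn ℂ K disc ∧ (∀ z ∈ disc, h z ≠ 0 → K z = k z) ∧
      ∀ z ∈ disc, ‖K z‖ ≤ C := by
  classical
  let K : ℂ → ℂ := fun z => if h z ≠ 0 then k z else limUnder (𝓝[≠] z) k
  have hKk : ∀ z ∈ disc, h z ≠ 0 → K z = k z := fun z _ hz => if_pos hz
  have hdiff : ∀ z ∈ disc, DifferentiableAt ℂ K z := by
    intro z hz
    by_cases h0 : h z = 0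
    · have hev := ev_ne hd hne hz
      rw [eventually_nhdsWithin_iff] at hev
      obtain ⟨δ, hδ, hball⟩ := Metric.eventually_nhds_iff_ball.1 hev
      have h1 : DifferentiableOn ℂ (Function.update k z (limUnder (𝓝[≠] z) k)) (ball z δ) := by
        apply Complex.differentiableOn_update_limUnder_of_bddAbove (ball_mem_nhds z hδ)
        · intro y hy
          have := hball y hy.1 hy.2
          exact (hk y this.1 this.2).differentiableAt.differentiableWithinAt
        · refine ⟨C, ?_⟩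
          rintro _ ⟨y, hy, rfl⟩
          have := hball y hy.1 hy.2
          exact hb y this.1 this.2
      have h2 := h1.differentiableAt (ball_mem_nhds z hδ)
      apply h2.congr_of_eventuallyEq
      filter_upwards [ball_mem_nhds z hδ] with y hy
      by_cases hyz : y = z
      · subst hyz
        simp [K, h0]
      · have := hball y hy hyz
        rw [Function.update_of_ne hyz]
        exact hKk y this.1 this.2
    · have h1 := (hk z hz h0).differentiableAt
      apply h1.congr_of_eventuallyEq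
      filter_upwards [ne_nhds hd hz h0] with y hy
      exact hKk y hy.1 hy.2
  refine ⟨K, fun z hz => (hdiff z hz).differentiableWithinAt, hKk, fun z hz => ?_⟩
  apply le_of_ev (hdiff z hz).continuousAt.norm continuousAt_const
  filter_upwards [ev_ne hd hne hz] with y hy
  rw [hKk y hy.1 hy.2]
  exact hb y hy.1 hy.2

lemma removableM {a b : Type*} {h : ℂ → ℂ} {k : ℂ → Matrix a b ℂ} {C : ℝ}
    (hd : DifferentiableOn ℂ h disc)
    (hne : ∃ z ∈ disc, h z ≠ 0) (hk : ∀ z ∈ disc, h z ≠ 0 → AnalyticPt k z)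
    (hb : ∀ z ∈ disc, h z ≠ 0 → ∀ i j, ‖k z i j‖ ≤ C) :
    ∃ K : ℂ → Matrix a b ℂ, (∀ z ∈ disc, AnalyticPt K z) ∧
      (∀ z ∈ disc, h z ≠ 0 → K z = k z) ∧ ∀ z ∈ disc, ∀ i j, ‖K z i j‖ ≤ C := by
  choose K h1 h2 h3 using fun i j => removable (k := fun z => k z i j) (C := C) hd hne
    (fun z hz h0 => hk z hz h0 i j) (fun z hz h0 => hb z hz h0 i j)
  refine ⟨fun z => Matrix.of fun i j => K i j z, ?_, ?_, ?_⟩
  · rw [← analyticPt_iff]
    intro i j
    exact h1 i j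
  · intro z hz h0
    ext i j
    exact h2 i j z hz h0
  · intro z hz i j
    exact h3 i j z hz

end removable

end Pool.Agent.RegJ
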