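import Pool.Agent.RegJ.Approx

open Filter Topology Complex MeasureTheory Set Metric Polynomial
open scoped Real ENNReal

namespace Pool.Agent.RegJ

/-- local sub-mean value property at a point -/
def LocSub (w : ℂ → ℝ) (z : ℂ) : Prop := ∀ᶠ ρ in 𝓝[>] (0 : ℝ), w z ≤ Real.circleAverage w z ρ

lemma eventually_ball {U : Set ℂ} {z : ℂ} (hU : U ∈ 𝓝 z) :
    ∀ᶠ ρ in 𝓝[>] (0 : ℝ), 0 < ρ ∧ closedBall z |ρ| ⊆ U := by
  obtain ⟨δ, hδ, hb⟩ := Metric.nhds_basis_closedBall.mem_iff.1 hU
  have h1 : ∀ᶠ ρ in 𝓝[>] (0 : ℝ), 0 < ρ := self_mem_nhdsWithin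
  have h2 : ∀ᶠ ρ in 𝓝[>] (0 : ℝ), ρ < δ := nhdsWithin_le_nhds (gt_mem_nhds hδ)
  filter_upwards [h1, h2] with ρ a b
  exact ⟨a, (closedBall_subset_closedBall (by rw [abs_of_pos a]; exact b.le)).trans hb⟩

lemma circleIntegrable_of_ball {w : ℂ → ℝ} {z : ℂ} {ρ : ℝ} (hw : ContinuousOn w (closedBall z |ρ|)) :
    CircleIntegrable w z ρ :=
  ContinuousOn.circleIntegrable' (hw.mono sphere_subset_closedBall)

lemma locSub_of_minorant {w v : ℂ → ℝ} {z : ℂ} {U : Set ℂ} (hU : U ∈ 𝓝 z)
    (hw : ContinuousOn w U) (hv : ContinuousOn v U) (hle : ∀ y ∈ U, v y ≤ w y)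
    (heq : w z ≤ v z) (hvs : LocSub v z) : LocSub w z := by
  filter_upwards [hvs, eventually_ball hU] with ρ h1 h2
  refine heq.trans (h1.trans ?_)
  apply Real.circleAverage_mono (circleIntegrable_of_ball (hv.mono h2.2))
    (circleIntegrable_of_ball (hw.mono h2.2))
  intro x hx
  exact hle x (h2.2 (sphere_subset_closedBall hx))

lemma circleAverage_re {f : ℂ → ℂ} {z : ℂ} {ρ : ℝ} (hf : DifferentiableOn ℂ f (closedBall z |ρ|)) :
    Real.circleAverage (fun y => (f y).re) z ρ = (f z).re := by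
  have h1 : DiffContOnCl ℂ f (ball z |ρ|) := by
    apply DifferentiableOn.diffContOnCl
    exact hf.mono closure_ball_subset_closedBall
  have h2 := h1.circleAverage
  have hi : CircleIntegrable f z ρ :=
    ContinuousOn.circleIntegrable' (hf.continuousOn.mono sphere_subset_closedBall)
  have h3 := ContinuousLinearMap.circleAverage_comp_comm (L := Complex.reCLM) hi
  rw [h2] at h3
  exact h3

lemma locSub_re {f : ℂ → ℂ} {z : ℂ} {U : Set ℂ} (hU : U ∈ 𝓝 z) (hf : DifferentiableOn ℂ f U) :
    LocSub (fun y => (f y).re) z := by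
  filter_upwards [eventually_ball hU] with ρ h2
  rw [circleAverage_re (hf.mono h2.2)]

lemma locSub_const (c : ℝ) (z : ℂ) : LocSub (fun _ => c) z := by
  have := locSub_re (f := fun _ => (c : ℂ)) (z := z) (U := univ) univ_mem
    (differentiableOn_const _)
  simpa using this

/-- `log⁺ |h|` has the local sub-mean value property. -/
lemma locSub_posLog {h : ℂ → ℂ} {z : ℂ} {U : Set ℂ} (hU : U ∈ 𝓝 z) (hUo : IsOpen U)
    (hh : DifferentiableOn ℂ h U) :
    LocSub (fun y => Real.posLog ‖h y‖) z := by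
  have hcw : ContinuousOn (fun y => Real.posLog ‖h y‖) U :=
    Real.continuous_posLog.comp_continuousOn hh.continuousOn.norm
  rcases le_or_gt ‖h z‖ 1 with h1 | h1
  · apply locSub_of_minorant hU hcw (v := fun _ => 0) continuousOn_const
      (fun y _ => Real.posLog_nonneg) _ (locSub_const 0 z)
    apply le_of_eq
    rw [Real.posLog_eq_zero_iff]
    rwa [abs_of_nonneg (norm_nonneg _)]
  · have hcont : ContinuousAt h z := hh.continuousOn.continuousAt hU
    have hV : U ∩ {y | h y ≠ 0} ∈ 𝓝 z := by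
      refine inter_mem hU ?_
      have : h z ≠ 0 := by
        intro h0; rw [h0, norm_zero] at h1; linarith
      exact hcont.eventually_ne this
    have hana : ∀ y ∈ U, AnalyticAt ℂ h y := fun y hy => hh.analyticAt (hUo.mem_nhds hy)
    have hne : ContinuousOn (fun y => Real.log ‖h y‖) (U ∩ {y | h y ≠ 0}) := by
      apply ContinuousOn.log ((hh.continuousOn.mono inter_subset_left).norm)
      intro y hy
      exact norm_ne_zero_iff.2 hy.2
    apply locSub_of_minorant hV (hcw.mono inter_subset_left) (v := fun y => Real.log ‖h y‖) hne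
    · intro y _
      rw [Real.posLog_def]
      exact le_max_right _ _
    · rw [Real.posLog_def]
      exact max_le (Real.log_nonneg h1.le) le_rfl
    · filter_upwards [eventually_ball hV] with ρ hρ
      apply le_of_eq
      symm
      apply AnalyticOnNhd.circleAverage_log_norm_of_ne_zero
      · intro y hy; exact hana y (hρ.2 hy).1
      · intro y hy; exact (hρ.2 hy).2

lemma locSub_sub_re {w : ℂ → ℝ} {f : ℂ → ℂ} {z : ℂ} {U : Set ℂ} (hU : U ∈ 𝓝 z)
    (hw : ContinuousOn w U) (hws : LocSub w z) (hf : DifferentiableOn ℂ f U) :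
    LocSub (fun y => w y - (f y).re) z := by
  filter_upwards [eventually_ball hU, hws] with ρ h2 h3
  have hfc : ContinuousOn (fun y => (f y).re) U :=
    Complex.continuous_re.comp_continuousOn hf.continuousOn
  rw [Real.circleAverage_fun_sub (circleIntegrable_of_ball (hw.mono h2.2))
    (circleIntegrable_of_ball (hfc.mono h2.2)), circleAverage_re (hf.mono h2.2)]
  linarith

/-- Maximum principle. -/
lemma max_principle {w : ℂ → ℝ} (hw : ContinuousOn w (closedBall 0 1))
    (hs : ∀ z ∈ ball (0 : ℂ) 1, LocSub w z) (hb : ∀ z ∈ sphere (0 : ℂ) 1, w z ≤ 0) :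
    ∀ z ∈ closedBall (0 : ℂ) 1, w z ≤ 0 := by
  by_contra hcon
  push Not at hcon
  obtain ⟨z₁, hz₁, hpos⟩ := hcon
  obtain ⟨z₂, hz₂, hmax⟩ := (isCompact_closedBall (0 : ℂ) 1).exists_isMaxOn ⟨z₁, hz₁⟩ hw
  set M := w z₂ with hM
  have hMpos : 0 < M := lt_of_lt_of_le hpos (hmax hz₁)
  let A : Set ℂ := {z ∈ closedBall (0 : ℂ) 1 | w z = M}
  have hAc : IsCompact A := by
    have h1 : IsClosed A := hw.preimage_isClosed_of_isClosed isClosed_closedBall isClosed_singleton
    exact (isCompact_closedBall (0 : ℂ) 1).of_isClosed_subset h1 (fun z hz => hz.1)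
  obtain ⟨z₀, hz₀, hfar⟩ := hAc.exists_isMaxOn ⟨z₂, hz₂, rfl⟩ continuous_norm.continuousOn
  have hz₀b : z₀ ∈ ball (0 : ℂ) 1 := by
    have h1 : ‖z₀‖ ≤ 1 := by simpa using hz₀.1
    rcases h1.lt_or_eq with h | h
    · simpa using h
    · exfalso
      have := hb z₀ (by simpa using h)
      rw [hz₀.2] at this
      linarith
  obtain ⟨ρ, ⟨hρ, hsub⟩, hle⟩ := ((eventually_ball (isOpen_ball.mem_nhds hz₀b)).and
    (hs z₀ hz₀b)).exists
  rw [abs_of_pos hρ] at hsub
  -- a point on the circle that is farther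
  obtain ⟨θ, hθ, hfarθ⟩ : ∃ θ ∈ Icc 0 (2 * π), ‖z₀‖ < ‖circleMap z₀ ρ θ‖ := by
    rcases le_or_gt 0 z₀.re with h | h
    · refine ⟨0, ⟨le_rfl, by positivity⟩, ?_⟩
      simp only [circleMap, ofReal_zero, zero_mul, Complex.exp_zero, mul_one]
      rw [← sq_lt_sq₀ (norm_nonneg _) (norm_nonneg _), ← Complex.normSq_eq_norm_sq,
        ← Complex.normSq_eq_norm_sq, Complex.normSq_apply, Complex.normSq_apply]
      simp only [add_re, ofReal_re, add_im, ofReal_im, add_zero]
      nlinarith
    · refine ⟨π, ⟨Real.pi_pos.le, by linarith [Real.pi_pos]⟩, ?_⟩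
      simp only [circleMap, Complex.exp_pi_mul_I]
      rw [← sq_lt_sq₀ (norm_nonneg _) (norm_nonneg _), ← Complex.normSq_eq_norm_sq,
        ← Complex.normSq_eq_norm_sq, Complex.normSq_apply, Complex.normSq_apply]
      simp only [add_re, mul_neg, mul_one, neg_re, ofReal_re, add_im, neg_im, ofReal_im, neg_zero,
        add_zero]
      nlinarith
  have hmem : ∀ t : ℝ, circleMap z₀ ρ t ∈ closedBall (0 : ℂ) 1 := fun t =>
    ball_subset_closedBall (hsub (sphere_subset_closedBall (circleMap_mem_sphere _ hρ.le _)))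
  have hlt : w (circleMap z₀ ρ θ) < M := by
    apply lt_of_le_of_ne (hmax (hmem θ))
    intro heq
    have : ‖circleMap z₀ ρ θ‖ ≤ ‖z₀‖ := hfar ⟨hmem θ, heq⟩
    linarith
  have hwc : ContinuousOn w (closedBall z₀ |ρ|) := by
    rw [abs_of_pos hρ]
    exact hw.mono (hsub.trans ball_subset_closedBall)
  have hint := circleIntegrable_of_ball hwc
  have hcM : Continuous (fun t : ℝ => M - w (circleMap z₀ ρ t)) := by
    refine continuous_const.sub ?_
    exact hw.comp_continuous (continuous_circleMap _ _) hmem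
  have hpos2 : 0 < ∫ t in (0:ℝ)..(2 * π), (M - w (circleMap z₀ ρ t)) := by
    apply intervalIntegral.integral_pos (by positivity) hcM.continuousOn
    · intro t _
      have : w (circleMap z₀ ρ t) ≤ M := hmax (hmem t)
      linarith
    · exact ⟨θ, hθ, by linarith⟩
  have h5 : Real.circleAverage w z₀ ρ < M := by
    rw [Real.circleAverage_def]
    rw [intervalIntegral.integral_sub (by simp) hint] at hpos2
    simp only [intervalIntegral.integral_const, sub_zero, smul_eq_mul] at hpos2
    rw [smul_eq_mul, inv_mul_lt_iff₀ (by positivity)]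
    linarith
  rw [hz₀.2] at hle
  linarith

/-- Poisson inequality for functions with the local sub-mean value property. -/
lemma poisson_ineq {w : ℂ → ℝ} (hw : ContinuousOn w (closedBall 0 1))
    (hs : ∀ z ∈ ball (0 : ℂ) 1, LocSub w z) {z : ℂ} (hz : ‖z‖ < 1) : w z ≤ PI w z := by
  apply le_of_forall_pos_le_add
  intro ε hε
  obtain ⟨p, hp⟩ := approx_cont (hw.mono sphere_subset_closedBall) (half_pos hε)
  have hpd : DifferentiableOn ℂ (fun y => p.eval y + (ε / 2 : ℝ)) (ball 0 1) :=
    (p.differentiable.add_const _).differentiableOn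
  have hwi : Integrable w σ := integrable_of_continuousOn (hw.mono sphere_subset_closedBall)
  have hpi : Integrable (fun ζ : ℂ => (p.eval ζ).re) σ :=
    integrable_of_continuousOn (continuousOn_re_poly p).continuousOn
  have h1 := max_principle (w := fun y => w y - (p.eval y + (ε / 2 : ℝ)).re) (by
      refine hw.sub (Continuous.continuousOn ?_)
      exact Complex.continuous_re.comp (p.continuous.add continuous_const)) (by
      intro y hy
      exact locSub_sub_re (isOpen_ball.mem_nhds hy) (hw.mono ball_subset_closedBall) (hs y hy) hpd)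
    (by
      intro y hy
      have := hp y (by simpa using hy)
      rw [abs_le] at this
      simp only [add_re, ofReal_re]
      linarith) z (by simpa using hz.le)
  simp only [add_re, ofReal_re] at h1
  have h2 : (p.eval z).re ≤ PI w z + ε / 2 := by
    rw [← PI_re_poly p hz, ← PI_const (ε / 2) hz, ← PI_add hwi (integrable_const _) hz]
    apply PI_mono hpi (hwi.add (integrable_const _)) _ hz
    filter_upwards [ae_norm] with ζ hζ
    have := hp ζ hζ
    rw [abs_le] at this
    simp only [Pi.add_apply]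
    linarith
  linarith

lemma locSub_dilate {w : ℂ → ℝ} {r : ℝ} (hr : 0 < r) {z : ℂ} (h : LocSub w (r * z)) :
    LocSub (fun y => w (r * y)) z := by
  have h1 : Tendsto (fun ρ : ℝ => r * ρ) (𝓝[>] 0) (𝓝[>] 0) := by
    apply tendsto_nhdsWithin_of_tendsto_nhds_of_eventually_within
    · have : Tendsto (fun ρ : ℝ => r * ρ) (𝓝 0) (𝓝 (r * 0)) :=
        (continuous_const.mul continuous_id).tendsto 0
      rw [mul_zero] at this
      exact this.mono_left nhdsWithin_le_nhds
    · filter_upwards [self_mem_nhdsWithin] with ρ hρ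
      exact mul_pos hr hρ
  filter_upwards [h1.eventually h] with ρ hρ
  refine hρ.trans (le_of_eq ?_)
  rw [Real.circleAverage_def, Real.circleAverage_def]
  congr 2
  ext θ
  simp only [circleMap]
  congr 1
  push_cast
  ring

/-- Poisson inequality for dilates. -/
lemma poisson_ineq_dilate {w : ℂ → ℝ} (hw : ContinuousOn w (ball 0 1))
    (hs : ∀ z ∈ ball (0 : ℂ) 1, LocSub w z) {z : ℂ} (hz : ‖z‖ < 1) {r : ℝ} (hr0 : 0 < r)
    (hr : r < 1) : w (r * z) ≤ PI (fun ζ => w (r * ζ)) z := by
  have hn : ∀ y : ℂ, ‖y‖ ≤ 1 → (r : ℂ) * y ∈ ball (0 : ℂ) 1 := by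
    intro y hy
    rw [mem_ball_zero_iff, norm_mul, Complex.norm_real, Real.norm_eq_abs, abs_of_pos hr0]
    nlinarith [norm_nonneg y]
  apply poisson_ineq (w := fun y => w (r * y)) _ _ hz
  · refine hw.comp (by fun_prop) ?_
    intro y hy
    exact hn y (by simpa using hy)
  · intro y hy
    exact locSub_dilate hr0 (hs _ (hn y (by simpa using (mem_ball_zero_iff.1 hy).le)))

/-- A bounded nonnegative function with the local sub-mean value property and zero radial limits
a.e. vanishes. -/
lemma eq_zero_of_radial {w : ℂ → ℝ} (hw : ContinuousOn w (ball 0 1))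
    (hs : ∀ z ∈ ball (0 : ℂ) 1, LocSub w z) (h0 : ∀ z ∈ ball (0 : ℂ) 1, 0 ≤ w z) {C : ℝ}
    (hC : ∀ z ∈ ball (0 : ℂ) 1, w z ≤ C)
    (hr : ∀ᵐ ζ ∂σ, Tendsto (fun r : ℝ => w (r * ζ)) (𝓝[<] 1) (𝓝 0)) :
    ∀ z ∈ ball (0 : ℂ) 1, w z = 0 := by
  intro z hz
  have hz' : ‖z‖ < 1 := by simpa using hz
  have h1 : Tendsto (fun r : ℝ => PI (fun ζ => w (r * ζ)) z) (𝓝[<] 1) (𝓝 0) := by
    have h2 : Tendsto (fun r : ℝ => ∫ ζ, P z ζ * w (r * ζ) ∂σ) (𝓝[<] 1)
        (𝓝 (∫ _ζ : ℂ, (0 : ℝ) ∂σ)) := by
      apply tendsto_integral_filter_of_dominated_convergence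
        (fun _ => (1 + ‖z‖) / (1 - ‖z‖) * C)
      · filter_upwards [eventually_r] with r hr
        apply aesm_of_continuousOn
        refine (continuousOn_P hz').mul (hw.comp (by fun_prop) ?_)
        intro ζ hζ
        have := norm_dilate hr.1 hr.2 (ζ := ζ) (by simpa using hζ)
        simpa using this
      · filter_upwards [eventually_r] with r hr
        filter_upwards [ae_norm] with ζ hζ
        have hm : (r : ℂ) * ζ ∈ ball (0 : ℂ) 1 := by
          have := norm_dilate hr.1 hr.2 hζ
          simpa using this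
        rw [norm_mul, Real.norm_eq_abs, Real.norm_eq_abs, abs_of_nonneg (P_nonneg hz' hζ),
          abs_of_nonneg (h0 _ hm)]
        have hle := P_le hz' hζ
        have := P_nonneg hz' hζ
        exact mul_le_mul hle (hC _ hm) (h0 _ hm) (this.trans hle)
      · exact integrable_const _
      · filter_upwards [hr] with ζ hζ
        have := hζ.const_mul (P z ζ)
        rwa [mul_zero] at this
    rw [integral_zero] at h2
    exact h2
  have h3 : Tendsto (fun r : ℝ => w (r * z)) (𝓝[<] 1) (𝓝 (w z)) := by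
    have hc : ContinuousAt w z := hw.continuousAt (isOpen_ball.mem_nhds hz)
    have h4 : Tendsto (fun r : ℝ => (r : ℂ) * z) (𝓝[<] 1) (𝓝 z) := by
      have : Tendsto (fun r : ℝ => (r : ℂ) * z) (𝓝 1) (𝓝 ((1 : ℝ) * z)) := by
        have hc : Continuous (fun r : ℝ => (r : ℂ) * z) := by fun_prop
        exact hc.tendsto 1
      rw [ofReal_one, one_mul] at this
      exact this.mono_left nhdsWithin_le_nhds
    exact hc.tendsto.comp h4
  refine le_antisymm (le_of_tendsto_of_tendsto h3 h1 ?_) (h0 z hz)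
  have h1 : ∀ᶠ r : ℝ in 𝓝[<] 1, r < 1 := self_mem_nhdsWithin
  have h2 : ∀ᶠ r : ℝ in 𝓝[<] 1, 0 < r := nhdsWithin_le_nhds (lt_mem_nhds one_pos)
  filter_upwards [h1, h2] with r a b
  exact poisson_ineq_dilate hw hs hz' b a

end Pool.Agent.RegJ
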