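import Pool.Agent.RegJ.Beta
import Pool.Agent.RegJ.SubMean

open Filter Topology Complex MeasureTheory Set Metric
open scoped Real ENNReal NNReal

namespace Pool.Agent.RegJ

lemma locSub_congr {w w' : ℂ → ℝ} {z : ℂ} (h : w =ᶠ[𝓝 z] w') (hs : LocSub w' z) : LocSub w z := by
  filter_upwards [hs, eventually_ball h] with ρ h1 h2
  rw [h.eq_of_nhds]
  refine h1.trans (le_of_eq ?_)
  apply Real.circleAverage_congr_sphere
  intro y hy
  exact (h2.2 (sphere_subset_closedBall hy)).symm

lemma le_exp_posLog {x : ℝ} (hx : 0 ≤ x) : x ≤ Real.exp (Real.posLog x) := by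
  rcases le_or_gt x 1 with h | h
  · exact h.trans (Real.one_le_exp Real.posLog_nonneg)
  · have : 0 < x := by linarith
    calc x = Real.exp (Real.log x) := (Real.exp_log this).symm
      _ ≤ Real.exp (Real.posLog x) := by
        apply Real.exp_le_exp.2
        rw [Real.posLog_def]
        exact le_max_right _ _

lemma PI_u_le {u : ℂ → ℝ} (hu : Measurable u) (hu0 : ∀ ζ, 0 ≤ u ζ) (hui : Integrable u σ)
    (j : ℕ) {z : ℂ} (hz : ‖z‖ < 1) : PI u z ≤ vj u j z + 2 ^ j := by
  have hvi : Integrable ((Ek u j).indicator u) σ := hui.indicator (measurableSet_Ek hu j)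
  unfold vj
  rw [← PI_const (2 ^ j) hz, ← PI_add hvi (integrable_const _) hz]
  apply PI_mono hui (hvi.add (integrable_const _)) _ hz
  refine Eventually.of_forall fun ζ => ?_
  simp only [Pi.add_apply]
  by_cases h : ζ ∈ Ek u j
  · rw [indicator_of_mem h]
    have : (0 : ℝ) < 2 ^ j := by positivity
    linarith
  · rw [indicator_of_notMem h, zero_add]
    simpa [Ek] using h

lemma vj_tendsto {u : ℂ → ℝ} (hu : Measurable u) (hu0 : ∀ ζ, 0 ≤ u ζ) (hui : Integrable u σ)
    {z : ℂ} (hz : ‖z‖ < 1) : Tendsto (fun j => vj u j z) atTop (𝓝 0) := by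
  have h1 : Tendsto (fun j => vj u j z) atTop (𝓝 (∫ _ζ : ℂ, (0 : ℝ) ∂σ)) := by
    unfold vj PI
    apply tendsto_integral_of_dominated_convergence (fun ζ => P z ζ * u ζ)
    · intro K
      exact (integrable_P_mul hz (hui.indicator (measurableSet_Ek hu K))).aestronglyMeasurable
    · exact integrable_P_mul hz hui
    · intro K
      filter_upwards [ae_norm] with ζ hζ
      have hP := P_nonneg hz hζ
      by_cases h : ζ ∈ Ek u K
      · rw [indicator_of_mem h, norm_mul, Real.norm_eq_abs, Real.norm_eq_abs, abs_of_nonneg hP,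
          abs_of_nonneg (hu0 ζ)]
      · rw [indicator_of_notMem h, mul_zero, norm_zero]
        exact mul_nonneg hP (hu0 ζ)
    · refine Eventually.of_forall fun ζ => ?_
      apply tendsto_const_nhds.congr'
      have h2 : Tendsto (fun K : ℕ => (2 : ℝ) ^ K) atTop atTop :=
        tendsto_pow_atTop_atTop_of_one_lt (by norm_num)
      filter_upwards [h2.eventually (eventually_ge_atTop (u ζ))] with K hK
      have : ζ ∉ Ek u K := by simpa [Ek] using hK
      rw [indicator_of_notMem this, mul_zero]
  rwa [integral_zero] at h1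

/-- The scalar main lemma. -/
theorem scalar_main {u : ℂ → ℝ} (hu : Measurable u) (hu0 : ∀ ζ, 0 ≤ u ζ) (hui : Integrable u σ)
    {f q : ℂ → ℂ} (hf : DifferentiableOn ℂ f (ball 0 1))
    (hfq : ∀ z ∈ ball (0 : ℂ) 1, f z = 1 + beta u z * q z)
    (hfb : ∀ z ∈ ball (0 : ℂ) 1, Real.posLog ‖f z‖ ≤ PI u z)
    (hqb : ∀ z ∈ ball (0 : ℂ) 1, Real.posLog ‖q z‖ ≤ PI u z + Real.log 2)
    (hre : ∀ᵐ ζ ∂σ, ∃ L : ℂ, Tendsto (fun r : ℝ => f (r * ζ)) (𝓝[<] 1) (𝓝 L) ∧ 0 ≤ L.re) :
    ∀ z ∈ ball (0 : ℂ) 1, 0 ≤ (f z).re := by
  -- the core statement on `D_j`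
  have core : ∀ j : ℕ, ∀ z ∈ ball (0 : ℂ) 1, vj u j z < 2 ^ j / 2 → 0 ≤ (f z).re := by
    intro j
    set t : ℝ := 2 ^ j / 2 with ht
    have ht2 : 1 / 2 ≤ t := by
      have : (1 : ℝ) ≤ 2 ^ j := one_le_pow₀ (by norm_num)
      rw [ht]; linarith
    have hvc : ContinuousOn (vj u j) (ball 0 1) :=
      continuousOn_PI (hui.indicator (measurableSet_Ek hu j))
    have hfc : ContinuousOn (fun y => (f y).re) (ball 0 1) :=
      Complex.continuous_re.comp_continuousOn hf.continuousOn
    -- at the barrier `Re f > 0`
    have hbar : ∀ z ∈ ball (0 : ℂ) 1, vj u j z = t → 0 < (f z).re := by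
      intro z hz hzt
      have hz' : ‖z‖ < 1 := by simpa using hz
      have h1 : t ≤ (GG u z).re := by
        rw [← hzt]; exact barrier hu hu0 hui hz' hzt.le
      have h2 : PI u z ≤ 3 * t := by
        have := PI_u_le hu hu0 hui j hz'
        rw [hzt] at this
        have e : (2 : ℝ) ^ j = 2 * t := by rw [ht]; ring
        rw [e] at this
        linarith
      have h3 : ‖q z‖ ≤ Real.exp (3 * t + Real.log 2) :=
        (le_exp_posLog (norm_nonneg _)).trans (Real.exp_le_exp.2 ((hqb z hz).trans (by linarith)))
      have h4 : ‖beta u z‖ ≤ Real.exp (-(8 * t)) := by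
        rw [norm_beta]
        apply Real.exp_le_exp.2
        linarith
      have h5 : ‖beta u z * q z‖ < 1 := by
        rw [norm_mul]
        calc ‖beta u z‖ * ‖q z‖ ≤ Real.exp (-(8 * t)) * Real.exp (3 * t + Real.log 2) := by
              gcongr
          _ = Real.exp (Real.log 2 - 5 * t) := by rw [← Real.exp_add]; ring_nf
          _ < 1 := by
            rw [Real.exp_lt_one_iff]
            have := Real.log_two_lt_d9
            linarith
      rw [hfq z hz]
      have h6 := Complex.abs_re_le_norm (beta u z * q z)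
      rw [Complex.add_re, Complex.one_re]
      have h7 := (abs_le.1 h6).1
      linarith
    let s : ℂ → ℝ := fun z => if vj u j z < t then max (-(f z).re) 0 else 0
    have hs_cases : ∀ z ∈ ball (0 : ℂ) 1,
        s =ᶠ[𝓝 z] (fun y => max (-(f y).re) 0) ∨ s =ᶠ[𝓝 z] fun _ => 0 := by
      intro z hz
      have hva : ContinuousAt (vj u j) z := hvc.continuousAt (isOpen_ball.mem_nhds hz)
      have hfa : ContinuousAt (fun y => (f y).re) z := hfc.continuousAt (isOpen_ball.mem_nhds hz)
      rcases lt_trichotomy (vj u j z) t with h | h | h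
      · left
        filter_upwards [hva.eventually (gt_mem_nhds h)] with y hy
        simp only [s, if_pos hy]
      · right
        filter_upwards [hfa.eventually (lt_mem_nhds (hbar z hz h))] with y hy
        simp only [s]
        split_ifs
        · rw [max_eq_right]; linarith
        · rfl
      · right
        filter_upwards [hva.eventually (lt_mem_nhds h)] with y hy
        simp only [s, if_neg (not_lt.2 (le_of_lt hy))]
    have hmc : ContinuousOn (fun y => max (-(f y).re) 0) (ball 0 1) :=
      (continuous_id.max continuous_const).comp_continuousOn hfc.neg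
    have hsc : ContinuousOn s (ball 0 1) := by
      intro z hz
      apply ContinuousAt.continuousWithinAt
      rcases hs_cases z hz with h | h
      · exact (hmc.continuousAt (isOpen_ball.mem_nhds hz)).congr h.symm
      · exact continuousAt_const.congr h.symm
    have hsub : ∀ z ∈ ball (0 : ℂ) 1, LocSub s z := by
      intro z hz
      rcases hs_cases z hz with h | h
      · apply locSub_congr h
        rcases le_or_gt (-(f z).re) 0 with h0 | h0
        · apply locSub_of_minorant (isOpen_ball.mem_nhds hz) hmc (v := fun _ => 0)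
            continuousOn_const (fun y _ => le_max_right _ _) _ (locSub_const 0 z)
          rw [max_eq_right h0]
        · have h1 : LocSub (fun y => (-f y).re) z :=
            locSub_re (isOpen_ball.mem_nhds hz) hf.neg
          simp only [Complex.neg_re] at h1
          apply locSub_of_minorant (isOpen_ball.mem_nhds hz) hmc (v := fun y => -(f y).re)
            hfc.neg (fun y _ => le_max_left _ _) _ h1
          rw [max_eq_left h0.le]
      · exact locSub_congr h (locSub_const 0 z)
    have hs0 : ∀ z ∈ ball (0 : ℂ) 1, 0 ≤ s z := by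
      intro z _
      simp only [s]
      split_ifs
      · exact le_max_right _ _
      · exact le_rfl
    have hsC : ∀ z ∈ ball (0 : ℂ) 1, s z ≤ Real.exp (3 * t) := by
      intro z hz
      have hz' : ‖z‖ < 1 := by simpa using hz
      simp only [s]
      split_ifs with h
      · apply max_le _ (Real.exp_pos _).le
        have h1 := PI_u_le hu hu0 hui j hz'
        have e : (2 : ℝ) ^ j = 2 * t := by rw [ht]; ring
        rw [e] at h1
        calc -(f z).re ≤ ‖f z‖ := (neg_le_abs _).trans (Complex.abs_re_le_norm _)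
          _ ≤ Real.exp (Real.posLog ‖f z‖) := le_exp_posLog (norm_nonneg _)
          _ ≤ Real.exp (3 * t) := Real.exp_le_exp.2 ((hfb z hz).trans (by linarith))
      · exact (Real.exp_pos _).le
    have hsr : ∀ᵐ ζ ∂σ, Tendsto (fun r : ℝ => s (r * ζ)) (𝓝[<] 1) (𝓝 0) := by
      filter_upwards [hre, ae_norm] with ζ hζ hn
      obtain ⟨L, hL, hL0⟩ := hζ
      have h1 : Tendsto (fun r : ℝ => max (-(f (r * ζ)).re) 0) (𝓝[<] 1) (𝓝 (max (-L.re) 0)) :=
        (((Complex.continuous_re.tendsto L).comp hL).neg).max tendsto_const_nhds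
      rw [max_eq_right (by linarith)] at h1
      apply tendsto_of_tendsto_of_tendsto_of_le_of_le' tendsto_const_nhds h1
      · filter_upwards [eventually_r] with r hr
        exact hs0 _ (by simpa using norm_dilate hr.1 hr.2 hn)
      · filter_upwards [eventually_r] with r hr
        simp only [s]
        split_ifs
        · exact le_rfl
        · exact le_max_right _ _
    have hzero := eq_zero_of_radial hsc hsub hs0 hsC hsr
    intro z hz hzt
    have h1 := hzero z hz
    simp only [s, if_pos hzt] at h1
    have h2 := le_max_left (-(f z).re) 0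
    rw [h1] at h2
    linarith
  intro z hz
  have hz' : ‖z‖ < 1 := by simpa using hz
  have h1 := (vj_tendsto hu hu0 hui hz').eventually (gt_mem_nhds (show (0 : ℝ) < 1 / 2 by norm_num))
  obtain ⟨j, hj⟩ := h1.exists
  apply core j z hz
  have : (1 : ℝ) ≤ 2 ^ j := one_le_pow₀ (by norm_num)
  linarith

end Pool.Agent.RegJ
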