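import Pool.Agent.RegJ.Defs

open Filter Topology Complex MeasureTheory Set Metric
open scoped Real ENNReal

namespace Pool.Agent.RegJ

/-- Normalised arc length on the unit circle, as a measure on `ℂ`. -/
noncomputable abbrev σ : Measure ℂ := circleMeasure

lemma measurable_cm : Measurable (circleMap 0 1) := (continuous_circleMap 0 1).measurable

instance : IsProbabilityMeasure σ := by
  refine ⟨?_⟩
  unfold σ circleMeasure
  rw [Measure.smul_apply, Measure.map_apply measurable_cm MeasurableSet.univ, preimage_univ,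
    Measure.restrict_apply_univ, Real.volume_Ioc, smul_eq_mul, ← ENNReal.ofReal_mul (by positivity)]
  rw [sub_zero, inv_mul_cancel₀ (by positivity), ENNReal.ofReal_one]

lemma ofReal_ne : ENNReal.ofReal (2 * π)⁻¹ ≠ 0 := by
  rw [Ne, ENNReal.ofReal_eq_zero, not_le]; positivity

lemma ae_σ_iff {p : ℂ → Prop} (hp : MeasurableSet {w | p w}) :
    (∀ᵐ w ∂σ, p w) ↔ ∀ᵐ θ ∂(volume.restrict (Ioc 0 (2 * π))), p (circleMap 0 1 θ) := by
  unfold σ circleMeasure
  rw [Measure.ae_ennreal_smul_measure_iff ofReal_ne]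
  exact ae_map_iff measurable_cm.aemeasurable hp

lemma ae_norm : ∀ᵐ w ∂σ, ‖w‖ = 1 := by
  rw [ae_σ_iff]
  · exact Eventually.of_forall (fun θ => by simp)
  · exact measurableSet_eq_fun measurable_norm measurable_const

lemma ae_sphere : ∀ᵐ w ∂σ, w ∈ sphere (0 : ℂ) 1 := by
  filter_upwards [ae_norm] with w hw
  simpa using hw

lemma restrict_sphere : σ.restrict (sphere (0 : ℂ) 1) = σ :=
  Measure.restrict_eq_self_of_ae_mem ae_sphere

lemma aesm_of_continuousOn {E : Type*} [NormedAddCommGroup E] {f : ℂ → E}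
    (hf : ContinuousOn f (sphere 0 1)) : AEStronglyMeasurable f σ := by
  rw [← restrict_sphere]
  exact hf.aestronglyMeasurable_of_isCompact (isCompact_sphere 0 1)
    isClosed_sphere.measurableSet

lemma integrable_of_continuousOn {E : Type*} [NormedAddCommGroup E] {f : ℂ → E}
    (hf : ContinuousOn f (sphere 0 1)) : Integrable f σ := by
  rw [← restrict_sphere]
  exact hf.integrableOn_compact (isCompact_sphere 0 1)

lemma integral_σ {E : Type*} [NormedAddCommGroup E] [NormedSpace ℝ E] {f : ℂ → E}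
    (hf : AEStronglyMeasurable f σ) :
    ∫ w, f w ∂σ = Real.circleAverage f 0 1 := by
  unfold σ circleMeasure at hf ⊢
  rw [integral_smul_measure, Real.circleAverage_def, intervalIntegral.integral_of_le (by positivity),
    ENNReal.toReal_ofReal (by positivity)]
  congr 1
  rw [integral_map measurable_cm.aemeasurable]
  exact hf.mono_ac (Measure.absolutelyContinuous_smul ofReal_ne)

lemma integrable_σ_iff {E : Type*} [NormedAddCommGroup E] {f : ℂ → E}
    (hf : AEStronglyMeasurable f σ) :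
    Integrable f σ ↔ CircleIntegrable f 0 1 := by
  have h1 : AEStronglyMeasurable f ((volume.restrict (Ioc 0 (2 * π))).map (circleMap 0 1)) :=
    hf.mono_ac (by unfold σ circleMeasure; exact Measure.absolutelyContinuous_smul ofReal_ne)
  unfold σ circleMeasure
  rw [integrable_smul_measure ofReal_ne ENNReal.ofReal_ne_top,
    integrable_map_measure h1 measurable_cm.aemeasurable,
    CircleIntegrable, intervalIntegrable_iff_integrableOn_Ioc_of_le (by positivity)]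
  rfl

/-- The Poisson kernel of the unit disc. -/
noncomputable abbrev P (z ζ : ℂ) : ℝ := poissonKernel 0 z ζ

/-- Poisson integral. -/
noncomputable def PI (g : ℂ → ℝ) (z : ℂ) : ℝ := ∫ ζ, P z ζ * g ζ ∂σ

lemma P_eq (z ζ : ℂ) : P z ζ = (‖ζ‖ ^ 2 - ‖z‖ ^ 2) / ‖ζ - z‖ ^ 2 := by
  simp [poissonKernel_def]

lemma P_re (z ζ : ℂ) : P z ζ = (herglotzRieszKernel 0 z ζ).re := by
  rw [P, poissonKernel_eq_re_herglotzRieszKernel]; rfl

lemma P_nonneg {z ζ : ℂ} (hz : ‖z‖ < 1) (hζ : ‖ζ‖ = 1) : 0 ≤ P z ζ := by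
  rw [P_eq, hζ]
  have : ‖z‖ ^ 2 ≤ 1 := by nlinarith [norm_nonneg z]
  apply div_nonneg <;> nlinarith [norm_nonneg z]

lemma norm_HK_le {z ζ : ℂ} (hz : ‖z‖ < 1) (hζ : ‖ζ‖ = 1) :
    ‖herglotzRieszKernel 0 z ζ‖ ≤ (1 + ‖z‖) / (1 - ‖z‖) := by
  rw [herglotzRieszKernel_def, sub_zero, sub_zero, norm_div]
  have h1 : ‖ζ + z‖ ≤ 1 + ‖z‖ := by rw [← hζ]; exact norm_add_le _ _
  have h2 : 1 - ‖z‖ ≤ ‖ζ - z‖ := by rw [← hζ]; exact norm_sub_norm_le _ _
  have h3 : 0 < 1 - ‖z‖ := by linarith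
  gcongr

lemma P_le {z ζ : ℂ} (hz : ‖z‖ < 1) (hζ : ‖ζ‖ = 1) : P z ζ ≤ (1 + ‖z‖) / (1 - ‖z‖) := by
  rw [P_re]
  exact (Complex.re_le_norm _).trans (norm_HK_le hz hζ)

lemma continuousOn_HK {z : ℂ} (hz : ‖z‖ < 1) :
    ContinuousOn (fun ζ => herglotzRieszKernel 0 z ζ) (sphere 0 1) := by
  have := continuousOn_herglotzRieszKernel_sphere (c := 0) (R := 1) (w := z) (by simpa using hz)
  rwa [abs_one] at this

lemma continuousOn_P {z : ℂ} (hz : ‖z‖ < 1) : ContinuousOn (fun ζ => P z ζ) (sphere 0 1) := by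
  have := Complex.continuous_re.comp_continuousOn (continuousOn_HK hz)
  refine this.congr fun ζ _ => P_re z ζ

lemma integrable_P_mul {z : ℂ} (hz : ‖z‖ < 1) {g : ℂ → ℝ} (hg : Integrable g σ) :
    Integrable (fun ζ => P z ζ * g ζ) σ := by
  apply hg.bdd_mul (c := (1 + ‖z‖) / (1 - ‖z‖)) (aesm_of_continuousOn (continuousOn_P hz))
  filter_upwards [ae_norm] with ζ hζ
  rw [Real.norm_eq_abs, abs_of_nonneg (P_nonneg hz hζ)]
  exact P_le hz hζ

lemma integral_P {z : ℂ} (hz : ‖z‖ < 1) : ∫ ζ, P z ζ ∂σ = 1 := by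
  rw [integral_σ (aesm_of_continuousOn (continuousOn_P hz))]
  have h1 : DiffContOnCl ℂ (fun _ : ℂ => (1 : ℂ)) (ball 0 1) := diffContOnCl_const
  have h2 := h1.circleAverage_poissonKernel_smul (w := z) (by simpa using hz)
  have h3 : (poissonKernel 0 z • fun _ : ℂ => (1 : ℂ)) = fun ζ => ((P z ζ : ℝ) : ℂ) := by
    ext ζ; simp [P]
  rw [h3] at h2
  have h4 : Real.circleAverage (fun ζ => ((P z ζ : ℝ) : ℂ)) 0 1
      = ((Real.circleAverage (fun ζ => P z ζ) 0 1 : ℝ) : ℂ) := by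
    rw [Real.circleAverage_def, Real.circleAverage_def, intervalIntegral.integral_ofReal]
    simp
  rw [h4] at h2
  exact_mod_cast h2

lemma PI_const (c : ℝ) {z : ℂ} (hz : ‖z‖ < 1) : PI (fun _ => c) z = c := by
  unfold PI
  rw [integral_mul_const, integral_P hz, one_mul]

lemma PI_mono {g₁ g₂ : ℂ → ℝ} (h₁ : Integrable g₁ σ) (h₂ : Integrable g₂ σ)
    (h : ∀ᵐ ζ ∂σ, g₁ ζ ≤ g₂ ζ) {z : ℂ} (hz : ‖z‖ < 1) : PI g₁ z ≤ PI g₂ z := by
  unfold PI
  apply integral_mono_ae (integrable_P_mul hz h₁) (integrable_P_mul hz h₂)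
  filter_upwards [h, ae_norm] with ζ h hζ
  exact mul_le_mul_of_nonneg_left h (P_nonneg hz hζ)

lemma PI_nonneg {g : ℂ → ℝ} (h : ∀ᵐ ζ ∂σ, 0 ≤ g ζ) {z : ℂ} (hz : ‖z‖ < 1) : 0 ≤ PI g z := by
  unfold PI
  apply integral_nonneg_of_ae
  filter_upwards [h, ae_norm] with ζ h hζ
  exact mul_nonneg (P_nonneg hz hζ) h

lemma PI_add {g₁ g₂ : ℂ → ℝ} (h₁ : Integrable g₁ σ) (h₂ : Integrable g₂ σ) {z : ℂ}
    (hz : ‖z‖ < 1) : PI (fun ζ => g₁ ζ + g₂ ζ) z = PI g₁ z + PI g₂ z := by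
  unfold PI
  rw [← integral_add (integrable_P_mul hz h₁) (integrable_P_mul hz h₂)]
  congr 1; ext ζ; ring

lemma PI_sub {g₁ g₂ : ℂ → ℝ} (h₁ : Integrable g₁ σ) (h₂ : Integrable g₂ σ) {z : ℂ}
    (hz : ‖z‖ < 1) : PI (fun ζ => g₁ ζ - g₂ ζ) z = PI g₁ z - PI g₂ z := by
  unfold PI
  rw [← integral_sub (integrable_P_mul hz h₁) (integrable_P_mul hz h₂)]
  congr 1; ext ζ; ring

lemma PI_const_mul (c : ℝ) (g : ℂ → ℝ) (z : ℂ) :
    PI (fun ζ => c * g ζ) z = c * PI g z := by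
  unfold PI
  rw [← integral_const_mul]
  congr 1; ext ζ; ring

/-- Herglotz integral. -/
noncomputable def HI (g : ℂ → ℝ) (z : ℂ) : ℂ :=
  ∫ ζ, herglotzRieszKernel 0 z ζ * (g ζ : ℂ) ∂σ

lemma integrable_HK_mul {z : ℂ} (hz : ‖z‖ < 1) {g : ℂ → ℝ} (hg : Integrable g σ) :
    Integrable (fun ζ => herglotzRieszKernel 0 z ζ * (g ζ : ℂ)) σ := by
  apply hg.ofReal.bdd_mul (c := (1 + ‖z‖) / (1 - ‖z‖)) (aesm_of_continuousOn (continuousOn_HK hz))
  filter_upwards [ae_norm] with ζ hζ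
  exact norm_HK_le hz hζ

lemma HI_re {z : ℂ} (hz : ‖z‖ < 1) {g : ℂ → ℝ} (hg : Integrable g σ) :
    (HI g z).re = PI g z := by
  unfold HI PI
  have := integral_re (integrable_HK_mul hz hg)
  simp only [RCLike.re_eq_complex_re] at this
  rw [← this]
  congr 1; ext ζ
  rw [P_re]; simp

lemma norm_HI_le {z : ℂ} (hz : ‖z‖ < 1) {g : ℂ → ℝ} (hg : Integrable g σ) :
    ‖HI g z‖ ≤ (1 + ‖z‖) / (1 - ‖z‖) * ∫ ζ, |g ζ| ∂σ := by
  unfold HI
  rw [← integral_const_mul]
  apply norm_integral_le_of_norm_le (hg.norm.const_mul _)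
  filter_upwards [ae_norm] with ζ hζ
  rw [norm_mul, Complex.norm_real, Real.norm_eq_abs]
  gcongr
  exact norm_HK_le hz hζ

lemma differentiableOn_HI {g : ℂ → ℝ} (hg : Integrable g σ) :
    DifferentiableOn ℂ (HI g) (ball 0 1) := by
  have h1 : CircleIntegrable (fun ζ => (g ζ : ℂ)) 0 1 :=
    (integrable_σ_iff hg.ofReal.aestronglyMeasurable).1 hg.ofReal
  refine (differentiableOn_circleAverage_herglotzRieszKernel_smul h1).congr fun z hz => ?_
  unfold HI
  rw [integral_σ (integrable_HK_mul (by simpa using hz) hg).aestronglyMeasurable]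
  rfl

lemma continuousOn_PI {g : ℂ → ℝ} (hg : Integrable g σ) :
    ContinuousOn (PI g) (ball 0 1) := by
  have := Complex.continuous_re.comp_continuousOn (differentiableOn_HI hg).continuousOn
  refine this.congr fun z hz => ?_
  rw [Function.comp, HI_re (by simpa using hz) hg]

lemma HI_zero {g : ℂ → ℝ} : HI g 0 = ((∫ ζ, g ζ ∂σ : ℝ) : ℂ) := by
  unfold HI
  rw [← integral_complex_ofReal]
  apply integral_congr_ae
  filter_upwards [ae_norm] with ζ hζ
  have : ζ ≠ 0 := by rintro rfl; simp at hζ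
  rw [herglotzRieszKernel_def]
  simp [this]

lemma PI_zero {g : ℂ → ℝ} : PI g 0 = ∫ ζ, g ζ ∂σ := by
  unfold PI
  apply integral_congr_ae
  filter_upwards [ae_norm] with ζ hζ
  rw [P_eq]; simp [hζ]

end Pool.Agent.RegJ
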