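import Pool.Agent.RegJ.ScalarMain

open Filter Topology Complex MeasureTheory Set Metric
open scoped Real ENNReal NNReal

namespace Pool.Agent.RegJ

lemma continuousOn_posLog {h : ℂ → ℂ} {s : Set ℂ} (hh : ContinuousOn h s) :
    ContinuousOn (fun z => Real.posLog ‖h z‖) s :=
  Real.continuous_posLog.comp_continuousOn hh.norm

/-- `log⁺ |h|` has a Poisson majorant with `L¹` density. -/
def Maj (h : ℂ → ℂ) : Prop :=
  ∃ g : ℂ → ℝ, Integrable g σ ∧ (∀ ζ, 0 ≤ g ζ) ∧
    ∀ z ∈ ball (0 : ℂ) 1, Real.posLog ‖h z‖ ≤ PI g z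

lemma Maj.add {h k : ℂ → ℂ} (hh : Maj h) (hk : Maj k) : Maj (fun z => h z + k z) := by
  obtain ⟨g, hg, hg0, hgb⟩ := hh
  obtain ⟨g', hg', hg0', hgb'⟩ := hk
  refine ⟨fun ζ => (g ζ + g' ζ) + Real.log 2, (hg.add hg').add (integrable_const _),
    fun ζ => by have := hg0 ζ; have := hg0' ζ; have := Real.log_nonneg (one_le_two (α := ℝ));
                positivity, fun z hz => ?_⟩
  have hz' : ‖z‖ < 1 := by simpa using hz
  have hgg : Integrable (fun ζ => g ζ + g' ζ) σ := hg.add hg'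
  rw [PI_add hgg (integrable_const _) hz', PI_const _ hz', PI_add hg hg' hz']
  have h1 : Real.posLog ‖h z + k z‖ ≤ Real.log 2 + Real.posLog ‖h z‖ + Real.posLog ‖k z‖ :=
    (Real.posLog_le_posLog (norm_nonneg _) (norm_add_le _ _)).trans Real.posLog_add
  linarith [hgb z hz, hgb' z hz]

lemma Maj.mul {h k : ℂ → ℂ} (hh : Maj h) (hk : Maj k) : Maj (fun z => h z * k z) := by
  obtain ⟨g, hg, hg0, hgb⟩ := hh
  obtain ⟨g', hg', hg0', hgb'⟩ := hk
  refine ⟨fun ζ => g ζ + g' ζ, hg.add hg', fun ζ => add_nonneg (hg0 ζ) (hg0' ζ), fun z hz => ?_⟩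
  have hz' : ‖z‖ < 1 := by simpa using hz
  rw [PI_add hg hg' hz', norm_mul]
  exact Real.posLog_mul.trans (add_le_add (hgb z hz) (hgb' z hz))

lemma Maj.of_bound {h : ℂ → ℂ} {C : ℝ} (hb : ∀ z ∈ ball (0 : ℂ) 1, ‖h z‖ ≤ C) : Maj h := by
  refine ⟨fun _ => Real.posLog C, integrable_const _, fun _ => Real.posLog_nonneg, fun z hz => ?_⟩
  rw [PI_const _ (by simpa using hz)]
  exact Real.posLog_le_posLog (norm_nonneg _) (hb z hz)

lemma Maj.const (c : ℂ) : Maj (fun _ => c) := Maj.of_bound (C := ‖c‖) fun _ _ => le_rfl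

lemma Maj.neg {h : ℂ → ℂ} (hh : Maj h) : Maj (fun z => -h z) := by
  obtain ⟨g, hg, hg0, hgb⟩ := hh
  exact ⟨g, hg, hg0, fun z hz => by rw [norm_neg]; exact hgb z hz⟩

lemma Maj.sum {ι : Type*} (s : Finset ι) {h : ι → ℂ → ℂ} (hh : ∀ i ∈ s, Maj (h i)) :
    Maj (fun z => ∑ i ∈ s, h i z) := by
  classical
  induction s using Finset.induction_on with
  | empty => simpa using Maj.const 0
  | insert a s ha ih =>
    simp only [Finset.sum_insert ha]
    exact (hh a (Finset.mem_insert_self a s)).add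
      (ih fun i hi => hh i (Finset.mem_insert_of_mem hi))

lemma Maj.congr {h k : ℂ → ℂ} (hh : Maj h) (heq : ∀ z ∈ ball (0 : ℂ) 1, k z = h z) : Maj k := by
  obtain ⟨g, hg, hg0, hgb⟩ := hh
  exact ⟨g, hg, hg0, fun z hz => by rw [heq z hz]; exact hgb z hz⟩

lemma poissonIneq_posLog {h : ℂ → ℂ} (hd : DifferentiableOn ℂ h (ball 0 1)) {z : ℂ}
    (hz : ‖z‖ < 1) {r : ℝ} (hr0 : 0 < r) (hr : r < 1) :
    Real.posLog ‖h (r * z)‖ ≤ PI (fun ζ => Real.posLog ‖h (r * ζ)‖) z :=
  poisson_ineq_dilate (w := fun z => Real.posLog ‖h z‖) (continuousOn_posLog hd.continuousOn)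
    (fun _ hy => locSub_posLog (isOpen_ball.mem_nhds hy) isOpen_ball hd) hz hr0 hr

lemma tendsto_dilate {X : Type*} [TopologicalSpace X] {f : ℂ → X}
    (hf : ContinuousOn f (ball 0 1)) {z : ℂ} (hz : z ∈ ball (0 : ℂ) 1) :
    Tendsto (fun n => f (rad n * z)) atTop (𝓝 (f z)) := by
  have hc : ContinuousAt f z := hf.continuousAt (isOpen_ball.mem_nhds hz)
  have h4 : Tendsto (fun r : ℝ => (r : ℂ) * z) (𝓝[<] 1) (𝓝 z) := by
    have : Tendsto (fun r : ℝ => (r : ℂ) * z) (𝓝 1) (𝓝 ((1 : ℝ) * z)) := by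
      have hc : Continuous (fun r : ℝ => (r : ℂ) * z) := by fun_prop
      exact hc.tendsto 1
    rw [ofReal_one, one_mul] at this
    exact this.mono_left nhdsWithin_le_nhds
  exact (hc.tendsto.comp h4).comp tendsto_rad

/-- If `log⁺|h|` has an `L¹` Poisson majorant, it is bounded by the Poisson integral of (any
integrable majorant of) the boundary values of `log⁺|h|`. -/
theorem maj_bound {h : ℂ → ℂ} (hd : DifferentiableOn ℂ h (ball 0 1)) (hm : Maj h) {g₀ : ℂ → ℝ}
    (hg₀ : Integrable g₀ σ)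
    (hb : ∀ᵐ ζ ∂σ, ∃ L, HasBdryValue h ζ L ∧ Real.posLog ‖L‖ ≤ g₀ ζ) :
    ∀ z ∈ ball (0 : ℂ) 1, Real.posLog ‖h z‖ ≤ PI g₀ z := by
  obtain ⟨g, hg, hg0, hgb⟩ := hm
  intro z hz
  have hz' : ‖z‖ < 1 := by simpa using hz
  set C := (1 + ‖z‖) / (1 - ‖z‖) with hC
  have hC0 : 0 ≤ C := by
    have : 0 < 1 - ‖z‖ := by linarith
    positivity
  let un : ℕ → ℂ → ℝ := fun n ζ => Real.posLog ‖h (rad n * ζ)‖
  have hunc : ∀ n, ContinuousOn (un n) (sphere 0 1) := fun n =>
    continuousOn_posLog (continuousOn_dilate hd.continuousOn (rad_pos n).le (rad_lt n))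
  have huni : ∀ n, Integrable (un n) σ := fun n => integrable_of_continuousOn (hunc n)
  let φn : ℕ → ℂ → ℝ := fun n ζ => min (un n ζ) (g ζ)
  have hφni : ∀ n, Integrable (φn n) σ := fun n => (huni n).inf hg
  -- the limit
  let φ : ℂ → ℝ := fun ζ => limUnder atTop fun n => φn n ζ
  have hφ : ∀ᵐ ζ ∂σ, Tendsto (fun n => φn n ζ) atTop (𝓝 (φ ζ)) ∧ φ ζ ≤ g₀ ζ := by
    filter_upwards [hb] with ζ hζ
    obtain ⟨L, hL, hLg⟩ := hζ
    have h1 : Tendsto (fun n => un n ζ) atTop (𝓝 (Real.posLog ‖L‖)) :=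
      (Real.continuous_posLog.tendsto _).comp ((hL.comp tendsto_rad).norm)
    have h2 : Tendsto (fun n => φn n ζ) atTop (𝓝 (min (Real.posLog ‖L‖) (g ζ))) :=
      h1.min tendsto_const_nhds
    have h3 := tendsto_nhds_limUnder ⟨_, h2⟩
    refine ⟨h3, ?_⟩
    have h4 : φ ζ = min (Real.posLog ‖L‖) (g ζ) := tendsto_nhds_unique h3 h2
    rw [h4]
    exact (min_le_left _ _).trans hLg
  have hφm : AEStronglyMeasurable φ σ :=
    aestronglyMeasurable_of_tendsto_ae _ (fun n => (hφni n).aestronglyMeasurable)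
      (hφ.mono fun _ h => h.1)
  have hφn0 : ∀ n ζ, 0 ≤ φn n ζ := fun n ζ => le_min Real.posLog_nonneg (hg0 ζ)
  have hφ0 : ∀ᵐ ζ ∂σ, 0 ≤ φ ζ := hφ.mono fun ζ h =>
    ge_of_tendsto h.1 (Eventually.of_forall fun n => hφn0 n ζ)
  have hφg : ∀ᵐ ζ ∂σ, φ ζ ≤ g ζ := hφ.mono fun ζ h =>
    le_of_tendsto h.1 (Eventually.of_forall fun n => min_le_right _ _)
  have hφi : Integrable φ σ := by
    apply hg.mono' hφm
    filter_upwards [hφ0, hφg] with ζ h1 h2
    rwa [Real.norm_eq_abs, abs_of_nonneg h1]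
  have hA : Tendsto (fun n => PI (φn n) z) atTop (𝓝 (PI φ z)) := by
    unfold PI
    apply tendsto_integral_of_dominated_convergence (fun ζ => P z ζ * g ζ)
    · intro n; exact (integrable_P_mul hz' (hφni n)).aestronglyMeasurable
    · exact integrable_P_mul hz' hg
    · intro n
      filter_upwards [ae_norm] with ζ hζ
      rw [norm_mul, Real.norm_eq_abs, Real.norm_eq_abs, abs_of_nonneg (P_nonneg hz' hζ),
        abs_of_nonneg (hφn0 n ζ)]
      exact mul_le_mul_of_nonneg_left (min_le_right _ _) (P_nonneg hz' hζ)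
    · filter_upwards [hφ] with ζ h1
      exact h1.1.const_mul _
  have hB : Tendsto (fun n => C * ∫ ζ, |PI g (rad n * ζ) - g ζ| ∂σ) atTop (𝓝 0) := by
    have := ((PI_tendsto_L1 hg).comp tendsto_rad).const_mul C
    rw [mul_zero] at this
    exact this
  have hbound : ∀ n, Real.posLog ‖h (rad n * z)‖ ≤
      PI (φn n) z + C * ∫ ζ, |PI g (rad n * ζ) - g ζ| ∂σ := by
    intro n
    refine (poissonIneq_posLog hd hz' (rad_pos n) (rad_lt n)).trans ?_
    have hdi : Integrable (fun ζ => |PI g (rad n * ζ) - g ζ|) σ :=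
      ((integrable_PI_dilate hg (rad_pos n).le (rad_lt n)).sub hg).norm
    have hsum : ∫ ζ, (P z ζ * φn n ζ + C * |PI g (rad n * ζ) - g ζ|) ∂σ
        = PI (φn n) z + ∫ ζ, C * |PI g (rad n * ζ) - g ζ| ∂σ :=
      integral_add (integrable_P_mul hz' (hφni n)) (hdi.const_mul C)
    rw [← integral_const_mul, ← hsum]
    apply integral_mono_ae (integrable_P_mul hz' (huni n))
      ((integrable_P_mul hz' (hφni n)).add (hdi.const_mul C))
    filter_upwards [ae_norm] with ζ hζ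
    have hP0 := P_nonneg hz' hζ
    have hPC := P_le hz' hζ
    have hle : un n ζ ≤ PI g (rad n * ζ) :=
      hgb _ (by simpa using norm_dilate (rad_pos n).le (rad_lt n) hζ)
    have h1 : un n ζ ≤ φn n ζ + |PI g (rad n * ζ) - g ζ| := by
      simp only [φn]
      rcases le_total (un n ζ) (g ζ) with h2 | h2
      · rw [min_eq_left h2]; linarith [abs_nonneg (PI g (rad n * ζ) - g ζ)]
      · rw [min_eq_right h2]; linarith [le_abs_self (PI g (rad n * ζ) - g ζ)]
    simp only [Pi.add_apply]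
    calc P z ζ * un n ζ ≤ P z ζ * (φn n ζ + |PI g (rad n * ζ) - g ζ|) := by gcongr
      _ = P z ζ * φn n ζ + P z ζ * |PI g (rad n * ζ) - g ζ| := by ring
      _ ≤ P z ζ * φn n ζ + C * |PI g (rad n * ζ) - g ζ| := by gcongr
  have hlim := tendsto_dilate (continuousOn_posLog hd.continuousOn) hz
  have h1 : Real.posLog ‖h z‖ ≤ PI φ z + 0 :=
    le_of_tendsto_of_tendsto hlim (hA.add hB) (Eventually.of_forall hbound)
  rw [add_zero] at h1
  exact h1.trans (PI_mono hφi hg₀ (hφ.mono fun _ h => h.2) hz')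

/-- A function with an `L¹` Poisson majorant and bounded boundary values is bounded. -/
theorem maj_bounded {h : ℂ → ℂ} (hd : DifferentiableOn ℂ h (ball 0 1)) (hm : Maj h)
    (hb : ∀ᵐ ζ ∂σ, ∃ L, HasBdryValue h ζ L ∧ ‖L‖ ≤ 1) :
    ∀ z ∈ ball (0 : ℂ) 1, ‖h z‖ ≤ 1 := by
  intro z hz
  have h1 := maj_bound hd hm (g₀ := fun _ => 0) (integrable_const _) (by
    filter_upwards [hb] with ζ hζ
    obtain ⟨L, hL, hL1⟩ := hζ
    refine ⟨L, hL, le_of_eq ?_⟩
    rw [Real.posLog_eq_zero_iff, abs_norm]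
    exact hL1) z hz
  rw [PI_const _ (by simpa using hz)] at h1
  have h2 := le_antisymm h1 Real.posLog_nonneg
  rwa [Real.posLog_eq_zero_iff, abs_norm] at h2

/-- Smirnov functions have `L¹` Poisson majorants. -/
theorem Smirnov.maj {h : ℂ → ℂ} (hs : Smirnov h) : Maj h := by
  obtain ⟨hd, -, hb, hbv, hsup, hfin⟩ := hs
  let un : ℕ → ℂ → ℝ := fun n ζ => Real.posLog ‖h (rad n * ζ)‖
  have hunc : ∀ n, ContinuousOn (un n) (sphere 0 1) := fun n =>
    continuousOn_posLog (continuousOn_dilate hd.continuousOn (rad_pos n).le (rad_lt n))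
  have huni : ∀ n, Integrable (un n) σ := fun n => integrable_of_continuousOn (hunc n)
  let u : ℂ → ℝ := fun ζ => Real.posLog ‖hb ζ‖
  have hlim : ∀ᵐ ζ ∂σ, Tendsto (fun n => un n ζ) atTop (𝓝 (u ζ)) := by
    filter_upwards [hbv] with ζ hζ
    exact (Real.continuous_posLog.tendsto _).comp ((hζ.comp tendsto_rad).norm)
  have hum : AEStronglyMeasurable u σ :=
    aestronglyMeasurable_of_tendsto_ae _ (fun n => (huni n).aestronglyMeasurable) hlim
  have hu0 : ∀ ζ, 0 ≤ u ζ := fun ζ => Real.posLog_nonneg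
  have hui : Integrable u σ := by
    refine ⟨hum, ?_⟩
    rw [hasFiniteIntegral_iff_norm]
    refine lt_of_le_of_lt (le_of_eq ?_) hfin
    apply lintegral_congr
    intro ζ
    rw [Real.norm_eq_abs, abs_of_nonneg (hu0 ζ)]
  have hle : ∀ n, ∫ ζ, un n ζ ∂σ ≤ ∫ ζ, u ζ ∂σ := by
    intro n
    have h1 : ∫⁻ ζ, ENNReal.ofReal (un n ζ) ∂σ ≤ ∫⁻ ζ, ENNReal.ofReal (u ζ) ∂σ := by
      rw [← hsup]
      refine le_iSup₂_of_le (rad n) ⟨(rad_pos n).le, rad_lt n⟩ le_rfl
    rw [← ofReal_integral_eq_lintegral_ofReal (huni n) (Eventually.of_forall fun _ =>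
      Real.posLog_nonneg), ← ofReal_integral_eq_lintegral_ofReal hui (Eventually.of_forall hu0)] at h1
    exact (ENNReal.ofReal_le_ofReal_iff (integral_nonneg hu0)).1 h1
  refine ⟨u, hui, hu0, fun z hz => ?_⟩
  have hz' : ‖z‖ < 1 := by simpa using hz
  set C := (1 + ‖z‖) / (1 - ‖z‖) with hC
  have hC0 : 0 ≤ C := by
    have : 0 < 1 - ‖z‖ := by linarith
    positivity
  -- `∫ (u - un)^+ → 0`
  have hplus : Tendsto (fun n => ∫ ζ, max (u ζ - un n ζ) 0 ∂σ) atTop (𝓝 0) := by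
    have h1 : Tendsto (fun n => ∫ ζ, max (u ζ - un n ζ) 0 ∂σ) atTop
        (𝓝 (∫ _ζ : ℂ, (0 : ℝ) ∂σ)) := by
      apply tendsto_integral_of_dominated_convergence u
      · intro n
        exact ((hui.sub (huni n)).sup (integrable_const (0 : ℝ))).aestronglyMeasurable
      · exact hui
      · intro n
        refine Eventually.of_forall fun ζ => ?_
        rw [Real.norm_eq_abs, abs_of_nonneg (le_max_right _ _)]
        exact max_le (by linarith [Real.posLog_nonneg (x := ‖h (rad n * ζ)‖)]) (hu0 ζ)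
      · filter_upwards [hlim] with ζ hζ
        have := (hζ.const_sub (u ζ)).max (tendsto_const_nhds (x := (0 : ℝ)))
        simpa using this
    rwa [integral_zero] at h1
  have hbound : ∀ n, Real.posLog ‖h (rad n * z)‖ ≤
      PI u z + C * (2 * ∫ ζ, max (u ζ - un n ζ) 0 ∂σ) := by
    intro n
    refine (poissonIneq_posLog hd hz' (rad_pos n) (rad_lt n)).trans ?_
    have hdi : Integrable (fun ζ => |un n ζ - u ζ|) σ := ((huni n).sub hui).norm
    have hmi : Integrable (fun ζ => max (u ζ - un n ζ) 0) σ :=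
      (hui.sub (huni n)).sup (integrable_const (0 : ℝ))
    have h1 : PI (un n) z ≤ PI u z + C * ∫ ζ, |un n ζ - u ζ| ∂σ := by
      rw [← integral_const_mul]
      unfold PI
      rw [← integral_add (integrable_P_mul hz' hui) (hdi.const_mul C)]
      apply integral_mono_ae (integrable_P_mul hz' (huni n))
        ((integrable_P_mul hz' hui).add (hdi.const_mul C))
      filter_upwards [ae_norm] with ζ hζ
      have hP0 := P_nonneg hz' hζ
      have hPC := P_le hz' hζ
      simp only [Pi.add_apply]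
      calc P z ζ * un n ζ ≤ P z ζ * (u ζ + |un n ζ - u ζ|) := by
            gcongr
            linarith [le_abs_self (un n ζ - u ζ)]
        _ = P z ζ * u ζ + P z ζ * |un n ζ - u ζ| := by ring
        _ ≤ P z ζ * u ζ + C * |un n ζ - u ζ| := by gcongr
    refine h1.trans ?_
    have h2 : ∫ ζ, |un n ζ - u ζ| ∂σ ≤ 2 * ∫ ζ, max (u ζ - un n ζ) 0 ∂σ := by
      have h3 : ∫ ζ, |un n ζ - u ζ| ∂σ
          = (∫ ζ, un n ζ ∂σ) - (∫ ζ, u ζ ∂σ) + 2 * ∫ ζ, max (u ζ - un n ζ) 0 ∂σ := by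
        have hsub : Integrable (fun a => un n a - u a) σ := (huni n).sub hui
        rw [← integral_const_mul, ← integral_sub (huni n) hui,
          ← integral_add hsub (hmi.const_mul 2)]
        congr 1; ext ζ
        rcases le_total (un n ζ) (u ζ) with h4 | h4
        · rw [max_eq_left (by linarith), abs_of_nonpos (by linarith)]; ring
        · rw [max_eq_right (by linarith), abs_of_nonneg (by linarith)]; ring
      rw [h3]
      linarith [hle n]
    gcongr
  have hlim2 := tendsto_dilate (continuousOn_posLog hd.continuousOn) hz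
  have hR : Tendsto (fun n => PI u z + C * (2 * ∫ ζ, max (u ζ - un n ζ) 0 ∂σ)) atTop
      (𝓝 (PI u z + C * (2 * 0))) := (((hplus.const_mul 2).const_mul C).const_add _)
  rw [mul_zero, mul_zero, add_zero] at hR
  exact le_of_tendsto_of_tendsto hlim2 hR (Eventually.of_forall hbound)

lemma P_ge {z ζ : ℂ} (hz : ‖z‖ < 1) (hζ : ‖ζ‖ = 1) : (1 - ‖z‖) / (1 + ‖z‖) ≤ P z ζ := by
  have := le_re_herglotzRieszKernel (c := 0) (z := ζ) (w := z) (R := 1) (by simpa using hζ)
    (by simpa using hz)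
  rw [P_re, herglotzRieszKernel_def]
  simpa using this

/-- Logarithmic integrability of the boundary values of a bounded holomorphic function. -/
theorem log_integrable {h : ℂ → ℂ} (hd : DifferentiableOn ℂ h (ball 0 1))
    (hb : ∀ z ∈ ball (0 : ℂ) 1, ‖h z‖ ≤ 1) (hne : ∃ z ∈ ball (0 : ℂ) 1, h z ≠ 0) :
    ∃ g : ℂ → ℝ, Measurable g ∧ Integrable g σ ∧ (∀ ζ, 0 ≤ g ζ) ∧
      ∀ᵐ ζ ∂σ, ∃ L, HasBdryValue h ζ L ∧ L ≠ 0 ∧ -Real.log ‖L‖ ≤ g ζ := by
  obtain ⟨z₀, hz₀, hne⟩ := hne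
  have hz₀' : ‖z₀‖ < 1 := by simpa using hz₀
  have hfat := fatou hd hb
  set c := (1 - ‖z₀‖) / (1 + ‖z₀‖) with hc
  have hc0 : 0 < c := by
    have : 0 < 1 - ‖z₀‖ := by linarith
    positivity
  -- truncated functions
  let un : ℕ → ℕ → ℂ → ℝ := fun M n ζ => M - Real.posLog ‖exp M * h (rad n * ζ)‖
  have hun0 : ∀ M n ζ, ‖ζ‖ = 1 → 0 ≤ un M n ζ := by
    intro M n ζ hζ
    have h1 : ‖exp M * h (rad n * ζ)‖ ≤ Real.exp M := by
      rw [norm_mul, Complex.norm_exp, Complex.natCast_re]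
      have := hb _ (by simpa using norm_dilate (rad_pos n).le (rad_lt n) hζ :
        (rad n : ℂ) * ζ ∈ ball (0 : ℂ) 1)
      calc Real.exp M * ‖h (rad n * ζ)‖ ≤ Real.exp M * 1 := by gcongr
        _ = Real.exp M := mul_one _
    have h2 := Real.posLog_le_posLog (norm_nonneg _) h1
    have h3 : Real.posLog (Real.exp M) = M := by
      rw [Real.posLog_def]
      simp
    rw [h3] at h2
    simp only [un]
    linarith
  have hunc : ∀ M n, ContinuousOn (un M n) (sphere 0 1) := fun M n =>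
    continuousOn_const.sub (continuousOn_posLog (continuousOn_const.mul
      (continuousOn_dilate hd.continuousOn (rad_pos n).le (rad_lt n))))
  have huni : ∀ M n, Integrable (un M n) σ := fun M n => integrable_of_continuousOn (hunc M n)
  -- Jensen-type bound
  have hjen : ∀ M n, h (rad n * z₀) ≠ 0 →
      c * ∫ ζ, un M n ζ ∂σ ≤ -Real.log ‖h (rad n * z₀)‖ := by
    intro M n hn
    have hd' : DifferentiableOn ℂ (fun z => exp M * h z) (ball 0 1) := hd.const_mul _
    have h1 := poissonIneq_posLog hd' hz₀' (rad_pos n) (rad_lt n)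
    have hi : Integrable (fun ζ : ℂ => Real.posLog ‖exp M * h (rad n * ζ)‖) σ := by
      apply integrable_of_continuousOn
      exact continuousOn_posLog (continuousOn_const.mul
        (continuousOn_dilate hd.continuousOn (rad_pos n).le (rad_lt n)))
    have h2 : PI (un M n) z₀ = M - PI (fun ζ => Real.posLog ‖exp M * h (rad n * ζ)‖) z₀ := by
      have := PI_sub (integrable_const (M : ℝ)) hi hz₀'
      rw [PI_const _ hz₀'] at this
      exact this
    have h3 : M + Real.log ‖h (rad n * z₀)‖ ≤ Real.posLog ‖exp M * h (rad n * z₀)‖ := by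
      have : Real.log ‖exp M * h (rad n * z₀)‖ = M + Real.log ‖h (rad n * z₀)‖ := by
        rw [norm_mul, Complex.norm_exp, Complex.natCast_re,
          Real.log_mul (Real.exp_pos _).ne' (norm_ne_zero_iff.2 hn), Real.log_exp]
      rw [← this, Real.posLog_def]
      exact le_max_right _ _
    have h4 : c * ∫ ζ, un M n ζ ∂σ ≤ PI (un M n) z₀ := by
      rw [← integral_const_mul]
      unfold PI
      apply integral_mono_ae ((huni M n).const_mul c) (integrable_P_mul hz₀' (huni M n))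
      filter_upwards [ae_norm] with ζ hζ
      exact mul_le_mul_of_nonneg_right (P_ge hz₀' hζ) (hun0 M n ζ hζ)
    linarith
  -- limit functions
  let H : ℂ → ℂ := fun ζ => limUnder atTop fun n => h (rad n * ζ)
  have hH : ∀ᵐ ζ ∂σ, HasBdryValue h ζ (H ζ) := by
    filter_upwards [hfat] with ζ hζ
    obtain ⟨L, hL⟩ := hζ
    have h1 := hL.comp tendsto_rad
    have h2 : H ζ = L := tendsto_nhds_unique (tendsto_nhds_limUnder ⟨L, h1⟩) h1
    rw [h2]; exact hL
  have hHm : AEStronglyMeasurable H σ := by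
    apply aestronglyMeasurable_of_tendsto_ae atTop (f := fun n (ζ : ℂ) => h (rad n * ζ))
    · intro n
      exact aesm_of_continuousOn (continuousOn_dilate hd.continuousOn (rad_pos n).le (rad_lt n))
    · filter_upwards [hH] with ζ hζ
      exact hζ.comp tendsto_rad
  let vM : ℕ → ℂ → ℝ := fun M ζ => M - Real.posLog ‖exp M * H ζ‖
  have hvlim : ∀ M, ∀ᵐ ζ ∂σ, Tendsto (fun n => un M n ζ) atTop (𝓝 (vM M ζ)) := by
    intro M
    filter_upwards [hH] with ζ hζ
    exact ((Real.continuous_posLog.tendsto _).comp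
      (((hζ.comp tendsto_rad).const_mul (exp M)).norm)).const_sub _
  have hvint : ∀ M, Tendsto (fun n => ∫ ζ, un M n ζ ∂σ) atTop (𝓝 (∫ ζ, vM M ζ ∂σ)) := by
    intro M
    apply tendsto_integral_of_dominated_convergence (fun _ => (M : ℝ))
    · exact fun n => (huni M n).aestronglyMeasurable
    · exact integrable_const _
    · intro n
      filter_upwards [ae_norm] with ζ hζ
      rw [Real.norm_eq_abs, abs_of_nonneg (hun0 M n ζ hζ)]
      simp only [un]
      linarith [Real.posLog_nonneg (x := ‖exp M * h (rad n * ζ)‖)]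
    · exact hvlim M
  set C' := (-Real.log ‖h z₀‖) / c with hC'
  have hvle : ∀ M, ∫ ζ, vM M ζ ∂σ ≤ C' := by
    intro M
    have hlim := tendsto_dilate hd.continuousOn hz₀
    have h1 : Tendsto (fun n => -Real.log ‖h (rad n * z₀)‖) atTop (𝓝 (-Real.log ‖h z₀‖)) :=
      ((Real.continuousAt_log (norm_ne_zero_iff.2 hne)).tendsto.comp hlim.norm).neg
    have h2 : c * ∫ ζ, vM M ζ ∂σ ≤ -Real.log ‖h z₀‖ := by
      apply le_of_tendsto_of_tendsto ((hvint M).const_mul c) h1
      filter_upwards [hlim.eventually_ne hne] with n hn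
      exact hjen M n hn
    rw [hC', le_div_iff₀ hc0]
    linarith
  have hv0 : ∀ᵐ ζ ∂σ, ∀ M, 0 ≤ vM M ζ := by
    rw [ae_all_iff]
    intro M
    filter_upwards [hvlim M, ae_norm] with ζ h1 h2
    exact ge_of_tendsto h1 (Eventually.of_forall fun n => hun0 M n ζ h2)
  have hvm : ∀ M, AEStronglyMeasurable (vM M) σ := fun M =>
    aestronglyMeasurable_of_tendsto_ae _ (fun n => (huni M n).aestronglyMeasurable) (hvlim M)
  have hvi : ∀ M, Integrable (vM M) σ := by
    intro M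
    apply (integrable_const (M : ℝ)).mono' (hvm M)
    filter_upwards [hv0] with ζ hζ
    rw [Real.norm_eq_abs, abs_of_nonneg (hζ M)]
    simp only [vM]
    linarith [Real.posLog_nonneg (x := ‖exp M * H ζ‖)]
  -- `H ≠ 0` a.e.
  have hvval : ∀ ζ, H ζ = 0 → ∀ M : ℕ, vM M ζ = M := by
    intro ζ hζ M
    simp [vM, hζ]
  have hvval2 : ∀ ζ, H ζ ≠ 0 → ∀ M : ℕ, -Real.log ‖H ζ‖ ≤ M → -Real.log ‖H ζ‖ = vM M ζ := by
    intro ζ hζ M hM
    have h1 : Real.log ‖exp M * H ζ‖ = M + Real.log ‖H ζ‖ := by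
      rw [norm_mul, Complex.norm_exp, Complex.natCast_re,
        Real.log_mul (Real.exp_pos _).ne' (norm_ne_zero_iff.2 hζ), Real.log_exp]
    simp only [vM]
    rw [Real.posLog_apply, h1, max_eq_right (by linarith)]
    ring
  -- monotone sequence and integrability of the supremum
  have hlint : ∀ M, ∫⁻ ζ, ENNReal.ofReal (vM M ζ) ∂σ ≤ ENNReal.ofReal C' := by
    intro M
    rw [← ofReal_integral_eq_lintegral_ofReal (hvi M) (hv0.mono fun ζ h => h M)]
    exact ENNReal.ofReal_le_ofReal (hvle M)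
  have hliminf : ∫⁻ ζ, liminf (fun M => ENNReal.ofReal (vM M ζ)) atTop ∂σ ≤ ENNReal.ofReal C' := by
    refine (lintegral_liminf_le' (fun M => (hvm M).aemeasurable.ennreal_ofReal)).trans ?_
    refine (liminf_le_limsup).trans ?_
    exact limsup_le_of_le (h := Eventually.of_forall hlint)
  have hmeasl : AEMeasurable (fun ζ => liminf (fun M => ENNReal.ofReal (vM M ζ)) atTop) σ := by
    simp only [Filter.liminf_eq_iSup_iInf_of_nat]
    exact AEMeasurable.iSup fun n => AEMeasurable.biInf _ (to_countable _) fun i _ =>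
      (hvm i).aemeasurable.ennreal_ofReal
  have hlt := ae_lt_top' hmeasl (ne_top_of_le_ne_top ENNReal.ofReal_ne_top hliminf)
  have hHne : ∀ᵐ ζ ∂σ, H ζ ≠ 0 := by
    filter_upwards [hlt] with ζ hζ h0
    simp only [hvval ζ h0] at hζ
    have : Tendsto (fun M : ℕ => ENNReal.ofReal (M : ℝ)) atTop (𝓝 ∞) := by
      simp only [ENNReal.ofReal_natCast]
      exact ENNReal.tendsto_nat_nhds_top
    rw [this.liminf_eq] at hζ
    exact absurd hζ (lt_irrefl _)
  -- the function `-log |H|`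
  have hval : ∀ᵐ ζ ∂σ, liminf (fun M => ENNReal.ofReal (vM M ζ)) atTop
      = ENNReal.ofReal (-Real.log ‖H ζ‖) := by
    filter_upwards [hHne] with ζ hζ
    apply Tendsto.liminf_eq
    apply tendsto_const_nhds.congr'
    have h1 : ∀ᶠ M : ℕ in atTop, -Real.log ‖H ζ‖ ≤ M :=
      tendsto_natCast_atTop_atTop.eventually (eventually_ge_atTop _)
    filter_upwards [h1] with M hM
    rw [hvval2 ζ hζ M hM]
  have hH1 : ∀ᵐ ζ ∂σ, ‖H ζ‖ ≤ 1 := by
    filter_upwards [hH, ae_norm] with ζ h1 h2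
    apply le_of_tendsto h1.norm
    filter_upwards [eventually_r] with r hr
    exact hb _ (by simpa using norm_dilate hr.1 hr.2 h2)
  have hlogm : AEStronglyMeasurable (fun ζ => -Real.log ‖H ζ‖) σ :=
    (Real.measurable_log.comp_aemeasurable hHm.norm.aemeasurable).neg.aestronglyMeasurable
  have hlog0 : ∀ᵐ ζ ∂σ, 0 ≤ -Real.log ‖H ζ‖ := by
    filter_upwards [hH1] with ζ hζ
    have := Real.log_nonpos (norm_nonneg _) hζ
    linarith
  have hlogi : Integrable (fun ζ => -Real.log ‖H ζ‖) σ := by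
    refine ⟨hlogm, ?_⟩
    rw [hasFiniteIntegral_iff_norm]
    have h1 : ∫⁻ ζ, ENNReal.ofReal ‖-Real.log ‖H ζ‖‖ ∂σ
        = ∫⁻ ζ, liminf (fun M => ENNReal.ofReal (vM M ζ)) atTop ∂σ := by
      apply lintegral_congr_ae
      filter_upwards [hval, hlog0] with ζ h1 h2
      rw [h1, Real.norm_eq_abs, abs_of_nonneg h2]
    rw [h1]
    exact hliminf.trans_lt ENNReal.ofReal_lt_top
  refine ⟨fun ζ => max (hlogm.mk _ ζ) 0, ?_, ?_, fun ζ => le_max_right _ _, ?_⟩
  · exact (hlogm.stronglyMeasurable_mk.measurable).max measurable_const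
  · exact (hlogi.congr hlogm.ae_eq_mk).sup (integrable_const (0 : ℝ))
  · filter_upwards [hH, hHne, hlogm.ae_eq_mk] with ζ h1 h2 h3
    refine ⟨H ζ, h1, h2, ?_⟩
    rw [h3]
    exact le_max_left _ _

/-- Poisson representation of bounded holomorphic functions. -/
theorem poisson_repr {h : ℂ → ℂ} (hd : DifferentiableOn ℂ h (ball 0 1)) {C : ℝ}
    (hb : ∀ z ∈ ball (0 : ℂ) 1, ‖h z‖ ≤ C) {H : ℂ → ℂ} (hH : ∀ᵐ ζ ∂σ, HasBdryValue h ζ (H ζ))
    {z : ℂ} (hz : z ∈ ball (0 : ℂ) 1) : h z = ∫ ζ, (P z ζ : ℂ) * H ζ ∂σ := by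
  have hz' : ‖z‖ < 1 := by simpa using hz
  have h1 : ∀ n, ∫ ζ, (P z ζ : ℂ) * h (rad n * ζ) ∂σ = h (rad n * z) := by
    intro n
    have hmaps : ∀ ζ : ℂ, ‖ζ‖ ≤ 1 → (rad n : ℂ) * ζ ∈ ball (0 : ℂ) 1 := by
      intro ζ hζ
      rw [mem_ball_zero_iff, norm_mul, Complex.norm_real, Real.norm_eq_abs,
        abs_of_nonneg (rad_pos n).le]
      nlinarith [norm_nonneg ζ, rad_pos n, rad_lt n]
    have hdd : DifferentiableOn ℂ (fun ζ : ℂ => h (rad n * ζ)) (closedBall 0 1) := by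
      refine hd.comp (by fun_prop) ?_
      intro ζ hζ
      exact hmaps ζ (by simpa using hζ)
    have h1 : DiffContOnCl ℂ (fun ζ : ℂ => h (rad n * ζ)) (ball 0 1) := by
      apply DifferentiableOn.diffContOnCl
      rw [closure_ball _ one_ne_zero]
      exact hdd
    have h2 := h1.circleAverage_poissonKernel_smul hz
    rw [integral_σ]
    · rw [← h2]; congr 1
    · apply aesm_of_continuousOn
      exact (Complex.continuous_ofReal.comp_continuousOn (continuousOn_P hz')).mul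
        (hdd.continuousOn.mono sphere_subset_closedBall)
  have h2 : Tendsto (fun n => ∫ ζ, (P z ζ : ℂ) * h (rad n * ζ) ∂σ) atTop
      (𝓝 (∫ ζ, (P z ζ : ℂ) * H ζ ∂σ)) := by
    apply tendsto_integral_of_dominated_convergence (fun _ => (1 + ‖z‖) / (1 - ‖z‖) * C)
    · intro n
      apply aesm_of_continuousOn
      exact (Complex.continuous_ofReal.comp_continuousOn (continuousOn_P hz')).mul
        (continuousOn_dilate hd.continuousOn (rad_pos n).le (rad_lt n))
    · exact integrable_const _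
    · intro n
      filter_upwards [ae_norm] with ζ hζ
      rw [norm_mul, Complex.norm_real, Real.norm_eq_abs, abs_of_nonneg (P_nonneg hz' hζ)]
      have := P_le hz' hζ
      exact mul_le_mul this (hb _ (by simpa using norm_dilate (rad_pos n).le (rad_lt n) hζ))
        (norm_nonneg _) ((P_nonneg hz' hζ).trans this)
    · filter_upwards [hH] with ζ hζ
      exact (hζ.comp tendsto_rad).const_mul _
  have h3 := tendsto_dilate hd.continuousOn hz
  simp only [h1] at h2
  exact tendsto_nhds_unique h3 h2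

/-- Two bounded holomorphic functions with conjugate boundary values are constant. -/
theorem const_of_conj {h k : ℂ → ℂ} (hd : DifferentiableOn ℂ h (ball 0 1))
    (kd : DifferentiableOn ℂ k (ball 0 1)) {C : ℝ} (hb : ∀ z ∈ ball (0 : ℂ) 1, ‖h z‖ ≤ C)
    (kb : ∀ z ∈ ball (0 : ℂ) 1, ‖k z‖ ≤ C)
    (hbd : ∀ᵐ ζ ∂σ, ∃ L, HasBdryValue h ζ L ∧ HasBdryValue k ζ ((starRingEnd ℂ) L)) :
    ∃ c, ∀ z ∈ ball (0 : ℂ) 1, h z = c := by
  let H : ℂ → ℂ := fun ζ => limUnder atTop fun n => h (rad n * ζ)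
  have hH : ∀ᵐ ζ ∂σ, HasBdryValue h ζ (H ζ) ∧ HasBdryValue k ζ ((starRingEnd ℂ) (H ζ)) := by
    filter_upwards [hbd] with ζ hζ
    obtain ⟨L, hL, hL'⟩ := hζ
    have h1 := hL.comp tendsto_rad
    have h2 : H ζ = L := tendsto_nhds_unique (tendsto_nhds_limUnder ⟨L, h1⟩) h1
    rw [h2]; exact ⟨hL, hL'⟩
  have hconj : ∀ z ∈ ball (0 : ℂ) 1, k z = (starRingEnd ℂ) (h z) := by
    intro z hz
    rw [poisson_repr kd kb (hH.mono fun _ h => h.2) hz,
      poisson_repr hd hb (hH.mono fun _ h => h.1) hz, ← integral_conj]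
    congr 1; ext ζ
    simp
  have hana : ∀ {f : ℂ → ℂ}, DifferentiableOn ℂ f (ball 0 1) → AnalyticOnNhd ℂ f (ball 0 1) :=
    fun hf => hf.analyticOnNhd isOpen_ball
  have hconn : IsConnected (ball (0 : ℂ) 1) :=
    ⟨⟨0, by simp⟩, (convex_ball _ _).isPreconnected⟩
  obtain ⟨c₁, hc₁⟩ := AnalyticOnNhd.eq_const_of_im_eq_const (c₀ := 0) (hana (hd.add kd))
    (fun z hz => by simp [hconj z hz]) isOpen_ball hconn
  obtain ⟨c₂, hc₂⟩ := AnalyticOnNhd.eq_const_of_re_eq_const (c₀ := 0) (hana (hd.sub kd))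
    (fun z hz => by simp [hconj z hz]) isOpen_ball hconn
  refine ⟨(c₁ + c₂) / 2, fun z hz => ?_⟩
  have e1 : h z + k z = c₁ := hc₁ z hz
  have e2 : h z - k z = c₂ := hc₂ z hz
  rw [← e1, ← e2]; ring

end Pool.Agent.RegJ
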